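import Pool.Agent.Lib.MP_bb703b_an.Exist

set_option autoImplicit false

open Real Set

/-!
Row EX0b: existence of a periodic solution between a super- and a subsolution.
-/

namespace Pool.Agent.AbelLT

variable {p q : ℕ} {A B α β : ℝ → ℝ}

/-- the reverse situation: `β < α` on `[0,2π]`.  Time reversal: `ᾱ t = α (2π - t)` is a strict
super for `(-A(-t), -B(-t))` (`ᾱ 0 = α 2π`, `ᾱ 2π = α 0`) and `β̄` a strict sub; apply
`exist_sub_super` and reverse back (`PosPer.rev`, `v 0 = v̄ 0`). -/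
theorem exist_super_sub (hA : Continuous A) (hB : Continuous B)
    (perA : ∀ t, A (t + 2 * π) = A t) (perB : ∀ t, B (t + 2 * π) = B t)
    (hα : StrictSub p q A B α) (hβ : StrictSuper p q A B β)
    (hpos : ∀ t ∈ Icc 0 (2 * π), 0 < β t) (hαβ : ∀ t ∈ Icc 0 (2 * π), β t < α t) :
    ∃ v, PosPer p q A B v ∧ β 0 < v 0 ∧ v 0 < α 0 := by
  obtain ⟨⟨α', hα'⟩, hα0⟩ := hα
  obtain ⟨⟨β', hβ'⟩, hβ0⟩ := hβ
  have hmem : ∀ t ∈ Icc 0 (2 * π), 2 * π - t ∈ Icc 0 (2 * π) := fun t ht =>
    ⟨by linarith [ht.2], by linarith [ht.1]⟩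
  have eA : ∀ t, A (2 * π - t) = A (-t) := fun t => by
    rw [← perA (-t)]; congr 1; ring
  have eB : ∀ t, B (2 * π - t) = B (-t) := fun t => by
    rw [← perB (-t)]; congr 1; ring
  have hsuper : StrictSuper p q (fun t => -A (-t)) (fun t => -B (-t)) (fun t => α (2 * π - t)) := by
    refine ⟨⟨fun t => -α' (2 * π - t), fun t ht => ⟨?_, ?_⟩⟩, by simpa using hα0⟩
    · have := (hα' _ (hmem t ht)).1.comp t ((hasDerivAt_id t).const_sub (2 * π))
      exact this.congr_deriv (by ring)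
    · have := (hα' _ (hmem t ht)).2
      rw [eA, eB] at this
      linarith
  have hsub : StrictSub p q (fun t => -A (-t)) (fun t => -B (-t)) (fun t => β (2 * π - t)) := by
    refine ⟨⟨fun t => -β' (2 * π - t), fun t ht => ⟨?_, ?_⟩⟩, by simpa using hβ0⟩
    · have := (hβ' _ (hmem t ht)).1.comp t ((hasDerivAt_id t).const_sub (2 * π))
      exact this.congr_deriv (by ring)
    · have := (hβ' _ (hmem t ht)).2
      rw [eA, eB] at this
      linarith
  have hperA : ∀ t, -A (-(t + 2 * π)) = -A (-t) := fun t => by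
    rw [← perA (-(t + 2 * π))]; congr 2; ring
  have hperB : ∀ t, -B (-(t + 2 * π)) = -B (-t) := fun t => by
    rw [← perB (-(t + 2 * π))]; congr 2; ring
  obtain ⟨v, hv, h1, h2⟩ := exist_sub_super (A := fun t => -A (-t)) (B := fun t => -B (-t))
    (by fun_prop) (by fun_prop) hperA hperB hsub hsuper (fun t ht => hpos _ (hmem t ht))
    (fun t ht => hαβ _ (hmem t ht))
  have hr := hv.rev
  simp only [neg_neg] at hr
  simp only [sub_self] at h1 h2
  exact ⟨_, hr, by simpa using h1, by simpa using h2⟩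

end Pool.Agent.AbelLT
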