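import Pool.Agent.Lib.MP_bb703b_an.ExZ

set_option autoImplicit false

open Real Set MeasureTheory intervalIntegral

/-!
Row EX2b: see the explanation in `ExDefs.lean`.
-/

namespace Pool.Agent.AbelLT

private theorem Ex2_uc (r : ℝ) {m0 M0 : ℝ} (hm0 : 0 < m0) {e : ℝ} (he : 0 < e) :
    ∃ d > 0, ∀ x ∈ Icc m0 M0, ∀ y ∈ Icc m0 M0, |x - y| < d → |x ^ r - y ^ r| < e := by
  have h1 : ContinuousOn (fun x : ℝ => x ^ r) (Icc m0 M0) := by
    intro x hx
    have hx0 : x ≠ 0 := (lt_of_lt_of_le hm0 hx.1).ne'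
    exact (continuousAt_rpow_const x r (Or.inl hx0)).continuousWithinAt
  have h2 := isCompact_Icc.uniformContinuousOn_of_continuous h1
  obtain ⟨d, hd, h3⟩ := Metric.uniformContinuousOn_iff.1 h2 e he
  refine ⟨d, hd, fun x hx y hy hxy => ?_⟩
  have h4 := h3 x hx y hy (by rw [Real.dist_eq]; exact hxy)
  rwa [Real.dist_eq] at h4

private theorem Ex2_core {p q : ℕ} (hq : 2 ≤ q) (hpq : q < p) {a b c C : ℝ} (hC : 1 < C)
    (hM : Mel p q a b c C ≠ 0) {δ : ℝ} (hδ : 0 < δ) :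
    ∃ ε₀ > 0, ∀ ε : ℝ, 0 < ε → ε < ε₀ → ∃ α : ℝ → ℝ,
      (∃ w' : ℝ → ℝ, ∀ t ∈ Icc 0 (2 * π), HasDerivAt α (w' t) t ∧
        0 < Mel p q a b c C *
          (tg (ε * a) 1 0 t * α t ^ p + tg (ε * b) 0 (ε * c) t * α t ^ q - w' t)) ∧
      0 < Mel p q a b c C * (α (2 * π) - α 0) ∧
      ∀ t ∈ Icc 0 (2 * π), 0 < α t ∧ |α t - orb p C t| < δ := by
  have hπ : (0 : ℝ) < π := Real.pi_pos
  have hp1 : (0 : ℝ) < (p : ℝ) - 1 := by
    have : (1 : ℝ) < (p : ℝ) := by exact_mod_cast (show 1 < p by omega)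
    linarith
  set M : ℝ := Mel p q a b c C with hMdef
  set d : ℝ := M / (4 * π) with hd
  set g : ℝ := ((p : ℝ) - q) / ((p : ℝ) - 1) with hg
  set r : ℝ := -(1 / ((p : ℝ) - 1)) with hr
  set Z : ℝ → ℝ := fun t => ((p : ℝ) - 1) * (C + cos t) with hZ
  set m0 : ℝ := ((p : ℝ) - 1) * (C - 1) with hm0
  set M0 : ℝ := ((p : ℝ) - 1) * (C + 1) with hM0
  have hm0pos : 0 < m0 := mul_pos hp1 (by linarith)
  have hZ1 : ∀ t, m0 ≤ Z t := fun t =>
    mul_le_mul_of_nonneg_left (by linarith [neg_one_le_cos t]) hp1.le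
  have hZ2 : ∀ t, Z t ≤ M0 := fun t =>
    mul_le_mul_of_nonneg_left (by linarith [cos_le_one t]) hp1.le
  have hZpos : ∀ t, 0 < Z t := fun t => hm0pos.trans_le (hZ1 t)
  have hZc : Continuous Z := by
    rw [hZ]
    fun_prop
  set G : ℝ → ℝ := fun t => a + (b + c * cos t) * Z t ^ g with hG
  have hGc : Continuous G := by
    have h1 : Continuous fun t => Z t ^ g := hZc.rpow_const fun t => Or.inl (hZpos t).ne'
    rw [hG]
    fun_prop
  have hMG : ∫ t in (0 : ℝ)..(2 * π), G t = M := rfl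
  set P : ℝ → ℝ := fun t => (∫ s in (0 : ℝ)..t, G s) - d * t with hP
  have hPd : ∀ t, HasDerivAt P (G t - d) t := by
    intro t
    have h1 := (hGc.integral_hasStrictDerivAt 0 t).hasDerivAt
    have h2 : HasDerivAt (fun s : ℝ => d * s) (d * 1) t := (hasDerivAt_id t).const_mul d
    have h3 := h1.sub h2
    rw [mul_one] at h3
    exact h3
  have hPc : Continuous P := continuous_iff_continuousAt.2 fun t => (hPd t).continuousAt
  obtain ⟨B0, hB0⟩ := (isCompact_Icc (a := (0 : ℝ)) (b := 2 * π)).exists_bound_of_continuousOn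
    hPc.continuousOn
  have hB00 : 0 ≤ B0 := (norm_nonneg _).trans (hB0 0 ⟨le_refl _, by positivity⟩)
  have hdne : d ≠ 0 := div_ne_zero hM (by positivity)
  have hdpos : 0 < |d| := abs_pos.2 hdne
  set e1 : ℝ := |d| / (|b| + |c| + 1) with he1
  have he1pos : 0 < e1 := by positivity
  obtain ⟨d1, hd1, hu1⟩ := Ex2_uc g (m0 := m0 / 2) (M0 := M0 + m0) (by positivity) he1pos
  obtain ⟨d2, hd2, hu2⟩ := Ex2_uc r (m0 := m0 / 2) (M0 := M0 + m0) (by positivity) hδ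
  set μ : ℝ := min (m0 / 2) (min d1 d2) with hμ
  have hμpos : 0 < μ := lt_min (by positivity) (lt_min hd1 hd2)
  refine ⟨μ / (((p : ℝ) - 1) * (B0 + 1)), by positivity, fun ε hε hε2 => ?_⟩
  have hεb : ε * (((p : ℝ) - 1) * (B0 + 1)) < μ := (lt_div_iff₀ (by positivity)).1 hε2
  set z : ℝ → ℝ := fun t => Z t - ε * ((p : ℝ) - 1) * P t with hz
  have hdiff : ∀ t ∈ Icc 0 (2 * π), |z t - Z t| < μ := by
    intro t ht
    have h1 : z t - Z t = -(ε * ((p : ℝ) - 1) * P t) := by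
      rw [hz]
      ring
    have h2 := hB0 t ht
    rw [Real.norm_eq_abs] at h2
    rw [h1, abs_neg, abs_mul, abs_of_pos (by positivity : 0 < ε * ((p : ℝ) - 1))]
    have h3 : ε * ((p : ℝ) - 1) * |P t| ≤ ε * ((p : ℝ) - 1) * (B0 + 1) :=
      mul_le_mul_of_nonneg_left (by linarith) (by positivity)
    calc ε * ((p : ℝ) - 1) * |P t| ≤ ε * ((p : ℝ) - 1) * (B0 + 1) := h3
      _ = ε * (((p : ℝ) - 1) * (B0 + 1)) := by ring
      _ < μ := hεb
  have hzmem : ∀ t ∈ Icc 0 (2 * π), z t ∈ Icc (m0 / 2) (M0 + m0) := by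
    intro t ht
    have h1 := abs_lt.1 ((hdiff t ht).trans_le (min_le_left _ _))
    exact ⟨by linarith [h1.1, hZ1 t], by linarith [h1.2, hZ2 t]⟩
  have hZmem : ∀ t, Z t ∈ Icc (m0 / 2) (M0 + m0) := fun t =>
    ⟨by linarith [hZ1 t], by linarith [hZ2 t]⟩
  have hzpos : ∀ t ∈ Icc 0 (2 * π), 0 < z t := fun t ht => by linarith [(hzmem t ht).1]
  have hzd : ∀ t, HasDerivAt z (((p : ℝ) - 1) * (-sin t) - ε * ((p : ℝ) - 1) * (G t - d)) t := by
    intro t
    have h1 : HasDerivAt Z (((p : ℝ) - 1) * (-sin t)) t :=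
      ((hasDerivAt_cos t).const_add C).const_mul _
    exact h1.sub ((hPd t).const_mul _)
  refine ⟨fun t => z t ^ r, ⟨fun t => r * (z t ^ r) ^ p *
    (((p : ℝ) - 1) * (-sin t) - ε * ((p : ℝ) - 1) * (G t - d)), fun t ht => ?_⟩, ?_, fun t ht => ?_⟩
  · obtain ⟨h1, h2⟩ := z_to_x hq hpq (hzpos t ht) (hzd t) 0 0
    refine ⟨h1, ?_⟩
    change 0 < M * (tg (ε * a) 1 0 t * (z t ^ r) ^ p + tg (ε * b) 0 (ε * c) t * (z t ^ r) ^ q -
      r * (z t ^ r) ^ p * (((p : ℝ) - 1) * (-sin t) - ε * ((p : ℝ) - 1) * (G t - d)))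
    have h2' : (z t ^ r) ^ p * z t ^ g = (z t ^ r) ^ q := h2
    rw [← h2']
    have h3 : |z t ^ g - Z t ^ g| < e1 := hu1 _ (hzmem t ht) _ (hZmem t)
      ((hdiff t ht).trans_le ((min_le_right _ _).trans (min_le_left _ _)))
    have h4 : 0 < (z t ^ r) ^ p := pow_pos (rpow_pos_of_pos (hzpos t ht) _) _
    have h5 : M * (tg (ε * a) 1 0 t * (z t ^ r) ^ p +
        tg (ε * b) 0 (ε * c) t * ((z t ^ r) ^ p * z t ^ g) -
        r * (z t ^ r) ^ p * (((p : ℝ) - 1) * (-sin t) - ε * ((p : ℝ) - 1) * (G t - d))) =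
        (z t ^ r) ^ p * ε * (M * d + M * ((b + c * cos t) * (z t ^ g - Z t ^ g))) := by
      have h6 : r * ((p : ℝ) - 1) = -1 := by
        rw [hr]
        field_simp
      have h7 : r * (z t ^ r) ^ p * (((p : ℝ) - 1) * (-sin t) - ε * ((p : ℝ) - 1) * (G t - d)) =
          (r * ((p : ℝ) - 1)) * ((z t ^ r) ^ p * (-sin t - ε * (G t - d))) := by ring
      rw [h7, h6]
      simp only [tg, hG]
      ring
    rw [h5]
    have h8 : |b + c * cos t| ≤ |b| + |c| := by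
      refine (abs_add_le _ _).trans ?_
      rw [abs_mul]
      have := abs_cos_le_one t
      nlinarith [abs_nonneg c]
    have h9 : |M * ((b + c * cos t) * (z t ^ g - Z t ^ g))| < M * d := by
      have h10 : M * d = |M| * |d| := by
        rw [hd, abs_div, abs_of_pos (by positivity : 0 < 4 * π), ← mul_div_assoc, ← mul_div_assoc,
          abs_mul_abs_self]
      rw [h10, abs_mul, abs_mul]
      refine mul_lt_mul_of_pos_left ?_ (abs_pos.2 hM)
      calc |b + c * cos t| * |z t ^ g - Z t ^ g| ≤ (|b| + |c|) * e1 :=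
            mul_le_mul h8 h3.le (abs_nonneg _) (by positivity)
        _ < (|b| + |c| + 1) * e1 := mul_lt_mul_of_pos_right (by linarith) he1pos
        _ = |d| := by
            rw [he1]
            field_simp
    have h11 := (abs_lt.1 h9).1
    have h12 : 0 < M * d + M * ((b + c * cos t) * (z t ^ g - Z t ^ g)) := by linarith
    positivity
  · -- the ends
    have hz0 : z 0 = Z 0 := by
      simp [hz, hP]
    have hz2 : z (2 * π) = Z 0 - ε * ((p : ℝ) - 1) * (M / 2) := by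
      have h1 : P (2 * π) = M / 2 := by
        change (∫ s in (0 : ℝ)..(2 * π), G s) - d * (2 * π) = M / 2
        rw [hMG, hd]
        field_simp
        ring
      change Z (2 * π) - ε * ((p : ℝ) - 1) * P (2 * π) = _
      rw [h1]
      simp [hZ]
    have hr0 : r < 0 := by
      rw [hr]
      exact neg_neg_of_pos (by positivity)
    have hp0 : 0 < z 0 := hzpos 0 ⟨le_refl _, by positivity⟩
    have hp2 : 0 < z (2 * π) := hzpos (2 * π) ⟨by positivity, le_refl _⟩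
    change 0 < M * (z (2 * π) ^ r - z 0 ^ r)
    rcases lt_or_gt_of_ne hM with h | h
    · have h1 : z 0 < z (2 * π) := by
        rw [hz0, hz2]
        have : 0 < ε * ((p : ℝ) - 1) * (-M) := by
          have : 0 < -M := by linarith
          positivity
        linarith
      have h2 := rpow_lt_rpow_of_neg hp0 h1 hr0
      exact mul_pos_of_neg_of_neg h (by linarith)
    · have h1 : z (2 * π) < z 0 := by
        rw [hz0, hz2]
        have : 0 < ε * ((p : ℝ) - 1) * M := by positivity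
        linarith
      have h2 := rpow_lt_rpow_of_neg hp2 h1 hr0
      exact mul_pos h (by linarith)
  · refine ⟨rpow_pos_of_pos (hzpos t ht) _, ?_⟩
    exact hu2 _ (hzmem t ht) _ (hZmem t)
      ((hdiff t ht).trans_le ((min_le_right _ _).trans (min_le_right _ _)))

theorem sub_of_Mel_pos {p q : ℕ} (hq : 2 ≤ q) (hpq : q < p) {a b c C : ℝ} (hC : 1 < C)
    (hM : 0 < Mel p q a b c C) {δ : ℝ} (hδ : 0 < δ) :
    ∃ ε₀ > 0, ∀ ε : ℝ, 0 < ε → ε < ε₀ → ∃ α : ℝ → ℝ,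
      StrictSub p q (tg (ε * a) 1 0) (tg (ε * b) 0 (ε * c)) α ∧
      ∀ t ∈ Icc 0 (2 * π), 0 < α t ∧ |α t - orb p C t| < δ := by
  obtain ⟨ε₀, hε₀, h⟩ := Ex2_core hq hpq hC hM.ne' hδ
  refine ⟨ε₀, hε₀, fun ε h1 h2 => ?_⟩
  obtain ⟨α, ⟨w', hw'⟩, h3, h4⟩ := h ε h1 h2
  refine ⟨α, ⟨⟨w', fun t ht => ⟨(hw' t ht).1, ?_⟩⟩, ?_⟩, h4⟩
  · have := (mul_pos_iff_of_pos_left hM).1 (hw' t ht).2
    linarith
  · have := (mul_pos_iff_of_pos_left hM).1 h3
    linarith

theorem super_of_Mel_neg {p q : ℕ} (hq : 2 ≤ q) (hpq : q < p) {a b c C : ℝ} (hC : 1 < C)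
    (hM : Mel p q a b c C < 0) {δ : ℝ} (hδ : 0 < δ) :
    ∃ ε₀ > 0, ∀ ε : ℝ, 0 < ε → ε < ε₀ → ∃ β : ℝ → ℝ,
      StrictSuper p q (tg (ε * a) 1 0) (tg (ε * b) 0 (ε * c)) β ∧
      ∀ t ∈ Icc 0 (2 * π), 0 < β t ∧ |β t - orb p C t| < δ := by
  obtain ⟨ε₀, hε₀, h⟩ := Ex2_core hq hpq hC hM.ne hδ
  refine ⟨ε₀, hε₀, fun ε h1 h2 => ?_⟩
  obtain ⟨α, ⟨w', hw'⟩, h3, h4⟩ := h ε h1 h2
  have hM' : 0 < -Mel p q a b c C := by linarith
  refine ⟨α, ⟨⟨w', fun t ht => ⟨(hw' t ht).1, ?_⟩⟩, ?_⟩, h4⟩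
  · by_contra hneg
    push Not at hneg
    have := (hw' t ht).2
    nlinarith
  · by_contra hneg
    push Not at hneg
    nlinarith

end Pool.Agent.AbelLT
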