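import Pool.Agent.Lib.MP_bb703b_an.Defs

set_option autoImplicit false

open Real Set

/-!
Trigonometric polynomials of degree at most one: four point lemma, antipode map `iota`.
-/

namespace Pool.Agent.AbelLT

theorem tg_cont (a b c : ℝ) : Continuous (tg a b c) := by
  unfold tg
  fun_prop

theorem tg_per (a b c t : ℝ) : tg a b c (t + 2 * π) = tg a b c t := by
  simp [tg]

/-- `D(x,y,z) = sin (y-x) + sin (z-y) - sin (z-x)` is positive for `x < y < z < x + 2π`. -/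
theorem D_pos {x y z : ℝ} (h1 : x < y) (h2 : y < z) (h3 : z < x + 2 * π) :
    0 < sin (y - x) + sin (z - y) - sin (z - x) := by
  have e : sin (y - x) + sin (z - y) - sin (z - x) =
      4 * (sin ((y - x) / 2) * sin ((z - y) / 2) * sin ((z - x) / 2)) := by
    have h1 : y - x = 2 * ((y - x) / 2) := by ring
    have h2 : z - y = 2 * ((z - y) / 2) := by ring
    have h3 : z - x = 2 * ((y - x) / 2) + 2 * ((z - y) / 2) := by ring
    have h4 : (z - x) / 2 = (y - x) / 2 + (z - y) / 2 := by ring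
    rw [h4]
    conv_lhs => rw [h3]
    rw [h1, h2]
    simp only [mul_div_cancel_left₀ _ (two_ne_zero' ℝ)]
    set α := (y - x) / 2
    set β := (z - y) / 2
    rw [sin_add, sin_two_mul, sin_two_mul, cos_two_mul, cos_two_mul, sin_add]
    have ha := sin_sq_add_cos_sq α
    have hb := sin_sq_add_cos_sq β
    linear_combination (-4 * sin β * cos β) * ha + (-4 * sin α * cos α) * hb
  rw [e]
  have p1 : 0 < sin ((y - x) / 2) := sin_pos_of_pos_of_lt_pi (by linarith) (by linarith)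
  have p2 : 0 < sin ((z - y) / 2) := sin_pos_of_pos_of_lt_pi (by linarith) (by linarith)
  have p3 : 0 < sin ((z - x) / 2) := sin_pos_of_pos_of_lt_pi (by linarith) (by linarith)
  positivity

theorem tg_four {a b c s₁ s₂ s₃ s₄ : ℝ} (h12 : s₁ < s₂) (h23 : s₂ < s₃) (h34 : s₃ < s₄)
    (h41 : s₄ < s₁ + 2 * π) (f1 : 0 < tg a b c s₁) (f2 : tg a b c s₂ ≤ 0)
    (f3 : 0 ≤ tg a b c s₃) (f4 : tg a b c s₄ < 0) : False := by
  have w1 := D_pos h23 h34 (by linarith)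
  have w2 := D_pos (h12.trans h23) h34 h41
  have w3 := D_pos h12 (h23.trans h34) h41
  have w4 := D_pos h12 h23 (by linarith)
  have key : (sin (s₃ - s₂) + sin (s₄ - s₃) - sin (s₄ - s₂)) * tg a b c s₁ -
      (sin (s₃ - s₁) + sin (s₄ - s₃) - sin (s₄ - s₁)) * tg a b c s₂ +
      (sin (s₂ - s₁) + sin (s₄ - s₂) - sin (s₄ - s₁)) * tg a b c s₃ -
      (sin (s₂ - s₁) + sin (s₃ - s₂) - sin (s₃ - s₁)) * tg a b c s₄ = 0 := by
    unfold tg
    simp only [sin_sub]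
    ring
  nlinarith [mul_pos w1 f1, mul_nonneg w2.le (neg_nonneg.2 f2), mul_nonneg w3.le f3,
    mul_pos w4 (neg_pos.2 f4)]

/-- the Wronskian formula -/
theorem wr_eq (a0 a1 a2 b0 b1 b2 t : ℝ) : wr a0 a1 a2 b0 b1 b2 t =
    tg a0 a1 a2 t * (b1 * cos t - b2 * sin t) - (a1 * cos t - a2 * sin t) * tg b0 b1 b2 t := by
  unfold wr tg
  linear_combination (-(a1 * b2 - a2 * b1)) * (sin_sq_add_cos_sq t).symm

/-- `κ(t) = (a0 B(t) - A(t) b0) / W(t)`. -/
noncomputable def kap (a0 a1 a2 b0 b1 b2 t : ℝ) : ℝ :=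
  (a0 * tg b0 b1 b2 t - tg a0 a1 a2 t * b0) / wr a0 a1 a2 b0 b1 b2 t

/-- the antipode map -/
noncomputable def iota (a0 a1 a2 b0 b1 b2 t : ℝ) : ℝ :=
  t + π - 2 * arctan (kap a0 a1 a2 b0 b1 b2 t)

theorem iota_cont {a0 a1 a2 b0 b1 b2 : ℝ} (hW : ∀ t, 0 < wr a0 a1 a2 b0 b1 b2 t) :
    Continuous (iota a0 a1 a2 b0 b1 b2) := by
  have h1 : Continuous (kap a0 a1 a2 b0 b1 b2) := by
    unfold kap
    refine Continuous.div ?_ ?_ fun t => (hW t).ne'
    · exact (continuous_const.mul (tg_cont _ _ _)).sub ((tg_cont _ _ _).mul continuous_const)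
    · unfold wr; fun_prop
  unfold iota
  exact (continuous_id.add continuous_const).sub
    (continuous_const.mul (continuous_arctan.comp h1))

theorem lt_iota (a0 a1 a2 b0 b1 b2 t : ℝ) : t < iota a0 a1 a2 b0 b1 b2 t := by
  unfold iota
  have := arctan_lt_pi_div_two (kap a0 a1 a2 b0 b1 b2 t)
  linarith

theorem iota_lt (a0 a1 a2 b0 b1 b2 t : ℝ) : iota a0 a1 a2 b0 b1 b2 t < t + 2 * π := by
  unfold iota
  have := neg_pi_div_two_lt_arctan (kap a0 a1 a2 b0 b1 b2 t)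
  linarith

/-- `G_t(s) = A(s) B(t) - A(t) B(s)
  = - 2 W(t) sqrt(1+κ²) sin((s-t)/2) cos((s-t)/2 + arctan κ)`. -/
theorem G_formula {a0 a1 a2 b0 b1 b2 : ℝ} (t s : ℝ) (hW : 0 < wr a0 a1 a2 b0 b1 b2 t) :
    tg a0 a1 a2 s * tg b0 b1 b2 t - tg a0 a1 a2 t * tg b0 b1 b2 s =
      -(2 * wr a0 a1 a2 b0 b1 b2 t * sqrt (1 + kap a0 a1 a2 b0 b1 b2 t ^ 2)) *
        (sin ((s - t) / 2) * cos ((s - t) / 2 + arctan (kap a0 a1 a2 b0 b1 b2 t))) := by
  set k := kap a0 a1 a2 b0 b1 b2 t with hk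
  have hk' : k * wr a0 a1 a2 b0 b1 b2 t = a0 * tg b0 b1 b2 t - tg a0 a1 a2 t * b0 := by
    rw [hk, kap, div_mul_cancel₀ _ hW.ne']
  have hs : 0 < sqrt (1 + k ^ 2) := sqrt_pos.2 (by positivity)
  have e1 : sqrt (1 + k ^ 2) * cos ((s - t) / 2 + arctan k) =
      cos ((s - t) / 2) - k * sin ((s - t) / 2) := by
    rw [cos_add, cos_arctan, sin_arctan]
    field_simp
  have e2 : -(2 * wr a0 a1 a2 b0 b1 b2 t * sqrt (1 + k ^ 2)) *
        (sin ((s - t) / 2) * cos ((s - t) / 2 + arctan k)) =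
      -(2 * wr a0 a1 a2 b0 b1 b2 t) * sin ((s - t) / 2) *
        (cos ((s - t) / 2) - k * sin ((s - t) / 2)) := by
    rw [← e1]; ring
  rw [e2]
  -- double angle
  have hs1 : 2 * sin ((s - t) / 2) * cos ((s - t) / 2) = sin (s - t) := by
    rw [← sin_two_mul]; congr 1; ring
  have hs2 : 2 * sin ((s - t) / 2) ^ 2 = 1 - cos (s - t) := by
    have := cos_two_mul' ((s - t) / 2)
    have h3 : 2 * ((s - t) / 2) = s - t := by ring
    rw [h3] at this
    have := sin_sq_add_cos_sq ((s - t) / 2)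
    linarith
  have e3 : -(2 * wr a0 a1 a2 b0 b1 b2 t) * sin ((s - t) / 2) *
        (cos ((s - t) / 2) - k * sin ((s - t) / 2)) =
      -(wr a0 a1 a2 b0 b1 b2 t) * sin (s - t) + (k * wr a0 a1 a2 b0 b1 b2 t) *
        (1 - cos (s - t)) := by
    rw [← hs1, ← hs2]; ring
  rw [e3, hk', wr_eq, sin_sub, cos_sub]
  unfold tg
  have := sin_sq_add_cos_sq t
  linear_combination (-(sin s * (a1 * (b0 + b1 * sin t + b2 * cos t) -
      (a0 + a1 * sin t + a2 * cos t) * b1) + cos s * (a2 * (b0 + b1 * sin t + b2 * cos t) -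
      (a0 + a1 * sin t + a2 * cos t) * b2))) * this

theorem G_neg {a0 a1 a2 b0 b1 b2 t s : ℝ} (hW : 0 < wr a0 a1 a2 b0 b1 b2 t)
    (h1 : t < s) (h2 : s < iota a0 a1 a2 b0 b1 b2 t) :
    tg a0 a1 a2 s * tg b0 b1 b2 t - tg a0 a1 a2 t * tg b0 b1 b2 s < 0 := by
  rw [G_formula t s hW]
  unfold iota at h2
  set k := kap a0 a1 a2 b0 b1 b2 t
  have hs : 0 < sqrt (1 + k ^ 2) := sqrt_pos.2 (by positivity)
  have a1' := arctan_lt_pi_div_two k
  have a2' := neg_pi_div_two_lt_arctan k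
  have p1 : 0 < sin ((s - t) / 2) := sin_pos_of_pos_of_lt_pi (by linarith) (by linarith)
  have p2 : 0 < cos ((s - t) / 2 + arctan k) :=
    cos_pos_of_mem_Ioo ⟨by linarith, by linarith⟩
  have : 0 < 2 * wr a0 a1 a2 b0 b1 b2 t * sqrt (1 + k ^ 2) *
      (sin ((s - t) / 2) * cos ((s - t) / 2 + arctan k)) := by positivity
  linarith

theorem G_zero {a0 a1 a2 b0 b1 b2 t : ℝ} (hW : 0 < wr a0 a1 a2 b0 b1 b2 t) :
    tg a0 a1 a2 (iota a0 a1 a2 b0 b1 b2 t) * tg b0 b1 b2 t -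
      tg a0 a1 a2 t * tg b0 b1 b2 (iota a0 a1 a2 b0 b1 b2 t) = 0 := by
  rw [G_formula t _ hW]
  have : (iota a0 a1 a2 b0 b1 b2 t - t) / 2 + arctan (kap a0 a1 a2 b0 b1 b2 t) = π / 2 := by
    unfold iota; ring
  rw [this, cos_pi_div_two]
  ring

theorem G_pos {a0 a1 a2 b0 b1 b2 t s : ℝ} (hW : 0 < wr a0 a1 a2 b0 b1 b2 t)
    (h1 : iota a0 a1 a2 b0 b1 b2 t < s) (h2 : s < t + 2 * π) :
    0 < tg a0 a1 a2 s * tg b0 b1 b2 t - tg a0 a1 a2 t * tg b0 b1 b2 s := by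
  rw [G_formula t s hW]
  have h0 := lt_iota a0 a1 a2 b0 b1 b2 t
  unfold iota at h1
  set k := kap a0 a1 a2 b0 b1 b2 t
  have hs : 0 < sqrt (1 + k ^ 2) := sqrt_pos.2 (by positivity)
  have a1' := arctan_lt_pi_div_two k
  have a2' := neg_pi_div_two_lt_arctan k
  have p1 : 0 < sin ((s - t) / 2) := sin_pos_of_pos_of_lt_pi (by linarith) (by linarith)
  have p2 : cos ((s - t) / 2 + arctan k) < 0 :=
    cos_neg_of_pi_div_two_lt_of_lt (by linarith) (by linarith)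
  have : 2 * wr a0 a1 a2 b0 b1 b2 t * sqrt (1 + k ^ 2) *
      (sin ((s - t) / 2) * cos ((s - t) / 2 + arctan k)) < 0 := by
    apply mul_neg_of_pos_of_neg (by positivity)
    exact mul_neg_of_pos_of_neg p1 p2
  linarith

/-- the vectors at `t` and `iota t` are antipodal -/
theorem iota_anti {a0 a1 a2 b0 b1 b2 : ℝ} (hW : ∀ t, 0 < wr a0 a1 a2 b0 b1 b2 t) (t : ℝ) :
    ∃ k < 0, tg a0 a1 a2 (iota a0 a1 a2 b0 b1 b2 t) = k * tg a0 a1 a2 t ∧
      tg b0 b1 b2 (iota a0 a1 a2 b0 b1 b2 t) = k * tg b0 b1 b2 t := by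
  have hz := G_zero (hW t)
  have ht := lt_iota a0 a1 a2 b0 b1 b2 t
  have ht' := iota_lt a0 a1 a2 b0 b1 b2 t
  set τ := iota a0 a1 a2 b0 b1 b2 t with hτ
  have hn : 0 < tg a0 a1 a2 t ^ 2 + tg b0 b1 b2 t ^ 2 := by
    rcases eq_or_ne (tg a0 a1 a2 t) 0 with h | h
    · rcases eq_or_ne (tg b0 b1 b2 t) 0 with h' | h'
      · have := hW t
        rw [wr_eq, h, h'] at this
        simp at this
      · positivity
    · positivity
  set k := (tg a0 a1 a2 τ * tg a0 a1 a2 t + tg b0 b1 b2 τ * tg b0 b1 b2 t) /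
    (tg a0 a1 a2 t ^ 2 + tg b0 b1 b2 t ^ 2) with hk
  have hk1 : tg a0 a1 a2 τ = k * tg a0 a1 a2 t := by
    rw [hk, div_mul_eq_mul_div, eq_div_iff hn.ne']
    linear_combination tg b0 b1 b2 t * hz
  have hk2 : tg b0 b1 b2 τ = k * tg b0 b1 b2 t := by
    rw [hk, div_mul_eq_mul_div, eq_div_iff hn.ne']
    linear_combination -tg a0 a1 a2 t * hz
  refine ⟨k, ?_, hk1, hk2⟩
  have i1 := iota_lt a0 a1 a2 b0 b1 b2 τ
  set m := max t (iota a0 a1 a2 b0 b1 b2 τ - 2 * π) with hm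
  have hmτ : m < τ := max_lt ht (by linarith)
  have hm1 : t ≤ m := le_max_left _ _
  have hm2 : iota a0 a1 a2 b0 b1 b2 τ - 2 * π ≤ m := le_max_right _ _
  have g1 := G_neg (hW t) (s := (m + τ) / 2) (by linarith) (by linarith)
  have g2 := G_pos (hW τ) (s := (m + τ) / 2 + 2 * π) (by linarith) (by linarith)
  rw [tg_per, tg_per, hk1, hk2] at g2
  by_contra hc
  push Not at hc
  nlinarith [mul_nonneg hc (neg_nonneg.2 g1.le)]

end Pool.Agent.AbelLT
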