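import Pool.Agent.Lib.MP_bb703b_an.Lin
import Pool.Agent.Lib.MP_bb703b_an.Trig

set_option autoImplicit false

open Real Set

/-!
Row C2: sign of `v - x` between the crossing times.

Let `x = v t₁`, `X = x^(p-q)`, `F s = X A(s) + B(s)`; `F = tg (X a0 + b0) (X a1 + b1) (X a2 + b2)`
and `A x^p + B x^q = x^q F`, `x > 0`.  `F t₁ > 0 > F t₂`.

Claim 1: `v s > x` on `(t₁,t₂)`.  Suppose `v s ≤ x`.
* If `F s ≤ 0`: for `s' ∈ (s,t₂)` we have `F s' < 0` (else `t₁ < s < s' < t₂ < t₁+2π` with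
  `F t₁ > 0`, `F s ≤ 0`, `F s' ≥ 0`, `F t₂ < 0`, contradiction with `tg_four`), so `level_lt` from
  `s` to `t₂` gives `v t₂ < x`, contradiction.
* If `F s > 0`: if `F > 0` on `(t₁,s)` then `level_gt` gives `v s > x`, contradiction; so there is
  `t' ∈ (t₁,s)` with `F t' ≤ 0`, and `tg_four` at `t₁ < t' < s < t₂` gives a contradiction.

Claim 2: `v s < x` on `(t₂,t₁+2π)`: the same with `-F` (`tg_four` for `-F` at
`t₂ < · < · < t₁+2π < t₂+2π`), `v (t₁+2π) = v t₁`, `F (t₁+2π) = F t₁` (`tg_per`), `level_gt` from `s` to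
`t₁+2π`, `level_lt` from `t₂` to `s`.
-/

namespace Pool.Agent.AbelLT

variable {p q : ℕ} {a0 a1 a2 b0 b1 b2 : ℝ} {v : ℝ → ℝ}

/-- `v > x` on `(t₁,t₂)` and `v < x` on `(t₂,t₁+2π)`. -/
theorem cross_sign (hq : 2 ≤ q) (hpq : q < p)
    (hv : PosPer p q (tg a0 a1 a2) (tg b0 b1 b2) v) {t₁ t₂ : ℝ} (h12 : t₁ < t₂)
    (h21 : t₂ < t₁ + 2 * π) (hx : v t₁ = v t₂)
    (f1 : 0 < v t₁ ^ (p - q) * tg a0 a1 a2 t₁ + tg b0 b1 b2 t₁)
    (f2 : v t₁ ^ (p - q) * tg a0 a1 a2 t₂ + tg b0 b1 b2 t₂ < 0) :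
    (∀ s, t₁ < s → s < t₂ → v t₁ < v s) ∧ (∀ s, t₂ < s → s < t₁ + 2 * π → v s < v t₁) := by
  have hx0 : 0 < v t₁ := hv.pos t₁
  have hxq : 0 < v t₁ ^ q := pow_pos hx0 _
  set X := v t₁ ^ (p - q) with hX
  have hpow : ∀ s, tg a0 a1 a2 s * v t₁ ^ p + tg b0 b1 b2 s * v t₁ ^ q =
      v t₁ ^ q * tg (X * a0 + b0) (X * a1 + b1) (X * a2 + b2) s := fun s => by
    have : v t₁ ^ p = v t₁ ^ q * X := by
      rw [hX, ← pow_add]; congr 1; omega
    rw [this]; simp only [tg]; ring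
  have hFe : ∀ s, X * tg a0 a1 a2 s + tg b0 b1 b2 s =
      tg (X * a0 + b0) (X * a1 + b1) (X * a2 + b2) s := fun s => by simp only [tg]; ring
  rw [hFe] at f1 f2
  set F := tg (X * a0 + b0) (X * a1 + b1) (X * a2 + b2) with hF
  have hneg : ∀ s, tg (-(X * a0 + b0)) (-(X * a1 + b1)) (-(X * a2 + b2)) s = -F s := fun s => by
    rw [hF]; simp only [tg]; ring
  have hper : F (t₁ + 2 * π) = F t₁ := tg_per _ _ _ _
  constructor
  · intro s h1 h2
    by_contra hc
    push Not at hc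
    rcases le_or_gt (F s) 0 with hs | hs
    · have h3 : v t₂ < v t₁ := by
        apply level_lt (tg_cont a0 a1 a2) (tg_cont b0 b1 b2) hv.sol h2 _ hc
        intro s' hs'
        rw [hpow]
        refine mul_neg_of_pos_of_neg hxq ?_
        by_contra hc'
        push Not at hc'
        exact tg_four h1 hs'.1 hs'.2 h21 f1 hs hc' f2
      linarith
    · have h4 : ∃ t' ∈ Ioo t₁ s, F t' ≤ 0 := by
        by_contra hno
        push Not at hno
        have := level_gt (tg_cont a0 a1 a2) (tg_cont b0 b1 b2) hv.sol h1 (x := v t₁)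
          (fun s' hs' => by rw [hpow]; exact mul_pos hxq (hno s' hs')) le_rfl
        linarith
      obtain ⟨t', ht', hF'⟩ := h4
      exact tg_four ht'.1 ht'.2 h2 h21 f1 hF' hs.le f2
  · intro s h1 h2
    by_contra hc
    push Not at hc
    have f1' : tg (-(X * a0 + b0)) (-(X * a1 + b1)) (-(X * a2 + b2)) (t₁ + 2 * π) < 0 := by
      rw [hneg, hper]; linarith
    have f2' : 0 < tg (-(X * a0 + b0)) (-(X * a1 + b1)) (-(X * a2 + b2)) t₂ := by
      rw [hneg]; linarith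
    rcases le_or_gt 0 (F s) with hs | hs
    · have h3 : v t₁ < v (t₁ + 2 * π) := by
        apply level_gt (tg_cont a0 a1 a2) (tg_cont b0 b1 b2) hv.sol h2 _ hc
        intro s' hs'
        rw [hpow]
        refine mul_pos hxq ?_
        by_contra hc'
        push Not at hc'
        exact tg_four h1 hs'.1 hs'.2 (by linarith) f2' (by rw [hneg]; linarith)
          (by rw [hneg]; linarith) f1'
      rw [hv.sol.per] at h3
      linarith
    · have h4 : ∃ t' ∈ Ioo t₂ s, 0 ≤ F t' := by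
        by_contra hno
        push Not at hno
        have := level_lt (tg_cont a0 a1 a2) (tg_cont b0 b1 b2) hv.sol h1 (x := v t₁)
          (fun s' hs' => by rw [hpow]; exact mul_neg_of_pos_of_neg hxq (hno s' hs')) hx.ge
        linarith
      obtain ⟨t', ht', hF'⟩ := h4
      exact tg_four ht'.1 ht'.2 h2 (by linarith) f2' (by rw [hneg]; linarith)
        (by rw [hneg]; linarith) f1'

end Pool.Agent.AbelLT
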