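import Pool.Agent.Lib.MP_bb703b_an.Cert1
import Pool.Agent.Lib.MP_bb703b_an.Cert2
import Pool.Agent.Lib.MP_bb703b_an.Cert3

set_option autoImplicit false

open Real Set

/-!
The certificate of a positive periodic solution (case `W > 0`).
-/

namespace Pool.Agent.AbelLT

variable {p q : ℕ} {a0 a1 a2 b0 b1 b2 : ℝ} {v : ℝ → ℝ}

theorem exists_cert (hq : 2 ≤ q) (hpq : q < p) (hW : ∀ t, 0 < wr a0 a1 a2 b0 b1 b2 t)
    (hv : PosPer p q (tg a0 a1 a2) (tg b0 b1 b2) v) :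
    ∃ a b x, Cert p q (tg a0 a1 a2) (tg b0 b1 b2) v a b x := by
  obtain ⟨t₁, t₂, a, b, h12, h21, hx, hC1, hC2, hN, f1, f2⟩ := cross_times hq hpq hW hv
  obtain ⟨hv1, hv2⟩ := cross_sign hq hpq hv h12 h21 hx f1 f2
  refine ⟨a, b, v t₁, ⟨t₁, rfl⟩, ?_, ?_, cross_N hq hpq hv h12 h21 hx hC1 hC2 hN hv1 hv2⟩
  · have hP : Function.Periodic (fun t => (v t - v t₁) *
        (a * tg a0 a1 a2 t + b * tg b0 b1 b2 t)) (2 * π) := fun t => by
      simp only [hv.sol.per, tg_per]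
    intro t
    obtain ⟨y, hy, hy2⟩ := hP.exists_mem_Ico (by positivity) t t₁
    rw [hy2]
    rcases eq_or_lt_of_le hy.1 with h | h
    · rw [← h]; simp
    · rcases lt_trichotomy y t₂ with h' | h' | h'
      · exact (mul_pos (sub_pos.2 (hv1 y h h')) (hC1 y h h')).le
      · rw [h', ← hx]; simp
      · exact (mul_pos_of_neg_of_neg (sub_neg.2 (hv2 y h' hy.2)) (hC2 y h' hy.2)).le
  · refine ⟨(t₁ + t₂) / 2, mul_pos (sub_pos.2 (hv1 _ ?_ ?_)) (hC1 _ ?_ ?_)⟩ <;> linarith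

end Pool.Agent.AbelLT
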