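import Pool.Agent.Lib.MP_bb703b_an.Lin
import Pool.Agent.Lib.MP_bb703b_an.Trig

set_option autoImplicit false

open Real Set

/-!
The certificate of a positive periodic solution (case `W > 0`).
-/

namespace Pool.Agent.AbelLT

variable {p q : ℕ} {a0 a1 a2 b0 b1 b2 : ℝ} {v : ℝ → ℝ}

/-- there is a time `t` with `v (iota t) = v t`. -/
theorem exists_eq_iota (hW : ∀ t, 0 < wr a0 a1 a2 b0 b1 b2 t)
    (hv : PosPer p q (tg a0 a1 a2) (tg b0 b1 b2) v) :
    ∃ t, v (iota a0 a1 a2 b0 b1 b2 t) = v t := by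
  have hvc := hv.sol.cont
  have hper : ∀ t, v (t + 2 * π) = v t := hv.sol.per
  obtain ⟨tm, -, htm⟩ := isCompact_Icc.exists_isMinOn
    (nonempty_Icc.2 (by positivity : (0:ℝ) ≤ 2 * π)) hvc.continuousOn
  obtain ⟨tM, -, htM⟩ := isCompact_Icc.exists_isMaxOn
    (nonempty_Icc.2 (by positivity : (0:ℝ) ≤ 2 * π)) hvc.continuousOn
  have hP : Function.Periodic v (2 * π) := hper
  have hmin : ∀ t, v tm ≤ v t := fun t => by
    obtain ⟨y, hy, hy2⟩ := hP.exists_mem_Ico₀ (by positivity) t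
    rw [hy2]; exact htm (Ico_subset_Icc_self hy)
  have hmax : ∀ t, v t ≤ v tM := fun t => by
    obtain ⟨y, hy, hy2⟩ := hP.exists_mem_Ico₀ (by positivity) t
    rw [hy2]; exact htM (Ico_subset_Icc_self hy)
  have hg : Continuous fun t => v (iota a0 a1 a2 b0 b1 b2 t) - v t :=
    (hvc.comp (iota_cont hW)).sub hvc
  have h0 : (0:ℝ) ∈ Set.range fun t => v (iota a0 a1 a2 b0 b1 b2 t) - v t := by
    apply mem_range_of_exists_le_of_exists_ge hg
    · exact ⟨tM, by have := hmax (iota a0 a1 a2 b0 b1 b2 tM); simp; exact this⟩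
    · exact ⟨tm, by have := hmin (iota a0 a1 a2 b0 b1 b2 tm); simp; exact this⟩
  obtain ⟨t, ht⟩ := h0
  exact ⟨t, by simpa [sub_eq_zero] using ht⟩

/-- Crossing times.  `F s = x^(p-q) A s + B s` at the level `x = v t₁ = v t₂`. -/
theorem cross_times (hq : 2 ≤ q) (hpq : q < p) (hW : ∀ t, 0 < wr a0 a1 a2 b0 b1 b2 t)
    (hv : PosPer p q (tg a0 a1 a2) (tg b0 b1 b2) v) :
    ∃ t₁ t₂ a b : ℝ, t₁ < t₂ ∧ t₂ < t₁ + 2 * π ∧ v t₁ = v t₂ ∧
      (∀ s, t₁ < s → s < t₂ → 0 < a * tg a0 a1 a2 s + b * tg b0 b1 b2 s) ∧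
      (∀ s, t₂ < s → s < t₁ + 2 * π → a * tg a0 a1 a2 s + b * tg b0 b1 b2 s < 0) ∧
      0 < b * v t₁ ^ (p - q) - a ∧
      0 < v t₁ ^ (p - q) * tg a0 a1 a2 t₁ + tg b0 b1 b2 t₁ ∧
      v t₁ ^ (p - q) * tg a0 a1 a2 t₂ + tg b0 b1 b2 t₂ < 0 := by
  obtain ⟨ts, hts⟩ := exists_eq_iota hW hv
  obtain ⟨k, hk, hkA, hkB⟩ := iota_anti hW ts
  have hlt := lt_iota a0 a1 a2 b0 b1 b2 ts
  have hlt' := iota_lt a0 a1 a2 b0 b1 b2 ts
  have hGn := fun s h1 h2 => G_neg (s := s) (hW ts) h1 h2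
  have hGp := fun s h1 h2 => G_pos (s := s) (hW ts) h1 h2
  set τ := iota a0 a1 a2 b0 b1 b2 ts with hτ
  set X := v ts ^ (p - q) with hX
  have hx0 : 0 < v ts := hv.pos ts
  have hX0 : 0 < X := pow_pos hx0 _
  have hpow : ∀ s, tg a0 a1 a2 s * v ts ^ p + tg b0 b1 b2 s * v ts ^ q =
      v ts ^ q * (X * tg a0 a1 a2 s + tg b0 b1 b2 s) := fun s => by
    have : v ts ^ p = v ts ^ q * X := by
      rw [hX, ← pow_add]; congr 1; omega
    rw [this]; ring
  have hxq : 0 < v ts ^ q := pow_pos hx0 _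
  -- F(ts) ≠ 0
  have hF : X * tg a0 a1 a2 ts + tg b0 b1 b2 ts ≠ 0 := by
    intro h0
    have hBs : tg b0 b1 b2 ts = -X * tg a0 a1 a2 ts := by linarith
    have hGe : ∀ s, tg a0 a1 a2 s * tg b0 b1 b2 ts - tg a0 a1 a2 ts * tg b0 b1 b2 s =
        -tg a0 a1 a2 ts * (X * tg a0 a1 a2 s + tg b0 b1 b2 s) := fun s => by rw [hBs]; ring
    rcases lt_trichotomy (tg a0 a1 a2 ts) 0 with hA | hA | hA
    · -- F < 0 on (ts, τ)
      have : v τ < v ts := by
        apply level_lt (tg_cont a0 a1 a2) (tg_cont b0 b1 b2) hv.sol hlt _ le_rfl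
        intro s hs
        rw [hpow]
        have h1 := hGn s hs.1 hs.2
        rw [hGe] at h1
        have h2 : X * tg a0 a1 a2 s + tg b0 b1 b2 s < 0 := by
          by_contra hc
          push Not at hc
          have : 0 ≤ -tg a0 a1 a2 ts * (X * tg a0 a1 a2 s + tg b0 b1 b2 s) :=
            mul_nonneg (by linarith) hc
          linarith
        exact mul_neg_of_pos_of_neg hxq h2
      linarith
    · have h1 := hGn ((ts + τ) / 2) (by linarith) (by linarith)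
      rw [hGe, hA] at h1
      simp at h1
    · have : v ts < v τ := by
        apply level_gt (tg_cont a0 a1 a2) (tg_cont b0 b1 b2) hv.sol hlt _ le_rfl
        intro s hs
        rw [hpow]
        have h1 := hGn s hs.1 hs.2
        rw [hGe] at h1
        have h2 : 0 < X * tg a0 a1 a2 s + tg b0 b1 b2 s := by
          by_contra hc
          push Not at hc
          have : 0 ≤ -tg a0 a1 a2 ts * (X * tg a0 a1 a2 s + tg b0 b1 b2 s) :=
            mul_nonneg_of_nonpos_of_nonpos (by linarith) hc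
          linarith
        exact mul_pos hxq h2
      linarith
  have hFτ : X * tg a0 a1 a2 τ + tg b0 b1 b2 τ =
      k * (X * tg a0 a1 a2 ts + tg b0 b1 b2 ts) := by rw [hkA, hkB]; ring
  rcases lt_or_gt_of_ne hF with hF | hF
  · -- F(ts) < 0
    refine ⟨τ, ts + 2 * π, tg b0 b1 b2 ts, -tg a0 a1 a2 ts, hlt', by linarith, ?_, ?_, ?_, ?_,
      ?_, ?_⟩
    · rw [hts, hv.sol.per]
    · intro s h1 h2
      linarith [hGp s h1 h2]
    · intro s h1 h2
      have := hGn (s - 2 * π) (by linarith) (by linarith)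
      have e1 := tg_per a0 a1 a2 (s - 2 * π)
      have e2 := tg_per b0 b1 b2 (s - 2 * π)
      rw [sub_add_cancel] at e1 e2
      rw [e1, e2]
      linarith
    · rw [hts, ← hX]; linarith
    · rw [hts, ← hX, hFτ]; exact mul_pos_of_neg_of_neg hk hF
    · rw [hts, ← hX, tg_per, tg_per]; exact hF
  · refine ⟨ts, τ, -tg b0 b1 b2 ts, tg a0 a1 a2 ts, hlt, hlt', hts.symm, ?_, ?_, ?_,
      ?_, ?_⟩
    · intro s h1 h2
      linarith [hGn s h1 h2]
    · intro s h1 h2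
      linarith [hGp s h1 h2]
    · rw [← hX]; linarith
    · exact hF
    · rw [← hX, hFτ]; exact mul_neg_of_neg_of_pos hk hF

end Pool.Agent.AbelLT
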