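import Pool.Agent.Lib.MP_bb703b_an.Defs

set_option autoImplicit false

open Real Set

/-!
Row CLIP: flow of the clipped equation with parameter.

`g l t x = (A t + l) * c^p + B t * c^q` with `c = clip u₁ u₂ t x`.  On `[0,2π] × ℝ` and
`l ∈ [0,L]` it is bounded and Lipschitz in `(x,l)` (with `l` replaced by `max 0 (min l L)`).
Use `IsPicardLindelof.exists_forall_mem_closedBall_eq_hasDerivWithinAt_lipschitzOnWith` for
`E = ℝ × ℝ` and the field `(x,l) ↦ (g (max 0 (min l L)) t x, 0)` on a big ball around a point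
(radius `a ≥ 2π * bound + r`), or Picard-Lindelöf for each `(h,l)` together with
`dist_le_of_approx_trajectories_ODE` (Gronwall) for the continuity in `(h,l)`.
-/

namespace Pool.Agent.AbelLT

theorem clip_abs_le {u₁ u₂ : ℝ → ℝ} {t x M : ℝ} (h₁ : |u₁ t| ≤ M) (h₂ : |u₂ t| ≤ M) :
    |clip u₁ u₂ t x| ≤ M := by
  unfold clip
  have a1 := abs_le.1 h₁
  have a2 := abs_le.1 h₂
  rw [abs_le]
  exact ⟨a1.1.trans (le_max_left _ _), max_le a1.2 ((min_le_right _ _).trans a2.2)⟩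

theorem clip_lip (u₁ u₂ : ℝ → ℝ) (t x y : ℝ) :
    |clip u₁ u₂ t x - clip u₁ u₂ t y| ≤ |x - y| := by
  unfold clip
  refine (abs_max_sub_max_le_max _ _ _ _).trans ?_
  rw [sub_self, abs_zero]
  refine max_le (abs_nonneg _) ((abs_min_sub_min_le_max _ _ _ _).trans ?_)
  rw [sub_self, abs_zero]
  exact max_le (le_refl _) (abs_nonneg _)

theorem clip_powlip (n : ℕ) {a b M : ℝ} (ha : |a| ≤ M) (hb : |b| ≤ M) :
    |a ^ n - b ^ n| ≤ n * M ^ (n - 1) * |a - b| := by
  refine (abs_pow_sub_pow_le a b n).trans ?_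
  have h : max |a| |b| ^ (n - 1) ≤ M ^ (n - 1) :=
    pow_le_pow_left₀ ((abs_nonneg a).trans (le_max_left _ _)) (max_le ha hb) _
  calc |a - b| * n * max |a| |b| ^ (n - 1) ≤ |a - b| * n * M ^ (n - 1) :=
        mul_le_mul_of_nonneg_left h (by positivity)
    _ = _ := by ring

theorem clipped_flow {p q : ℕ} {A B u₁ u₂ : ℝ → ℝ} (hA : Continuous A) (hB : Continuous B)
    (h₁ : ContinuousOn u₁ (Icc 0 (2 * π))) (h₂ : ContinuousOn u₂ (Icc 0 (2 * π)))
    (L : ℝ) (hL : 0 ≤ L) :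
    ∃ X : ℝ → ℝ → ℝ → ℝ,
      (∀ h ∈ Icc (u₁ 0) (u₂ 0), ∀ l ∈ Icc 0 L, X h l 0 = h ∧
        ∀ t ∈ Icc 0 (2 * π), HasDerivWithinAt (X h l)
          ((A t + l) * clip u₁ u₂ t (X h l t) ^ p + B t * clip u₁ u₂ t (X h l t) ^ q)
          (Icc 0 (2 * π)) t) ∧
      ContinuousOn (fun z : ℝ × ℝ => X z.1 z.2 (2 * π)) (Icc (u₁ 0) (u₂ 0) ×ˢ Icc 0 L) := by
  have hπ : (0 : ℝ) < 2 * π := by positivity
  have h0mem : (0 : ℝ) ∈ Icc 0 (2 * π) := ⟨le_refl _, hπ.le⟩
  obtain ⟨C1, hC1⟩ := isCompact_Icc.exists_bound_of_continuousOn h₁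
  obtain ⟨C2, hC2⟩ := isCompact_Icc.exists_bound_of_continuousOn h₂
  obtain ⟨C3, hC3⟩ := isCompact_Icc.exists_bound_of_continuousOn
    (hA.continuousOn (s := Icc 0 (2 * π)))
  obtain ⟨C4, hC4⟩ := isCompact_Icc.exists_bound_of_continuousOn
    (hB.continuousOn (s := Icc 0 (2 * π)))
  set M : ℝ := max C1 C2 with hMdef
  have hM1 : ∀ t ∈ Icc 0 (2 * π), |u₁ t| ≤ M := fun t ht => (hC1 t ht).trans (le_max_left _ _)
  have hM2 : ∀ t ∈ Icc 0 (2 * π), |u₂ t| ≤ M := fun t ht => (hC2 t ht).trans (le_max_right _ _)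
  have hM0 : 0 ≤ M := (abs_nonneg _).trans (hM1 0 h0mem)
  have hA0 : 0 ≤ C3 := (norm_nonneg _).trans (hC3 0 h0mem)
  have hB0 : 0 ≤ C4 := (norm_nonneg _).trans (hC4 0 h0mem)
  -- truncation of the parameter
  let lam : ℝ → ℝ := fun l => max 0 (min l L)
  have hlam0 : ∀ l, 0 ≤ lam l := fun l => le_max_left _ _
  have hlamL : ∀ l, lam l ≤ L := fun l => max_le hL (min_le_right _ _)
  have hlamlip : ∀ l l', |lam l - lam l'| ≤ |l - l'| := by
    intro l l'
    refine (abs_max_sub_max_le_max _ _ _ _).trans ?_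
    rw [sub_self, abs_zero]
    refine max_le (abs_nonneg _) ((abs_min_sub_min_le_max _ _ _ _).trans ?_)
    rw [sub_self, abs_zero]
    exact max_le (le_refl _) (abs_nonneg _)
  have hlameq : ∀ l ∈ Icc 0 L, lam l = l := by
    intro l hl
    simp only [lam]
    rw [min_eq_left hl.2, max_eq_right hl.1]
  -- the field
  let f1 : ℝ → ℝ × ℝ → ℝ := fun t z =>
    (A t + lam z.2) * clip u₁ u₂ t z.1 ^ p + B t * clip u₁ u₂ t z.1 ^ q
  let f : ℝ → ℝ × ℝ → ℝ × ℝ := fun t z => (f1 t z, 0)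
  have hcl : ∀ t ∈ Icc 0 (2 * π), ∀ x, |clip u₁ u₂ t x| ≤ M := fun t ht x =>
    clip_abs_le (hM1 t ht) (hM2 t ht)
  have hAl : ∀ t ∈ Icc 0 (2 * π), ∀ l, |A t + lam l| ≤ C3 + L := by
    intro t ht l
    refine (abs_add_le _ _).trans (add_le_add (hC3 t ht) ?_)
    rw [abs_of_nonneg (hlam0 l)]
    exact hlamL l
  set Lb : ℝ := (C3 + L) * M ^ p + C4 * M ^ q with hLb
  have hLb0 : 0 ≤ Lb := by positivity
  have hbound : ∀ t ∈ Icc 0 (2 * π), ∀ z, |f1 t z| ≤ Lb := by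
    intro t ht z
    refine (abs_add_le _ _).trans (add_le_add ?_ ?_)
    · rw [abs_mul, abs_pow]
      exact mul_le_mul (hAl t ht _) (pow_le_pow_left₀ (abs_nonneg _) (hcl t ht _) _)
        (by positivity) (by positivity)
    · rw [abs_mul, abs_pow]
      exact mul_le_mul (hC4 t ht) (pow_le_pow_left₀ (abs_nonneg _) (hcl t ht _) _)
        (by positivity) (by positivity)
  set K : ℝ := M ^ p + (C3 + L) * (p * M ^ (p - 1)) + C4 * (q * M ^ (q - 1)) with hK
  have hK0 : 0 ≤ K := by positivity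
  have hlip : ∀ t ∈ Icc 0 (2 * π), ∀ z z' : ℝ × ℝ, |f1 t z - f1 t z'| ≤ K * dist z z' := by
    intro t ht z z'
    have d1 : |z.1 - z'.1| ≤ dist z z' := by
      rw [Prod.dist_eq, Real.dist_eq]
      exact le_max_left _ _
    have d2 : |z.2 - z'.2| ≤ dist z z' := by
      rw [Prod.dist_eq, Real.dist_eq, Real.dist_eq]
      exact le_max_right _ _
    have e : f1 t z - f1 t z' = (lam z.2 - lam z'.2) * clip u₁ u₂ t z.1 ^ p +
        (A t + lam z'.2) * (clip u₁ u₂ t z.1 ^ p - clip u₁ u₂ t z'.1 ^ p) +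
        B t * (clip u₁ u₂ t z.1 ^ q - clip u₁ u₂ t z'.1 ^ q) := by
      simp only [f1]
      ring
    have t1 : |(lam z.2 - lam z'.2) * clip u₁ u₂ t z.1 ^ p| ≤ dist z z' * M ^ p := by
      rw [abs_mul, abs_pow]
      exact mul_le_mul ((hlamlip _ _).trans d2) (pow_le_pow_left₀ (abs_nonneg _) (hcl t ht _) _)
        (by positivity) dist_nonneg
    have hpw : ∀ n : ℕ, |clip u₁ u₂ t z.1 ^ n - clip u₁ u₂ t z'.1 ^ n| ≤
        n * M ^ (n - 1) * dist z z' := by
      intro n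
      refine (clip_powlip n (hcl t ht _) (hcl t ht _)).trans ?_
      exact mul_le_mul_of_nonneg_left ((clip_lip _ _ _ _ _).trans d1) (by positivity)
    have t2 : |(A t + lam z'.2) * (clip u₁ u₂ t z.1 ^ p - clip u₁ u₂ t z'.1 ^ p)| ≤
        (C3 + L) * (p * M ^ (p - 1) * dist z z') := by
      rw [abs_mul]
      exact mul_le_mul (hAl t ht _) (hpw p) (abs_nonneg _) (by positivity)
    have t3 : |B t * (clip u₁ u₂ t z.1 ^ q - clip u₁ u₂ t z'.1 ^ q)| ≤
        C4 * (q * M ^ (q - 1) * dist z z') := by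
      rw [abs_mul]
      exact mul_le_mul (hC4 t ht) (hpw q) (abs_nonneg _) hB0
    rw [e]
    calc _ ≤ |(lam z.2 - lam z'.2) * clip u₁ u₂ t z.1 ^ p| +
          |(A t + lam z'.2) * (clip u₁ u₂ t z.1 ^ p - clip u₁ u₂ t z'.1 ^ p)| +
          |B t * (clip u₁ u₂ t z.1 ^ q - clip u₁ u₂ t z'.1 ^ q)| := abs_add_three _ _ _
      _ ≤ dist z z' * M ^ p + (C3 + L) * (p * M ^ (p - 1) * dist z z') +
          C4 * (q * M ^ (q - 1) * dist z z') := add_le_add (add_le_add t1 t2) t3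
      _ = K * dist z z' := by rw [hK]; ring
  let r : ℝ := M + L
  have hr0 : 0 ≤ r := add_nonneg hM0 hL
  let a : ℝ := r + Lb * (2 * π)
  have ha0 : 0 ≤ a := by positivity
  have hPL : IsPicardLindelof f (tmin := 0) (tmax := 2 * π) ⟨0, h0mem⟩ ((0, 0) : ℝ × ℝ)
      ⟨a, ha0⟩ ⟨r, hr0⟩ ⟨Lb, hLb0⟩ ⟨K, hK0⟩ := by
    constructor
    · intro t ht
      refine LipschitzOnWith.of_dist_le_mul (fun z _ z' _ => ?_)
      have : dist (f t z) (f t z') = |f1 t z - f1 t z'| := by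
        simp only [f, Prod.dist_eq, Real.dist_eq, sub_self, abs_zero]
        exact max_eq_left (abs_nonneg _)
      rw [this]
      exact hlip t ht z z'
    · intro z _
      have hcc : ContinuousOn (fun t => clip u₁ u₂ t z.1) (Icc 0 (2 * π)) := by
        unfold clip
        exact h₁.sup (continuousOn_const.inf h₂)
      exact (((hA.continuousOn.add continuousOn_const).mul (hcc.pow p)).add
        (hB.continuousOn.mul (hcc.pow q))).prodMk continuousOn_const
    · intro t ht z _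
      have : ‖f t z‖ = |f1 t z| := by
        simp only [f, Prod.norm_def, Real.norm_eq_abs, abs_zero]
        exact max_eq_left (abs_nonneg _)
      rw [this]
      exact hbound t ht z
    · change Lb * max (2 * π - 0) (0 - 0) ≤ a - r
      rw [sub_zero, sub_zero, max_eq_left hπ.le]
      simp only [a]
      linarith
  obtain ⟨α, hα, L', hα'⟩ :=
    hPL.exists_forall_mem_closedBall_eq_hasDerivWithinAt_lipschitzOnWith
  have hball : ∀ h ∈ Icc (u₁ 0) (u₂ 0), ∀ l ∈ Icc 0 L,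
      (h, l) ∈ Metric.closedBall ((0, 0) : ℝ × ℝ) ((⟨r, hr0⟩ : NNReal) : ℝ) := by
    intro h hh l hl
    rw [Metric.mem_closedBall, Prod.dist_eq, Real.dist_eq, Real.dist_eq, sub_zero, sub_zero]
    have b1 := (abs_le.1 (hM1 0 h0mem)).1
    have b2 := (abs_le.1 (hM2 0 h0mem)).2
    have c1 : |h| ≤ M := abs_le.2 ⟨b1.trans hh.1, hh.2.trans b2⟩
    have c2 : |l| ≤ L := abs_le.2 ⟨by linarith [hl.1], hl.2⟩
    change max |h| |l| ≤ M + L
    exact max_le (by linarith) (by linarith)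
  refine ⟨fun h l t => (α (h, l) t).1, ?_, ?_⟩
  · intro h hh l hl
    obtain ⟨hα0, hαd⟩ := hα (h, l) (hball h hh l hl)
    have hsnd : ∀ t ∈ Icc 0 (2 * π), (α (h, l) t).2 = l := by
      have hd2 : ∀ t ∈ Icc 0 (2 * π),
          HasDerivWithinAt (fun t => (α (h, l) t).2) 0 (Icc 0 (2 * π)) t := by
        intro t ht
        exact (ContinuousLinearMap.snd ℝ ℝ ℝ).hasFDerivAt.comp_hasDerivWithinAt t (hαd t ht)
      have hconst := constant_of_has_deriv_right_zero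
        (f := fun t => (α (h, l) t).2) (a := 0) (b := 2 * π)
        (fun t ht => (hd2 t ht).continuousWithinAt)
        (fun t ht => (hd2 t ⟨ht.1, ht.2.le⟩).mono_of_mem_nhdsWithin (Icc_mem_nhdsGE_of_mem ht))
      intro t ht
      have h3 := hconst t ht
      have h4 : (α (h, l) 0).2 = l := by
        have : α (h, l) 0 = (h, l) := hα0
        rw [this]
      exact h3.trans h4
    refine ⟨?_, ?_⟩
    · have : α (h, l) 0 = (h, l) := hα0
      change (α (h, l) 0).1 = h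
      rw [this]
    · intro t ht
      have h5 := (ContinuousLinearMap.fst ℝ ℝ ℝ).hasFDerivAt.comp_hasDerivWithinAt t (hαd t ht)
      have h6 : (ContinuousLinearMap.fst ℝ ℝ ℝ) (f t (α (h, l) t)) =
          (A t + l) * clip u₁ u₂ t (α (h, l) t).1 ^ p + B t * clip u₁ u₂ t (α (h, l) t).1 ^ q := by
        change (A t + lam (α (h, l) t).2) * clip u₁ u₂ t (α (h, l) t).1 ^ p +
          B t * clip u₁ u₂ t (α (h, l) t).1 ^ q = _
        rw [hsnd t ht, hlameq l hl]
      rw [h6] at h5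
      exact h5
  · have h7 : ContinuousOn (fun z : ℝ × ℝ => α z (2 * π))
        (Metric.closedBall ((0, 0) : ℝ × ℝ) ((⟨r, hr0⟩ : NNReal) : ℝ)) :=
      (hα' (2 * π) ⟨hπ.le, le_refl _⟩).continuousOn
    have h8 : ContinuousOn (fun z : ℝ × ℝ => α z (2 * π)) (Icc (u₁ 0) (u₂ 0) ×ˢ Icc 0 L) :=
      h7.mono (fun z hz => hball z.1 hz.1 z.2 hz.2)
    exact continuous_fst.comp_continuousOn h8

end Pool.Agent.AbelLT
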