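import Pool.Agent.Lib.MP_bb703b_an.Defs

set_option autoImplicit false

open Real Set

/-!
Row COMP: comparison lemmas for the clipped equation on `[0,2π]`.
-/

namespace Pool.Agent.AbelLT

/-- Let `z` be continuous on `[s,T]`, with derivative `z' t ≥ 0` at every `t ∈ [s,T]` with
`z t < 0`, and `z s ≥ 0`.  Then `z ≥ 0` on `[s,T]`.
(If `z t₁ < 0`, let `t₀` be the last time before `t₁` with `z ≥ 0`; `z` is monotone on
`[t₀,t₁]`.) -/
theorem nonneg_of_deriv {z z' : ℝ → ℝ} {s T : ℝ}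
    (hz : ∀ t ∈ Icc s T, HasDerivWithinAt z (z' t) (Icc s T) t)
    (h0 : ∀ t ∈ Icc s T, z t < 0 → 0 ≤ z' t) (hs : 0 ≤ z s) : ∀ t ∈ Icc s T, 0 ≤ z t := by
  intro t₁ ht₁
  by_contra hneg
  rw [not_le] at hneg
  have hcont : ContinuousOn z (Icc s T) := fun t ht => (hz t ht).continuousWithinAt
  have hcont1 : ContinuousOn z (Icc s t₁) := hcont.mono (Icc_subset_Icc_right ht₁.2)
  set S : Set ℝ := Icc s t₁ ∩ z ⁻¹' Ici 0 with hS
  have hSc : IsCompact S := by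
    have hcl : IsClosed S := hcont1.preimage_isClosed_of_isClosed isClosed_Icc isClosed_Ici
    exact isCompact_Icc.of_isClosed_subset hcl inter_subset_left
  have hSne : S.Nonempty := ⟨s, ⟨le_rfl, ht₁.1⟩, hs⟩
  obtain ⟨t₀, ht₀, hmax⟩ := hSc.exists_isGreatest hSne
  have ht₀0 : 0 ≤ z t₀ := ht₀.2
  have ht₀1 : t₀ ≤ t₁ := ht₀.1.2
  have hsub : Icc t₀ t₁ ⊆ Icc s T := Icc_subset_Icc ht₀.1.1 ht₁.2
  have hlt : ∀ t, t₀ < t → t ≤ t₁ → z t < 0 := by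
    intro t h1 h2
    by_contra h3
    rw [not_lt] at h3
    exact absurd (hmax ⟨⟨ht₀.1.1.trans h1.le, h2⟩, h3⟩) (not_le.2 h1)
  have hmono : MonotoneOn z (Icc t₀ t₁) := by
    have hder : ∀ t ∈ interior (Icc t₀ t₁), HasDerivAt z (z' t) t := by
      intro t ht
      rw [interior_Icc] at ht
      exact (hz t (hsub ⟨ht.1.le, ht.2.le⟩)).hasDerivAt
        (Icc_mem_nhds (lt_of_le_of_lt ht₀.1.1 ht.1) (lt_of_lt_of_le ht.2 ht₁.2))
    refine monotoneOn_of_deriv_nonneg (convex_Icc t₀ t₁) (hcont.mono hsub)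
      (fun t ht => (hder t ht).differentiableAt.differentiableWithinAt) (fun t ht => ?_)
    rw [(hder t ht).deriv]
    rw [interior_Icc] at ht
    exact h0 t (hsub ⟨ht.1.le, ht.2.le⟩) (hlt t ht.1 ht.2.le)
  have h1 := hmono ⟨le_rfl, ht₀1⟩ ⟨ht₀1, le_rfl⟩ ht₀1
  linarith

/-- backward version -/
theorem nonneg_of_deriv_back {z z' : ℝ → ℝ} {s T : ℝ}
    (hz : ∀ t ∈ Icc s T, HasDerivWithinAt z (z' t) (Icc s T) t)
    (h0 : ∀ t ∈ Icc s T, z t < 0 → z' t ≤ 0) (hT : 0 ≤ z T) : ∀ t ∈ Icc s T, 0 ≤ z t := by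
  have hmem : ∀ t, t ∈ Icc (-T) (-s) → -t ∈ Icc s T := by
    intro t ht
    exact ⟨by linarith [ht.2], by linarith [ht.1]⟩
  have h1 : ∀ t ∈ Icc (-T) (-s),
      HasDerivWithinAt (fun t => z (-t)) (-(z' (-t))) (Icc (-T) (-s)) t := by
    intro t ht
    have h2 := (hz (-t) (hmem t ht)).scomp (h := fun t => -t) (s := Icc (-T) (-s)) t
      (hasDerivWithinAt_neg t _) (fun u hu => hmem u hu)
    rw [neg_one_smul] at h2
    exact h2
  intro t ht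
  have h2 := nonneg_of_deriv h1 (fun t ht hneg => by
    have := h0 (-t) (hmem t ht) hneg
    linarith) (by rw [neg_neg]; exact hT) (-t) ⟨by linarith [ht.2], by linarith [ht.1]⟩
  rwa [neg_neg] at h2

variable {p q : ℕ} {A B u₁ u₂ X : ℝ → ℝ} {l : ℝ}

/-- lower barrier: `u₁` is a subsolution, so solutions of the clipped equation stay above. -/
theorem clip_lower (h12 : ∀ t ∈ Icc 0 (2 * π), u₁ t < u₂ t) (hpos : ∀ t ∈ Icc 0 (2 * π), 0 < u₁ t)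
    (hl : 0 ≤ l)
    (hu : ∃ u' : ℝ → ℝ, ∀ t ∈ Icc 0 (2 * π), HasDerivAt u₁ (u' t) t ∧
      u' t ≤ A t * u₁ t ^ p + B t * u₁ t ^ q)
    (hX : ∀ t ∈ Icc 0 (2 * π), HasDerivWithinAt X
      ((A t + l) * clip u₁ u₂ t (X t) ^ p + B t * clip u₁ u₂ t (X t) ^ q) (Icc 0 (2 * π)) t)
    (h0 : u₁ 0 ≤ X 0) : ∀ t ∈ Icc 0 (2 * π), u₁ t ≤ X t := by
  obtain ⟨u', hu'⟩ := hu
  intro t ht
  have h1 := nonneg_of_deriv (z := fun t => X t - u₁ t) (s := 0) (T := 2 * π)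
    (fun t ht => (hX t ht).sub (hu' t ht).1.hasDerivWithinAt)
    (fun t ht hneg => ?_) (sub_nonneg.2 h0) t ht
  · exact sub_nonneg.1 h1
  · have hlt : X t < u₁ t := sub_neg.1 hneg
    have hc : clip u₁ u₂ t (X t) = u₁ t := by
      unfold clip
      rw [min_eq_left (hlt.trans (h12 t ht)).le, max_eq_left hlt.le]
    rw [hc]
    have h2 := (hu' t ht).2
    have h3 : 0 ≤ l * u₁ t ^ p := mul_nonneg hl (pow_nonneg (hpos t ht).le p)
    have h4 : (A t + l) * u₁ t ^ p = A t * u₁ t ^ p + l * u₁ t ^ p := by ring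
    linarith

/-- upper barrier for returning solutions: if `u₂' ≤ f_0(t,u₂)` (e.g. `u₂` a solution),
`l ≥ 0`, and `X (2π) ≤ u₂ (2π)` then `X ≤ u₂` everywhere: once above `u₂`, `X - u₂` is
nondecreasing and positive. -/
theorem clip_upper (h12 : ∀ t ∈ Icc 0 (2 * π), u₁ t < u₂ t) (hpos : ∀ t ∈ Icc 0 (2 * π), 0 < u₁ t)
    (hl : 0 ≤ l)
    (hu : ∃ u' : ℝ → ℝ, ∀ t ∈ Icc 0 (2 * π), HasDerivAt u₂ (u' t) t ∧
      u' t ≤ A t * u₂ t ^ p + B t * u₂ t ^ q)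
    (hX : ∀ t ∈ Icc 0 (2 * π), HasDerivWithinAt X
      ((A t + l) * clip u₁ u₂ t (X t) ^ p + B t * clip u₁ u₂ t (X t) ^ q) (Icc 0 (2 * π)) t)
    (h0 : X (2 * π) ≤ u₂ (2 * π)) : ∀ t ∈ Icc 0 (2 * π), X t ≤ u₂ t := by
  obtain ⟨u', hu'⟩ := hu
  intro t ht
  have h1 := nonneg_of_deriv_back (z := fun t => u₂ t - X t) (s := 0) (T := 2 * π)
    (fun t ht => (hu' t ht).1.hasDerivWithinAt.sub (hX t ht))
    (fun t ht hneg => ?_) (sub_nonneg.2 h0) t ht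
  · exact sub_nonneg.1 h1
  · have hlt : u₂ t < X t := sub_neg.1 hneg
    have hc : clip u₁ u₂ t (X t) = u₂ t := by
      unfold clip
      rw [min_eq_right hlt.le, max_eq_right (h12 t ht).le]
    rw [hc]
    have h2 := (hu' t ht).2
    have h3 : 0 ≤ l * u₂ t ^ p :=
      mul_nonneg hl (pow_nonneg ((hpos t ht).trans (h12 t ht)).le p)
    have h4 : (A t + l) * u₂ t ^ p = A t * u₂ t ^ p + l * u₂ t ^ p := by ring
    linarith

/-- upper barrier, supersolution version (`l = 0`): if `u₂' ≥ f_0(t,u₂)` and `X 0 ≤ u₂ 0` then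
`X ≤ u₂`. -/
theorem clip_upper' (h12 : ∀ t ∈ Icc 0 (2 * π), u₁ t < u₂ t)
    (hpos : ∀ t ∈ Icc 0 (2 * π), 0 < u₁ t)
    (hu : ∃ u' : ℝ → ℝ, ∀ t ∈ Icc 0 (2 * π), HasDerivAt u₂ (u' t) t ∧
      A t * u₂ t ^ p + B t * u₂ t ^ q ≤ u' t)
    (hX : ∀ t ∈ Icc 0 (2 * π), HasDerivWithinAt X
      ((A t + 0) * clip u₁ u₂ t (X t) ^ p + B t * clip u₁ u₂ t (X t) ^ q) (Icc 0 (2 * π)) t)
    (h0 : X 0 ≤ u₂ 0) : ∀ t ∈ Icc 0 (2 * π), X t ≤ u₂ t := by
  obtain ⟨u', hu'⟩ := hu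
  intro t ht
  have h1 := nonneg_of_deriv (z := fun t => u₂ t - X t) (s := 0) (T := 2 * π)
    (fun t ht => (hu' t ht).1.hasDerivWithinAt.sub (hX t ht))
    (fun t ht hneg => ?_) (sub_nonneg.2 h0) t ht
  · exact sub_nonneg.1 h1
  · have hlt : u₂ t < X t := sub_neg.1 hneg
    have hc : clip u₁ u₂ t (X t) = u₂ t := by
      unfold clip
      rw [min_eq_right hlt.le, max_eq_right (h12 t ht).le]
    rw [hc]
    have h2 := (hu' t ht).2
    rw [add_zero]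
    linarith

end Pool.Agent.AbelLT
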