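import Pool.Agent.Lib.MP_bb703b_an.Defs

set_option autoImplicit false

open Real Set

/-!
Row COMP2: comparison with a strict supersolution of the clipped equation on `[0,2π]`.
-/

namespace Pool.Agent.AbelLT

variable {p q : ℕ} {A B u₁ u₂ X : ℝ → ℝ} {l : ℝ}

/-- `w` a strict supersolution of the `l`-equation strictly between `u₁` and `u₂`, `X 0 ≤ w 0`:
then `X ≤ w` (use `image_le_of_deriv_right_lt_deriv_boundary`; when `X t = w t` the clip is
inactive). -/
theorem clip_below_super {w : ℝ → ℝ}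
    (hw1 : ∀ t ∈ Icc 0 (2 * π), u₁ t < w t) (hw2 : ∀ t ∈ Icc 0 (2 * π), w t < u₂ t)
    (hw : ∃ w' : ℝ → ℝ, ∀ t ∈ Icc 0 (2 * π), HasDerivAt w (w' t) t ∧
      (A t + l) * w t ^ p + B t * w t ^ q < w' t)
    (hX : ∀ t ∈ Icc 0 (2 * π), HasDerivWithinAt X
      ((A t + l) * clip u₁ u₂ t (X t) ^ p + B t * clip u₁ u₂ t (X t) ^ q) (Icc 0 (2 * π)) t)
    (h0 : X 0 ≤ w 0) : ∀ t ∈ Icc 0 (2 * π), X t ≤ w t := by
  obtain ⟨w', hw'⟩ := hw
  intro t ht
  refine image_le_of_deriv_right_lt_deriv_boundary' (a := 0) (b := 2 * π)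
    (f' := fun t => (A t + l) * clip u₁ u₂ t (X t) ^ p + B t * clip u₁ u₂ t (X t) ^ q)
    (B' := w') (fun s hs => (hX s hs).continuousWithinAt) ?_ h0
    (fun s hs => (hw' s hs).1.continuousAt.continuousWithinAt)
    (fun s hs => (hw' s (Ico_subset_Icc_self hs)).1.hasDerivWithinAt) ?_ ht
  · intro s hs
    exact (hX s (Ico_subset_Icc_self hs)).mono_of_mem_nhdsWithin (Icc_mem_nhdsGE_of_mem hs)
  · intro s hs he
    have hs' := Ico_subset_Icc_self hs
    have hc : clip u₁ u₂ s (X s) = w s := by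
      unfold clip
      rw [he, min_eq_left (hw2 s hs').le, max_eq_right (hw1 s hs').le]
    simp only [hc]
    exact (hw' s hs').2

end Pool.Agent.AbelLT
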