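import Pool.Agent.Lib.MP_bb703b_an.Lin

set_option autoImplicit false

open Real Set MeasureTheory intervalIntegral

/-!
Rows SUP1, SUP2: local supersolutions near a periodic solution.

Let `f(t,x) = A x^p + B x^q`, `η = v^q E`, `E = expo p q A v`; `η' = f_x(t,v) η` with
`f_x(t,v) = p A v^(p-1) + q B v^(q-1)` (because `(v^q)' = q v^(q-1)(A v^p+B v^q)` and
`E' = (p-q) A v^(p-1) E`).
-/

namespace Pool.Agent.AbelLT

variable {p q : ℕ} {A B v : ℝ → ℝ}

theorem expo_hd (hA : Continuous A) (hv : Continuous v) (t : ℝ) :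
    HasDerivAt (expo p q A v) (expo p q A v t * ((p - q : ℕ) * (A t * v t ^ (p - 1)))) t := by
  have hm : Continuous fun s => A s * v s ^ (p - 1) := by fun_prop
  have h1 : HasDerivAt (fun t => ∫ s in (0:ℝ)..t, A s * v s ^ (p - 1)) (A t * v t ^ (p - 1)) t :=
    intervalIntegral.integral_hasDerivAt_right (hm.intervalIntegrable _ _)
      (hm.stronglyMeasurableAtFilter _ _) hm.continuousAt
  exact (h1.const_mul ((p - q : ℕ) : ℝ)).exp

theorem eta_hd (hq : 2 ≤ q) (hpq : q < p) (hA : Continuous A) (hv : PosPer p q A B v) (t : ℝ) :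
    HasDerivAt (fun t => v t ^ q * expo p q A v t)
      ((p * (A t * v t ^ (p - 1)) + q * (B t * v t ^ (q - 1))) *
        (v t ^ q * expo p q A v t)) t := by
  refine (((hv.sol.hd t).pow q).mul (expo_hd hA hv.sol.cont t)).congr_deriv ?_
  have h1 : v t ^ p = v t ^ (p - 1) * v t := by rw [← pow_succ]; congr 1; omega
  have h2 : v t ^ q = v t ^ (q - 1) * v t := by rw [← pow_succ]; congr 1; omega
  have h3 : ((p - q : ℕ) : ℝ) = (p : ℝ) - q := by rw [Nat.cast_sub hpq.le]
  simp only [Pi.pow_apply]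
  rw [h1, h2, h3]
  ring

theorem expo_zero (p q : ℕ) (A v : ℝ → ℝ) : expo p q A v 0 = 1 := by
  simp [expo]

theorem expo_pos (p q : ℕ) (A v : ℝ → ℝ) (t : ℝ) : 0 < expo p q A v t := exp_pos _

theorem expo_cont (hA : Continuous A) (hv : Continuous v) : Continuous (expo p q A v) :=
  continuous_iff_continuousAt.2 fun t => (expo_hd hA hv t).continuousAt

theorem expo_two_pi (hL : (∫ t in (0:ℝ)..(2 * π), A t * v t ^ (p - 1)) = 0) :
    expo p q A v (2 * π) = 1 := by
  simp [expo, hL]

theorem expo_per (hA : Continuous A) (hv : Continuous v) (perA : ∀ t, A (t + 2 * π) = A t)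
    (perv : ∀ t, v (t + 2 * π) = v t)
    (hL : (∫ t in (0:ℝ)..(2 * π), A t * v t ^ (p - 1)) = 0) (t : ℝ) :
    expo p q A v (t + 2 * π) = expo p q A v t := by
  have hm : Continuous fun s => A s * v s ^ (p - 1) := by fun_prop
  have hP : Function.Periodic (fun s => A s * v s ^ (p - 1)) (2 * π) := fun s => by
    simp only [perA, perv]
  have h1 := hP.intervalIntegral_add_eq t 0
  rw [zero_add, hL] at h1
  have h2 : (∫ s in (0:ℝ)..(t + 2 * π), A s * v s ^ (p - 1)) =
      ∫ s in (0:ℝ)..t, A s * v s ^ (p - 1) := by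
    rw [← intervalIntegral.integral_add_adjacent_intervals (hm.intervalIntegrable 0 t)
      (hm.intervalIntegrable t (t + 2 * π)), h1, add_zero]
  simp only [expo, h2]

end Pool.Agent.AbelLT
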