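import Pool.Agent.Lib.MP_bb703b_an.Signs
import Pool.Agent.Lib.MP_bb703b_an.Super0

set_option autoImplicit false

open Real Set MeasureTheory intervalIntegral

/-!
Row INT3: (S4), the sign of the second derivative at a double cycle.

Let `r = p - q`, `N y = b y^r - a`, `E = expo p q A v` (so `E' = r A v^(p-1) E`, `E (t+2π) = E t`
because the integral over a period vanishes),
`h y = b (q-1)/(p-1) y^(p-1) - a y^(q-1)` (derivative `(q-1) y^(q-2) N y`), `C0 = h x / r`,
`Ψ y = (b y^(p-1)/(p-1) + C0)/N y`, `η y = y^q y^(r-1) (h y - h x)/N y ^ 2`.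
Then `y^(p+q-2) - r y^(p-1) Ψ y - y^p Ψ' y = - a η y` and `y^q Ψ' y = b η y`
(`Ψ' y = (b y^(p-2) N y - (b y^(p-1)/(p-1) + C0) r b y^(r-1))/N y ^2`), hence
`E A v^(p+q-2) - (E Ψ(v))' = - E η(v) (a A + b B)`.  Integrate: `∫ (E Ψ(v))' = 0` (periodic),
and `∫ E η(v)(aA+bB) > 0` by `cert_integral_pos` (`η` has the sign of `y - x` because
`h` is strictly increasing between `x` and `y`: `N > 0` there, since `N` is monotone and positive
at both ends).
-/

namespace Pool.Agent.AbelLT

variable {p q : ℕ} {A B v : ℝ → ℝ} {a b x : ℝ}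

theorem h_lt (hq : 2 ≤ q) (hpq : q < p) {y x : ℝ} (hx : 0 < x) (hxy : x < y)
    (Ny : 0 < b * y ^ (p - q) - a) (Nx : 0 < b * x ^ (p - q) - a) :
    (b * ((q : ℝ) - 1) / ((p : ℝ) - 1) * x ^ (p - 1) - a * x ^ (q - 1)) <
    (b * ((q : ℝ) - 1) / ((p : ℝ) - 1) * y ^ (p - 1) - a * y ^ (q - 1)) := by
  have hq1 : (0:ℝ) < (q : ℝ) - 1 := by
    have : (2:ℝ) ≤ q := by exact_mod_cast hq
    linarith
  have hp1 : (0:ℝ) < (p : ℝ) - 1 := by
    have : (2:ℝ) ≤ q := by exact_mod_cast hq
    have : (q:ℝ) < p := by exact_mod_cast hpq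
    linarith
  have c1 : ((p - 1 : ℕ) : ℝ) = (p : ℝ) - 1 := by rw [Nat.cast_sub (by omega)]; simp
  have c2 : ((q - 1 : ℕ) : ℝ) = (q : ℝ) - 1 := by rw [Nat.cast_sub (by omega)]; simp
  have hd : ∀ s : ℝ, HasDerivAt
      (fun s => b * ((q : ℝ) - 1) / ((p : ℝ) - 1) * s ^ (p - 1) - a * s ^ (q - 1))
      (((q : ℝ) - 1) * s ^ (q - 2) * (b * s ^ (p - q) - a)) s := fun s => by
    refine (((hasDerivAt_pow (p - 1) s).const_mul (b * ((q : ℝ) - 1) / ((p : ℝ) - 1))).sub
      ((hasDerivAt_pow (q - 1) s).const_mul a)).congr_deriv ?_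
    have e1 : s ^ (p - 1 - 1) = s ^ (q - 2) * s ^ (p - q) := by
      rw [← pow_add]; congr 1; omega
    have e2 : q - 1 - 1 = q - 2 := by omega
    rw [e1, e2, c1, c2]
    field_simp
  have hmono : StrictMonoOn
      (fun s => b * ((q : ℝ) - 1) / ((p : ℝ) - 1) * s ^ (p - 1) - a * s ^ (q - 1)) (Icc x y) := by
    apply strictMonoOn_of_deriv_pos (convex_Icc x y)
    · exact fun s _ => (hd s).continuousAt.continuousWithinAt
    · intro s hs
      rw [interior_Icc] at hs
      rw [(hd s).deriv]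
      have hs0 : 0 < s := hx.trans hs.1
      have hN : 0 < b * s ^ (p - q) - a := by
        have h1 : x ^ (p - q) ≤ s ^ (p - q) := pow_le_pow_left₀ hx.le hs.1.le _
        have h2 : s ^ (p - q) ≤ y ^ (p - q) := pow_le_pow_left₀ hs0.le hs.2.le _
        rcases le_total 0 b with hb | hb
        · have := mul_le_mul_of_nonneg_left h1 hb
          linarith
        · have := mul_le_mul_of_nonpos_left h2 hb
          linarith
      have := pow_pos hs0 (q - 2)
      positivity
  exact hmono (left_mem_Icc.2 hxy.le) (right_mem_Icc.2 hxy.le) hxy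

theorem h_sign (hq : 2 ≤ q) (hpq : q < p) {y x : ℝ} (hy : 0 < y) (hx : 0 < x) (hyx : y ≠ x)
    (Ny : 0 < b * y ^ (p - q) - a) (Nx : 0 < b * x ^ (p - q) - a) :
    0 < ((b * ((q : ℝ) - 1) / ((p : ℝ) - 1) * y ^ (p - 1) - a * y ^ (q - 1)) -
      (b * ((q : ℝ) - 1) / ((p : ℝ) - 1) * x ^ (p - 1) - a * x ^ (q - 1))) * (y - x) := by
  rcases lt_or_gt_of_ne hyx with h | h
  · exact mul_pos_of_neg_of_neg (sub_neg.2 (h_lt hq hpq hy h Nx Ny)) (sub_neg.2 h)
  · exact mul_pos (sub_pos.2 (h_lt hq hpq hx h Ny Nx)) (sub_pos.2 h)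

theorem sign_S4 (hq : 2 ≤ q) (hpq : q < p) (hA : Continuous A) (hB : Continuous B)
    (perA : ∀ t, A (t + 2 * π) = A t) (perB : ∀ t, B (t + 2 * π) = B t)
    (hv : PosPer p q A B v) (hc : Cert p q A B v a b x)
    (hL : (∫ t in (0:ℝ)..(2 * π), A t * v t ^ (p - 1)) = 0) :
    (∫ t in (0:ℝ)..(2 * π), expo p q A v t * (A t * v t ^ (p + q - 2))) < 0 := by
  have hN := N_ne hc
  have hNp := N_pos hc
  have hr := range_pos hv
  have hx := cert_pos hv hc
  have hvc := hv.sol.cont
  have hEc := expo_cont (p := p) (q := q) hA hvc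
  have hxr : x ∈ range v := by obtain ⟨t, ht⟩ := hc.mem; exact ⟨t, ht⟩
  set r : ℝ := ((p - q : ℕ) : ℝ) with hrdef
  have hr' : r = (p : ℝ) - q := by rw [hrdef, Nat.cast_sub hpq.le]
  have hr0 : 0 < r := by
    have : (q:ℝ) < p := by exact_mod_cast hpq
    rw [hr']; linarith
  have hp1 : (0:ℝ) < (p : ℝ) - 1 := by
    have : (2:ℝ) ≤ q := by exact_mod_cast hq
    have : (q:ℝ) < p := by exact_mod_cast hpq
    linarith
  have c1 : ((p - 1 : ℕ) : ℝ) = (p : ℝ) - 1 := by rw [Nat.cast_sub (by omega)]; simp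
  set h : ℝ → ℝ := fun y => b * ((q : ℝ) - 1) / ((p : ℝ) - 1) * y ^ (p - 1) - a * y ^ (q - 1)
    with hh
  set C0 : ℝ := h x / r with hC0
  set Ψ : ℝ → ℝ := fun y => (b * y ^ (p - 1) / ((p : ℝ) - 1) + C0) / (b * y ^ (p - q) - a) with hΨ
  set η : ℝ → ℝ := fun y => y ^ q * y ^ (p - q - 1) * (h y - h x) / (b * y ^ (p - q) - a) ^ 2
    with hη
  -- derivative of Ψ: y^q Ψ' = b η
  have hΨd : ∀ y ∈ range v, HasDerivAt Ψ
      (b * y ^ (p - q - 1) * (h y - h x) / (b * y ^ (p - q) - a) ^ 2) y := by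
    intro y hy
    have hNy := hN y hy
    have d1 : HasDerivAt (fun y : ℝ => b * y ^ (p - 1) / ((p : ℝ) - 1) + C0)
        (b * y ^ (p - 2)) y := by
      refine ((((hasDerivAt_pow (p - 1) y).const_mul b).div_const ((p : ℝ) - 1)).add_const
        C0).congr_deriv ?_
      have e2 : p - 1 - 1 = p - 2 := by omega
      rw [e2, c1]
      field_simp
    have d2 : HasDerivAt (fun y : ℝ => b * y ^ (p - q) - a) (b * (r * y ^ (p - q - 1))) y := by
      exact ((hasDerivAt_pow (p - q) y).const_mul b).sub_const a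
    refine (d1.div d2 hNy).congr_deriv ?_
    have e1 : y ^ (p - 2) = y ^ (p - q - 1) * y ^ (q - 1) := by
      rw [← pow_add]; congr 1; omega
    have e3 : y ^ (p - 1) = y ^ (q - 1) * y ^ (p - q) := by
      rw [← pow_add]; congr 1; omega
    congr 1
    have e4 : r * C0 = h x := by rw [hC0]; field_simp
    have e5 : h y = b * y ^ (p - 1) - a * y ^ (q - 1) - r * (b * y ^ (p - 1) / ((p : ℝ) - 1)) := by
      simp only [hh]
      rw [hr']
      field_simp
      ring
    rw [e1]
    have e6 : h y - h x = (b * y ^ (p - 1) - a * y ^ (q - 1)) -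
        r * (b * y ^ (p - 1) / ((p : ℝ) - 1) + C0) := by
      rw [mul_add, e4, e5]; ring
    rw [e6]
    linear_combination (-(b * b * y ^ (p - q - 1))) * e3
  -- continuity
  have hcN : ContinuousOn (fun y : ℝ => b * y ^ (p - q) - a) (range v) := by fun_prop
  have hch : Continuous h := by simp only [hh]; fun_prop
  have hηc : ContinuousOn η (range v) :=
    ContinuousOn.div (by fun_prop) (by fun_prop) fun y hy => pow_ne_zero 2 (hN y hy)
  have hηc' := cont_range hv hηc
  -- the derivative identity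
  have key : ∀ t, HasDerivAt (fun t => expo p q A v t * Ψ (v t))
      (expo p q A v t * (A t * v t ^ (p + q - 2)) +
        expo p q A v t * (η (v t) * (a * A t + b * B t))) t := by
    intro t
    have hy : v t ∈ range v := mem_range_self t
    have hNy := hN _ hy
    refine ((expo_hd hA hvc t).mul ((hΨd _ hy).comp t (hv.sol.hd t))).congr_deriv ?_
    simp only [Function.comp_apply]
    generalize v t = y at *
    have e1 : y ^ (p + q - 2) = y ^ (p - 1) * y ^ (q - 1) := by
      rw [← pow_add]; congr 1; omega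
    have e2 : y ^ p = y ^ (p - q) * y ^ q := by
      rw [← pow_add]; congr 1; omega
    have e3 : y ^ (p - 1) = y ^ q * y ^ (p - q - 1) := by
      rw [← pow_add]; congr 1; omega
    have e4 : r * C0 = h x := by rw [hC0]; field_simp
    have e5 : h y = b * y ^ (p - 1) - a * y ^ (q - 1) - r * (b * y ^ (p - 1) / ((p : ℝ) - 1)) := by
      simp only [hh]
      rw [hr']
      field_simp
      ring
    have e6 : y ^ (p - 1) = y ^ (q - 1) * y ^ (p - q) := by
      rw [← pow_add]; congr 1; omega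
    -- y^(q-1) - r Ψ = (h y - h x)/N
    have f1 : y ^ (q - 1) - r * Ψ y = (h y - h x) / (b * y ^ (p - q) - a) := by
      simp only [hΨ]
      rw [eq_div_iff hNy, sub_mul, mul_assoc, div_mul_cancel₀ _ hNy, mul_add, e4, e5]
      linear_combination (-b) * e6
    have f2 : η y * (b * y ^ (p - q) - a) = y ^ (p - 1) * ((h y - h x) / (b * y ^ (p - q) - a)) := by
      simp only [hη]
      rw [e3, pow_two]
      field_simp
    have f3 : y ^ q * (b * y ^ (p - q - 1) * (h y - h x) / (b * y ^ (p - q) - a) ^ 2) = b * η y := by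
      simp only [hη]
      ring
    rw [e1, e2]
    have f4 : b * y ^ (p - q - 1) * (h y - h x) / (b * y ^ (p - q) - a) ^ 2 *
        (A t * (y ^ (p - q) * y ^ q) + B t * y ^ q) = b * η y * (A t * y ^ (p - q) + B t) := by
      rw [← f3]; ring
    rw [f4]
    have f5 : r * Ψ y = y ^ (q - 1) - (h y - h x) / (b * y ^ (p - q) - a) := by linarith
    have f6 : expo p q A v t * (r * (A t * y ^ (p - 1))) * Ψ y =
        expo p q A v t * (A t * y ^ (p - 1)) * (r * Ψ y) := by ring
    rw [f6, f5]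
    linear_combination (expo p q A v t * A t) * f2
  have hEv : expo p q A v (2 * π) * Ψ (v (2 * π)) = expo p q A v 0 * Ψ (v 0) := by
    rw [expo_two_pi hL, expo_zero]
    have := hv.sol.per 0
    rw [zero_add] at this
    rw [this]
  have hint := integral_eq_sub_of_hasDerivAt (a := 0) (b := 2 * π) (fun t _ => key t)
    (Continuous.intervalIntegrable ((hEc.mul (hA.mul (hvc.pow _))).add
      (hEc.mul (hηc'.mul ((continuous_const.mul hA).add (continuous_const.mul hB))))) _ _)
  rw [hEv, sub_self] at hint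
  have i1 : IntervalIntegrable (fun t => expo p q A v t * (A t * v t ^ (p + q - 2))) volume 0
      (2 * π) := (hEc.mul (hA.mul (hvc.pow _))).intervalIntegrable _ _
  have i2 : IntervalIntegrable (fun t => expo p q A v t * (η (v t) * (a * A t + b * B t))) volume 0
      (2 * π) := (hEc.mul (hηc'.mul ((continuous_const.mul hA).add
        (continuous_const.mul hB)))).intervalIntegrable _ _
  rw [intervalIntegral.integral_add i1 i2] at hint
  have hpos := cert_integral_pos hA hB perA perB hv hc (η := η) (E := expo p q A v) hηc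
    (by simp [hη]) (fun y hy hyx => by
      simp only [hη]
      have := h_sign hq hpq (hr y hy) hx hyx (hNp y hy) (hNp x hxr)
      have h1 := pow_pos (hr y hy) q
      have h2 := pow_pos (hr y hy) (p - q - 1)
      have h3 := pow_pos (hNp y hy) 2
      rw [div_mul_eq_mul_div, mul_assoc (y ^ q * y ^ (p - q - 1))]
      exact div_pos (mul_pos (mul_pos h1 h2) this) h3)
    hEc (expo_per hA hvc perA hv.sol.per hL) (expo_pos p q A v)
  linarith

end Pool.Agent.AbelLT
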