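import Pool.Agent.Lib.MP_bb703b_an.Defs

set_option autoImplicit false

open Real Set

/-!
Row M4: for large `l` clipped solutions increase.
(`clip ∈ [u₁,u₂] ⊆ [c₁,c₂]`, `c₁ > 0`; choose `L c₁^p > sup |A| c₂^p + sup |B| c₂^q`; positive
derivative on `[0,2π]`.)
-/

namespace Pool.Agent.AbelLT

variable {p q : ℕ} {A B u₁ u₂ : ℝ → ℝ}

/-- for large `l` the clipped solutions increase strictly. -/
theorem large_l (hA : Continuous A) (hB : Continuous B)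
    (h₁ : ContinuousOn u₁ (Icc 0 (2 * π))) (h₂ : ContinuousOn u₂ (Icc 0 (2 * π)))
    (h12 : ∀ t ∈ Icc 0 (2 * π), u₁ t < u₂ t) (hpos : ∀ t ∈ Icc 0 (2 * π), 0 < u₁ t) :
    ∃ L : ℝ, 0 < L ∧ ∀ X : ℝ → ℝ, (∀ t ∈ Icc 0 (2 * π), HasDerivWithinAt X
      ((A t + L) * clip u₁ u₂ t (X t) ^ p + B t * clip u₁ u₂ t (X t) ^ q) (Icc 0 (2 * π)) t) →
      X 0 < X (2 * π) := by
  have hne : (Icc (0:ℝ) (2 * π)).Nonempty := nonempty_Icc.2 (by positivity)
  obtain ⟨t1, ht1, hm1⟩ := isCompact_Icc.exists_isMinOn hne h₁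
  obtain ⟨t2, ht2, hm2⟩ := isCompact_Icc.exists_isMaxOn hne h₂
  obtain ⟨t3, ht3, hm3⟩ := isCompact_Icc.exists_isMaxOn hne hA.abs.continuousOn
  obtain ⟨t4, ht4, hm4⟩ := isCompact_Icc.exists_isMaxOn hne hB.abs.continuousOn
  have c1pos : 0 < u₁ t1 := hpos t1 ht1
  have hmin : ∀ t ∈ Icc 0 (2 * π), u₁ t1 ≤ u₁ t := fun t ht => hm1 ht
  have hmax : ∀ t ∈ Icc 0 (2 * π), u₂ t ≤ u₂ t2 := fun t ht => hm2 ht
  have hmA : ∀ t ∈ Icc 0 (2 * π), |A t| ≤ |A t3| := fun t ht => hm3 ht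
  have hmB : ∀ t ∈ Icc 0 (2 * π), |B t| ≤ |B t4| := fun t ht => hm4 ht
  have c2pos : 0 < u₂ t2 := (hpos t2 ht2).trans (h12 t2 ht2)
  set K := |A t3| * u₂ t2 ^ p + |B t4| * u₂ t2 ^ q + 1 with hK
  have hKpos : 0 < K := by positivity
  have hc1p : 0 < u₁ t1 ^ p := by positivity
  refine ⟨K / u₁ t1 ^ p, div_pos hKpos hc1p, fun X hX => ?_⟩
  have hder : ∀ t ∈ Icc 0 (2 * π), 0 < (A t + K / u₁ t1 ^ p) * clip u₁ u₂ t (X t) ^ p +
      B t * clip u₁ u₂ t (X t) ^ q := by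
    intro t ht
    set c := clip u₁ u₂ t (X t) with hc
    have hc1 : u₁ t1 ≤ c := (hmin t ht).trans (le_max_left _ _)
    have hc2 : c ≤ u₂ t2 := by
      apply le_trans _ (hmax t ht)
      exact max_le (h12 t ht).le (min_le_right _ _)
    have hc0 : 0 < c := c1pos.trans_le hc1
    have e1 : K ≤ K / u₁ t1 ^ p * c ^ p := by
      have : u₁ t1 ^ p ≤ c ^ p := pow_le_pow_left₀ c1pos.le hc1 _
      calc K = K / u₁ t1 ^ p * u₁ t1 ^ p := by rw [div_mul_cancel₀ _ hc1p.ne']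
        _ ≤ _ := by gcongr
    have e2 : |A t * c ^ p| ≤ |A t3| * u₂ t2 ^ p := by
      rw [abs_mul, abs_of_pos (pow_pos hc0 p)]
      exact mul_le_mul (hmA t ht) (pow_le_pow_left₀ hc0.le hc2 _) (by positivity) (abs_nonneg _)
    have e3 : |B t * c ^ q| ≤ |B t4| * u₂ t2 ^ q := by
      rw [abs_mul, abs_of_pos (pow_pos hc0 q)]
      exact mul_le_mul (hmB t ht) (pow_le_pow_left₀ hc0.le hc2 _) (by positivity) (abs_nonneg _)
    have e4 := neg_abs_le (A t * c ^ p)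
    have e5 := neg_abs_le (B t * c ^ q)
    rw [add_mul]
    linarith
  have hmono : StrictMonoOn X (Icc 0 (2 * π)) := by
    apply strictMonoOn_of_deriv_pos (convex_Icc _ _)
    · exact fun t ht => (hX t ht).continuousWithinAt
    · intro t ht
      rw [interior_Icc] at ht
      rw [((hX t (Ioo_subset_Icc_self ht)).hasDerivAt (Icc_mem_nhds ht.1 ht.2)).deriv]
      exact hder t (Ioo_subset_Icc_self ht)
  exact hmono (left_mem_Icc.2 (by positivity)) (right_mem_Icc.2 (by positivity)) (by positivity)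

end Pool.Agent.AbelLT
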