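import Pool.Agent.Lib.MP_bb703b_an.Defs

set_option autoImplicit false

open Real Set

/-!
Row M1.
-/

namespace Pool.Agent.AbelLT

/-- M1 (topology).  `D` continuous on `K × [0,L]`, positive for `l = L`.  If for every
`l > 0` and every zero `h` of `D(·,l)` there is `h'` with `D(h',l) < 0`, then `D(·,0) ≥ 0`.
Proof: if `D(h₀,0) < 0`, the set `{l ∈ [0,L] | ∃ h ∈ K, D(h,l) ≤ 0}` is compact, nonempty; let `m`
be its maximum, `m < L`.  By continuity in `l` no `h` has `D(h,m) < 0` (else `D(h,l) ≤ 0` for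
`l` slightly larger); so `D(h,m) = 0` for some `h`; `m > 0` by the same argument at `h₀`;
contradiction with the hypothesis. -/
theorem topM {c d L : ℝ} (hcd : c ≤ d) (hL : 0 < L) {D : ℝ × ℝ → ℝ}
    (hD : ContinuousOn D (Icc c d ×ˢ Icc 0 L)) (hDL : ∀ h ∈ Icc c d, 0 < D (h, L))
    (H : ∀ l, 0 < l → l ≤ L → ∀ h ∈ Icc c d, D (h, l) = 0 → ∃ h' ∈ Icc c d, D (h', l) < 0) :
    ∀ h ∈ Icc c d, 0 ≤ D (h, 0) := by
  intro h₀ hh₀
  by_contra hneg
  push Not at hneg
  -- the compact set of bad pairs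
  set K := Icc c d ×ˢ Icc 0 L with hK
  have hKc : IsCompact K := isCompact_Icc.prod isCompact_Icc
  set S := K ∩ D ⁻¹' Iic 0 with hS
  have hSc : IsCompact S :=
    hKc.of_isClosed_subset (hD.preimage_isClosed_of_isClosed hKc.isClosed isClosed_Iic)
      inter_subset_left
  have hSne : S.Nonempty := ⟨(h₀, 0), ⟨hh₀, left_mem_Icc.2 hL.le⟩, hneg.le⟩
  obtain ⟨z, hz, hmax⟩ := hSc.exists_isMaxOn hSne (continuous_snd.continuousOn)
  obtain ⟨⟨hz1, hz2⟩, hz3⟩ := hz
  have hmax' : ∀ w ∈ S, w.2 ≤ z.2 := fun w hw => hmax hw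
  -- continuity in l: if `D (h,l) < 0` there is a larger `l'` with `D (h,l') ≤ 0`
  have hup : ∀ h ∈ Icc c d, ∀ l ∈ Icc 0 L, D (h, l) < 0 → l < z.2 := by
    intro h hh l hl hDneg
    have hlL : l < L := by
      rcases eq_or_lt_of_le hl.2 with e | e
      · rw [e] at hDneg
        linarith [hDL h hh]
      · exact e
    have hcw : ContinuousWithinAt (fun l => D (h, l)) (Icc 0 L) l := by
      have h1 : ContinuousOn (fun l => D (h, l)) (Icc 0 L) :=
        hD.comp (by fun_prop) fun l hl => ⟨hh, hl⟩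
      exact h1 l hl
    have hev : ∀ᶠ l' in nhdsWithin l (Icc 0 L), D (h, l') < 0 :=
      hcw.eventually_lt continuousWithinAt_const hDneg
    have hsub : Ioo l L ⊆ Icc 0 L := fun y hy => ⟨hl.1.trans hy.1.le, hy.2.le⟩
    have hev2 : ∀ᶠ l' in nhdsWithin l (Ioo l L), D (h, l') < 0 :=
      hev.filter_mono (nhdsWithin_mono _ hsub)
    have hnb : (nhdsWithin l (Ioo l L)).NeBot := by
      rw [nhdsWithin_Ioo_eq_nhdsGT hlL]; infer_instance
    obtain ⟨l', hl', hl'2⟩ := (hev2.and self_mem_nhdsWithin).exists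
    have := hmax' (h, l') ⟨⟨hh, hl.1.trans hl'2.1.le, hl'2.2.le⟩, hl'.le⟩
    exact hl'2.1.trans_le this
  have hz0 : 0 < z.2 := hup h₀ hh₀ 0 (left_mem_Icc.2 hL.le) hneg
  have hDz : D (z.1, z.2) = 0 := by
    apply le_antisymm hz3
    by_contra hc
    push Not at hc
    exact lt_irrefl _ (hup z.1 hz1 z.2 hz2 hc)
  obtain ⟨h', hh', hD'⟩ := H z.2 hz0 hz2.2 z.1 hz1 hDz
  exact lt_irrefl _ (hup h' hh' z.2 hz2 hD')

end Pool.Agent.AbelLT
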