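import Pool.Agent.Lib.MP_bb703b_an.Defs

set_option autoImplicit false

open Real Set

/-!
Row EXT: periodic extension of a solution on `[0,2π]` with equal end values.
Take `v t = X (t - 2π ⌊t/(2π)⌋)`.
-/

namespace Pool.Agent.AbelLT

theorem extend_periodic {F : ℝ → ℝ → ℝ} (hF : ∀ t x, F (t + 2 * π) x = F t x) {X : ℝ → ℝ}
    (hX : ∀ t ∈ Icc 0 (2 * π), HasDerivWithinAt X (F t (X t)) (Icc 0 (2 * π)) t)
    (h : X (2 * π) = X 0) :
    ∃ v : ℝ → ℝ, (∀ t ∈ Icc 0 (2 * π), v t = X t) ∧ (∀ t, v (t + 2 * π) = v t) ∧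
      ∀ t, HasDerivAt v (F t (v t)) t := by
  have hP : 0 < 2 * π := two_pi_pos
  set P : ℝ := 2 * π with hPdef
  clear_value P
  have hFn : ∀ (n : ℤ) t x, F (t - n * P) x = F t x := by
    intro n t x
    have : Function.Periodic (fun t => F t x) P := fun t => hF t x
    exact this.sub_int_mul_eq n
  let v : ℝ → ℝ := fun t => X (t - ⌊t / P⌋ * P)
  -- key: the value on each closed period
  have key : ∀ (n : ℤ), ∀ s ∈ Icc (n * P) (n * P + P), v s = X (s - n * P) := by
    intro n s hs
    have hle : (n : ℝ) ≤ s / P := by rw [le_div_iff₀ hP]; exact hs.1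
    rcases eq_or_lt_of_le hs.2 with he | hlt
    · have hfl : ⌊s / P⌋ = n + 1 := by
        have : s / P = ((n + 1 : ℤ) : ℝ) := by
          rw [he]; push_cast; field_simp
        rw [this, Int.floor_intCast]
      have e1 : s - ((n + 1 : ℤ) : ℝ) * P = 0 := by rw [he]; push_cast; ring
      have e2 : s - (n : ℝ) * P = P := by rw [he]; ring
      show X (s - ⌊s / P⌋ * P) = X (s - n * P)
      rw [hfl, e1, e2, h]
    · have hfl : ⌊s / P⌋ = n := by
        rw [Int.floor_eq_iff]
        refine ⟨hle, ?_⟩
        rw [div_lt_iff₀ hP]; linarith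
      show X (s - ⌊s / P⌋ * P) = X (s - n * P)
      rw [hfl]
  have hd : ∀ (n : ℤ) (t : ℝ),
      HasDerivWithinAt v (F t (v t)) (Icc (n * P) (n * P + P)) t := by
    intro n t
    by_cases ht : t ∈ Icc (n * P) (n * P + P)
    · have hm : t - n * P ∈ Icc 0 P := ⟨by linarith [ht.1], by linarith [ht.2]⟩
      have h1 := hX _ hm
      have h2 : HasDerivWithinAt (fun s : ℝ => s - n * P) 1 (Icc (n * P) (n * P + P)) t :=
        ((hasDerivAt_id t).sub_const _).hasDerivWithinAt
      have hmaps : MapsTo (fun s : ℝ => s - n * P) (Icc (n * P) (n * P + P)) (Icc 0 P) := by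
        intro s hs
        exact ⟨by simp only; linarith [hs.1], by simp only; linarith [hs.2]⟩
      have h3 := HasDerivWithinAt.comp t h1 h2 hmaps
      have h4 : HasDerivWithinAt v (F (t - n * P) (X (t - n * P)) * 1)
          (Icc (n * P) (n * P + P)) t :=
        h3.congr (fun s hs => key n s hs) (key n t ht)
      rw [mul_one, hFn, ← key n t ht] at h4
      exact h4
    · have hc : t ∉ closure (Icc ((n : ℝ) * P) (n * P + P)) := by
        rwa [isClosed_Icc.closure_eq]
      exact (hasDerivWithinAt_iff_hasFDerivWithinAt).2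
        (HasFDerivWithinAt.of_notMem_closure hc)
  refine ⟨v, ?_, ?_, ?_⟩
  · intro t ht
    have := key 0 t (by simpa using ht)
    simpa using this
  · intro t
    show X (t + P - ⌊(t + P) / P⌋ * P) = X (t - ⌊t / P⌋ * P)
    have e : (t + P) / P = t / P + 1 := by field_simp
    rw [e, Int.floor_add_one]
    congr 1
    push_cast
    ring
  · intro t
    set n : ℤ := ⌊t / P⌋ with hn
    have h1 : n * P ≤ t := by
      have := Int.floor_le (t / P)
      rw [le_div_iff₀ hP] at this
      exact this
    have h2 : t < n * P + P := by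
      have := Int.lt_floor_add_one (t / P)
      rw [div_lt_iff₀ hP] at this
      have e : ((⌊t / P⌋ : ℝ) + 1) * P = n * P + P := by rw [hn]; ring
      rw [e] at this
      exact this
    have hu := (hd (n - 1) t).union (hd n t)
    apply hu.hasDerivAt
    have e : ((n - 1 : ℤ) : ℝ) * P = n * P - P := by push_cast; ring
    rw [e, sub_add_cancel, Icc_union_Icc_eq_Icc (by linarith) (by linarith)]
    exact Icc_mem_nhds (by linarith) h2

end Pool.Agent.AbelLT
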