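import Pool.Agent.Lib.MP_bb703b_an.Lin
import Pool.Agent.Lib.MP_bb703b_an.Ext
import Pool.Agent.Lib.MP_bb703b_an.Comp

set_option autoImplicit false

open Real Set

/-!
Row M2.
-/

namespace Pool.Agent.AbelLT

variable {p q : ℕ} {A B u₁ u₂ : ℝ → ℝ}

/-- M2.  A solution `X` of the clipped `l`-equation (`l ≥ 0`) between two positive periodic
solutions `u₁ < u₂` of the `0`-equation with `X (2π) = X 0 ∈ [u₁ 0, u₂ 0]` is (the restriction of)
a positive periodic solution `v` of the `l`-equation; if `l > 0` then `u₁ < v < u₂`.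
(`clip_lower`, `clip_upper`: `u₁ ≤ X ≤ u₂`, so the clip is inactive; `extend_periodic`;
strictness: at a touching time the derivatives of `v` and `uᵢ` differ by `l uᵢ^p > 0`, but
`v - u₁ ≥ 0` has a minimum there.) -/
theorem clipped_zero (hA : Continuous A) (hB : Continuous B)
    (perA : ∀ t, A (t + 2 * π) = A t) (perB : ∀ t, B (t + 2 * π) = B t)
    (h1 : PosPer p q A B u₁) (h2 : PosPer p q A B u₂) (h12 : ∀ t, u₁ t < u₂ t)
    {l : ℝ} (hl : 0 < l) {X : ℝ → ℝ}
    (hX : ∀ t ∈ Icc 0 (2 * π), HasDerivWithinAt X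
      ((A t + l) * clip u₁ u₂ t (X t) ^ p + B t * clip u₁ u₂ t (X t) ^ q) (Icc 0 (2 * π)) t)
    (h0 : X 0 ∈ Icc (u₁ 0) (u₂ 0)) (hret : X (2 * π) = X 0) :
    ∃ v, PosPer p q (fun t => A t + l) B v ∧ (∀ t ∈ Icc 0 (2 * π), v t = X t) ∧
      (∀ t, u₁ t < v t) ∧ ∀ t, v t < u₂ t := by
  have H12 : ∀ t ∈ Icc 0 (2 * π), u₁ t < u₂ t := fun t _ => h12 t
  have Hpos : ∀ t ∈ Icc 0 (2 * π), 0 < u₁ t := fun t _ => h1.pos t
  have hlow := clip_lower H12 Hpos hl.le
    ⟨fun t => A t * u₁ t ^ p + B t * u₁ t ^ q, fun t _ => ⟨h1.sol.hd t, le_rfl⟩⟩ hX h0.1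
  have hu2 : u₂ (2 * π) = u₂ 0 := by
    have := h2.sol.per 0
    rwa [zero_add] at this
  have hupp := clip_upper H12 Hpos hl.le
    ⟨fun t => A t * u₂ t ^ p + B t * u₂ t ^ q, fun t _ => ⟨h2.sol.hd t, le_rfl⟩⟩ hX
    (by rw [hret, hu2]; exact h0.2)
  have hclip : ∀ t ∈ Icc 0 (2 * π), clip u₁ u₂ t (X t) = X t := fun t ht => by
    unfold clip
    rw [min_eq_left (hupp t ht), max_eq_right (hlow t ht)]
  obtain ⟨v, hv1, hv2, hv3⟩ := extend_periodic (F := fun t x => (A t + l) * x ^ p + B t * x ^ q)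
    (fun t x => by simp only [perA, perB]) (X := X)
    (fun t ht => by
      have := hX t ht
      rwa [hclip t ht] at this) hret
  have h1P : Function.Periodic u₁ (2 * π) := h1.sol.per
  have h2P : Function.Periodic u₂ (2 * π) := h2.sol.per
  have hvP : Function.Periodic v (2 * π) := hv2
  have hge : ∀ t, u₁ t ≤ v t := by
    intro t
    have hP : Function.Periodic (fun t => v t - u₁ t) (2 * π) := fun t => by
      simp only [hv2, h1.sol.per]
    obtain ⟨y, hy, hy2⟩ := hP.exists_mem_Ico₀ (by positivity) t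
    have h3 := hlow y (Ico_subset_Icc_self hy)
    rw [← hv1 y (Ico_subset_Icc_self hy)] at h3
    linarith
  have hle : ∀ t, v t ≤ u₂ t := by
    intro t
    have hP : Function.Periodic (fun t => u₂ t - v t) (2 * π) := fun t => by
      simp only [hv2, h2.sol.per]
    obtain ⟨y, hy, hy2⟩ := hP.exists_mem_Ico₀ (by positivity) t
    have h3 := hupp y (Ico_subset_Icc_self hy)
    rw [← hv1 y (Ico_subset_Icc_self hy)] at h3
    linarith
  have hsol : PerSol p q (fun t => A t + l) B v := ⟨hv3, hv2⟩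
  refine ⟨v, ⟨hsol, fun t => (h1.pos t).trans_le (hge t)⟩, hv1, fun t => ?_, fun t => ?_⟩
  · by_contra hc
    push Not at hc
    have heq : v t = u₁ t := le_antisymm hc (hge t)
    have hmin : IsLocalMin (fun t => v t - u₁ t) t := by
      refine Filter.Eventually.of_forall fun s => ?_
      simp only [heq, sub_self]
      linarith [hge s]
    have hd := ((hv3 t).sub (h1.sol.hd t)).deriv
    have hz := hmin.deriv_eq_zero
    have e : (fun t => v t - u₁ t) = v - u₁ := rfl
    rw [e, hd, heq] at hz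
    have : 0 < l * u₁ t ^ p := mul_pos hl (pow_pos (h1.pos t) _)
    linarith
  · by_contra hc
    push Not at hc
    have heq : v t = u₂ t := le_antisymm (hle t) hc
    have hmin : IsLocalMin (fun t => u₂ t - v t) t := by
      refine Filter.Eventually.of_forall fun s => ?_
      simp only [heq, sub_self]
      linarith [hle s]
    have hd := ((h2.sol.hd t).sub (hv3 t)).deriv
    have hz := hmin.deriv_eq_zero
    have e : (fun t => u₂ t - v t) = u₂ - v := rfl
    rw [e, hd, heq] at hz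
    have : 0 < l * u₂ t ^ p := mul_pos hl (pow_pos (h2.pos t) _)
    linarith

end Pool.Agent.AbelLT
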