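import Pool.Agent.Lib.MP_bb703b_an.Lin
import Pool.Agent.Lib.MP_bb703b_an.Clip
import Pool.Agent.Lib.MP_bb703b_an.Comp
import Pool.Agent.Lib.MP_bb703b_an.Comp2
import Pool.Agent.Lib.MP_bb703b_an.TopM
import Pool.Agent.Lib.MP_bb703b_an.ZeroM
import Pool.Agent.Lib.MP_bb703b_an.LargeM

set_option autoImplicit false

open Real Set

/-!
Row M3: Lemma M.
`clipped_flow` on `K = [u₁ 0, u₂ 0]`, `[0,L]` with `L` from `large_l`; `D(h,l) = X h l (2π) - h`;
`topM`: (zero of `D(·,l)`, `l > 0`) → `clipped_zero` → periodic `v`, `u₁ < v < u₂` → `hN` with `δ` =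
half of the minimal gap on `[0,2π]` → `w` strictly between → `clip_below_super` at
`h' = w 0`: `X h' l (2π) ≤ w (2π) < w 0 = h'`.  So `D(·,0) ≥ 0`; but the given `w` gives
`D(w 0, 0) < 0` by the same lemma.
-/

namespace Pool.Agent.AbelLT

variable {p q : ℕ} {A B u₁ u₂ : ℝ → ℝ}

theorem exists_gapM {u v : ℝ → ℝ} (hu : Continuous u) (hv : Continuous v) (h : ∀ t, u t < v t) :
    ∃ δ > 0, ∀ t ∈ Icc 0 (2 * π), u t + δ < v t := by
  obtain ⟨tm, htm, hm⟩ := isCompact_Icc.exists_isMinOn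
    (nonempty_Icc.2 (by positivity : (0:ℝ) ≤ 2 * π)) (hv.sub hu).continuousOn
  refine ⟨(v tm - u tm) / 2, by linarith [h tm], fun t ht => ?_⟩
  have := hm ht
  simp only [Pi.sub_apply, mem_ofPred_eq] at this
  linarith [h tm]

/-- M3.  Lemma M. -/
theorem lemmaM (hA : Continuous A) (hB : Continuous B)
    (perA : ∀ t, A (t + 2 * π) = A t) (perB : ∀ t, B (t + 2 * π) = B t)
    (h1 : PosPer p q A B u₁) (h2 : PosPer p q A B u₂) (h12 : ∀ t, u₁ t < u₂ t)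
    (hN : ∀ l : ℝ, 0 < l → ∀ v, PosPer p q (fun t => A t + l) B v → ∀ δ : ℝ, 0 < δ →
      ∃ w, StrictSuper p q (fun t => A t + l) B w ∧ ∀ t ∈ Icc 0 (2 * π), |w t - v t| < δ)
    {w : ℝ → ℝ} (hw : StrictSuper p q A B w) (hw1 : ∀ t ∈ Icc 0 (2 * π), u₁ t < w t)
    (hw2 : ∀ t ∈ Icc 0 (2 * π), w t < u₂ t) : False := by
  have h1c := h1.sol.cont
  have h2c := h2.sol.cont
  have H12 : ∀ t ∈ Icc 0 (2 * π), u₁ t < u₂ t := fun t _ => h12 t
  have Hpos : ∀ t ∈ Icc 0 (2 * π), 0 < u₁ t := fun t _ => h1.pos t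
  obtain ⟨L, hL, hLX⟩ := large_l (p := p) (q := q) hA hB h1c.continuousOn h2c.continuousOn H12 Hpos
  obtain ⟨X, hX, hXc⟩ := clipped_flow (p := p) (q := q) hA hB h1c.continuousOn h2c.continuousOn
    L hL.le
  have key : ∀ l ∈ Icc 0 L, ∀ w : ℝ → ℝ, (∃ w' : ℝ → ℝ, ∀ t ∈ Icc 0 (2 * π), HasDerivAt w (w' t) t ∧
      (A t + l) * w t ^ p + B t * w t ^ q < w' t) → w (2 * π) < w 0 →
      (∀ t ∈ Icc 0 (2 * π), u₁ t < w t) → (∀ t ∈ Icc 0 (2 * π), w t < u₂ t) →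
      w 0 ∈ Icc (u₁ 0) (u₂ 0) ∧ X (w 0) l (2 * π) - w 0 < 0 := by
    intro l hl w hw hwe hw1 hw2
    have hz : (0:ℝ) ∈ Icc 0 (2 * π) := left_mem_Icc.2 (by positivity)
    have hmem : w 0 ∈ Icc (u₁ 0) (u₂ 0) := ⟨(hw1 0 hz).le, (hw2 0 hz).le⟩
    refine ⟨hmem, ?_⟩
    obtain ⟨hX0, hXd⟩ := hX (w 0) hmem l hl
    have := clip_below_super hw1 hw2 hw hXd hX0.le (2 * π) (right_mem_Icc.2 (by positivity))
    linarith
  have hD := topM (c := u₁ 0) (d := u₂ 0) (L := L) (h12 0).le hL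
    (D := fun z : ℝ × ℝ => X z.1 z.2 (2 * π) - z.1) (hXc.sub continuous_fst.continuousOn)
    (fun h hh => by
      obtain ⟨hX0, hXd⟩ := hX h hh L (right_mem_Icc.2 hL.le)
      have := hLX (X h L) hXd
      rw [hX0] at this
      simp only
      linarith)
    (fun l hl hlL h hh hD0 => by
      have hlm : l ∈ Icc 0 L := ⟨hl.le, hlL⟩
      obtain ⟨hX0, hXd⟩ := hX h hh l hlm
      have hret : X h l (2 * π) = X h l 0 := by
        simp only at hD0
        rw [hX0]; linarith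
      obtain ⟨v, hv, hv1, hv2, hv3⟩ := clipped_zero hA hB perA perB h1 h2 h12 hl hXd
        (by rw [hX0]; exact hh) hret
      obtain ⟨d1, hd1, g1⟩ := exists_gapM h1c hv.sol.cont hv2
      obtain ⟨d2, hd2, g2⟩ := exists_gapM hv.sol.cont h2c hv3
      obtain ⟨w, ⟨hw, hwe⟩, hwv⟩ := hN l hl v hv (min d1 d2) (lt_min hd1 hd2)
      have := key l hlm w hw hwe
        (fun t ht => by
          have h3 := abs_lt.1 (hwv t ht)
          have h4 := min_le_left d1 d2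
          linarith [g1 t ht])
        (fun t ht => by
          have h3 := abs_lt.1 (hwv t ht)
          have h4 := min_le_right d1 d2
          linarith [g2 t ht])
      exact ⟨w 0, this.1, this.2⟩)
  obtain ⟨hw, hwe⟩ := hw
  have h0 := key 0 (left_mem_Icc.2 hL.le) w (by simpa only [add_zero] using hw) hwe hw1 hw2
  have h3 := hD (w 0) h0.1
  simp only at h3
  linarith [h0.2]

end Pool.Agent.AbelLT
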