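import Pool.Agent.Lib.MP_bb703b_an.Signs

set_option autoImplicit false

open Real Set MeasureTheory intervalIntegral

/-!
Rows ONE1, ONE2: a one-signed combination `C = a A + b B ≥ 0`, not identically zero.
`N y = b y^(p-q) - a`.
-/

namespace Pool.Agent.AbelLT

variable {p q : ℕ} {A B v : ℝ → ℝ} {a b : ℝ}

/-- `N (v t) ≠ 0`. -/
theorem one_N (hq : 2 ≤ q) (hpq : q < p) (hA : Continuous A) (hB : Continuous B)
    (perA : ∀ t, A (t + 2 * π) = A t) (perB : ∀ t, B (t + 2 * π) = B t)
    (hv : PosPer p q A B v) (hC : ∀ t, 0 ≤ a * A t + b * B t) (hC1 : ∃ t, a * A t + b * B t ≠ 0) :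
    (∀ t, 0 < b * v t ^ (p - q) - a) ∨ (∀ t, b * v t ^ (p - q) - a < 0) := by
  have hvc := hv.sol.cont
  have hcont : Continuous fun s => b * v s ^ (p - q) - a := by fun_prop
  have hne : ∀ s, b * v s ^ (p - q) - a ≠ 0 := by
    intro s hs
    have hy0 : 0 < v s := hv.pos s
    have hyq : 0 < v s ^ q := pow_pos hy0 _
    have hb : b ≠ 0 := by
      rintro rfl
      have ha : a = 0 := by linarith
      obtain ⟨t, ht⟩ := hC1
      apply ht
      rw [ha]; ring
    have hpow : ∀ t, A t * v s ^ p + B t * v s ^ q =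
        v s ^ q * ((a * A t + b * B t) / b) := fun t => by
      have h1 : v s ^ p = v s ^ q * v s ^ (p - q) := by
        rw [← pow_add]; congr 1; omega
      have h2 : a = b * v s ^ (p - q) := by linarith
      rw [h1, h2]
      field_simp
    have h2π : s < s + 2 * π := by linarith [pi_pos]
    have hz : ∀ t ∈ Ioo s (s + 2 * π), A t * v s ^ p + B t * v s ^ q = 0 := by
      rcases lt_or_gt_of_ne hb with hb' | hb'
      · exact level_eq' hA hB hv.sol h2π (fun t _ => by
          rw [hpow]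
          exact mul_nonpos_of_nonneg_of_nonpos hyq.le
            (div_nonpos_of_nonneg_of_nonpos (hC t) hb'.le)) rfl (hv.sol.per s)
      · exact level_eq hA hB hv.sol h2π (fun t _ => by
          rw [hpow]
          exact mul_nonneg hyq.le (div_nonneg (hC t) hb'.le)) rfl (hv.sol.per s)
    have hz' : ∀ t ∈ Ioo s (s + 2 * π), a * A t + b * B t = 0 := fun t ht => by
      have := hz t ht
      rw [hpow] at this
      rcases mul_eq_zero.1 this with h | h
      · exact absurd h hyq.ne'
      · exact (div_eq_zero_iff.1 h).resolve_right hb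
    have hcl : IsClosed {t | a * A t + b * B t = 0} := by
      apply isClosed_eq <;> fun_prop
    have hsub : Icc s (s + 2 * π) ⊆ {t | a * A t + b * B t = 0} := by
      rw [← closure_Ioo h2π.ne]
      exact closure_minimal hz' hcl
    obtain ⟨t, ht⟩ := hC1
    have hP : Function.Periodic (fun t => a * A t + b * B t) (2 * π) := fun t => by
      simp only [perA, perB]
    obtain ⟨y, hy, hy2⟩ := hP.exists_mem_Ico (by positivity) t s
    apply ht
    rw [hy2]
    exact hsub (Ico_subset_Icc_self hy)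
  by_cases h0 : 0 < b * v 0 ^ (p - q) - a
  · left
    intro t
    by_contra hc
    push Not at hc
    obtain ⟨s, hs⟩ : (0:ℝ) ∈ Set.range fun s => b * v s ^ (p - q) - a :=
      mem_range_of_exists_le_of_exists_ge hcont ⟨t, hc⟩ ⟨0, h0.le⟩
    exact hne s hs
  · right
    push Not at h0
    intro t
    by_contra hc
    push Not at hc
    obtain ⟨s, hs⟩ : (0:ℝ) ∈ Set.range fun s => b * v s ^ (p - q) - a :=
      mem_range_of_exists_le_of_exists_ge hcont ⟨0, h0⟩ ⟨t, hc⟩
    exact hne s hs

/-- the three identities. -/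
theorem one_ids (hq : 2 ≤ q) (hpq : q < p) (hA : Continuous A) (hB : Continuous B)
    (hv : PosPer p q A B v) (hN : ∀ t, b * v t ^ (p - q) - a ≠ 0) :
    (∫ t in (0:ℝ)..(2 * π), (a * A t + b * B t) / (b * v t ^ (p - q) - a)) =
        -(∫ t in (0:ℝ)..(2 * π), A t) ∧
    (∫ t in (0:ℝ)..(2 * π), (a * A t + b * B t) * v t ^ (p - q) / (b * v t ^ (p - q) - a)) =
        (∫ t in (0:ℝ)..(2 * π), B t) ∧
    (∫ t in (0:ℝ)..(2 * π), (a * A t + b * B t) * v t ^ (p - 1) / (b * v t ^ (p - q) - a)) =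
        -(∫ t in (0:ℝ)..(2 * π), A t * v t ^ (p - 1)) := by
  have hvc := hv.sol.cont
  have hr := range_pos hv
  have hN' : ∀ y ∈ range v, b * y ^ (p - q) - a ≠ 0 := by rintro _ ⟨t, rfl⟩; exact hN t
  have hD : ∀ y ∈ range v, y ^ q * (b * y ^ (p - q) - a) ≠ 0 := fun y hy =>
    mul_ne_zero (pow_pos (hr y hy) _).ne' (hN' y hy)
  have hcD : ContinuousOn (fun y : ℝ => y ^ q * (b * y ^ (p - q) - a)) (range v) := by fun_prop
  have hpp : ∀ y : ℝ, y ^ p = y ^ (p - q) * y ^ q := fun y => by
    rw [← pow_add]; congr 1; omega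
  have hCc : Continuous fun t => a * A t + b * B t := by fun_prop
  have hNc : Continuous fun t => b * v t ^ (p - q) - a := by fun_prop
  have q1 := integral_phi hA hB hv (φ := fun y => b / (y ^ q * (b * y ^ (p - q) - a)))
    (ContinuousOn.div (by fun_prop) hcD hD)
  have q2 := integral_phi hA hB hv (φ := fun y => a / (y ^ q * (b * y ^ (p - q) - a)))
    (ContinuousOn.div (by fun_prop) hcD hD)
  have q3 := integral_phi hA hB hv (φ := fun y => b * y ^ (p - 1) / (y ^ q * (b * y ^ (p - q) - a)))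
    (ContinuousOn.div (by fun_prop) hcD hD)
  have base : ∀ t, (A t * v t ^ p + B t * v t ^ q) / (v t ^ q * (b * v t ^ (p - q) - a)) =
      (A t * v t ^ (p - q) + B t) / (b * v t ^ (p - q) - a) := fun t => by
    have h2 : v t ^ q ≠ 0 := (pow_pos (hv.pos t) _).ne'
    rw [hpp, div_eq_div_iff (mul_ne_zero h2 (hN t)) (hN t)]
    ring
  have e1 : ∀ t, b / (v t ^ q * (b * v t ^ (p - q) - a)) * (A t * v t ^ p + B t * v t ^ q) =
      (a * A t + b * B t) / (b * v t ^ (p - q) - a) + A t := fun t => by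
    have : b / (v t ^ q * (b * v t ^ (p - q) - a)) * (A t * v t ^ p + B t * v t ^ q) =
      b * ((A t * v t ^ p + B t * v t ^ q) / (v t ^ q * (b * v t ^ (p - q) - a))) := by ring
    rw [this, base, ← mul_div_assoc, div_add' _ _ _ (hN t), div_left_inj' (hN t)]
    ring
  have e2 : ∀ t, a / (v t ^ q * (b * v t ^ (p - q) - a)) * (A t * v t ^ p + B t * v t ^ q) =
      (a * A t + b * B t) * v t ^ (p - q) / (b * v t ^ (p - q) - a) - B t := fun t => by
    have : a / (v t ^ q * (b * v t ^ (p - q) - a)) * (A t * v t ^ p + B t * v t ^ q) =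
      a * ((A t * v t ^ p + B t * v t ^ q) / (v t ^ q * (b * v t ^ (p - q) - a))) := by ring
    rw [this, base, ← mul_div_assoc, div_sub' (hN t), div_left_inj' (hN t)]
    ring
  have e3 : ∀ t, b * v t ^ (p - 1) / (v t ^ q * (b * v t ^ (p - q) - a)) *
      (A t * v t ^ p + B t * v t ^ q) =
      (a * A t + b * B t) * v t ^ (p - 1) / (b * v t ^ (p - q) - a) + A t * v t ^ (p - 1) :=
    fun t => by
    have : b * v t ^ (p - 1) / (v t ^ q * (b * v t ^ (p - q) - a)) *
      (A t * v t ^ p + B t * v t ^ q) = (b * v t ^ (p - 1)) *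
      ((A t * v t ^ p + B t * v t ^ q) / (v t ^ q * (b * v t ^ (p - q) - a))) := by ring
    rw [this, base, ← mul_div_assoc, div_add' _ _ _ (hN t), div_left_inj' (hN t)]
    ring
  simp only [e1] at q1
  simp only [e2] at q2
  simp only [e3] at q3
  have i1 : IntervalIntegrable (fun t => (a * A t + b * B t) / (b * v t ^ (p - q) - a)) volume 0
      (2 * π) := (hCc.div hNc hN).intervalIntegrable _ _
  have i2 : IntervalIntegrable (fun t => (a * A t + b * B t) * v t ^ (p - q) /
      (b * v t ^ (p - q) - a)) volume 0 (2 * π) :=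
    ((hCc.mul (hvc.pow _)).div hNc hN).intervalIntegrable _ _
  have i3 : IntervalIntegrable (fun t => (a * A t + b * B t) * v t ^ (p - 1) /
      (b * v t ^ (p - q) - a)) volume 0 (2 * π) :=
    ((hCc.mul (hvc.pow _)).div hNc hN).intervalIntegrable _ _
  have i4 : IntervalIntegrable (fun t => A t * v t ^ (p - 1)) volume 0 (2 * π) :=
    (hA.mul (hvc.pow _)).intervalIntegrable _ _
  rw [intervalIntegral.integral_add i1 (hA.intervalIntegrable _ _)] at q1
  rw [intervalIntegral.integral_sub i2 (hB.intervalIntegrable _ _)] at q2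
  rw [intervalIntegral.integral_add i3 i4] at q3
  exact ⟨by linarith, by linarith, by linarith⟩

theorem one_w_pos (hA : Continuous A) (hB : Continuous B)
    (perA : ∀ t, A (t + 2 * π) = A t) (perB : ∀ t, B (t + 2 * π) = B t)
    (hC : ∀ t, 0 ≤ a * A t + b * B t) (hC1 : ∃ t, a * A t + b * B t ≠ 0)
    {w : ℝ → ℝ} (hw : Continuous w) (hwper : ∀ t, w (t + 2 * π) = w t) (hw0 : ∀ t, 0 < w t) :
    0 < ∫ t in (0:ℝ)..(2 * π), (a * A t + b * B t) * w t := by
  apply integral_pos_of_per
  · fun_prop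
  · intro t
    simp only [perA, perB, hwper]
  · intro t
    exact mul_nonneg (hC t) (hw0 t).le
  · obtain ⟨t, ht⟩ := hC1
    exact ⟨t, mul_pos (lt_of_le_of_ne (hC t) ht.symm) (hw0 t)⟩

/-- the three integrals with `N > 0`. -/
theorem one_pos_ints (hA : Continuous A) (hB : Continuous B)
    (perA : ∀ t, A (t + 2 * π) = A t) (perB : ∀ t, B (t + 2 * π) = B t)
    (hv : PosPer p q A B v) (hC : ∀ t, 0 ≤ a * A t + b * B t) (hC1 : ∃ t, a * A t + b * B t ≠ 0)
    (hN : ∀ t, 0 < b * v t ^ (p - q) - a) (n : ℕ) :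
    0 < ∫ t in (0:ℝ)..(2 * π), (a * A t + b * B t) * v t ^ n / (b * v t ^ (p - q) - a) := by
  have hvc := hv.sol.cont
  have hNc : Continuous fun t => b * v t ^ (p - q) - a := by fun_prop
  have := one_w_pos hA hB perA perB hC hC1 (w := fun t => v t ^ n / (b * v t ^ (p - q) - a))
    ((hvc.pow n).div hNc fun t => (hN t).ne') (fun t => by simp only [hv.sol.per])
    (fun t => div_pos (pow_pos (hv.pos t) _) (hN t))
  simpa only [mul_div_assoc] using this

theorem one_neg_ints (hA : Continuous A) (hB : Continuous B)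
    (perA : ∀ t, A (t + 2 * π) = A t) (perB : ∀ t, B (t + 2 * π) = B t)
    (hv : PosPer p q A B v) (hC : ∀ t, 0 ≤ a * A t + b * B t) (hC1 : ∃ t, a * A t + b * B t ≠ 0)
    (hN : ∀ t, b * v t ^ (p - q) - a < 0) (n : ℕ) :
    (∫ t in (0:ℝ)..(2 * π), (a * A t + b * B t) * v t ^ n / (b * v t ^ (p - q) - a)) < 0 := by
  have hvc := hv.sol.cont
  have hNc : Continuous fun t => b * v t ^ (p - q) - a := by fun_prop
  have := one_w_pos hA hB perA perB hC hC1 (w := fun t => v t ^ n / (-(b * v t ^ (p - q) - a)))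
    ((hvc.pow n).div hNc.neg fun t => neg_ne_zero.2 (hN t).ne) (fun t => by simp only [hv.sol.per])
    (fun t => div_pos (pow_pos (hv.pos t) _) (neg_pos.2 (hN t)))
  simp only [div_neg, mul_neg, intervalIntegral.integral_neg] at this
  simp only [mul_div_assoc]
  linarith

/-- the exponent is nonzero. -/
theorem one_L (hq : 2 ≤ q) (hpq : q < p) (hA : Continuous A) (hB : Continuous B)
    (perA : ∀ t, A (t + 2 * π) = A t) (perB : ∀ t, B (t + 2 * π) = B t)
    (hv : PosPer p q A B v) (hC : ∀ t, 0 ≤ a * A t + b * B t) (hC1 : ∃ t, a * A t + b * B t ≠ 0) :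
    (∫ t in (0:ℝ)..(2 * π), A t * v t ^ (p - 1)) ≠ 0 := by
  rcases one_N hq hpq hA hB perA perB hv hC hC1 with hN | hN
  · have h3 := (one_ids hq hpq hA hB hv fun t => (hN t).ne').2.2
    have := one_pos_ints hA hB perA perB hv hC hC1 hN (p - 1)
    intro h0
    rw [h0] at h3
    linarith
  · have h3 := (one_ids hq hpq hA hB hv fun t => (hN t).ne).2.2
    have := one_neg_ints hA hB perA perB hv hC hC1 hN (p - 1)
    intro h0
    rw [h0] at h3
    linarith

/-- the sign of `∫ B` is the sign of `N`. -/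
theorem one_B (hq : 2 ≤ q) (hpq : q < p) (hA : Continuous A) (hB : Continuous B)
    (perA : ∀ t, A (t + 2 * π) = A t) (perB : ∀ t, B (t + 2 * π) = B t)
    (hv : PosPer p q A B v) (hC : ∀ t, 0 ≤ a * A t + b * B t) (hC1 : ∃ t, a * A t + b * B t ≠ 0) :
    ((∀ t, 0 < b * v t ^ (p - q) - a) ∧ (∫ t in (0:ℝ)..(2 * π), A t) < 0 ∧
      0 < ∫ t in (0:ℝ)..(2 * π), B t) ∨
    ((∀ t, b * v t ^ (p - q) - a < 0) ∧ 0 < (∫ t in (0:ℝ)..(2 * π), A t) ∧
      (∫ t in (0:ℝ)..(2 * π), B t) < 0) := by
  rcases one_N hq hpq hA hB perA perB hv hC hC1 with hN | hN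
  · left
    have h := one_ids hq hpq hA hB hv fun t => (hN t).ne'
    have h1 := one_pos_ints hA hB perA perB hv hC hC1 hN 0
    have h2 := one_pos_ints hA hB perA perB hv hC hC1 hN (p - q)
    simp only [pow_zero, mul_one] at h1
    exact ⟨hN, by linarith [h.1], by linarith [h.2.1]⟩
  · right
    have h := one_ids hq hpq hA hB hv fun t => (hN t).ne
    have h1 := one_neg_ints hA hB perA perB hv hC hC1 hN 0
    have h2 := one_neg_ints hA hB perA perB hv hC hC1 hN (p - q)
    simp only [pow_zero, mul_one] at h1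
    exact ⟨hN, by linarith [h.1], by linarith [h.2.1]⟩

/-- signs of the means: `(∫A)(∫B) < 0`. -/
theorem one_signs (hq : 2 ≤ q) (hpq : q < p) (hA : Continuous A) (hB : Continuous B)
    (perA : ∀ t, A (t + 2 * π) = A t) (perB : ∀ t, B (t + 2 * π) = B t)
    (hv : PosPer p q A B v) (hC : ∀ t, 0 ≤ a * A t + b * B t) (hC1 : ∃ t, a * A t + b * B t ≠ 0) :
    (∫ t in (0:ℝ)..(2 * π), A t) * (∫ t in (0:ℝ)..(2 * π), B t) < 0 := by
  rcases one_B hq hpq hA hB perA perB hv hC hC1 with ⟨-, h1, h2⟩ | ⟨-, h1, h2⟩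
  · exact mul_neg_of_neg_of_pos h1 h2
  · exact mul_neg_of_pos_of_neg h1 h2

theorem one_no_two {u : ℝ → ℝ} (hq : 2 ≤ q) (hpq : q < p) (hA : Continuous A)
    (hB : Continuous B) (perA : ∀ t, A (t + 2 * π) = A t) (perB : ∀ t, B (t + 2 * π) = B t)
    (hu : PosPer p q A B u)
    (hv : PosPer p q A B v) (hC : ∀ t, 0 ≤ a * A t + b * B t) (hC1 : ∃ t, a * A t + b * B t ≠ 0)
    (huv : ∀ t, u t < v t) : False := by
  have huc := hu.sol.cont
  have hvc := hv.sol.cont
  have hpow : ∀ t, u t ^ (p - q) < v t ^ (p - q) := fun t =>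
    pow_lt_pow_left₀ (huv t) (hu.pos t).le (by omega)
  have hu1 := one_B hq hpq hA hB perA perB hu hC hC1
  have hv1 := one_B hq hpq hA hB perA perB hv hC hC1
  have hNN : ∀ t, 0 < (b * u t ^ (p - q) - a) * (b * v t ^ (p - q) - a) := by
    rcases hu1 with ⟨h1, h2, h3⟩ | ⟨h1, h2, h3⟩ <;> rcases hv1 with ⟨k1, k2, k3⟩ | ⟨k1, k2, k3⟩
    · exact fun t => mul_pos (h1 t) (k1 t)
    · linarith
    · linarith
    · exact fun t => mul_pos_of_neg_of_neg (h1 t) (k1 t)
  have hNu : ∀ t, b * u t ^ (p - q) - a ≠ 0 := fun t => left_ne_zero_of_mul (hNN t).ne'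
  have hNv : ∀ t, b * v t ^ (p - q) - a ≠ 0 := fun t => right_ne_zero_of_mul (hNN t).ne'
  have iu := one_ids hq hpq hA hB hu hNu
  have iv := one_ids hq hpq hA hB hv hNv
  have hCc : Continuous fun t => a * A t + b * B t := by fun_prop
  have hNuc : Continuous fun t => b * u t ^ (p - q) - a := by fun_prop
  have hNvc : Continuous fun t => b * v t ^ (p - q) - a := by fun_prop
  by_cases hb : b = 0
  · have ha : a ≠ 0 := by
      rintro rfl
      have := hNu 0
      rw [hb] at this
      simp at this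
    have h := one_w_pos hA hB perA perB hC hC1 (w := fun t => v t ^ (p - q) - u t ^ (p - q))
      (by fun_prop) (fun t => by simp only [hu.sol.per, hv.sol.per])
      (fun t => sub_pos.2 (hpow t))
    have e : ∀ t, (a * A t + b * B t) * (v t ^ (p - q) - u t ^ (p - q)) =
        (-a) * ((a * A t + b * B t) * v t ^ (p - q) / (b * v t ^ (p - q) - a) -
          (a * A t + b * B t) * u t ^ (p - q) / (b * u t ^ (p - q) - a)) := fun t => by
      have e0 : ∀ z : ℝ, -a * (z / -a) = z := fun z => by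
        rw [mul_comm, div_mul_cancel₀ _ (neg_ne_zero.2 ha)]
      rw [hb, zero_mul, zero_mul, zero_mul, zero_sub, mul_sub (-a), e0, e0]
      ring
    simp only [e] at h
    have i1 : IntervalIntegrable (fun t => (a * A t + b * B t) * v t ^ (p - q) /
        (b * v t ^ (p - q) - a)) volume 0 (2 * π) :=
      ((hCc.mul (hvc.pow _)).div hNvc hNv).intervalIntegrable _ _
    have i2 : IntervalIntegrable (fun t => (a * A t + b * B t) * u t ^ (p - q) /
        (b * u t ^ (p - q) - a)) volume 0 (2 * π) :=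
      ((hCc.mul (huc.pow _)).div hNuc hNu).intervalIntegrable _ _
    rw [intervalIntegral.integral_const_mul, intervalIntegral.integral_sub i1 i2, iu.2.1,
      iv.2.1, sub_self, mul_zero] at h
    exact lt_irrefl _ h
  · have h := one_w_pos hA hB perA perB hC hC1
      (w := fun t => (v t ^ (p - q) - u t ^ (p - q)) /
        ((b * u t ^ (p - q) - a) * (b * v t ^ (p - q) - a)))
      (((hvc.pow _).sub (huc.pow _)).div (hNuc.mul hNvc) fun t => (hNN t).ne')
      (fun t => by simp only [hu.sol.per, hv.sol.per])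
      (fun t => div_pos (sub_pos.2 (hpow t)) (hNN t))
    have e : ∀ t, (a * A t + b * B t) * ((v t ^ (p - q) - u t ^ (p - q)) /
        ((b * u t ^ (p - q) - a) * (b * v t ^ (p - q) - a))) =
        (1 / b) * ((a * A t + b * B t) / (b * u t ^ (p - q) - a) -
          (a * A t + b * B t) / (b * v t ^ (p - q) - a)) := fun t => by
      have e1 : (a * A t + b * B t) / (b * u t ^ (p - q) - a) -
          (a * A t + b * B t) / (b * v t ^ (p - q) - a) =
          b * ((a * A t + b * B t) * ((v t ^ (p - q) - u t ^ (p - q)) /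
        ((b * u t ^ (p - q) - a) * (b * v t ^ (p - q) - a)))) := by
        rw [div_sub_div _ _ (hNu t) (hNv t)]
        ring
      rw [e1]
      field_simp
    simp only [e] at h
    have i1 : IntervalIntegrable (fun t => (a * A t + b * B t) /
        (b * v t ^ (p - q) - a)) volume 0 (2 * π) :=
      (hCc.div hNvc hNv).intervalIntegrable _ _
    have i2 : IntervalIntegrable (fun t => (a * A t + b * B t) /
        (b * u t ^ (p - q) - a)) volume 0 (2 * π) :=
      (hCc.div hNuc hNu).intervalIntegrable _ _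
    rw [intervalIntegral.integral_const_mul, intervalIntegral.integral_sub i2 i1, iu.1,
      iv.1, sub_self, mul_zero] at h
    exact lt_irrefl _ h

/-- uniqueness. -/
theorem one_unique {u : ℝ → ℝ} (hq : 2 ≤ q) (hpq : q < p) (hA : Continuous A)
    (hB : Continuous B) (perA : ∀ t, A (t + 2 * π) = A t) (perB : ∀ t, B (t + 2 * π) = B t)
    (hu : PosPer p q A B u)
    (hv : PosPer p q A B v) (hC : ∀ t, 0 ≤ a * A t + b * B t) (hC1 : ∃ t, a * A t + b * B t ≠ 0) :
    u = v := by
  rcases lt_trichotomy (u 0) (v 0) with h | h | h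
  · exact (one_no_two hq hpq hA hB perA perB hu hv hC hC1
      (lt_of_lt hA hB hu.sol hv.sol h)).elim
  · exact eq_of_eq hA hB hu.sol hv.sol h
  · exact (one_no_two hq hpq hA hB perA perB hv hu hC hC1
      (lt_of_lt hA hB hv.sol hu.sol h)).elim

end Pool.Agent.AbelLT
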