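import Pool.Agent.Lib.MP_bb703b_an.Ints

set_option autoImplicit false

open Real Set MeasureTheory intervalIntegral

/-!
Row INT2: the sign relations (S1), (S2), (S3).  `r = p - q`, `N y = b y^r - a > 0` on the range.
General scheme: if `θ₁ = η a + φ y^p`, `θ₂ = η b + φ y^q` (functions of `y = v t`), then
`∫ (θ₁ A + θ₂ B) = ∫ η(v) (aA+bB) + ∫ φ(v) v' = ∫ η(v)(aA+bB) > 0`.
(Use `integral_phi`, `cert_integral_pos` with `E = 1`, `range v ⊆ Ioi 0`, `x ∈ range v`.)
-/

namespace Pool.Agent.AbelLT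

variable {p q : ℕ} {A B v : ℝ → ℝ} {a b x : ℝ}

theorem pow_sign {x y : ℝ} (hx : 0 < x) (hy : 0 < y) {n : ℕ} (hn : n ≠ 0) (h : y ≠ x) :
    0 < (y ^ n - x ^ n) * (y - x) := by
  rcases lt_or_gt_of_ne h with h | h
  · exact mul_pos_of_neg_of_neg (sub_neg.2 (pow_lt_pow_left₀ h hy.le hn)) (sub_neg.2 h)
  · exact mul_pos (sub_pos.2 (pow_lt_pow_left₀ h hx.le hn)) (sub_pos.2 h)

theorem cert_pos (hv : PosPer p q A B v) (hc : Cert p q A B v a b x) : 0 < x := by
  obtain ⟨t, ht⟩ := hc.mem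
  rw [← ht]; exact hv.pos t

theorem cont_range (hv : PosPer p q A B v) {f : ℝ → ℝ} (hf : ContinuousOn f (range v)) :
    Continuous fun t => f (v t) := by
  rw [← continuousOn_univ]
  exact hf.comp hv.sol.cont.continuousOn fun t _ => mem_range_self t

theorem scheme (hA : Continuous A) (hB : Continuous B)
    (perA : ∀ t, A (t + 2 * π) = A t) (perB : ∀ t, B (t + 2 * π) = B t)
    (hv : PosPer p q A B v) (hc : Cert p q A B v a b x) {θ₁ θ₂ η φ : ℝ → ℝ}
    (hη : ContinuousOn η (range v)) (hφ : ContinuousOn φ (range v)) (hη0 : η x = 0)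
    (hη1 : ∀ y ∈ range v, y ≠ x → 0 < η y * (y - x))
    (h1 : ∀ y ∈ range v, θ₁ y = η y * a + φ y * y ^ p)
    (h2 : ∀ y ∈ range v, θ₂ y = η y * b + φ y * y ^ q) :
    0 < ∫ t in (0:ℝ)..(2 * π), (θ₁ (v t) * A t + θ₂ (v t) * B t) := by
  have hvc := hv.sol.cont
  have hηc := cont_range hv hη
  have hφc := cont_range hv hφ
  have e : ∀ t, θ₁ (v t) * A t + θ₂ (v t) * B t = (1 : ℝ) * (η (v t) * (a * A t + b * B t)) +
      φ (v t) * (A t * v t ^ p + B t * v t ^ q) := fun t => by
    rw [h1 _ (mem_range_self t), h2 _ (mem_range_self t)]; ring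
  simp only [e]
  rw [intervalIntegral.integral_add, integral_phi hA hB hv hφ, add_zero]
  · exact cert_integral_pos hA hB perA perB hv hc (E := fun _ => 1) hη hη0 hη1 continuous_const
      (fun _ => rfl) (fun _ => one_pos)
  · exact Continuous.intervalIntegrable (continuous_const.mul (hηc.mul
      ((continuous_const.mul hA).add (continuous_const.mul hB)))) _ _
  · exact Continuous.intervalIntegrable (hφc.mul ((hA.mul (hvc.pow p)).add
      (hB.mul (hvc.pow q)))) _ _

theorem N_ne (hc : Cert p q A B v a b x) : ∀ y ∈ range v, b * y ^ (p - q) - a ≠ 0 := by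
  rintro _ ⟨t, rfl⟩
  exact (hc.N t).ne'

theorem N_pos (hc : Cert p q A B v a b x) : ∀ y ∈ range v, 0 < b * y ^ (p - q) - a := by
  rintro _ ⟨t, rfl⟩
  exact hc.N t

theorem range_pos (hv : PosPer p q A B v) : ∀ y ∈ range v, 0 < y := by
  rintro _ ⟨t, rfl⟩
  exact hv.pos t

/-- (S1) `η y = (y^r - x^r)/N y`, `φ y = (b x^r - a)/(N y * y^q)`, `θ₁ = x^r`, `θ₂ = 1`. -/
theorem sign_S1 (hq : 2 ≤ q) (hpq : q < p) (hA : Continuous A) (hB : Continuous B)
    (perA : ∀ t, A (t + 2 * π) = A t) (perB : ∀ t, B (t + 2 * π) = B t)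
    (hv : PosPer p q A B v) (hc : Cert p q A B v a b x) :
    0 < x ^ (p - q) * (∫ t in (0:ℝ)..(2 * π), A t) + ∫ t in (0:ℝ)..(2 * π), B t := by
  have hN := N_ne hc
  have hNp := N_pos hc
  have hr := range_pos hv
  have hx := cert_pos hv hc
  have hpp : ∀ y : ℝ, y ^ p = y ^ (p - q) * y ^ q := fun y => by
    rw [← pow_add]; congr 1; omega
  have key := scheme (θ₁ := fun _ => x ^ (p - q)) (θ₂ := fun _ => 1)
    (η := fun y => (y ^ (p - q) - x ^ (p - q)) / (b * y ^ (p - q) - a))
    (φ := fun y => (b * x ^ (p - q) - a) / ((b * y ^ (p - q) - a) * y ^ q)) hA hB perA perB hv hc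
    (ContinuousOn.div (by fun_prop) (by fun_prop) hN)
    (ContinuousOn.div (by fun_prop) (by fun_prop) fun y hy =>
      mul_ne_zero (hN y hy) (pow_pos (hr y hy) _).ne') (by simp)
    (fun y hy hyx => by
      rw [div_mul_eq_mul_div]
      exact div_pos (pow_sign hx (hr y hy) (by omega) hyx) (hNp y hy))
    (fun y hy => by
      have h1 := hN y hy
      have h2 : y ^ q ≠ 0 := (pow_pos (hr y hy) _).ne'
      have h3 : (b * x ^ (p - q) - a) / ((b * y ^ (p - q) - a) * y ^ q) *
          (y ^ (p - q) * y ^ q) = (b * x ^ (p - q) - a) / (b * y ^ (p - q) - a) * y ^ (p - q) := by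
        rw [div_mul_eq_mul_div, div_mul_eq_mul_div, div_eq_div_iff (mul_ne_zero h1 h2) h1]
        ring
      have h4 := div_mul_cancel₀ (y ^ (p - q) - x ^ (p - q)) h1
      have h5 := div_mul_cancel₀ (b * x ^ (p - q) - a) h1
      rw [hpp y, h3, div_mul_eq_mul_div, div_mul_eq_mul_div, ← add_div, eq_div_iff h1]
      ring)
    (fun y hy => by
      have h1 := hN y hy
      have h2 : y ^ q ≠ 0 := (pow_pos (hr y hy) _).ne'
      have h3 : (b * x ^ (p - q) - a) / ((b * y ^ (p - q) - a) * y ^ q) * y ^ q =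
          (b * x ^ (p - q) - a) / (b * y ^ (p - q) - a) := by
        rw [div_mul_eq_mul_div, div_eq_div_iff (mul_ne_zero h1 h2) h1]
        ring
      rw [h3, div_mul_eq_mul_div, ← add_div, eq_div_iff h1]
      ring)
  have i1 : IntervalIntegrable (fun t => x ^ (p - q) * A t) volume 0 (2 * π) :=
    (continuous_const.mul hA).intervalIntegrable _ _
  simp only [one_mul] at key
  rw [intervalIntegral.integral_add i1 (hB.intervalIntegrable _ _),
    intervalIntegral.integral_const_mul] at key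
  exact key

/-- (S2) `η y = y^r (y^(q-1) - x^(q-1))/N y`, `θ₁ = - y^(p-1)`, `θ₂ = - x^(q-1)`,
`φ y = (-x^(q-1) - η b)/y^q`. -/
theorem sign_S2 (hq : 2 ≤ q) (hpq : q < p) (hA : Continuous A) (hB : Continuous B)
    (perA : ∀ t, A (t + 2 * π) = A t) (perB : ∀ t, B (t + 2 * π) = B t)
    (hv : PosPer p q A B v) (hc : Cert p q A B v a b x) :
    (∫ t in (0:ℝ)..(2 * π), A t * v t ^ (p - 1)) +
      x ^ (q - 1) * (∫ t in (0:ℝ)..(2 * π), B t) < 0 := by
  have hN := N_ne hc
  have hNp := N_pos hc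
  have hr := range_pos hv
  have hx := cert_pos hv hc
  have hvc := hv.sol.cont
  have hpp : ∀ y : ℝ, y ^ p = y ^ (p - q) * y ^ q := fun y => by
    rw [← pow_add]; congr 1; omega
  have hpp' : ∀ y : ℝ, y ^ (p - 1) = y ^ (p - q) * y ^ (q - 1) := fun y => by
    rw [← pow_add]; congr 1; omega
  have hηc : ContinuousOn (fun y : ℝ => y ^ (p - q) * (y ^ (q - 1) - x ^ (q - 1)) /
      (b * y ^ (p - q) - a)) (range v) :=
    ContinuousOn.div (by fun_prop) (by fun_prop) hN
  have key := scheme (θ₁ := fun y => -y ^ (p - 1)) (θ₂ := fun _ => -x ^ (q - 1))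
    (η := fun y => y ^ (p - q) * (y ^ (q - 1) - x ^ (q - 1)) / (b * y ^ (p - q) - a))
    (φ := fun y => (-x ^ (q - 1) - y ^ (p - q) * (y ^ (q - 1) - x ^ (q - 1)) /
      (b * y ^ (p - q) - a) * b) / y ^ q) hA hB perA perB hv hc hηc
    (ContinuousOn.div (continuousOn_const.sub (hηc.mul continuousOn_const)) (by fun_prop)
      fun y hy => (pow_pos (hr y hy) _).ne') (by simp)
    (fun y hy hyx => by
      rw [div_mul_eq_mul_div, mul_assoc]
      exact div_pos (mul_pos (pow_pos (hr y hy) _) (pow_sign hx (hr y hy) (by omega) hyx))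
        (hNp y hy))
    (fun y hy => by
      have h1 := div_mul_cancel₀ (y ^ (p - q) * (y ^ (q - 1) - x ^ (q - 1))) (hN y hy)
      have h2 : y ^ q ≠ 0 := (pow_pos (hr y hy) _).ne'
      have h3 : ∀ z : ℝ, z / y ^ q * (y ^ (p - q) * y ^ q) = z * y ^ (p - q) := fun z => by
        field_simp
      rw [hpp y, hpp' y, h3]
      linear_combination h1)
    (fun y hy => by
      have h2 : y ^ q ≠ 0 := (pow_pos (hr y hy) _).ne'
      rw [div_mul_cancel₀ _ h2]
      ring)
  have e : ∀ t, -v t ^ (p - 1) * A t + -x ^ (q - 1) * B t =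
      -(A t * v t ^ (p - 1) + x ^ (q - 1) * B t) := fun t => by ring
  have i1 : IntervalIntegrable (fun t => A t * v t ^ (p - 1)) volume 0 (2 * π) :=
    (hA.mul (hvc.pow _)).intervalIntegrable _ _
  have i2 : IntervalIntegrable (fun t => x ^ (q - 1) * B t) volume 0 (2 * π) :=
    (continuous_const.mul hB).intervalIntegrable _ _
  simp only [e] at key
  rw [intervalIntegral.integral_neg, intervalIntegral.integral_add i1 i2, intervalIntegral.integral_const_mul]
    at key
  linarith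

/-- (S3) `η y = (y^(p-1) - x^(p-1))/N y`, `θ₁ = x^(p-1) - y^(p-1)`, `θ₂ = 0`, `φ = - η b/y^q`. -/
theorem sign_S3 (hq : 2 ≤ q) (hpq : q < p) (hA : Continuous A) (hB : Continuous B)
    (perA : ∀ t, A (t + 2 * π) = A t) (perB : ∀ t, B (t + 2 * π) = B t)
    (hv : PosPer p q A B v) (hc : Cert p q A B v a b x) :
    (∫ t in (0:ℝ)..(2 * π), A t * v t ^ (p - 1)) <
      x ^ (p - 1) * (∫ t in (0:ℝ)..(2 * π), A t) := by
  have hN := N_ne hc
  have hNp := N_pos hc
  have hr := range_pos hv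
  have hx := cert_pos hv hc
  have hvc := hv.sol.cont
  have hpp : ∀ y : ℝ, y ^ p = y ^ (p - q) * y ^ q := fun y => by
    rw [← pow_add]; congr 1; omega
  have hηc : ContinuousOn (fun y : ℝ => (y ^ (p - 1) - x ^ (p - 1)) /
      (b * y ^ (p - q) - a)) (range v) :=
    ContinuousOn.div (by fun_prop) (by fun_prop) hN
  have key := scheme (θ₁ := fun y => x ^ (p - 1) - y ^ (p - 1)) (θ₂ := fun _ => 0)
    (η := fun y => (y ^ (p - 1) - x ^ (p - 1)) / (b * y ^ (p - q) - a))
    (φ := fun y => -((y ^ (p - 1) - x ^ (p - 1)) /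
      (b * y ^ (p - q) - a) * b) / y ^ q) hA hB perA perB hv hc hηc
    (ContinuousOn.div ((hηc.mul continuousOn_const).neg) (by fun_prop)
      fun y hy => (pow_pos (hr y hy) _).ne') (by simp)
    (fun y hy hyx => by
      rw [div_mul_eq_mul_div]
      exact div_pos (pow_sign hx (hr y hy) (by omega) hyx) (hNp y hy))
    (fun y hy => by
      have h1 := div_mul_cancel₀ (y ^ (p - 1) - x ^ (p - 1)) (hN y hy)
      have h2 : y ^ q ≠ 0 := (pow_pos (hr y hy) _).ne'
      have h3 : ∀ z : ℝ, z / y ^ q * (y ^ (p - q) * y ^ q) = z * y ^ (p - q) := fun z => by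
        field_simp
      rw [hpp y, h3]
      linear_combination h1)
    (fun y hy => by
      have h2 : y ^ q ≠ 0 := (pow_pos (hr y hy) _).ne'
      rw [div_mul_cancel₀ _ h2]
      ring)
  have e : ∀ t, (x ^ (p - 1) - v t ^ (p - 1)) * A t + 0 * B t =
      x ^ (p - 1) * A t - A t * v t ^ (p - 1) := fun t => by ring
  have i1 : IntervalIntegrable (fun t => x ^ (p - 1) * A t) volume 0 (2 * π) :=
    (continuous_const.mul hA).intervalIntegrable _ _
  have i2 : IntervalIntegrable (fun t => A t * v t ^ (p - 1)) volume 0 (2 * π) :=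
    (hA.mul (hvc.pow _)).intervalIntegrable _ _
  simp only [e] at key
  rw [intervalIntegral.integral_sub i1 i2, intervalIntegral.integral_const_mul] at key
  linarith

end Pool.Agent.AbelLT
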