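import Pool.Agent.Lib.MP_bb703b_an.Defs

set_option autoImplicit false

open Real Set

/-!
Row TAY: Taylor remainders of `y ↦ y^n`.
(Induction on `n`, or the binomial formula.)
-/

namespace Pool.Agent.AbelLT

/-- Taylor of order one: for `0 ≤ y ≤ M`, `|k| ≤ 1`. -/
theorem taylor1 (n : ℕ) (M : ℝ) : ∃ C : ℝ, 0 ≤ C ∧ ∀ y k : ℝ, |y| ≤ M → |k| ≤ 1 →
    |(y + k) ^ n - y ^ n - n * y ^ (n - 1) * k| ≤ C * k ^ 2 := by
  induction n with
  | zero => exact ⟨0, le_refl _, fun y k _ _ => by simp⟩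
  | succ n ih =>
    obtain ⟨C, hC, h⟩ := ih
    refine ⟨(|M| + 1) * C + n * |M| ^ (n - 1), by positivity, fun y k hy hk => ?_⟩
    have h1 := h y k hy hk
    have hyM : |y| ≤ |M| := hy.trans (le_abs_self M)
    have e : (y + k) ^ (n + 1) - y ^ (n + 1) - ((n + 1 : ℕ) : ℝ) * y ^ (n + 1 - 1) * k =
        (y + k) * ((y + k) ^ n - y ^ n - n * y ^ (n - 1) * k) + n * y ^ (n - 1) * k ^ 2 := by
      rcases n with _ | n
      · simp
      · simp only [Nat.add_sub_cancel]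
        push_cast
        ring
    rw [e]
    have h2 : |y + k| ≤ |M| + 1 := (abs_add_le y k).trans (add_le_add hyM hk)
    have h3 : |(y + k) * ((y + k) ^ n - y ^ n - n * y ^ (n - 1) * k)| ≤
        (|M| + 1) * (C * k ^ 2) := by
      rw [abs_mul]
      exact mul_le_mul h2 h1 (abs_nonneg _) (by positivity)
    have h4 : |(n : ℝ) * y ^ (n - 1) * k ^ 2| ≤ n * |M| ^ (n - 1) * k ^ 2 := by
      rw [abs_mul, abs_mul, abs_pow, abs_pow, Nat.abs_cast, sq_abs]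
      refine mul_le_mul_of_nonneg_right ?_ (sq_nonneg k)
      exact mul_le_mul_of_nonneg_left (pow_le_pow_left₀ (abs_nonneg _) hyM _) (Nat.cast_nonneg _)
    calc _ ≤ |(y + k) * ((y + k) ^ n - y ^ n - n * y ^ (n - 1) * k)| +
          |(n : ℝ) * y ^ (n - 1) * k ^ 2| := abs_add_le _ _
      _ ≤ (|M| + 1) * (C * k ^ 2) + n * |M| ^ (n - 1) * k ^ 2 := add_le_add h3 h4
      _ = _ := by ring

/-- Taylor of order two. -/
theorem taylor2 (n : ℕ) (M : ℝ) : ∃ C : ℝ, 0 ≤ C ∧ ∀ y k : ℝ, |y| ≤ M → |k| ≤ 1 →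
    |(y + k) ^ n - y ^ n - n * y ^ (n - 1) * k -
      (n * (n - 1 : ℕ) / 2 : ℝ) * y ^ (n - 2) * k ^ 2| ≤ C * |k| ^ 3 := by
  induction n with
  | zero => exact ⟨0, le_refl _, fun y k _ _ => by simp⟩
  | succ n ih =>
    obtain ⟨C, hC, h⟩ := ih
    refine ⟨(|M| + 1) * C + (n * (n - 1 : ℕ) / 2 : ℝ) * |M| ^ (n - 2), by positivity,
      fun y k hy hk => ?_⟩
    have h1 := h y k hy hk
    have hyM : |y| ≤ |M| := hy.trans (le_abs_self M)
    have e : (y + k) ^ (n + 1) - y ^ (n + 1) - ((n + 1 : ℕ) : ℝ) * y ^ (n + 1 - 1) * k -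
        (((n + 1 : ℕ) : ℝ) * (n + 1 - 1 : ℕ) / 2 : ℝ) * y ^ (n + 1 - 2) * k ^ 2 =
        (y + k) * ((y + k) ^ n - y ^ n - n * y ^ (n - 1) * k -
      (n * (n - 1 : ℕ) / 2 : ℝ) * y ^ (n - 2) * k ^ 2) +
        (n * (n - 1 : ℕ) / 2 : ℝ) * y ^ (n - 2) * k ^ 3 := by
      rcases n with _ | _ | n
      · simp
      · simp
        ring
      · simp only [Nat.add_sub_cancel, show n + 1 + 1 - 2 = n by omega,
          show n + 1 + 1 + 1 - 2 = n + 1 by omega]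
        push_cast
        ring
    rw [e]
    have h2 : |y + k| ≤ |M| + 1 := (abs_add_le y k).trans (add_le_add hyM hk)
    have h3 : |(y + k) * ((y + k) ^ n - y ^ n - n * y ^ (n - 1) * k -
      (n * (n - 1 : ℕ) / 2 : ℝ) * y ^ (n - 2) * k ^ 2)| ≤ (|M| + 1) * (C * |k| ^ 3) := by
      rw [abs_mul]
      exact mul_le_mul h2 h1 (abs_nonneg _) (by positivity)
    have h4 : |(n * (n - 1 : ℕ) / 2 : ℝ) * y ^ (n - 2) * k ^ 3| ≤
        (n * (n - 1 : ℕ) / 2 : ℝ) * |M| ^ (n - 2) * |k| ^ 3 := by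
      rw [abs_mul, abs_mul, abs_pow, abs_pow,
        abs_of_nonneg (by positivity : (0 : ℝ) ≤ (n * (n - 1 : ℕ) / 2 : ℝ))]
      refine mul_le_mul_of_nonneg_right ?_ (by positivity)
      exact mul_le_mul_of_nonneg_left (pow_le_pow_left₀ (abs_nonneg _) hyM _) (by positivity)
    calc _ ≤ |(y + k) * ((y + k) ^ n - y ^ n - n * y ^ (n - 1) * k -
      (n * (n - 1 : ℕ) / 2 : ℝ) * y ^ (n - 2) * k ^ 2)| +
          |(n * (n - 1 : ℕ) / 2 : ℝ) * y ^ (n - 2) * k ^ 3| := abs_add_le _ _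
      _ ≤ (|M| + 1) * (C * |k| ^ 3) + (n * (n - 1 : ℕ) / 2 : ℝ) * |M| ^ (n - 2) * |k| ^ 3 :=
          add_le_add h3 h4
      _ = _ := by ring

end Pool.Agent.AbelLT
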