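import Pool.Agent.Lib.MP_bb703b_an.Super0
import Pool.Agent.Lib.MP_bb703b_an.Tay

set_option autoImplicit false

open Real Set MeasureTheory intervalIntegral

/-!
Row SUP1: local supersolutions near a periodic solution.

Let `f(t,x) = A x^p + B x^q`, `η = v^q E`, `E = expo p q A v`; `η' = f_x(t,v) η` with
`f_x(t,v) = p A v^(p-1) + q B v^(q-1)` (because `(v^q)' = q v^(q-1)(A v^p+B v^q)` and
`E' = (p-q) A v^(p-1) E`).
-/

namespace Pool.Agent.AbelLT

variable {p q : ℕ} {A B v : ℝ → ℝ}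

/-- the common part of `super_neg` and `super_pos` -/
theorem super1_aux (hq : 2 ≤ q) (hpq : q < p) (hA : Continuous A) (hB : Continuous B)
    (hv : PosPer p q A B v) {L : ℝ} (hLe : (∫ t in (0:ℝ)..(2 * π), A t * v t ^ (p - 1)) = L)
    (hL : L ≠ 0) {δ : ℝ} (hδ : 0 < δ) :
    ∃ ε d : ℝ, 0 < ε * d ∧ L * d < 0 ∧
      StrictSuper p q A B (fun t => v t + ε * (v t ^ q * expo p q A v t * exp (d * t))) ∧
      ∀ t ∈ Icc 0 (2 * π), |ε * (v t ^ q * expo p q A v t * exp (d * t))| < δ := by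
  have hπ := Real.pi_pos
  have hr : (0:ℝ) < ((p - q : ℕ) : ℝ) := by
    have : 0 < p - q := Nat.sub_pos_of_lt hpq
    exact_mod_cast this
  obtain ⟨r, hrdef⟩ : ∃ r : ℝ, r = ((p - q : ℕ) : ℝ) := ⟨_, rfl⟩
  rw [← hrdef] at hr
  obtain ⟨d, hd⟩ : ∃ d : ℝ, d = -(r * L) / (4 * π) := ⟨_, rfl⟩
  have hLd : L * d < 0 := by
    have : L * d = -(r * L ^ 2 / (4 * π)) := by rw [hd]; ring
    rw [this]
    have : 0 < r * L ^ 2 / (4 * π) := by positivity
    linarith
  have hd0 : d ≠ 0 := by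
    intro h; rw [h, mul_zero] at hLd; exact lt_irrefl _ hLd
  have hdabs : 0 < |d| := abs_pos.2 hd0
  have h2d : d * (2 * π) = -(r * L / 2) := by
    rw [hd]; field_simp; ring
  -- the function g
  have hvc : Continuous v := hv.sol.cont
  have hηd := fun t => eta_hd (B := B) hq hpq hA hv t
  have hηc : Continuous (fun t => v t ^ q * expo p q A v t) :=
    continuous_iff_continuousAt.2 fun t => (hηd t).continuousAt
  have hEpos : ∀ t, 0 < expo p q A v t := fun t => exp_pos _
  have hgc : Continuous (fun t => v t ^ q * expo p q A v t * exp (d * t)) := by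
    refine hηc.mul ?_
    fun_prop
  have hgpos : ∀ t, 0 < v t ^ q * expo p q A v t * exp (d * t) := fun t =>
    mul_pos (mul_pos (pow_pos (hv.pos t) q) (hEpos t)) (exp_pos _)
  obtain ⟨G, hG⟩ := (isCompact_Icc (a := (0:ℝ)) (b := 2 * π)).exists_bound_of_continuousOn
    hgc.continuousOn
  obtain ⟨M, hM⟩ := (isCompact_Icc (a := (0:ℝ)) (b := 2 * π)).exists_bound_of_continuousOn
    hvc.continuousOn
  obtain ⟨MA, hMA⟩ := (isCompact_Icc (a := (0:ℝ)) (b := 2 * π)).exists_bound_of_continuousOn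
    hA.continuousOn
  obtain ⟨MB, hMB⟩ := (isCompact_Icc (a := (0:ℝ)) (b := 2 * π)).exists_bound_of_continuousOn
    hB.continuousOn
  have h0mem : (0:ℝ) ∈ Icc (0:ℝ) (2 * π) := ⟨le_refl _, by positivity⟩
  have hG0 : 0 ≤ G := (norm_nonneg _).trans (hG 0 h0mem)
  have hMA0 : 0 ≤ MA := (norm_nonneg _).trans (hMA 0 h0mem)
  have hMB0 : 0 ≤ MB := (norm_nonneg _).trans (hMB 0 h0mem)
  obtain ⟨C1, hC1, hT1⟩ := taylor1 p M
  obtain ⟨C2, hC2, hT2⟩ := taylor1 q M
  obtain ⟨C, hC⟩ : ∃ C : ℝ, C = MA * C1 + MB * C2 := ⟨_, rfl⟩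
  have hC0 : 0 ≤ C := by rw [hC]; positivity
  obtain ⟨m, hm⟩ : ∃ m : ℝ, m = min (min δ 1) |d| := ⟨_, rfl⟩
  have hm0 : 0 < m := by rw [hm]; exact lt_min (lt_min hδ one_pos) hdabs
  have hmδ : m ≤ δ := by rw [hm]; exact (min_le_left _ _).trans (min_le_left _ _)
  have hm1 : m ≤ 1 := by rw [hm]; exact (min_le_left _ _).trans (min_le_right _ _)
  have hmd : m ≤ |d| := by rw [hm]; exact min_le_right _ _
  obtain ⟨e, he⟩ : ∃ e : ℝ, e = m / (2 * (C + 1) * (G + 1)) := ⟨_, rfl⟩
  have he0 : 0 < e := by rw [he]; positivity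
  have heq : e * (2 * (C + 1) * (G + 1)) = m := by
    rw [he]; exact div_mul_cancel₀ _ (by positivity)
  have heG : e * G < m := by
    nlinarith [mul_nonneg he0.le hG0, mul_nonneg he0.le hC0, mul_nonneg (mul_nonneg he0.le hC0) hG0]
  have heCG : C * (e * G) < |d| := by
    nlinarith [mul_nonneg he0.le hG0, mul_nonneg he0.le hC0, mul_nonneg (mul_nonneg he0.le hC0) hG0]
  -- epsilon
  obtain ⟨ε, hε⟩ : ∃ ε : ℝ, ε = e * (d / |d|) := ⟨_, rfl⟩
  have hεd : ε * d = e * |d| := by
    rw [hε, mul_assoc, div_mul_eq_mul_div, ← abs_mul_abs_self d]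
    field_simp
  have hεabs : |ε| = e := by
    rw [hε, abs_mul, abs_div, abs_abs, div_self hdabs.ne', mul_one, abs_of_pos he0]
  have hkabs : ∀ t ∈ Icc 0 (2 * π), |ε * (v t ^ q * expo p q A v t * exp (d * t))| < m := by
    intro t ht
    rw [abs_mul, hεabs]
    refine lt_of_le_of_lt ?_ heG
    exact mul_le_mul_of_nonneg_left (hG t ht) he0.le
  refine ⟨ε, d, ?_, hLd, ⟨⟨fun t => (A t * v t ^ p + B t * v t ^ q) +
      ε * (((p * (A t * v t ^ (p - 1)) + q * (B t * v t ^ (q - 1))) *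
        (v t ^ q * expo p q A v t)) * exp (d * t) +
        v t ^ q * expo p q A v t * (exp (d * t) * d)), ?_⟩, ?_⟩,
      fun t ht => (hkabs t ht).trans_le hmδ⟩
  · rw [hεd]; positivity
  · intro t ht
    constructor
    · have h1 : HasDerivAt (fun t : ℝ => exp (d * t)) (exp (d * t) * d) t := by
        have h2 : HasDerivAt (fun t : ℝ => d * t) d t := by
          simpa using (hasDerivAt_id t).const_mul d
        exact h2.exp
      exact (hv.sol.hd t).add (((hηd t).mul h1).const_mul ε)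
    · obtain ⟨k, hk⟩ : ∃ k : ℝ, k = ε * (v t ^ q * expo p q A v t * exp (d * t)) := ⟨_, rfl⟩
      have hkt := hkabs t ht
      rw [← hk] at hkt
      have hk1 : |k| ≤ 1 := hkt.le.trans hm1
      have hvM : |v t| ≤ M := hM t ht
      have e1 := hT1 (v t) k hvM hk1
      have e2 := hT2 (v t) k hvM hk1
      have hkd : d * k = e * |d| * (v t ^ q * expo p q A v t * exp (d * t)) := by
        rw [hk, ← hεd]; ring
      have hkk : C * k ^ 2 < d * k := by
        have hg := hgpos t
        have hgG : v t ^ q * expo p q A v t * exp (d * t) ≤ G := (le_abs_self _).trans (hG t ht)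
        have hk2 : k ^ 2 = e ^ 2 * (v t ^ q * expo p q A v t * exp (d * t)) ^ 2 := by
          rw [hk, mul_pow, ← sq_abs ε, hεabs]
        rw [hk2, hkd]
        set g := v t ^ q * expo p q A v t * exp (d * t)
        have h3 : C * (e * g) ≤ C * (e * G) :=
          mul_le_mul_of_nonneg_left (mul_le_mul_of_nonneg_left hgG he0.le) hC0
        have h4 : C * (e * g) < |d| := h3.trans_lt heCG
        have h5 : 0 < e * g := mul_pos he0 hg
        calc C * (e ^ 2 * g ^ 2) = C * (e * g) * (e * g) := by ring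
          _ < |d| * (e * g) := mul_lt_mul_of_pos_right h4 h5
          _ = e * |d| * g := by ring
      have hAt : |A t| ≤ MA := hMA t ht
      have hBt : |B t| ≤ MB := hMB t ht
      have b1 : A t * ((v t + k) ^ p - v t ^ p - p * v t ^ (p - 1) * k) ≤ MA * (C1 * k ^ 2) := by
        refine (le_abs_self _).trans ?_
        rw [abs_mul]
        exact mul_le_mul hAt e1 (abs_nonneg _) hMA0
      have b2 : B t * ((v t + k) ^ q - v t ^ q - q * v t ^ (q - 1) * k) ≤ MB * (C2 * k ^ 2) := by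
        refine (le_abs_self _).trans ?_
        rw [abs_mul]
        exact mul_le_mul hBt e2 (abs_nonneg _) hMB0
      have hfin : A t * (v t + k) ^ p + B t * (v t + k) ^ q <
          (A t * v t ^ p + B t * v t ^ q) +
          (p * (A t * v t ^ (p - 1)) + q * (B t * v t ^ (q - 1))) * k + d * k := by
        have hCk : C * k ^ 2 = MA * (C1 * k ^ 2) + MB * (C2 * k ^ 2) := by rw [hC]; ring
        nlinarith [b1, b2, hkk, hCk]
      have hrw : (A t * v t ^ p + B t * v t ^ q) +
          ε * (((p * (A t * v t ^ (p - 1)) + q * (B t * v t ^ (q - 1))) *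
          (v t ^ q * expo p q A v t)) * exp (d * t) +
          v t ^ q * expo p q A v t * (exp (d * t) * d)) =
          (A t * v t ^ p + B t * v t ^ q) +
          (p * (A t * v t ^ (p - 1)) + q * (B t * v t ^ (q - 1))) * k + d * k := by
        rw [hk]; ring
      show A t * (v t + ε * (v t ^ q * expo p q A v t * exp (d * t))) ^ p +
        B t * (v t + ε * (v t ^ q * expo p q A v t * exp (d * t))) ^ q < _
      rw [← hk]
      refine hfin.trans_eq ?_
      exact hrw.symm
  · have hv2 : v (2 * π) = v 0 := by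
      have := hv.sol.per 0
      rwa [zero_add] at this
    have hE0 : expo p q A v 0 = 1 := by simp [expo]
    have hE2 : expo p q A v (2 * π) = exp (r * L) := by
      unfold expo
      rw [hLe, hrdef]
    show v (2 * π) + ε * (v (2 * π) ^ q * expo p q A v (2 * π) * exp (d * (2 * π))) <
      v 0 + ε * (v 0 ^ q * expo p q A v 0 * exp (d * 0))
    rw [hv2, hE0, hE2, mul_zero, exp_zero, h2d, mul_assoc, ← exp_add, mul_one, mul_one]
    have h3 : r * L + -(r * L / 2) = r * L / 2 := by ring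
    rw [h3]
    have hvq : 0 < v 0 ^ q := pow_pos (hv.pos 0) q
    have hεd' : 0 < ε * d := by rw [hεd]; positivity
    rcases lt_or_gt_of_ne hL with hneg | hpos
    · have hdpos : 0 < d := (neg_iff_pos_of_mul_neg hLd).1 hneg
      have hεpos : 0 < ε := (pos_iff_pos_of_mul_pos hεd').2 hdpos
      have h4 : exp (r * L / 2) < 1 := by
        rw [exp_lt_one_iff]
        linarith [mul_neg_of_pos_of_neg hr hneg]
      have h5 : v 0 ^ q * exp (r * L / 2) < v 0 ^ q := mul_lt_of_lt_one_right hvq h4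
      have := mul_lt_mul_of_pos_left h5 hεpos
      linarith
    · have hdneg : d < 0 := (pos_iff_neg_of_mul_neg hLd).1 hpos
      have hεneg : ε < 0 := (neg_iff_neg_of_mul_pos hεd').2 hdneg
      have h4 : 1 < exp (r * L / 2) := by
        rw [one_lt_exp_iff]
        linarith [mul_pos hr hpos]
      have h5 : v 0 ^ q < v 0 ^ q * exp (r * L / 2) := lt_mul_of_one_lt_right hvq h4
      have := mul_lt_mul_of_neg_left h5 hεneg
      linarith

/-- SUP1.  `L = ∫ A v^(p-1) < 0`: take `w = v + ε η e^{d t}` with small `d > 0`, `ε > 0`.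
`w' - f(t,w) = d k - (f(t,v+k) - f(t,v) - f_x(t,v) k)`, `k = ε η e^{d t}`, and the bracket is
`O(k²)` uniformly; `w(2π) - w(0) = ε v(0)^q (E(2π) e^{2π d} - 1) < 0` for small `d`. -/
theorem super_neg (hq : 2 ≤ q) (hpq : q < p) (hA : Continuous A) (hB : Continuous B)
    (hv : PosPer p q A B v) (hL : (∫ t in (0:ℝ)..(2 * π), A t * v t ^ (p - 1)) < 0)
    {δ : ℝ} (hδ : 0 < δ) :
    ∃ w, StrictSuper p q A B w ∧ ∀ t ∈ Icc 0 (2 * π), v t < w t ∧ w t < v t + δ := by
  obtain ⟨ε, d, h1, h2, h3, h4⟩ := super1_aux hq hpq hA hB hv rfl hL.ne hδ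
  refine ⟨_, h3, fun t ht => ?_⟩
  have hd : 0 < d := (neg_iff_pos_of_mul_neg h2).1 hL
  have hε : 0 < ε := (pos_iff_pos_of_mul_pos h1).2 hd
  have hg : 0 < v t ^ q * expo p q A v t * exp (d * t) :=
    mul_pos (mul_pos (pow_pos (hv.pos t) q) (exp_pos _)) (exp_pos _)
  have h5 := mul_pos hε hg
  have h6 := (abs_lt.1 (h4 t ht)).2
  constructor
  · show v t < v t + ε * (v t ^ q * expo p q A v t * exp (d * t))
    linarith
  · show v t + ε * (v t ^ q * expo p q A v t * exp (d * t)) < v t + δ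
    linarith

/-- `L > 0`: the same with `ε < 0` and `d < 0`. -/
theorem super_pos (hq : 2 ≤ q) (hpq : q < p) (hA : Continuous A) (hB : Continuous B)
    (hv : PosPer p q A B v) (hL : 0 < (∫ t in (0:ℝ)..(2 * π), A t * v t ^ (p - 1)))
    {δ : ℝ} (hδ : 0 < δ) :
    ∃ w, StrictSuper p q A B w ∧ ∀ t ∈ Icc 0 (2 * π), v t - δ < w t ∧ w t < v t := by
  obtain ⟨ε, d, h1, h2, h3, h4⟩ := super1_aux hq hpq hA hB hv rfl hL.ne' hδ
  refine ⟨_, h3, fun t ht => ?_⟩
  have hd : d < 0 := (pos_iff_neg_of_mul_neg h2).1 hL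
  have hε : ε < 0 := (neg_iff_neg_of_mul_pos h1).2 hd
  have hg : 0 < v t ^ q * expo p q A v t * exp (d * t) :=
    mul_pos (mul_pos (pow_pos (hv.pos t) q) (exp_pos _)) (exp_pos _)
  have h5 := mul_neg_of_neg_of_pos hε hg
  have h6 := (abs_lt.1 (h4 t ht)).1
  constructor
  · show v t - δ < v t + ε * (v t ^ q * expo p q A v t * exp (d * t))
    linarith
  · show v t + ε * (v t ^ q * expo p q A v t * exp (d * t)) < v t
    linarith

end Pool.Agent.AbelLT
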