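import Pool.Agent.Lib.MP_bb703b_an.Super2a
import Pool.Agent.Lib.MP_bb703b_an.Tay

set_option autoImplicit false

open Real Set MeasureTheory intervalIntegral

/-!
Row SUP3.  `L = 0` and `J = ∫ E A v^(p+q-2) < 0`:
`w = v + ε η + ε² η (H + d t)`, `η = v^q E`, `H t = ∫_0^t f_xx(v)/2 * η`,
`f_xx(v) = p(p-1) A v^(p-2) + q(q-1) B v^(q-2)`.
* `H(2π) = (p-1)(p-q)/2 * J < 0`: `(E v^(q-1))' = E ((p-1) A v^(p+q-2) + (q-1) B v^(2q-2))`
  has zero integral because `E(2π) = 1 = E(0)`.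
* `w' - f(t,w) = ε² η d + (terms O(ε³))` with `k = w - v = ε η (1 + ε (H + d t))`:
  `w' - f(t,v+k) = f_x k + ε² η (f_xx η/2 + d) - (f_x k + f_xx k²/2 + R₃)`.
* `w(2π) - w(0) = ε² v(0)^q (H(2π) + 2π d) < 0` for `0 < d` small.
-/

namespace Pool.Agent.AbelLT

variable {p q : ℕ} {A B v : ℝ → ℝ}

theorem super2_bdd {f : ℝ → ℝ} (hf : Continuous f) :
    ∃ M : ℝ, ∀ t ∈ Icc 0 (2 * π), |f t| ≤ M := by
  obtain ⟨M, hM⟩ := (isCompact_Icc (a := (0 : ℝ)) (b := 2 * π)).exists_bound_of_continuousOn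
    hf.continuousOn
  exact ⟨M, hM⟩

theorem super2_min {f : ℝ → ℝ} (hf : Continuous f) (h0 : ∀ t, 0 < f t) :
    ∃ m : ℝ, 0 < m ∧ ∀ t ∈ Icc 0 (2 * π), m ≤ f t := by
  have hne : (Icc (0 : ℝ) (2 * π)).Nonempty := ⟨0, by constructor <;> positivity⟩
  obtain ⟨t0, ht0, hm⟩ := (isCompact_Icc (a := (0 : ℝ)) (b := 2 * π)).exists_isMinOn hne
    hf.continuousOn
  exact ⟨f t0, h0 t0, fun t ht => hm ht⟩

theorem super2_ineq {ε M m d C η G F R k : ℝ} (hε : 0 < ε) (hM : 1 ≤ M) (hC : 0 ≤ C)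
    (hεM : ε * M ≤ 1 / 2) (hη : m ≤ η) (hm : 0 < m) (hη' : η ≤ M) (hF : |F| ≤ M) (hG : |G| ≤ M)
    (hk : k = ε * η * (1 + ε * G)) (hR : |R| ≤ C * |k| ^ 3) (hd : 0 < d)
    (hs : ε * (3 * M ^ 2 + 8 * C * M ^ 3) < m * d) :
    0 < ε ^ 2 * (F + η * d) - F * (ε ^ 2 * (1 + ε * G) ^ 2) - R := by
  have hη0 : 0 < η := lt_of_lt_of_le hm hη
  have hM0 : 0 < M := by linarith
  have hεG : |ε * G| ≤ 1 / 2 := by
    rw [abs_mul, abs_of_pos hε]
    exact (mul_le_mul_of_nonneg_left hG hε.le).trans hεM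
  obtain ⟨g1, g2⟩ := abs_le.mp hεG
  have hk1 : |k| ≤ 2 * ε * M := by
    rw [hk, abs_mul, abs_mul, abs_of_pos hε, abs_of_pos hη0]
    have h1 : |1 + ε * G| ≤ 2 := by
      rw [abs_le]; constructor <;> linarith
    calc ε * η * |1 + ε * G| ≤ ε * M * 2 :=
          mul_le_mul (mul_le_mul_of_nonneg_left hη' hε.le) h1 (abs_nonneg _) (by positivity)
      _ = 2 * ε * M := by ring
  have hk3 : |k| ^ 3 ≤ 8 * ε ^ 3 * M ^ 3 := by
    calc |k| ^ 3 ≤ (2 * ε * M) ^ 3 := pow_le_pow_left₀ (abs_nonneg _) hk1 3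
      _ = _ := by ring
  have hR' : R ≤ C * (8 * ε ^ 3 * M ^ 3) :=
    (le_abs_self R).trans (hR.trans (mul_le_mul_of_nonneg_left hk3 hC))
  have hFG : F * (2 * (ε * G) + (ε * G) ^ 2) ≤ 3 * ε * M ^ 2 := by
    have h2 : |2 * (ε * G) + (ε * G) ^ 2| ≤ 3 * (ε * M) := by
      have h3 : |2 * (ε * G) + (ε * G) ^ 2| = |ε * G| * |2 + ε * G| := by
        rw [← abs_mul]; congr 1; ring
      have h4 : |2 + ε * G| ≤ 3 := by rw [abs_le]; constructor <;> linarith
      have h5 : |ε * G| ≤ ε * M := by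
        rw [abs_mul, abs_of_pos hε]
        exact mul_le_mul_of_nonneg_left hG hε.le
      rw [h3]
      calc |ε * G| * |2 + ε * G| ≤ (ε * M) * 3 :=
            mul_le_mul h5 h4 (abs_nonneg _) (by positivity)
        _ = _ := by ring
    have h6 : |F * (2 * (ε * G) + (ε * G) ^ 2)| ≤ M * (3 * (ε * M)) := by
      rw [abs_mul]
      exact mul_le_mul hF h2 (abs_nonneg _) hM0.le
    calc F * (2 * (ε * G) + (ε * G) ^ 2) ≤ M * (3 * (ε * M)) := (le_abs_self _).trans h6
      _ = _ := by ring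
  have e1 : ε ^ 2 * (F + η * d) - F * (ε ^ 2 * (1 + ε * G) ^ 2) - R =
      ε ^ 2 * (η * d) - ε ^ 2 * (F * (2 * (ε * G) + (ε * G) ^ 2)) - R := by ring
  rw [e1]
  have hε2 : 0 < ε ^ 2 := by positivity
  have h7 : ε ^ 2 * (m * d) ≤ ε ^ 2 * (η * d) :=
    mul_le_mul_of_nonneg_left (mul_le_mul_of_nonneg_right hη hd.le) hε2.le
  have h8 : ε ^ 2 * (F * (2 * (ε * G) + (ε * G) ^ 2)) ≤ ε ^ 2 * (3 * ε * M ^ 2) :=
    mul_le_mul_of_nonneg_left hFG hε2.le
  have h9 : ε ^ 2 * (ε * (3 * M ^ 2 + 8 * C * M ^ 3)) < ε ^ 2 * (m * d) :=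
    mul_lt_mul_of_pos_left hs hε2
  have h10 : ε ^ 2 * (ε * (3 * M ^ 2 + 8 * C * M ^ 3)) =
      ε ^ 2 * (3 * ε * M ^ 2) + C * (8 * ε ^ 3 * M ^ 3) := by ring
  linarith

theorem super_zero (hq : 2 ≤ q) (hpq : q < p) (hA : Continuous A) (hB : Continuous B)
    (hv : PosPer p q A B v) (hL : (∫ t in (0:ℝ)..(2 * π), A t * v t ^ (p - 1)) = 0)
    (hJ : (∫ t in (0:ℝ)..(2 * π), expo p q A v t * (A t * v t ^ (p + q - 2))) < 0)
    {δ : ℝ} (hδ : 0 < δ) :
    ∃ w, StrictSuper p q A B w ∧ ∀ t ∈ Icc 0 (2 * π), v t < w t ∧ w t < v t + δ := by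
  have hvc : Continuous v := hv.sol.cont
  have hEc : Continuous (expo p q A v) :=
    continuous_iff_continuousAt.2 fun t => (expo_hd hA hvc t).continuousAt
  have hE0 : ∀ t, 0 < expo p q A v t := fun t => exp_pos _
  set η : ℝ → ℝ := fun t => v t ^ q * expo p q A v t with hηdef
  have hηc : Continuous η := (hvc.pow q).mul hEc
  have hη0 : ∀ t, 0 < η t := fun t => mul_pos (pow_pos (hv.pos t) q) (hE0 t)
  set φ : ℝ → ℝ := fun t => (p * (p - 1 : ℕ) * (A t * v t ^ (p - 2)) +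
      q * (q - 1 : ℕ) * (B t * v t ^ (q - 2))) / 2 with hφdef
  have hφc : Continuous φ := by
    rw [hφdef]
    fun_prop
  set H : ℝ → ℝ := fun t => ∫ s in (0:ℝ)..t, φ s * η s with hHdef
  have hHd : ∀ t, HasDerivAt H (φ t * η t) t := fun t =>
    ((hφc.mul hηc).integral_hasStrictDerivAt 0 t).hasDerivAt
  have hHc : Continuous H := continuous_iff_continuousAt.2 fun t => (hHd t).continuousAt
  have hH0 : H 0 = 0 := by rw [hHdef]; exact integral_same
  have hHT : H (2 * π) < 0 := by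
    have h1 : H (2 * π) = (p - 1 : ℕ) * (p - q : ℕ) / 2 *
      ∫ t in (0:ℝ)..(2 * π), expo p q A v t * (A t * v t ^ (p + q - 2)) :=
      H_value hq hpq hA hB hv hL
    rw [h1]
    have h2 : (0 : ℝ) < ((p - 1 : ℕ) : ℝ) := by
      have : 0 < p - 1 := by omega
      exact_mod_cast this
    have h3 : (0 : ℝ) < ((p - q : ℕ) : ℝ) := by
      have : 0 < p - q := by omega
      exact_mod_cast this
    exact mul_neg_of_pos_of_neg (by positivity) hJ
  have hπ : 0 < 2 * π := by positivity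
  set d : ℝ := -H (2 * π) / (2 * (2 * π)) with hddef
  have hd : 0 < d := div_pos (by linarith) (by positivity)
  have hdT : H (2 * π) + d * (2 * π) < 0 := by
    have : d * (2 * π) = -H (2 * π) / 2 := by
      rw [hddef]; field_simp
    rw [this]; linarith
  set G : ℝ → ℝ := fun t => H t + d * t with hGdef
  have hGc : Continuous G := by rw [hGdef]; fun_prop
  obtain ⟨M1, hM1⟩ := super2_bdd hvc
  obtain ⟨M2, hM2⟩ := super2_bdd hηc
  obtain ⟨M3, hM3⟩ := super2_bdd hGc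
  obtain ⟨M4, hM4⟩ := super2_bdd (hφc.mul (hηc.pow 2))
  obtain ⟨M5, hM5⟩ := super2_bdd hA
  obtain ⟨M6, hM6⟩ := super2_bdd hB
  obtain ⟨m, hm, hmη⟩ := super2_min hηc hη0
  set M : ℝ := 1 + |M1| + |M2| + |M3| + |M4| + |M5| + |M6| with hMdef
  have hM : 1 ≤ M := by
    rw [hMdef]; have := abs_nonneg M1; have := abs_nonneg M2; have := abs_nonneg M3
    have := abs_nonneg M4; have := abs_nonneg M5; have := abs_nonneg M6; linarith
  have hle : ∀ i ∈ ({M1, M2, M3, M4, M5, M6} : Set ℝ), i ≤ M := by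
    intro i hi
    have a1 := abs_nonneg M1; have a2 := abs_nonneg M2; have a3 := abs_nonneg M3
    have a4 := abs_nonneg M4; have a5 := abs_nonneg M5; have a6 := abs_nonneg M6
    have b1 := le_abs_self M1; have b2 := le_abs_self M2; have b3 := le_abs_self M3
    have b4 := le_abs_self M4; have b5 := le_abs_self M5; have b6 := le_abs_self M6
    simp only [mem_insert_iff, mem_singleton_iff] at hi
    rw [hMdef]
    rcases hi with rfl | rfl | rfl | rfl | rfl | rfl <;> linarith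
  obtain ⟨Cp, hCp0, hCp⟩ := taylor2 p M
  obtain ⟨Cq, hCq0, hCq⟩ := taylor2 q M
  set C : ℝ := M * (Cp + Cq) with hCdef
  have hM0 : 0 < M := by linarith
  have hC : 0 ≤ C := mul_nonneg hM0.le (by linarith)
  set D : ℝ := 3 * M ^ 2 + 8 * C * M ^ 3 with hDdef
  have hD : 0 < D := by positivity
  -- choice of `ε`
  obtain ⟨ε, hε, hε1, hε2, hε3⟩ : ∃ ε : ℝ, 0 < ε ∧ ε * M ≤ 1 / 2 ∧ ε * D < m * d ∧
      2 * ε * M < δ := by
    refine ⟨min (1 / (2 * M)) (min (m * d / (2 * D)) (δ / (4 * M))), ?_, ?_, ?_, ?_⟩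
    · have : 0 < m * d := mul_pos hm hd
      positivity
    · calc _ ≤ 1 / (2 * M) * M := mul_le_mul_of_nonneg_right (min_le_left _ _) hM0.le
        _ = 1 / 2 := by field_simp
    · have h1 : 0 < m * d := mul_pos hm hd
      calc _ ≤ m * d / (2 * D) * D := mul_le_mul_of_nonneg_right
            ((min_le_right _ _).trans (min_le_left _ _)) hD.le
        _ = m * d / 2 := by field_simp
        _ < m * d := by linarith
    · calc 2 * min (1 / (2 * M)) (min (m * d / (2 * D)) (δ / (4 * M))) * M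
            ≤ 2 * (δ / (4 * M)) * M := by
              refine mul_le_mul_of_nonneg_right (mul_le_mul_of_nonneg_left
                ((min_le_right _ _).trans (min_le_right _ _)) (by norm_num)) hM0.le
        _ = δ / 2 := by field_simp; norm_num
        _ < δ := by linarith
  set k : ℝ → ℝ := fun t => ε * η t * (1 + ε * G t) with hkdef
  have hGd : ∀ t, HasDerivAt G (φ t * η t + d * 1) t := fun t =>
    (hHd t).add ((hasDerivAt_id t).const_mul d)
  have hkd : ∀ t, HasDerivAt k (ε * ((p * (A t * v t ^ (p - 1)) + q * (B t * v t ^ (q - 1))) *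
      (v t ^ q * expo p q A v t)) * (1 + ε * G t) + ε * η t * (ε * (φ t * η t + d * 1))) t := by
    intro t
    exact ((eta_hd hq hpq hA hv t).const_mul ε).mul (((hGd t).const_mul ε).const_add 1)
  have hGb : ∀ t ∈ Icc 0 (2 * π), |ε * G t| ≤ 1 / 2 := by
    intro t ht
    rw [abs_mul, abs_of_pos hε]
    exact (mul_le_mul_of_nonneg_left ((hM3 t ht).trans (hle _ (by simp))) hε.le).trans hε1
  have hkb : ∀ t ∈ Icc 0 (2 * π), 0 < k t ∧ k t ≤ 2 * ε * M := by
    intro t ht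
    obtain ⟨g1, g2⟩ := abs_le.mp (hGb t ht)
    have h1 : 0 < 1 + ε * G t := by linarith
    have h2 : η t ≤ M := (le_abs_self _).trans ((hM2 t ht).trans (hle _ (by simp)))
    refine ⟨mul_pos (mul_pos hε (hη0 t)) h1, ?_⟩
    calc ε * η t * (1 + ε * G t) ≤ ε * M * 2 :=
          mul_le_mul (mul_le_mul_of_nonneg_left h2 hε.le) (by linarith) h1.le (by positivity)
      _ = _ := by ring
  refine ⟨fun t => v t + k t, ⟨⟨fun t => (A t * v t ^ p + B t * v t ^ q) +
    (ε * ((p * (A t * v t ^ (p - 1)) + q * (B t * v t ^ (q - 1))) *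
      (v t ^ q * expo p q A v t)) * (1 + ε * G t) + ε * η t * (ε * (φ t * η t + d * 1))),
    fun t ht => ⟨(hv.sol.hd t).add (hkd t), ?_⟩⟩, ?_⟩, fun t ht => ?_⟩
  · -- the differential inequality
    have hk1 : |k t| ≤ 1 := by
      rw [abs_of_pos (hkb t ht).1]
      have h1 := (hkb t ht).2
      have h2 : 2 * ε * M = 2 * (ε * M) := by ring
      linarith
    have hvM : |v t| ≤ M := (hM1 t ht).trans (hle _ (by simp))
    have r1 := hCp (v t) (k t) hvM hk1
    have r2 := hCq (v t) (k t) hvM hk1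
    set Rp := (v t + k t) ^ p - v t ^ p - p * v t ^ (p - 1) * k t -
      (p * (p - 1 : ℕ) / 2 : ℝ) * v t ^ (p - 2) * k t ^ 2 with hRp
    set Rq := (v t + k t) ^ q - v t ^ q - q * v t ^ (q - 1) * k t -
      (q * (q - 1 : ℕ) / 2 : ℝ) * v t ^ (q - 2) * k t ^ 2 with hRq
    have hR : |A t * Rp + B t * Rq| ≤ C * |k t| ^ 3 := by
      have hA1 : |A t| ≤ M := (hM5 t ht).trans (hle _ (by simp))
      have hB1 : |B t| ≤ M := (hM6 t ht).trans (hle _ (by simp))
      calc |A t * Rp + B t * Rq| ≤ |A t * Rp| + |B t * Rq| := abs_add_le _ _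
        _ = |A t| * |Rp| + |B t| * |Rq| := by rw [abs_mul, abs_mul]
        _ ≤ M * (Cp * |k t| ^ 3) + M * (Cq * |k t| ^ 3) :=
            add_le_add (mul_le_mul hA1 r1 (abs_nonneg _) hM0.le)
              (mul_le_mul hB1 r2 (abs_nonneg _) hM0.le)
        _ = C * |k t| ^ 3 := by rw [hCdef]; ring
    have key := super2_ineq (ε := ε) (M := M) (m := m) (d := d) (C := C) (η := η t) (G := G t)
      (F := φ t * η t ^ 2) (R := A t * Rp + B t * Rq) (k := k t) hε hM hC hε1 (hmη t ht) hm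
      ((le_abs_self _).trans ((hM2 t ht).trans (hle _ (by simp))))
      ((hM4 t ht).trans (hle _ (by simp))) ((hM3 t ht).trans (hle _ (by simp))) rfl hR hd hε2
    have e0 : k t = ε * η t * (1 + ε * G t) := rfl
    have e1 : (v t + k t) ^ p = v t ^ p + p * v t ^ (p - 1) * k t +
      (p * (p - 1 : ℕ) / 2 : ℝ) * v t ^ (p - 2) * k t ^ 2 + Rp := by rw [hRp]; ring
    have e2 : (v t + k t) ^ q = v t ^ q + q * v t ^ (q - 1) * k t +
      (q * (q - 1 : ℕ) / 2 : ℝ) * v t ^ (q - 2) * k t ^ 2 + Rq := by rw [hRq]; ring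
    have e3 : (A t * v t ^ p + B t * v t ^ q) +
      (ε * ((p * (A t * v t ^ (p - 1)) + q * (B t * v t ^ (q - 1))) *
      (v t ^ q * expo p q A v t)) * (1 + ε * G t) + ε * η t * (ε * (φ t * η t + d * 1))) -
      (A t * (v t + k t) ^ p + B t * (v t + k t) ^ q) =
      ε ^ 2 * (φ t * η t ^ 2 + η t * d) -
        φ t * η t ^ 2 * (ε ^ 2 * (1 + ε * G t) ^ 2) - (A t * Rp + B t * Rq) := by
      rw [e1, e2]
      have e4 : ε * ((p * (A t * v t ^ (p - 1)) + q * (B t * v t ^ (q - 1))) *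
        (v t ^ q * expo p q A v t)) * (1 + ε * G t) =
        (p * (A t * v t ^ (p - 1)) + q * (B t * v t ^ (q - 1))) * k t := by
        rw [e0]; simp only [hηdef]; ring
      have e5 : φ t * k t ^ 2 = φ t * η t ^ 2 * (ε ^ 2 * (1 + ε * G t) ^ 2) := by
        rw [e0]; ring
      have e6 : φ t * k t ^ 2 = (A t * ((p * (p - 1 : ℕ) / 2 : ℝ) * v t ^ (p - 2) * k t ^ 2)) +
        (B t * ((q * (q - 1 : ℕ) / 2 : ℝ) * v t ^ (q - 2) * k t ^ 2)) := by
        simp only [hφdef]; ring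
      rw [e4, ← e5, e6]
      ring
    have e7 : 0 < (A t * v t ^ p + B t * v t ^ q) +
      (ε * ((p * (A t * v t ^ (p - 1)) + q * (B t * v t ^ (q - 1))) *
      (v t ^ q * expo p q A v t)) * (1 + ε * G t) + ε * η t * (ε * (φ t * η t + d * 1))) -
      (A t * (v t + k t) ^ p + B t * (v t + k t) ^ q) := by rw [e3]; exact key
    exact sub_pos.mp e7
  · -- the end points
    have hvT : v (2 * π) = v 0 := by
      have := hv.sol.per 0
      rwa [zero_add] at this
    have hET : expo p q A v (2 * π) = 1 := by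
      unfold expo
      rw [hL, mul_zero, exp_zero]
    have hE00 : expo p q A v 0 = 1 := by
      unfold expo
      rw [integral_same, mul_zero, exp_zero]
    have hηT : η (2 * π) = η 0 := by
      simp only [hηdef]
      rw [hvT, hET, hE00]
    have hG0 : G 0 = 0 := by simp only [hGdef]; rw [hH0]; ring
    have hGT : G (2 * π) < 0 := hdT
    have h1 : k (2 * π) < k 0 := by
      simp only [hkdef]
      rw [hηT, hG0]
      have : 0 < ε * η 0 := mul_pos hε (hη0 0)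
      have h2 : ε * G (2 * π) < 0 := mul_neg_of_pos_of_neg hε hGT
      exact mul_lt_mul_of_pos_left (by linarith) this
    show v (2 * π) + k (2 * π) < v 0 + k 0
    rw [hvT]
    linarith
  · have h1 := hkb t ht
    show v t < v t + k t ∧ v t + k t < v t + δ
    constructor
    · linarith [h1.1]
    · linarith [h1.2]

end Pool.Agent.AbelLT
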