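import Pool.Agent.Lib.MP_bb703b_an.Trig

set_option autoImplicit false

open Real Set

/-!
Row TRI: the trichotomy for linear trigonometric coefficients.
-/

namespace Pool.Agent.AbelLT

theorem lin_sq_le (P Q t : ℝ) : (P * cos t + Q * sin t) ^ 2 ≤ P ^ 2 + Q ^ 2 := by
  have h := sin_sq_add_cos_sq t
  have e : (P * cos t + Q * sin t) ^ 2 + (P * sin t - Q * cos t) ^ 2 = P ^ 2 + Q ^ 2 := by
    linear_combination (P ^ 2 + Q ^ 2) * h
  nlinarith [sq_nonneg (P * sin t - Q * cos t)]

/-- `det < 0`: either the Wronskian is positive everywhere or a combination is one-signed. -/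
theorem tri_neg {a0 a1 a2 b0 b1 b2 : ℝ} (hdet : a1 * b2 - a2 * b1 < 0) :
    (∀ t, 0 < wr a0 a1 a2 b0 b1 b2 t) ∨
      ∃ a b : ℝ, (∀ t, 0 ≤ a * tg a0 a1 a2 t + b * tg b0 b1 b2 t) ∧
        ∃ t, a * tg a0 a1 a2 t + b * tg b0 b1 b2 t ≠ 0 := by
  set P := a0 * b1 - a1 * b0 with hP
  set Q := a2 * b0 - a0 * b2 with hQ
  set d := a1 * b2 - a2 * b1 with hd
  rcases lt_or_ge (P ^ 2 + Q ^ 2) (d ^ 2) with h | h
  · left
    intro t
    have h1 := lin_sq_le P Q t
    unfold wr
    rw [← hP, ← hQ, ← hd]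
    by_contra hc
    push Not at hc
    nlinarith
  · right
    refine ⟨-Q * b2 + P * b1, Q * a2 - P * a1, ?_⟩
    have e : ∀ t, (-Q * b2 + P * b1) * tg a0 a1 a2 t + (Q * a2 - P * a1) * tg b0 b1 b2 t =
        P ^ 2 + Q ^ 2 - d * (P * cos t + Q * sin t) := fun t => by
      simp only [tg]
      rw [hP, hQ, hd]
      ring
    have hd2 : 0 < d ^ 2 := by nlinarith
    constructor
    · intro t
      rw [e]
      have h1 := lin_sq_le P Q t
      have h2 : (d * (P * cos t + Q * sin t)) ^ 2 ≤ (P ^ 2 + Q ^ 2) ^ 2 := by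
        rw [mul_pow, sq (P ^ 2 + Q ^ 2)]
        exact mul_le_mul h h1 (sq_nonneg _) (by positivity)
      have := abs_le_of_sq_le_sq' h2 (by positivity)
      linarith [this.2]
    · by_contra hc
      push Not at hc
      have h1 := hc 0
      have h2 := hc π
      rw [e] at h1 h2
      simp only [cos_zero, sin_zero, cos_pi, sin_pi] at h1 h2
      nlinarith

/-- `det = 0`: a combination is a positive constant, or a nontrivial combination vanishes. -/
theorem tri_zero {a0 a1 a2 b0 b1 b2 : ℝ} (hdet : a1 * b2 - a2 * b1 = 0) :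
    (∃ a b : ℝ, (∀ t, 0 < a * tg a0 a1 a2 t + b * tg b0 b1 b2 t)) ∨
      ∃ a b : ℝ, (a ≠ 0 ∨ b ≠ 0) ∧ ∀ t, a * tg a0 a1 a2 t + b * tg b0 b1 b2 t = 0 := by
  obtain ⟨a, b, hab, h1, h2⟩ : ∃ a b : ℝ, (a ≠ 0 ∨ b ≠ 0) ∧ a * a1 + b * b1 = 0 ∧
      a * a2 + b * b2 = 0 := by
    by_cases h : b1 ≠ 0 ∨ -a1 ≠ 0
    · exact ⟨b1, -a1, h, by ring, by linarith⟩
    · push Not at h
      by_cases h' : b2 ≠ 0 ∨ -a2 ≠ 0
      · have ha1 : a1 = 0 := by linarith [h.2]
        exact ⟨b2, -a2, h', by rw [ha1, h.1]; ring, by ring⟩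
      · push Not at h'
        have ha1 : a1 = 0 := by linarith [h.2]
        have ha2 : a2 = 0 := by linarith [h'.2]
        exact ⟨1, 0, Or.inl one_ne_zero, by rw [ha1]; ring, by rw [ha2]; ring⟩
  have e : ∀ k t, (k * a) * tg a0 a1 a2 t + (k * b) * tg b0 b1 b2 t =
      k * (a * a0 + b * b0) := fun k t => by
    simp only [tg]
    linear_combination (k * sin t) * h1 + (k * cos t) * h2
  by_cases hK : a * a0 + b * b0 = 0
  · right
    refine ⟨a, b, hab, fun t => ?_⟩
    have := e 1 t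
    rw [hK, one_mul, one_mul, mul_zero] at this
    exact this
  · left
    refine ⟨(a * a0 + b * b0) * a, (a * a0 + b * b0) * b, fun t => ?_⟩
    rw [e]
    rcases lt_or_gt_of_ne hK with h | h
    · exact mul_pos_of_neg_of_neg h h
    · exact mul_pos h h

theorem integral_tg (a b c : ℝ) : ∫ t in (0:ℝ)..(2 * π), tg a b c t = 2 * π * a := by
  have i1 : IntervalIntegrable (fun _ : ℝ => a) MeasureTheory.volume 0 (2 * π) :=
    Continuous.intervalIntegrable (by fun_prop) _ _
  have i2 : IntervalIntegrable (fun t : ℝ => b * sin t) MeasureTheory.volume 0 (2 * π) :=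
    Continuous.intervalIntegrable (by fun_prop) _ _
  have i3 : IntervalIntegrable (fun t : ℝ => c * cos t) MeasureTheory.volume 0 (2 * π) :=
    Continuous.intervalIntegrable (by fun_prop) _ _
  simp only [tg]
  rw [intervalIntegral.integral_add (i1.add i2) i3, intervalIntegral.integral_add i1 i2,
    intervalIntegral.integral_const_mul, intervalIntegral.integral_const_mul,
    intervalIntegral.integral_const, integral_sin, integral_cos]
  simp

end Pool.Agent.AbelLT
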