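import Pool.Agent.Lib.MP_bb703b_an.Cert
import Pool.Agent.Lib.MP_bb703b_an.Signs
import Pool.Agent.Lib.MP_bb703b_an.JLem
import Pool.Agent.Lib.MP_bb703b_an.Super1
import Pool.Agent.Lib.MP_bb703b_an.Super2
import Pool.Agent.Lib.MP_bb703b_an.LemM
import Pool.Agent.Lib.MP_bb703b_an.OneSign
import Pool.Agent.Lib.MP_bb703b_an.Tri

set_option autoImplicit false

open Real Set MeasureTheory intervalIntegral

/-!
Row CNT: at most two positive periodic solutions when `det < 0`.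
-/

namespace Pool.Agent.AbelLT

variable {p q : ℕ} {a0 a1 a2 b0 b1 b2 : ℝ} {v u₁ u₂ u₃ : ℝ → ℝ}

/-- supersolutions near every positive periodic solution. `tri_neg`: either `wr > 0`
(`exists_cert`; `L ≠ 0`: `super_neg`/`super_pos`; `L = 0`: `sign_S4`, `super_zero`) or a one-signed
combination (`one_L`: `L ≠ 0`). -/
theorem super_family (hq : 2 ≤ q) (hpq : q < p) (hdet : a1 * b2 - a2 * b1 < 0)
    (hv : PosPer p q (tg a0 a1 a2) (tg b0 b1 b2) v) {δ : ℝ} (hδ : 0 < δ) :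
    ∃ w, StrictSuper p q (tg a0 a1 a2) (tg b0 b1 b2) w ∧ ∀ t ∈ Icc 0 (2 * π), |w t - v t| < δ := by
  have hA := tg_cont a0 a1 a2
  have hB := tg_cont b0 b1 b2
  have perA := tg_per a0 a1 a2
  have perB := tg_per b0 b1 b2
  have hneg : (∫ t in (0:ℝ)..(2 * π), tg a0 a1 a2 t * v t ^ (p - 1)) ≠ 0 →
      ∃ w, StrictSuper p q (tg a0 a1 a2) (tg b0 b1 b2) w ∧
        ∀ t ∈ Icc 0 (2 * π), |w t - v t| < δ := by
    intro hL
    rcases lt_or_gt_of_ne hL with h | h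
    · obtain ⟨w, hw, hw2⟩ := super_neg hq hpq hA hB hv h hδ
      exact ⟨w, hw, fun t ht => abs_lt.2 ⟨by linarith [(hw2 t ht).1], by linarith [(hw2 t ht).2]⟩⟩
    · obtain ⟨w, hw, hw2⟩ := super_pos hq hpq hA hB hv h hδ
      exact ⟨w, hw, fun t ht => abs_lt.2 ⟨by linarith [(hw2 t ht).1], by linarith [(hw2 t ht).2]⟩⟩
  rcases tri_neg (a0 := a0) (b0 := b0) hdet with hW | ⟨a, b, h0, h1⟩
  · by_cases hL : (∫ t in (0:ℝ)..(2 * π), tg a0 a1 a2 t * v t ^ (p - 1)) = 0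
    · obtain ⟨a, b, x, hc⟩ := exists_cert hq hpq hW hv
      have hJ := sign_S4 hq hpq hA hB perA perB hv hc hL
      obtain ⟨w, hw, hw2⟩ := super_zero hq hpq hA hB hv hL hJ hδ
      exact ⟨w, hw, fun t ht => abs_lt.2 ⟨by linarith [(hw2 t ht).1], by linarith [(hw2 t ht).2]⟩⟩
    · exact hneg hL
  · exact hneg (one_L hq hpq hA hB perA perB hv h0 h1)

/-- the family `A + l` -/
theorem super_family' (hq : 2 ≤ q) (hpq : q < p) (hdet : a1 * b2 - a2 * b1 < 0) (l : ℝ)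
    (hv : PosPer p q (fun t => tg a0 a1 a2 t + l) (tg b0 b1 b2) v) {δ : ℝ} (hδ : 0 < δ) :
    ∃ w, StrictSuper p q (fun t => tg a0 a1 a2 t + l) (tg b0 b1 b2) w ∧
      ∀ t ∈ Icc 0 (2 * π), |w t - v t| < δ := by
  have e : (fun t => tg a0 a1 a2 t + l) = tg (a0 + l) a1 a2 := by
    funext t; simp [tg]; ring
  rw [e] at hv ⊢
  exact super_family hq hpq hdet hv hδ

theorem lemmaM' (hq : 2 ≤ q) (hpq : q < p) (hdet : a1 * b2 - a2 * b1 < 0)
    (h1 : PosPer p q (tg a0 a1 a2) (tg b0 b1 b2) u₁)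
    (h2 : PosPer p q (tg a0 a1 a2) (tg b0 b1 b2) u₂) (h12 : ∀ t, u₁ t < u₂ t)
    {w : ℝ → ℝ} (hw : StrictSuper p q (tg a0 a1 a2) (tg b0 b1 b2) w)
    (hw1 : ∀ t ∈ Icc 0 (2 * π), u₁ t < w t) (hw2 : ∀ t ∈ Icc 0 (2 * π), w t < u₂ t) : False :=
  lemmaM (tg_cont _ _ _) (tg_cont _ _ _) (tg_per _ _ _) (tg_per _ _ _) h1 h2 h12
    (fun l _ _ hv _ hδ => super_family' hq hpq hdet l hv hδ) hw hw1 hw2

/-- a uniform gap on `[0,2π]`. -/
theorem exists_gap {u v : ℝ → ℝ} (hu : Continuous u) (hv : Continuous v) (h : ∀ t, u t < v t) :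
    ∃ δ > 0, ∀ t ∈ Icc 0 (2 * π), u t + δ < v t := by
  obtain ⟨tm, htm, hm⟩ := isCompact_Icc.exists_isMinOn
    (nonempty_Icc.2 (by positivity : (0:ℝ) ≤ 2 * π)) (hv.sub hu).continuousOn
  refine ⟨(v tm - u tm) / 2, by linarith [h tm], fun t ht => ?_⟩
  have := hm ht
  simp only [Pi.sub_apply, mem_ofPred_eq] at this
  linarith [h tm]

theorem no_three (hq : 2 ≤ q) (hpq : q < p) (hdet : a1 * b2 - a2 * b1 < 0)
    (h1 : PosPer p q (tg a0 a1 a2) (tg b0 b1 b2) u₁)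
    (h2 : PosPer p q (tg a0 a1 a2) (tg b0 b1 b2) u₂)
    (h3 : PosPer p q (tg a0 a1 a2) (tg b0 b1 b2) u₃)
    (h12 : ∀ t, u₁ t < u₂ t) (h23 : ∀ t, u₂ t < u₃ t) : False := by
  obtain ⟨d1, hd1, g1⟩ := exists_gap h1.sol.cont h2.sol.cont h12
  obtain ⟨d2, hd2, g2⟩ := exists_gap h2.sol.cont h3.sol.cont h23
  obtain ⟨w, hw, hw2⟩ := super_family hq hpq hdet h2 (lt_min hd1 hd2)
  refine lemmaM' hq hpq hdet h1 h3 (fun t => (h12 t).trans (h23 t)) hw (fun t ht => ?_)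
    (fun t ht => ?_)
  · have := abs_lt.1 (hw2 t ht)
    have h4 := min_le_left d1 d2
    linarith [g1 t ht]
  · have := abs_lt.1 (hw2 t ht)
    have h4 := min_le_right d1 d2
    linarith [g2 t ht]

/-- if `L(u₁) < 0` there is no larger positive periodic solution. -/
theorem L_nonneg (hq : 2 ≤ q) (hpq : q < p) (hdet : a1 * b2 - a2 * b1 < 0)
    (h1 : PosPer p q (tg a0 a1 a2) (tg b0 b1 b2) u₁)
    (h2 : PosPer p q (tg a0 a1 a2) (tg b0 b1 b2) u₂) (h12 : ∀ t, u₁ t < u₂ t) :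
    0 ≤ ∫ t in (0:ℝ)..(2 * π), tg a0 a1 a2 t * u₁ t ^ (p - 1) := by
  by_contra hc
  push Not at hc
  obtain ⟨d1, hd1, g1⟩ := exists_gap h1.sol.cont h2.sol.cont h12
  obtain ⟨w, hw, hw2⟩ := super_neg hq hpq (tg_cont _ _ _) (tg_cont _ _ _) h1 hc hd1
  exact lemmaM' hq hpq hdet h1 h2 h12 hw (fun t ht => (hw2 t ht).1)
    (fun t ht => (hw2 t ht).2.trans (g1 t ht))

/-- `W > 0` and (`b0 ≥ 0` or `a0 ≤ 0`): `L < 0` for every positive periodic solution. -/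
theorem L_neg (hq : 2 ≤ q) (hpq : q < p) (hW : ∀ t, 0 < wr a0 a1 a2 b0 b1 b2 t)
    (h : 0 ≤ b0 ∨ a0 ≤ 0) (hv : PosPer p q (tg a0 a1 a2) (tg b0 b1 b2) v) :
    (∫ t in (0:ℝ)..(2 * π), tg a0 a1 a2 t * v t ^ (p - 1)) < 0 := by
  obtain ⟨a, b, x, hc⟩ := exists_cert hq hpq hW hv
  have hx : 0 < x := by obtain ⟨t, rfl⟩ := hc.mem; exact hv.pos t
  rcases h with h | h
  · have := sign_S2 hq hpq (tg_cont _ _ _) (tg_cont _ _ _) (tg_per _ _ _) (tg_per _ _ _) hv hc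
    rw [integral_tg b0] at this
    have h2 : 0 ≤ x ^ (q - 1) * (2 * π * b0) := by positivity
    linarith
  · have := sign_S3 hq hpq (tg_cont _ _ _) (tg_cont _ _ _) (tg_per _ _ _) (tg_per _ _ _) hv hc
    rw [integral_tg a0] at this
    have h2 : 0 ≤ x ^ (p - 1) * (2 * π * (-a0)) := by
      have : 0 ≤ -a0 := by linarith
      positivity
    nlinarith

theorem none_of (hq : 2 ≤ q) (hpq : q < p) (hW : ∀ t, 0 < wr a0 a1 a2 b0 b1 b2 t)
    (ha : a0 ≤ 0) (hb : b0 ≤ 0) (hv : PosPer p q (tg a0 a1 a2) (tg b0 b1 b2) v) : False := by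
  obtain ⟨a, b, x, hc⟩ := exists_cert hq hpq hW hv
  have hx : 0 < x := by obtain ⟨t, rfl⟩ := hc.mem; exact hv.pos t
  have := sign_S1 hq hpq (tg_cont _ _ _) (tg_cont _ _ _) (tg_per _ _ _) (tg_per _ _ _) hv hc
  rw [integral_tg a0, integral_tg b0] at this
  have h2 : 0 ≤ x ^ (p - q) * (2 * π * (-a0)) := by
    have : 0 ≤ -a0 := by linarith
    positivity
  have h3 : 0 ≤ 2 * π * (-b0) := by
    have : 0 ≤ -b0 := by linarith
    positivity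
  nlinarith

end Pool.Agent.AbelLT
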