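import Mathlib

set_option autoImplicit false

open Real Set

/-!
Generalised Abel equations `x' = A(t) x^p + B(t) x^q`: basic definitions.
-/

namespace Pool.Agent.AbelLT

/-- `x` is a `2π`-periodic solution (defined on `ℝ`) of `x' = A x^p + B x^q`. -/
structure PerSol (p q : ℕ) (A B x : ℝ → ℝ) : Prop where
  hd : ∀ t, HasDerivAt x (A t * x t ^ p + B t * x t ^ q) t
  per : ∀ t, x (t + 2 * π) = x t

/-- positive `2π`-periodic solution. -/
structure PosPer (p q : ℕ) (A B x : ℝ → ℝ) : Prop where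
  sol : PerSol p q A B x
  pos : ∀ t, 0 < x t

/-- trigonometric polynomial of degree at most `1`. -/
noncomputable def tg (a b c : ℝ) (t : ℝ) : ℝ := a + b * sin t + c * cos t

/-- The Wronskian `A B' - A' B` of `A = tg a0 a1 a2`, `B = tg b0 b1 b2`. -/
noncomputable def wr (a0 a1 a2 b0 b1 b2 t : ℝ) : ℝ :=
  -(a1 * b2 - a2 * b1) + (a0 * b1 - a1 * b0) * cos t + (a2 * b0 - a0 * b2) * sin t

/-- `w` is a strict supersolution on `[0,2π]` with `w(2π) < w(0)`. -/
def StrictSuper (p q : ℕ) (A B w : ℝ → ℝ) : Prop :=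
  (∃ w' : ℝ → ℝ, ∀ t ∈ Icc 0 (2 * π), HasDerivAt w (w' t) t ∧
    A t * w t ^ p + B t * w t ^ q < w' t) ∧ w (2 * π) < w 0

/-- `w` is a strict subsolution on `[0,2π]` with `w(0) < w(2π)`. -/
def StrictSub (p q : ℕ) (A B w : ℝ → ℝ) : Prop :=
  (∃ w' : ℝ → ℝ, ∀ t ∈ Icc 0 (2 * π), HasDerivAt w (w' t) t ∧
    w' t < A t * w t ^ p + B t * w t ^ q) ∧ w 0 < w (2 * π)

/-- A certificate for a positive periodic solution `v`: a level `x` and a combination
`C = a A + b B` which has the sign of `v - x`, with `b v^(p-q) - a > 0`. -/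
structure Cert (p q : ℕ) (A B v : ℝ → ℝ) (a b x : ℝ) : Prop where
  mem : ∃ t, v t = x
  sgn : ∀ t, 0 ≤ (v t - x) * (a * A t + b * B t)
  strict : ∃ t, 0 < (v t - x) * (a * A t + b * B t)
  N : ∀ t, 0 < b * v t ^ (p - q) - a

/-- the exponent of `E`. -/
noncomputable def expo (p q : ℕ) (A v : ℝ → ℝ) (t : ℝ) : ℝ :=
  exp ((p - q : ℕ) * ∫ s in (0:ℝ)..t, A s * v s ^ (p - 1))

/-- truncation to `[u₁ t, u₂ t]`. -/
noncomputable def clip (u₁ u₂ : ℝ → ℝ) (t x : ℝ) : ℝ := max (u₁ t) (min x (u₂ t))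

/-- initial values of periodic solutions -/
def perInit (p q : ℕ) (A B : ℝ → ℝ) : Set ℝ := {c | ∃ x, PerSol p q A B x ∧ x 0 = c}

/-- initial values of positive periodic solutions -/
def posInit (p q : ℕ) (A B : ℝ → ℝ) : Set ℝ := {c | ∃ x, PosPer p q A B x ∧ x 0 = c}

/-- initial values of limit cycles -/
def limCyc (p q : ℕ) (A B : ℝ → ℝ) : Set ℝ :=
  {c | c ∈ perInit p q A B ∧ ∃ ε > 0, ∀ c' ∈ perInit p q A B, |c' - c| < ε → c' = c}

end Pool.Agent.AbelLT
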