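import Pool.Agent.Lib.MP_bb703b_an.Refl
import Pool.Agent.Lib.MP_bb703b_an.Ext
import Pool.Agent.Lib.MP_bb703b_an.Clip

set_option autoImplicit false

open Real Set MeasureTheory intervalIntegral

/-!
Row DEP2: dependent coefficients, `x' = C(t) g(x)`.
-/

namespace Pool.Agent.AbelLT

variable {p q : ℕ} {A B v x : ℝ → ℝ}

/-- A positive continuous function bounded below by a positive constant has a primitive whose
inverse is a global `C¹` function. -/
theorem exists_inverse_primitive {G : ℝ → ℝ} (hG : Continuous G) {κ : ℝ} (hκ : 0 < κ)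
    (hGκ : ∀ u, κ ≤ G u) (x0 : ℝ) :
    ∃ y : ℝ → ℝ, StrictMono y ∧ Continuous y ∧ y 0 = x0 ∧
      (∀ u, y (∫ s in x0..u, G s) = u) ∧ ∀ σ, HasDerivAt y (G (y σ))⁻¹ σ := by
  set Γ : ℝ → ℝ := fun u => ∫ s in x0..u, G s with hΓ
  have hd : ∀ u, HasDerivAt Γ (G u) u := fun u =>
    intervalIntegral.integral_hasDerivAt_right (hG.intervalIntegrable _ _)
      (hG.stronglyMeasurableAtFilter _ _) hG.continuousAt
  have hcont : Continuous Γ := continuous_iff_continuousAt.2 fun u => (hd u).continuousAt
  have hmono : StrictMono Γ := by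
    apply strictMono_of_deriv_pos
    intro u
    rw [(hd u).deriv]
    exact hκ.trans_le (hGκ u)
  have hΓ0 : Γ x0 = 0 := by simp [hΓ]
  have hmono2 : Monotone fun u => Γ u - κ * u := by
    have hd2 : ∀ u, HasDerivAt (fun u => Γ u - κ * u) (G u - κ) u := fun u =>
      ((hd u).sub ((hasDerivAt_id' u).const_mul κ)).congr_deriv (by ring)
    apply monotone_of_deriv_nonneg (fun u => (hd2 u).differentiableAt)
    intro u
    rw [(hd2 u).deriv]
    linarith [hGκ u]
  have htop : Filter.Tendsto Γ Filter.atTop Filter.atTop := by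
    have h1 : Filter.Tendsto (fun u => κ * u + (-(κ * x0))) Filter.atTop Filter.atTop :=
      Filter.tendsto_atTop_add_const_right _ _ (Filter.tendsto_id.const_mul_atTop hκ)
    refine Filter.tendsto_atTop_mono' _ ?_ h1
    filter_upwards [Filter.eventually_ge_atTop x0] with u hu
    have := hmono2 hu
    simp only [hΓ0] at this
    linarith
  have hbot : Filter.Tendsto Γ Filter.atBot Filter.atBot := by
    have h1 : Filter.Tendsto (fun u => κ * u + (-(κ * x0))) Filter.atBot Filter.atBot :=
      Filter.tendsto_atBot_add_const_right _ _ (Filter.tendsto_id.const_mul_atBot hκ)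
    refine Filter.tendsto_atBot_mono' _ ?_ h1
    filter_upwards [Filter.eventually_le_atBot x0] with u hu
    have := hmono2 hu
    simp only [hΓ0] at this
    linarith
  have hsurj : Function.Surjective Γ := hcont.surjective htop hbot
  let e : ℝ ≃o ℝ := hmono.orderIsoOfSurjective Γ hsurj
  have he : ∀ u, e u = Γ u := fun u => rfl
  have hes : ∀ u, e.symm (Γ u) = u := fun u => by rw [← he, e.symm_apply_apply]
  have hse : ∀ σ, Γ (e.symm σ) = σ := fun σ => by rw [← he, e.apply_symm_apply]
  refine ⟨e.symm, e.symm.strictMono, e.symm.continuous, ?_, hes, fun σ => ?_⟩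
  · rw [← hΓ0, hes]
  · apply HasDerivAt.of_local_left_inverse e.symm.continuous.continuousAt (hd (e.symm σ))
      (hκ.trans_le (hGκ _)).ne'
    exact Filter.Eventually.of_forall hse

theorem sep_not_isolated_pos {C : ℝ → ℝ} (hC : Continuous C)
    (perC : ∀ t, C (t + 2 * π) = C t) {α β : ℝ}
    (hx : PerSol p q (fun t => α * C t) (fun t => β * C t) x)
    (hint : (∫ t in (0:ℝ)..(2 * π), C t) = 0) (hg : 0 < α * x 0 ^ p + β * x 0 ^ q) :
    x 0 ∉ limCyc p q (fun t => α * C t) (fun t => β * C t) := by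
  set g : ℝ → ℝ := fun u => α * u ^ p + β * u ^ q with hgdef
  have hgc : Continuous g := by simp only [hgdef]; fun_prop
  have hgx : Continuous x := hx.cont
  have hxd : ∀ t, HasDerivAt x (C t * g (x t)) t := fun t => (hx.hd t).congr_deriv (by
    simp only [hgdef]; ring)
  have hgd : ∀ u, HasDerivAt g (α * (p * u ^ (p - 1)) + β * (q * u ^ (q - 1))) u := fun u =>
    ((hasDerivAt_pow p u).const_mul α).add ((hasDerivAt_pow q u).const_mul β)
  -- positivity of `g (x t)`
  have hgpos : ∀ t, 0 < g (x t) := by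
    intro t
    have hz : ∀ t, HasDerivAt (fun t => g (x t))
        ((α * (p * x t ^ (p - 1)) + β * (q * x t ^ (q - 1))) * C t * (g (x t))) t := fun t => by
      refine ((hgd (x t)).comp t (hxd t)).congr_deriv ?_
      ring
    have hm : Continuous fun t => (α * (p * x t ^ (p - 1)) + β * (q * x t ^ (q - 1))) * C t := by
      fun_prop
    have := linODE hm hz 0 t
    rw [this]
    exact mul_pos hg (exp_pos _)
  -- range of x
  have hper : Function.Periodic x (2 * π) := hx.per
  have h2π : (0:ℝ) ≤ 2 * π := two_pi_pos.le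
  obtain ⟨tm, -, htm⟩ := isCompact_Icc.exists_isMinOn (nonempty_Icc.2 h2π)
    (hgx.continuousOn (s := Icc 0 (2 * π)))
  obtain ⟨tM, -, htM⟩ := isCompact_Icc.exists_isMaxOn (nonempty_Icc.2 h2π)
    (hgx.continuousOn (s := Icc 0 (2 * π)))
  have hle : ∀ t, x tm ≤ x t ∧ x t ≤ x tM := by
    intro t
    obtain ⟨s, hs, hs2⟩ := hper.exists_mem_Ico₀ two_pi_pos t
    have hs' : s ∈ Icc 0 (2 * π) := Ico_subset_Icc_self hs
    rw [hs2]
    exact ⟨htm hs', htM hs'⟩
  have hgI : ∀ u ∈ Icc (x tm) (x tM), 0 < g u := by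
    intro u hu
    obtain ⟨t, ht⟩ := mem_range_of_exists_le_of_exists_ge hgx ⟨tm, hu.1⟩ ⟨tM, hu.2⟩
    rw [← ht]; exact hgpos t
  have hopen : IsOpen {u | 0 < g u} := isOpen_lt continuous_const hgc
  obtain ⟨r1, hr1, hb1⟩ := Metric.isOpen_iff.1 hopen (x tm) (hgpos tm)
  obtain ⟨r2, hr2, hb2⟩ := Metric.isOpen_iff.1 hopen (x tM) (hgpos tM)
  set ρ := min r1 r2 / 2 with hρ
  have hρ0 : 0 < ρ := by positivity
  have hρ1 : ρ < r1 := by have := min_le_left r1 r2; rw [hρ]; linarith [lt_min hr1 hr2]
  have hρ2 : ρ < r2 := by have := min_le_right r1 r2; rw [hρ]; linarith [lt_min hr1 hr2]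
  set lo := x tm - ρ with hlo
  set hi := x tM + ρ with hhi
  have hlohi : lo ≤ hi := by have := (hle tM).1; rw [hlo, hhi]; linarith
  have hgJ : ∀ u ∈ Icc lo hi, 0 < g u := by
    intro u hu
    rcases lt_or_ge u (x tm) with h | h
    · apply hb1
      rw [Metric.mem_ball, Real.dist_eq, abs_lt]
      constructor <;> linarith [hu.1]
    · rcases le_or_gt u (x tM) with h' | h'
      · exact hgI u ⟨h, h'⟩
      · apply hb2
        rw [Metric.mem_ball, Real.dist_eq, abs_lt]
        constructor <;> linarith [hu.2]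
  set cl : ℝ → ℝ := fun u => max lo (min u hi) with hcl
  have hclc : Continuous cl := by simp only [hcl]; fun_prop
  have hclm : ∀ u, cl u ∈ Icc lo hi := fun u =>
    ⟨le_max_left _ _, max_le hlohi (min_le_right _ _)⟩
  have hcle : ∀ u ∈ Icc lo hi, cl u = u := fun u hu => by
    simp only [hcl]
    rw [min_eq_left hu.2, max_eq_right hu.1]
  obtain ⟨uM, -, huM⟩ := isCompact_Icc.exists_isMaxOn (nonempty_Icc.2 hlohi)
    (hgc.continuousOn (s := Icc lo hi))
  have hgM : ∀ u ∈ Icc lo hi, g u ≤ g uM := fun u hu => huM hu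
  have hgM0 : 0 < g uM := (hgJ lo (left_mem_Icc.2 hlohi)).trans_le (hgM lo (left_mem_Icc.2 hlohi))
  set G : ℝ → ℝ := fun u => (g (cl u))⁻¹ with hG
  have hGc : Continuous G := (hgc.comp hclc).inv₀ fun u => (hgJ _ (hclm u)).ne'
  have hGκ : ∀ u, (g uM)⁻¹ ≤ G u := fun u =>
    inv_anti₀ (hgJ _ (hclm u)) (hgM _ (hclm u))
  obtain ⟨y, ymono, ycont, y0, yΓ, yd⟩ :=
    exists_inverse_primitive hGc (inv_pos.2 hgM0) hGκ (x 0)
  set H : ℝ → ℝ := fun t => ∫ s in (0:ℝ)..t, C s with hH
  have hHd : ∀ t, HasDerivAt H (C t) t := fun t =>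
    intervalIntegral.integral_hasDerivAt_right (hC.intervalIntegrable _ _)
      (hC.stronglyMeasurableAtFilter _ _) hC.continuousAt
  have hHper : ∀ t, H (t + 2 * π) = H t := by
    intro t
    have hpC : Function.Periodic C (2 * π) := perC
    simp only [hH]
    rw [← intervalIntegral.integral_add_adjacent_intervals (hC.intervalIntegrable 0 t)
      (hC.intervalIntegrable t (t + 2 * π)), hpC.intervalIntegral_add_eq t 0, zero_add, hint,
      add_zero]
  -- `x t = y (H t)`
  have hxm : ∀ t, x t ∈ Icc lo hi := fun t =>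
    ⟨by rw [hlo]; linarith [(hle t).1], by rw [hhi]; linarith [(hle t).2]⟩
  have hΓx : ∀ t, (∫ s in (x 0)..(x t), G s) = H t := by
    have hΓd : ∀ u, HasDerivAt (fun u => ∫ s in (x 0)..u, G s) (G u) u := fun u =>
      intervalIntegral.integral_hasDerivAt_right (hGc.intervalIntegrable _ _)
        (hGc.stronglyMeasurableAtFilter _ _) hGc.continuousAt
    have hd : ∀ t, HasDerivAt (fun t => (∫ s in (x 0)..(x t), G s) - H t) 0 t := fun t => by
      refine (((hΓd (x t)).comp t (hxd t)).sub (hHd t)).congr_deriv ?_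
      simp only [hG]
      rw [hcle _ (hxm t)]
      have := (hgpos t).ne'
      field_simp
      ring
    intro t
    have hc := is_const_of_deriv_eq_zero (fun t => (hd t).differentiableAt)
      (fun t => (hd t).deriv) t 0
    simp only [hH, integral_same, sub_self] at hc
    simp only [hH]
    linarith
  have hyH : ∀ t, y (H t) = x t := fun t => by rw [← hΓx t, yΓ]
  have hylo : ∀ u, ∃ σ, y σ = u := fun u => ⟨_, yΓ u⟩
  -- radius
  obtain ⟨σlo, hσlo⟩ := hylo lo
  obtain ⟨σhi, hσhi⟩ := hylo hi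
  have hd1 : σlo < H tm := by
    rw [← ymono.lt_iff_lt, hσlo, hyH, hlo]; linarith
  have hd2 : H tM < σhi := by
    rw [← ymono.lt_iff_lt, hσhi, hyH, hhi]; linarith
  have hHle : ∀ t, H tm ≤ H t ∧ H t ≤ H tM := fun t =>
    ⟨by rw [← ymono.le_iff_le, hyH, hyH]; exact (hle t).1,
      by rw [← ymono.le_iff_le, hyH, hyH]; exact (hle t).2⟩
  have hsol : ∀ s : ℝ, |s| ≤ min (H tm - σlo) (σhi - H tM) →
      PerSol p q (fun t => α * C t) (fun t => β * C t) (fun t => y (H t + s)) := by
    intro s hs
    have hs1 := (abs_le.1 (hs.trans (min_le_left _ _))).1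
    have hs2 := (abs_le.1 (hs.trans (min_le_right _ _))).2
    refine ⟨fun t => ?_, fun t => ?_⟩
    · have hmem : y (H t + s) ∈ Icc lo hi := by
        constructor
        · rw [← hσlo, ymono.le_iff_le]; linarith [(hHle t).1]
        · rw [← hσhi, ymono.le_iff_le]; linarith [(hHle t).2]
      have h1 := (yd (H t + s)).comp t ((hHd t).add_const s)
      refine h1.congr_deriv ?_
      simp only [hG]
      rw [hcle _ hmem, inv_inv]
      simp only [hgdef]
      ring
    · simp only [hHper]
  rintro ⟨-, ε, hε, hiso⟩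
  have hδ : 0 < min (H tm - σlo) (σhi - H tM) := lt_min (by linarith) (by linarith)
  obtain ⟨δ, hδ0, hδ1⟩ := Metric.continuous_iff.1 ycont 0 ε hε
  set s := min (min (H tm - σlo) (σhi - H tM)) (δ / 2) with hs
  have hs0 : 0 < s := lt_min hδ (by linarith)
  have hs1 : |s| ≤ min (H tm - σlo) (σhi - H tM) := by
    rw [abs_of_pos hs0]; exact min_le_left _ _
  have hs2 : |s| < δ := by
    rw [abs_of_pos hs0]; exact (min_le_right _ _).trans_lt (by linarith)
  have hH0 : H 0 = 0 := by simp [hH]
  have hmem : y s ∈ perInit p q (fun t => α * C t) (fun t => β * C t) :=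
    ⟨_, hsol s hs1, by simp [hH0]⟩
  have hdist := hδ1 s (by rw [Real.dist_eq, sub_zero]; exact hs2)
  rw [Real.dist_eq, y0] at hdist
  have := hiso _ hmem hdist
  rw [← y0] at this
  exact (ymono hs0).ne' this

/-- DEP2.  If `∫_0^{2π} C = 0` and `g(c) ≠ 0`, `c` the initial value of a periodic solution, then `c`
is not isolated: initial values near `c` give periodic solutions too.
(Let `x` be the solution; `g(x(t)) ≠ 0` on `[0,2π]`; choose `ρ > 0` with `g ≠ 0` on the tube
`|y - x t| ≤ ρ`.  The clipped equation (between `x - ρ` and `x + ρ`, `clipped_flow` with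
`L = 0`) has solutions depending continuously on the initial value, so for `c'` near `c` it stays
in the tube (compactness/Gronwall; or: uniform closeness), so it solves the equation and
`∫_{c'}^{X(2π)} dy/g(y) = ∫ C = 0` gives `X(2π) = c'`; extend periodically.) -/
theorem sep_not_isolated {C : ℝ → ℝ} (hq : 2 ≤ q) (hpq : q < p) (hC : Continuous C)
    (perC : ∀ t, C (t + 2 * π) = C t) {α β : ℝ}
    (hx : PerSol p q (fun t => α * C t) (fun t => β * C t) x)
    (hint : (∫ t in (0:ℝ)..(2 * π), C t) = 0) (hg : α * x 0 ^ p + β * x 0 ^ q ≠ 0) :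
    x 0 ∉ limCyc p q (fun t => α * C t) (fun t => β * C t) := by
  rcases lt_or_gt_of_ne hg with h | h
  · have e1 : (fun t => α * C t) = fun t => (-α) * (-C t) := by funext t; ring
    have e2 : (fun t => β * C t) = fun t => (-β) * (-C t) := by funext t; ring
    rw [e1, e2] at hx ⊢
    refine sep_not_isolated_pos (C := fun t => -C t) hC.neg (fun t => by rw [perC]) hx ?_ ?_
    · rw [intervalIntegral.integral_neg, hint, neg_zero]
    · linarith
  · exact sep_not_isolated_pos hC perC hx hint h

end Pool.Agent.AbelLT
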