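import Pool.Agent.Lib.MP_bb703b_an.Dep1
import Pool.Agent.Lib.MP_bb703b_an.Dep2

set_option autoImplicit false

open Real Set MeasureTheory intervalIntegral

/-!
Row DEP3: dependent coefficients.
-/

namespace Pool.Agent.AbelLT

variable {p q : ℕ} {A B v x : ℝ → ℝ}

/-- the roots of `α y^p + β y^q` -/
theorem dep3_roots (hpq : q < p) {α β : ℝ} (hαβ : α ≠ 0 ∨ β ≠ 0) :
    {y : ℝ | α * y ^ p + β * y ^ q = 0}.encard ≤ 3 := by
  classical
  have hthree : ∀ r : ℝ, {y : ℝ | α * y ^ p + β * y ^ q = 0} ⊆ {0, r, -r} →
      {y : ℝ | α * y ^ p + β * y ^ q = 0}.encard ≤ 3 := by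
    intro r hr
    refine (Set.encard_le_encard hr).trans ?_
    have e : ({0, r, -r} : Set ℝ) = (({0, r, -r} : Finset ℝ) : Set ℝ) := by simp
    rw [e, Set.encard_coe_eq_coe_finsetCard]
    exact_mod_cast Finset.card_le_three
  have hfac : ∀ y : ℝ, α * y ^ p + β * y ^ q = y ^ q * (α * y ^ (p - q) + β) := by
    intro y
    have : y ^ p = y ^ q * y ^ (p - q) := by rw [← pow_add, Nat.add_sub_cancel' hpq.le]
    rw [this]
    ring
  by_cases hex : ∃ r : ℝ, r ≠ 0 ∧ α * r ^ p + β * r ^ q = 0
  · obtain ⟨r, hr0, hr⟩ := hex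
    apply hthree r
    intro y hy
    by_cases hy0 : y = 0
    · exact Or.inl hy0
    · right
      have h1 : α * y ^ (p - q) + β = 0 := by
        have := hfac y
        rw [show α * y ^ p + β * y ^ q = 0 from hy] at this
        rcases mul_eq_zero.1 this.symm with h | h
        · exact absurd h (pow_ne_zero _ hy0)
        · exact h
      have h2 : α * r ^ (p - q) + β = 0 := by
        have := hfac r
        rw [hr] at this
        rcases mul_eq_zero.1 this.symm with h | h
        · exact absurd h (pow_ne_zero _ hr0)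
        · exact h
      have hα : α ≠ 0 := by
        rintro rfl
        rcases hαβ with h | h
        · exact h rfl
        · rw [zero_mul, zero_add] at h1
          exact h h1
      have h3 : y ^ (p - q) = r ^ (p - q) := mul_left_cancel₀ hα (by linarith)
      have h4 : |y| ^ (p - q) = |r| ^ (p - q) := by rw [← abs_pow, ← abs_pow, h3]
      have h5 : |y| = |r| :=
        (pow_left_inj₀ (abs_nonneg _) (abs_nonneg _) (by omega)).1 h4
      rcases abs_eq_abs.1 h5 with h | h
      · exact Or.inl h
      · exact Or.inr h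
  · apply hthree 0
    intro y hy
    by_cases hy0 : y = 0
    · exact Or.inl hy0
    · exact absurd ⟨y, hy0, hy⟩ hex

/-- the separable equation -/
theorem dep3_sep (hq : 2 ≤ q) (hpq : q < p) {C : ℝ → ℝ} (hC : Continuous C)
    (perC : ∀ t, C (t + 2 * π) = C t) {α β : ℝ} (hαβ : α ≠ 0 ∨ β ≠ 0) :
    (limCyc p q (fun t => α * C t) (fun t => β * C t)).encard ≤ 3 := by
  refine (Set.encard_le_encard ?_).trans (dep3_roots hpq hαβ)
  intro c hc
  obtain ⟨x, hx, hx0⟩ := hc.1
  by_cases hint : (∫ t in (0:ℝ)..(2 * π), C t) = 0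
  · by_contra hg
    subst hx0
    exact sep_not_isolated hq hpq hC perC hx hint hg hc
  · have := sep_root (k := 0) hq hpq hC hx hint
    rw [hx0] at this
    exact this

/-- DEP3.  `a A + b B = 0` with `(a,b) ≠ 0`: at most three limit cycles (the roots of
`α y^p + β y^q`; if `α = β = 0`, i.e. `A = B = 0`, there is none). -/
theorem dep_le_three (hq : 2 ≤ q) (hpq : q < p) (hA : Continuous A) (hB : Continuous B)
    (perA : ∀ t, A (t + 2 * π) = A t) (perB : ∀ t, B (t + 2 * π) = B t)
    {a b : ℝ} (hab : a ≠ 0 ∨ b ≠ 0) (h : ∀ t, a * A t + b * B t = 0) :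
    (limCyc p q A B).encard ≤ 3 := by
  by_cases ha : a = 0
  · have hb : b ≠ 0 := by
      rcases hab with h' | h'
      · exact absurd ha h'
      · exact h'
    have hBt : B = fun t => 0 * A t := by
      funext t
      have h1 := h t
      rw [ha, zero_mul, zero_add] at h1
      rcases mul_eq_zero.1 h1 with h2 | h2
      · exact absurd h2 hb
      · rw [h2, zero_mul]
    have hAt : A = fun t => 1 * A t := by
      funext t
      rw [one_mul]
    have h3 := dep3_sep (p := p) hq hpq hA perA (α := 1) (β := 0) (Or.inl one_ne_zero)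
    rw [← hAt, ← hBt] at h3
    exact h3
  · have hAt : A = fun t => (-(b / a)) * B t := by
      funext t
      have h1 := h t
      field_simp
      linarith
    have hBt : B = fun t => 1 * B t := by
      funext t
      rw [one_mul]
    have h3 := dep3_sep (p := p) hq hpq hB perB (α := -(b / a)) (β := 1) (Or.inr one_ne_zero)
    rw [← hAt, ← hBt] at h3
    exact h3

end Pool.Agent.AbelLT
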