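import Pool.Agent.Lib.MP_bb703b_an.Refl

set_option autoImplicit false

open Real Set MeasureTheory intervalIntegral

/-!
Row DEP1: dependent coefficients, `x' = C(t) g(x)`.
-/

namespace Pool.Agent.AbelLT

variable {p q : ℕ} {A B v x : ℝ → ℝ}

/-- DEP1.  Separable equation `x' = C(t) g(x)`, `g` a polynomial function, `C` continuous with
`∫_0^{2π} C ≠ 0`: a periodic solution starts at a root of `g`.
(If `g (x 0) ≠ 0` then `g (x t) ≠ 0` for all `t` by uniqueness (a root of `g` is a constant
solution), so `∫ x'/g(x) = ∫ C ≠ 0`, but the left side is `0` (substitution, `x(2π) = x(0)`).) -/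
theorem sep_root {C : ℝ → ℝ} {k : ℝ} (hq : 2 ≤ q) (hpq : q < p) (hC : Continuous C)
    {α β : ℝ}
    (hx : PerSol p q (fun t => α * C t) (fun t => β * C t) x)
    (hint : (∫ t in (0:ℝ)..(2 * π), C t) ≠ 0) : α * x 0 ^ p + β * x 0 ^ q = 0 := by
  by_contra hne
  -- `g (x t) ≠ 0` for all `t`
  have hg : ∀ s, α * x s ^ p + β * x s ^ q ≠ 0 := by
    intro s hs
    have hconst : PerSol p q (fun t => α * C t) (fun t => β * C t) (fun _ => x s) := by
      refine ⟨fun t => ?_, fun _ => rfl⟩
      have h1 : α * C t * x s ^ p + β * C t * x s ^ q = 0 := by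
        have h2 : α * C t * x s ^ p + β * C t * x s ^ q =
            C t * (α * x s ^ p + β * x s ^ q) := by ring
        rw [h2, hs, mul_zero]
      change HasDerivAt (fun _ : ℝ => x s) (α * C t * x s ^ p + β * C t * x s ^ q) t
      rw [h1]
      exact hasDerivAt_const t (x s)
    have h3 := eq_of_eq (continuous_const.mul hC) (continuous_const.mul hC) hx hconst
      (s := s) rfl
    have h4 : x 0 = x s := congrFun h3 0
    rw [h4] at hne
    exact hne hs
  have hcx : Continuous x := hx.cont
  have hd : ∀ t ∈ uIcc (0 : ℝ) (2 * π),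
      HasDerivAt x (C t * (α * x t ^ p + β * x t ^ q)) t := by
    intro t _
    have h1 := hx.hd t
    have h2 : C t * (α * x t ^ p + β * x t ^ q) = α * C t * x t ^ p + β * C t * x t ^ q := by
      ring
    rw [h2]
    exact h1
  have hcont' : ContinuousOn (fun t => C t * (α * x t ^ p + β * x t ^ q))
      (uIcc (0 : ℝ) (2 * π)) := by
    refine Continuous.continuousOn ?_
    fun_prop
  have hcg : ContinuousOn (fun u : ℝ => (α * u ^ p + β * u ^ q)⁻¹) (x '' uIcc (0 : ℝ) (2 * π)) := by
    refine ContinuousOn.inv₀ (Continuous.continuousOn (by fun_prop)) ?_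
    rintro _ ⟨t, -, rfl⟩
    exact hg t
  have key := intervalIntegral.integral_comp_mul_deriv' hd hcont' hcg
  have h2π : x (2 * π) = x 0 := by
    have := hx.per 0
    rwa [zero_add] at this
  rw [h2π, intervalIntegral.integral_same] at key
  apply hint
  refine Eq.trans ?_ key
  refine intervalIntegral.integral_congr fun t _ => ?_
  change C t = (α * x t ^ p + β * x t ^ q)⁻¹ * (C t * (α * x t ^ p + β * x t ^ q))
  rw [mul_comm (C t), ← mul_assoc, inv_mul_cancel₀ (hg t), one_mul]

end Pool.Agent.AbelLT
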