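import Pool.Agent.Lib.MP_bb703b_an.I01

set_option autoImplicit false

open Real Set MeasureTheory intervalIntegral

/-!
Row EX1b: bounds for `I0`, `I1`.
-/

namespace Pool.Agent.AbelLT

theorem ex1b_diff {g x y : ℝ} (hg0 : 0 < g) (hg1 : g < 1) (hy : 0 ≤ y) (hxy : y ≤ x)
    (h1 : x - y ≤ 1) : x ^ g - y ^ g ≤ 1 := by
  have h2 : 0 ≤ x - y := by linarith
  have h3 := NNReal.rpow_add_le_add_rpow ⟨y, hy⟩ ⟨x - y, h2⟩ hg0.le hg1.le
  have h4 : (y + (x - y)) ^ g ≤ y ^ g + (x - y) ^ g := by exact_mod_cast h3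
  rw [add_sub_cancel] at h4
  have h5 : (x - y) ^ g ≤ 1 := Real.rpow_le_one h2 h1 hg0.le
  linarith

theorem ex1b_cont {g C : ℝ} (hg0 : 0 < g) : Continuous fun t : ℝ => (C + cos t) ^ g :=
  (continuous_const.add continuous_cos).rpow_const (fun _ => Or.inr hg0.le)

/-- `|I1 g C| ≤ 2π` for `C ≥ 2`, `0 < g < 1`:
`I1 = ∫ cos t ((C + cos t)^g - C^g)` and `|(C + c)^g - C^g| ≤ |c| ≤ 1`. -/
theorem I1_bdd {g C : ℝ} (hg0 : 0 < g) (hg1 : g < 1) (hC : 2 ≤ C) : |I1 g C| ≤ 2 * π := by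
  have hπ : (0 : ℝ) < 2 * π := by positivity
  have e : I1 g C = ∫ t in (0:ℝ)..(2 * π), cos t * ((C + cos t) ^ g - C ^ g) := by
    have h1 : ∫ t in (0:ℝ)..(2 * π), cos t * C ^ g = 0 := by
      rw [intervalIntegral.integral_mul_const, integral_cos]
      simp
    have h2 : ∀ t : ℝ, cos t * ((C + cos t) ^ g - C ^ g) =
        cos t * (C + cos t) ^ g - cos t * C ^ g := fun t => by ring
    unfold I1
    rw [intervalIntegral.integral_congr (g := fun t => cos t * (C + cos t) ^ g - cos t * C ^ g)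
      (fun t _ => h2 t), intervalIntegral.integral_sub, h1, sub_zero]
    · exact (continuous_cos.mul (ex1b_cont hg0)).intervalIntegrable _ _
    · exact (continuous_cos.mul continuous_const).intervalIntegrable _ _
  rw [e]
  have h3 := intervalIntegral.norm_integral_le_of_norm_le_const (a := 0) (b := 2 * π) (C := 1)
    (f := fun t => cos t * ((C + cos t) ^ g - C ^ g)) (fun t _ => by
      rw [Real.norm_eq_abs, abs_mul]
      have c1 : |cos t| ≤ 1 := abs_cos_le_one t
      have c2 : |(C + cos t) ^ g - C ^ g| ≤ 1 := by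
        have c3 := abs_le.1 c1
        rcases le_total 0 (cos t) with h | h
        · have d1 : C ^ g ≤ (C + cos t) ^ g :=
            Real.rpow_le_rpow (by linarith) (by linarith) hg0.le
          rw [abs_of_nonneg (by linarith)]
          exact ex1b_diff hg0 hg1 (by linarith) (by linarith) (by linarith)
        · have d1 : (C + cos t) ^ g ≤ C ^ g :=
            Real.rpow_le_rpow (by linarith) (by linarith) hg0.le
          rw [abs_of_nonpos (by linarith), neg_sub]
          exact ex1b_diff hg0 hg1 (by linarith) (by linarith) (by linarith)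
      calc |cos t| * |(C + cos t) ^ g - C ^ g| ≤ 1 * 1 :=
            mul_le_mul c1 c2 (abs_nonneg _) (by norm_num)
        _ = 1 := by norm_num)
  rw [Real.norm_eq_abs, sub_zero, one_mul, abs_of_pos hπ] at h3
  exact h3

theorem ex1b_lower {g C : ℝ} (hg0 : 0 < g) (hC : 1 < C) : 2 * π * (C - 1) ^ g ≤ I0 g C := by
  have hπ : (0 : ℝ) < 2 * π := by positivity
  have h1 : ∫ t in (0:ℝ)..(2 * π), (C - 1) ^ g = 2 * π * (C - 1) ^ g := by
    rw [intervalIntegral.integral_const, sub_zero, smul_eq_mul]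
  rw [← h1]
  unfold I0
  refine intervalIntegral.integral_mono_on hπ.le (continuous_const.intervalIntegrable _ _)
    ((ex1b_cont hg0).intervalIntegrable _ _) (fun t _ => ?_)
  have := neg_one_le_cos t
  exact Real.rpow_le_rpow (by linarith) (by linarith) hg0.le

/-- `I0 g C → ∞`. -/
theorem I0_large {g : ℝ} (hg0 : 0 < g) (hg1 : g < 1) (K : ℝ) : ∃ C : ℝ, 3 < C ∧ K < I0 g C := by
  have _ := hg1
  have hK : (0 : ℝ) ≤ |K| + 1 := by positivity
  have hr : (0 : ℝ) ≤ (|K| + 1) ^ (1 / g) := Real.rpow_nonneg hK _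
  refine ⟨4 + (|K| + 1) ^ (1 / g), by linarith, ?_⟩
  have h1 := ex1b_lower (g := g) (C := 4 + (|K| + 1) ^ (1 / g)) hg0 (by linarith)
  have h2 : |K| + 1 ≤ (4 + (|K| + 1) ^ (1 / g) - 1) ^ g := by
    calc |K| + 1 = ((|K| + 1) ^ (1 / g)) ^ g := by
          rw [← Real.rpow_mul hK, one_div, inv_mul_cancel₀ hg0.ne', Real.rpow_one]
      _ ≤ (4 + (|K| + 1) ^ (1 / g) - 1) ^ g := Real.rpow_le_rpow hr (by linarith) hg0.le
  have h3 : (1 : ℝ) ≤ 2 * π := by linarith [Real.pi_gt_three]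
  have h4 : |K| + 1 ≤ 2 * π * (4 + (|K| + 1) ^ (1 / g) - 1) ^ g := by nlinarith
  have h5 := le_abs_self K
  linarith

theorem I0_pos {g C : ℝ} (hg0 : 0 < g) (hC : 1 < C) : 0 < I0 g C := by
  refine lt_of_lt_of_le ?_ (ex1b_lower hg0 hC)
  have : 0 < (C - 1) ^ g := Real.rpow_pos_of_pos (by linarith) _
  positivity

end Pool.Agent.AbelLT
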