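import Pool.Agent.Lib.MP_bb703b_an.Ex1a
import Pool.Agent.Lib.MP_bb703b_an.Ex1b

set_option autoImplicit false

open Real Set MeasureTheory intervalIntegral

/-!
Row EX1c: parameter choice.  `I1 g 3 < I1 g 2` (`I1_lt`): choose `r > 0` with
`r (I0 g 3 + I0 g 2) < I1 g 2 - I1 g 3`, `l` the midpoint of `I1 g 3 + r I0 g 3` and `I1 g 2 - r I0 g 2`
(`l > 0` by `I1_nonneg`, `I0_pos`), then `C > 3` with `r I0 g C > l + 2π` (`I0_large`, `I1_bdd`).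
-/

namespace Pool.Agent.AbelLT

/-- parameter choice. -/
theorem params {g : ℝ} (hg0 : 0 < g) (hg1 : g < 1) :
    ∃ r l C : ℝ, 0 < r ∧ 0 < l ∧ 3 < C ∧ I1 g 3 + r * I0 g 3 < l ∧ l < I1 g 2 - r * I0 g 2 ∧
      l < r * I0 g C + I1 g C ∧ l < r * I0 g C - I1 g C := by
  have h1 := I1_lt hg0 hg1
  have h3 : 0 < I0 g 3 := I0_pos hg0 (by norm_num)
  have h2 : 0 < I0 g 2 := I0_pos hg0 (by norm_num)
  have h4 : 0 ≤ I1 g 3 := I1_nonneg hg0 (by norm_num)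
  set r := (I1 g 2 - I1 g 3) / (2 * (I0 g 3 + I0 g 2)) with hr
  have hr0 : 0 < r := div_pos (by linarith) (by linarith)
  have hr1 : r * (2 * (I0 g 3 + I0 g 2)) = I1 g 2 - I1 g 3 :=
    div_mul_cancel₀ _ (by linarith)
  have hr2 : r * (I0 g 3 + I0 g 2) < I1 g 2 - I1 g 3 := by
    have : 0 < r * (I0 g 3 + I0 g 2) := mul_pos hr0 (by linarith)
    linarith
  set l := (I1 g 3 + r * I0 g 3 + (I1 g 2 - r * I0 g 2)) / 2 with hl
  have hl1 : I1 g 3 + r * I0 g 3 < l := by rw [hl]; linarith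
  have hl2 : l < I1 g 2 - r * I0 g 2 := by rw [hl]; linarith
  have hl0 : 0 < l := by
    have : 0 < r * I0 g 3 := mul_pos hr0 h3
    linarith
  obtain ⟨C, hC, hC2⟩ := I0_large hg0 hg1 ((l + 2 * π) / r)
  have hb := abs_le.1 (I1_bdd hg0 hg1 (C := C) (by linarith))
  rw [div_lt_iff₀ hr0] at hC2
  refine ⟨r, l, C, hr0, hl0, hC, hl1, hl2, ?_, ?_⟩
  · linarith [hb.1]
  · linarith [hb.2]

end Pool.Agent.AbelLT
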