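import Pool.Agent.Lib.MP_bb703b_an.I01

set_option autoImplicit false

open Real Set MeasureTheory intervalIntegral

/-!
Row EX1a: `I1`.
-/

namespace Pool.Agent.AbelLT

theorem ex1a_cont {g C : ℝ} (hC : 1 < C) : Continuous fun t => (C + cos t) ^ g := by
  refine Continuous.rpow_const (by fun_prop) fun t => Or.inl ?_
  have := neg_one_le_cos t
  linarith

theorem ex1a_cos : ∫ t in (0:ℝ)..(2 * π), cos t = 0 := by
  rw [integral_cos, sin_two_pi, sin_zero, sub_zero]

/-- the function `φ` -/
theorem ex1a_anti {g : ℝ} (hg0 : 0 < g) (hg1 : g < 1) :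
    StrictAntiOn (fun c : ℝ => (3 + c) ^ g - (2 + c) ^ g) (Icc (-1) 1) := by
  have hd : ∀ c ∈ Icc (-1 : ℝ) 1, HasDerivAt (fun c : ℝ => (3 + c) ^ g - (2 + c) ^ g)
      (g * (3 + c) ^ (g - 1) - g * (2 + c) ^ (g - 1)) c := by
    intro c hc
    have h3 : (3 + c : ℝ) ≠ 0 := by have := hc.1; linarith
    have h2 : (2 + c : ℝ) ≠ 0 := by have := hc.1; linarith
    have e3 := (Real.hasDerivAt_rpow_const (p := g) (Or.inl h3)).comp c
      ((hasDerivAt_id c).const_add 3)
    have e2 := (Real.hasDerivAt_rpow_const (p := g) (Or.inl h2)).comp c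
      ((hasDerivAt_id c).const_add 2)
    have := e3.sub e2
    simp only [mul_one] at this
    exact this
  refine strictAntiOn_of_deriv_neg (convex_Icc _ _)
    (fun c hc => (hd c hc).continuousAt.continuousWithinAt) (fun c hc => ?_)
  rw [interior_Icc] at hc
  have hc' : c ∈ Icc (-1 : ℝ) 1 := ⟨hc.1.le, hc.2.le⟩
  rw [(hd c hc').deriv]
  have h1 : (3 + c) ^ (g - 1) < (2 + c) ^ (g - 1) :=
    Real.rpow_lt_rpow_of_neg (by linarith [hc.1]) (by linarith) (by linarith)
  have := mul_lt_mul_of_pos_left h1 hg0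
  linarith

/-- `I1 g 3 < I1 g 2` for `0 < g < 1`: `φ(c) = (3+c)^g - (2+c)^g` is strictly decreasing on
`[-1,1]` (concavity of `y^g`), so `cos t (φ(cos t) - φ(0)) ≤ 0`, not identically zero, and
`∫ cos t φ(0) = 0`. -/
theorem I1_lt {g : ℝ} (hg0 : 0 < g) (hg1 : g < 1) : I1 g 3 < I1 g 2 := by
  have hanti := ex1a_anti hg0 hg1
  have h0 : (0 : ℝ) ∈ Icc (-1 : ℝ) 1 := by constructor <;> norm_num
  have hmem : ∀ t : ℝ, cos t ∈ Icc (-1 : ℝ) 1 := fun t => ⟨neg_one_le_cos t, cos_le_one t⟩
  have c2 : Continuous fun t : ℝ => (2 + cos t) ^ g := ex1a_cont (by norm_num)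
  have c3 : Continuous fun t : ℝ => (3 + cos t) ^ g := ex1a_cont (by norm_num)
  set K : ℝ := (3 + 0) ^ g - (2 + 0) ^ g with hK
  have hkey : 0 < ∫ t in (0:ℝ)..(2 * π),
      (cos t * (2 + cos t) ^ g - cos t * (3 + cos t) ^ g + K * cos t) := by
    have hpt : ∀ t : ℝ, cos t * (2 + cos t) ^ g - cos t * (3 + cos t) ^ g + K * cos t =
        cos t * (K - ((3 + cos t) ^ g - (2 + cos t) ^ g)) := fun t => by ring
    refine intervalIntegral.integral_pos (by positivity) (Continuous.continuousOn ?_) ?_ ?_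
    · exact ((continuous_cos.mul c2).sub (continuous_cos.mul c3)).add
        (continuous_const.mul continuous_cos)
    · intro t _
      rw [hpt]
      rcases lt_trichotomy (cos t) 0 with h | h | h
      · have h1 := hanti (hmem t) h0 h
        simp only at h1
        exact (mul_pos_of_neg_of_neg h (by rw [hK]; linarith)).le
      · rw [h, zero_mul]
      · have h1 := hanti h0 (hmem t) h
        simp only at h1
        exact (mul_pos h (by rw [hK]; linarith)).le
    · refine ⟨0, ⟨le_rfl, by positivity⟩, ?_⟩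
      rw [hpt, cos_zero]
      have h1 := hanti h0 (⟨by norm_num, le_rfl⟩ : (1 : ℝ) ∈ Icc (-1 : ℝ) 1) one_pos
      simp only at h1
      rw [one_mul, hK]
      linarith
  have i2 : IntervalIntegrable (fun t => cos t * (2 + cos t) ^ g) volume 0 (2 * π) :=
    (continuous_cos.mul c2).intervalIntegrable _ _
  have i3 : IntervalIntegrable (fun t => cos t * (3 + cos t) ^ g) volume 0 (2 * π) :=
    (continuous_cos.mul c3).intervalIntegrable _ _
  have i4 : IntervalIntegrable (fun t => K * cos t) volume 0 (2 * π) :=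
    (continuous_const.mul continuous_cos).intervalIntegrable _ _
  rw [intervalIntegral.integral_add (i2.sub i3) i4, intervalIntegral.integral_sub i2 i3,
    intervalIntegral.integral_const_mul, ex1a_cos, mul_zero, add_zero] at hkey
  unfold I1
  linarith

/-- `∫ cos t ((C + cos t)^g - C^g) ≥ 0` pointwise. -/
theorem I1_nonneg {g C : ℝ} (hg0 : 0 < g) (hC : 1 < C) : 0 ≤ I1 g C := by
  have cC : Continuous fun t : ℝ => (C + cos t) ^ g := ex1a_cont hC
  have hkey : 0 ≤ ∫ t in (0:ℝ)..(2 * π), (cos t * (C + cos t) ^ g - C ^ g * cos t) := by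
    refine intervalIntegral.integral_nonneg (by positivity) fun t _ => ?_
    have hpt : cos t * (C + cos t) ^ g - C ^ g * cos t = cos t * ((C + cos t) ^ g - C ^ g) := by
      ring
    have hb := neg_one_le_cos t
    rw [hpt]
    rcases le_total (cos t) 0 with h | h
    · have h1 : (C + cos t) ^ g ≤ C ^ g :=
        Real.rpow_le_rpow (by linarith) (by linarith) hg0.le
      exact mul_nonneg_of_nonpos_of_nonpos h (by linarith)
    · have h1 : C ^ g ≤ (C + cos t) ^ g :=
        Real.rpow_le_rpow (by linarith) (by linarith) hg0.le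
      exact mul_nonneg h (by linarith)
  have iC : IntervalIntegrable (fun t => cos t * (C + cos t) ^ g) volume 0 (2 * π) :=
    (continuous_cos.mul cC).intervalIntegrable _ _
  have i4 : IntervalIntegrable (fun t => C ^ g * cos t) volume 0 (2 * π) :=
    (continuous_const.mul continuous_cos).intervalIntegrable _ _
  rw [intervalIntegral.integral_sub iC i4, intervalIntegral.integral_const_mul, ex1a_cos,
    mul_zero, sub_zero] at hkey
  exact hkey

end Pool.Agent.AbelLT
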