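import Pool.Agent.Lib.MP_bb703b_an.Refl

set_option autoImplicit false

open Real Set MeasureTheory intervalIntegral

/-!
Definitions for row EX2: sub- and supersolutions near the unperturbed orbits of `x' = sin t x^p`.

`Z0 C t = (p-1)(C + cos t)`, `C > 1`; `g = (p-q)/(p-1)`;
`G t = a + (b + c cos t) Z0^g`, `M = ∫_0^{2π} G`.
If `z > 0` and `z' > -(p-1)(A + B z^g)` then `α = z^(-1/(p-1))` satisfies
`α' < A α^p + B α^q` (`α' = -(1/(p-1)) α^p z'`, `α^p z^g = α^q`).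
For `M > 0`: `z = Z0 - ε (p-1) (∫_0^t G - d t)`, `0 < 2π d < M`, `A = sin t + ε a`,
`B = ε (b + c cos t)`: `z' + (p-1)(A + B z^g) = ε (p-1) (d + (b + c cos t)(z^g - Z0^g)) > 0` for
small `ε`, and `z(2π) < z(0)`.
-/

namespace Pool.Agent.AbelLT

/-- the unperturbed orbit -/
noncomputable def orb (p : ℕ) (C t : ℝ) : ℝ := (((p : ℝ) - 1) * (C + cos t)) ^ (-(1 / ((p : ℝ) - 1)))

/-- `M(C) = ∫ (a + (b + c cos t) ((p-1)(C + cos t))^g)`. -/
noncomputable def Mel (p q : ℕ) (a b c C : ℝ) : ℝ :=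
  ∫ t in (0:ℝ)..(2 * π), (a + (b + c * cos t) *
    (((p : ℝ) - 1) * (C + cos t)) ^ (((p : ℝ) - q) / ((p : ℝ) - 1)))

end Pool.Agent.AbelLT
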