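import Pool.Agent.Lib.MP_bb703b_an.Refl

set_option autoImplicit false

open Real Set

/-!
Row REFL2: invariance of the number of (positive) periodic solutions.
-/

namespace Pool.Agent.AbelLT

theorem posInit_rev (p q : ℕ) (A B : ℝ → ℝ) :
    posInit p q (fun t => -A (-t)) (fun t => -B (-t)) = posInit p q A B := by
  ext c
  constructor
  · rintro ⟨x, hx, rfl⟩
    have h := hx.rev
    simp only [neg_neg] at h
    exact ⟨_, h, by simp⟩
  · rintro ⟨x, hx, rfl⟩
    exact ⟨_, hx.rev, by simp⟩

/-- the number of positive periodic solutions is invariant under time reversal. -/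
theorem posInit_rev_encard (p q : ℕ) {A B : ℝ → ℝ} (hA : Continuous A) (hB : Continuous B) :
    (posInit p q (fun t => -A (-t)) (fun t => -B (-t))).encard = (posInit p q A B).encard := by
  rw [posInit_rev]

theorem posInit_shift_le (p q : ℕ) {A B : ℝ → ℝ} (hA : Continuous A) (hB : Continuous B)
    (s : ℝ) :
    (posInit p q A B).encard ≤ (posInit p q (fun t => A (t + s)) (fun t => B (t + s))).encard := by
  classical
  have hsol : ∀ c ∈ posInit p q A B, ∃ x, PosPer p q A B x ∧ x 0 = c := fun c hc => hc
  choose! X hX using hsol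
  have himg : (fun c => X c s) '' posInit p q A B ⊆
      posInit p q (fun t => A (t + s)) (fun t => B (t + s)) := by
    rintro _ ⟨c, hc, rfl⟩
    exact ⟨_, (hX c hc).1.shift s, by simp⟩
  have hinj : InjOn (fun c => X c s) (posInit p q A B) := by
    intro c hc d hd hcd
    have := eq_of_eq hA hB (hX c hc).1.sol (hX d hd).1.sol hcd
    rw [← (hX c hc).2, ← (hX d hd).2, this]
  rw [← hinj.encard_image]
  exact encard_le_encard himg

/-- and under time shifts. -/
theorem posInit_shift_encard (p q : ℕ) {A B : ℝ → ℝ} (hA : Continuous A) (hB : Continuous B)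
    (s : ℝ) :
    (posInit p q (fun t => A (t + s)) (fun t => B (t + s))).encard =
      (posInit p q A B).encard := by
  apply le_antisymm _ (posInit_shift_le p q hA hB s)
  have h := posInit_shift_le p q (A := fun t => A (t + s)) (B := fun t => B (t + s))
    (by fun_prop) (by fun_prop) (-s)
  simpa only [neg_add_cancel_right] using h

theorem perInit_rev_encard (p q : ℕ) {A B : ℝ → ℝ} (hp : p ≠ 0) (hq : q ≠ 0)
    (hA : Continuous A) (hB : Continuous B) :
    (perInit p q (fun t => -A (-t)) (fun t => -B (-t))).encard = (perInit p q A B).encard := by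
  congr 1
  have hrev : ∀ {A B x : ℝ → ℝ}, PerSol p q A B x →
      PerSol p q (fun t => -A (-t)) (fun t => -B (-t)) (fun t => x (-t)) := by
    intro A B x hx
    refine ⟨fun t => ?_, fun t => ?_⟩
    · exact ((hx.hd (-t)).comp t (hasDerivAt_neg t)).congr_deriv (by ring)
    · have := hx.per (-t - 2 * π)
      rw [sub_add_cancel] at this
      rw [this]
      congr 1
      ring
  ext c
  constructor
  · rintro ⟨x, hx, rfl⟩
    have h := hrev hx
    simp only [neg_neg] at h
    exact ⟨_, h, by simp⟩
  · rintro ⟨x, hx, rfl⟩
    exact ⟨_, hrev hx, by simp⟩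

end Pool.Agent.AbelLT
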