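import Pool.Agent.Lib.MP_bb703b_an.Exist2
import Pool.Agent.Lib.MP_bb703b_an.Ex2
import Pool.Agent.Lib.MP_bb703b_an.Trig

set_option autoImplicit false

open Real Set MeasureTheory intervalIntegral

/-!
Row LOW1: periodic solutions from signs of `Mel`.
-/

namespace Pool.Agent.AbelLT

variable {p q : ℕ}

/-- Two positive solutions from the signs at three orbits `C₁ < C₂ < C₃`. -/
theorem two_pos (hq : 2 ≤ q) (hpq : q < p) {a b c C₁ C₂ C₃ : ℝ} (h1 : 1 < C₁) (h12 : C₁ < C₂)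
    (h23 : C₂ < C₃) (m1 : Mel p q a b c C₁ < 0) (m2 : 0 < Mel p q a b c C₂)
    (m3 : Mel p q a b c C₃ < 0) :
    ∃ ε₀ > 0, ∀ ε : ℝ, 0 < ε → ε < ε₀ →
      2 ≤ (posInit p q (tg (ε * a) 1 0) (tg (ε * b) 0 (ε * c))).encard := by
  obtain ⟨d1, hd1, g1⟩ := orb_gap (p := p) (by omega) h1 h12
  obtain ⟨d2, hd2, g2⟩ := orb_gap (p := p) (by omega) (h1.trans h12) h23
  have hδ : 0 < min d1 d2 / 2 := half_pos (lt_min hd1 hd2)
  have hδ1 : min d1 d2 / 2 + min d1 d2 / 2 ≤ d1 := by linarith [min_le_left d1 d2]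
  have hδ2 : min d1 d2 / 2 + min d1 d2 / 2 ≤ d2 := by linarith [min_le_right d1 d2]
  obtain ⟨e1, he1, f1⟩ := super_of_Mel_neg hq hpq h1 m1 hδ
  obtain ⟨e2, he2, f2⟩ := sub_of_Mel_pos hq hpq (h1.trans h12) m2 hδ
  obtain ⟨e3, he3, f3⟩ := super_of_Mel_neg hq hpq (h1.trans (h12.trans h23)) m3 hδ
  refine ⟨min e1 (min e2 e3), lt_min he1 (lt_min he2 he3), fun ε hε hεlt => ?_⟩
  obtain ⟨β₁, hβ₁, kβ₁⟩ := f1 ε hε (hεlt.trans_le (min_le_left _ _))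
  obtain ⟨α, hα, kα⟩ := f2 ε hε
    (hεlt.trans_le ((min_le_right _ _).trans (min_le_left _ _)))
  obtain ⟨β₃, hβ₃, kβ₃⟩ := f3 ε hε
    (hεlt.trans_le ((min_le_right _ _).trans (min_le_right _ _)))
  obtain ⟨v₁, hv₁, l1, -⟩ := exist_sub_super (tg_cont _ _ _) (tg_cont _ _ _) (tg_per _ _ _)
    (tg_per _ _ _) hα hβ₁ (fun t ht => (kα t ht).1) (fun t ht => by
      have h3 := abs_lt.1 (kα t ht).2
      have h4 := abs_lt.1 (kβ₁ t ht).2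
      linarith [g1 t])
  obtain ⟨v₂, hv₂, -, l2⟩ := exist_super_sub (tg_cont _ _ _) (tg_cont _ _ _) (tg_per _ _ _)
    (tg_per _ _ _) hα hβ₃ (fun t ht => (kβ₃ t ht).1) (fun t ht => by
      have h3 := abs_lt.1 (kα t ht).2
      have h4 := abs_lt.1 (kβ₃ t ht).2
      linarith [g2 t])
  have hlt : v₂ 0 < v₁ 0 := by linarith [hα.2]
  rw [← encard_pair hlt.ne]
  apply encard_le_encard
  rintro x (rfl | rfl)
  · exact ⟨v₂, hv₂, rfl⟩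
  · exact ⟨v₁, hv₁, rfl⟩

/-- One positive solution from a sign change of `Mel`. -/
theorem one_pos (hq : 2 ≤ q) (hpq : q < p) {a b c C₁ C₂ : ℝ} (h1 : 1 < C₁) (h12 : C₁ < C₂)
    (m : (Mel p q a b c C₁ < 0 ∧ 0 < Mel p q a b c C₂) ∨
      (0 < Mel p q a b c C₁ ∧ Mel p q a b c C₂ < 0)) :
    ∃ ε₀ > 0, ∀ ε : ℝ, 0 < ε → ε < ε₀ →
      1 ≤ (posInit p q (tg (ε * a) 1 0) (tg (ε * b) 0 (ε * c))).encard := by
  obtain ⟨d1, hd1, g1⟩ := orb_gap (p := p) (by omega) h1 h12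
  have hδ : 0 < d1 / 2 := half_pos hd1
  rcases m with ⟨m1, m2⟩ | ⟨m1, m2⟩
  · obtain ⟨e1, he1, f1⟩ := super_of_Mel_neg hq hpq h1 m1 hδ
    obtain ⟨e2, he2, f2⟩ := sub_of_Mel_pos hq hpq (h1.trans h12) m2 hδ
    refine ⟨min e1 e2, lt_min he1 he2, fun ε hε hεlt => ?_⟩
    obtain ⟨β₁, hβ₁, kβ₁⟩ := f1 ε hε (hεlt.trans_le (min_le_left _ _))
    obtain ⟨α, hα, kα⟩ := f2 ε hε (hεlt.trans_le (min_le_right _ _))
    obtain ⟨v₁, hv₁, -, -⟩ := exist_sub_super (tg_cont _ _ _) (tg_cont _ _ _) (tg_per _ _ _)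
      (tg_per _ _ _) hα hβ₁ (fun t ht => (kα t ht).1) (fun t ht => by
        have h3 := abs_lt.1 (kα t ht).2
        have h4 := abs_lt.1 (kβ₁ t ht).2
        linarith [g1 t])
    rw [one_le_encard_iff_nonempty]
    exact ⟨_, v₁, hv₁, rfl⟩
  · obtain ⟨e1, he1, f1⟩ := sub_of_Mel_pos hq hpq h1 m1 hδ
    obtain ⟨e2, he2, f2⟩ := super_of_Mel_neg hq hpq (h1.trans h12) m2 hδ
    refine ⟨min e1 e2, lt_min he1 he2, fun ε hε hεlt => ?_⟩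
    obtain ⟨α, hα, kα⟩ := f1 ε hε (hεlt.trans_le (min_le_left _ _))
    obtain ⟨β₁, hβ₁, kβ₁⟩ := f2 ε hε (hεlt.trans_le (min_le_right _ _))
    obtain ⟨v₁, hv₁, -, -⟩ := exist_super_sub (tg_cont _ _ _) (tg_cont _ _ _) (tg_per _ _ _)
      (tg_per _ _ _) hα hβ₁ (fun t ht => (kβ₁ t ht).1) (fun t ht => by
        have h3 := abs_lt.1 (kα t ht).2
        have h4 := abs_lt.1 (kβ₁ t ht).2
        linarith [g1 t])
    rw [one_le_encard_iff_nonempty]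
    exact ⟨_, v₁, hv₁, rfl⟩

end Pool.Agent.AbelLT
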