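import Pool.Agent.Lib.MP_bb703b_an.MelEq
import Pool.Agent.Lib.MP_bb703b_an.TwoPos
import Pool.Agent.Lib.MP_bb703b_an.Ex1
import Pool.Agent.Lib.MP_bb703b_an.Refl2

set_option autoImplicit false

open Real Set MeasureTheory intervalIntegral

/-!
Row LOW2: the example.  `g = (p-q)/(p-1)`, `κ = (p-1)^g`; `params` gives `r, l, C`.
`a = l κ/(2π)`, `b = -r`, `c = -1`; `A = tg (ε a) 1 0`, `B = tg (ε b) 0 (ε c)` for small `ε > 0`;
determinant `1 * (ε c) - 0 = -ε`.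
`Mel_eq`: `Mel p q a b c C' = κ (l - r I0 g C' - I1 g C')`: `< 0` at `2`, `> 0` at `3`, `< 0` at `C`;
`two_pos` with `C₁ = 2, C₂ = 3, C₃ = C`.
For even `p` (so `(-1)^(p-1) = -1`; `σ = (-1)^(q-1)`): the reflected coefficients are
`-A = tg (-ε a) (-1) 0` and `σ B = tg (-ε σ r) 0 (-ε σ)`; shifted by `π` (`posInit_shift_encard`):
`tg (-ε a) 1 0`, `tg (-ε σ r) 0 (ε σ)`, i.e. the parameters `(-a, -σ r, σ)`; use `one_pos`:
* `q` odd, `σ = 1`: `Mel = κ (-l - r I0 + I1)`: `> 0` at `2`, `< 0` at `3`.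
* `q` even, `σ = -1`: `Mel = κ (-l + r I0 - I1)`: `< 0` at `2` (`l > 0`, `l < I1 g 2 - r I0 g 2`), `> 0` at `C`.
-/

namespace Pool.Agent.AbelLT

variable {p q : ℕ}

theorem exMain_shift (s a b c ε : ℝ) :
    (fun t => s * tg (ε * a) b (ε * c) (t + π)) = tg (ε * (s * a)) (-(s * b)) (ε * (-(s * c))) := by
  funext t
  simp only [tg, sin_add_pi, cos_add_pi]
  ring

theorem exMain_neg (hq : 2 ≤ q) (hpq : q < p) (hev : Even p) {r l C g : ℝ}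
    (hgd : g = ((p : ℝ) - q) / ((p : ℝ) - 1)) (hκ : 0 < ((p : ℝ) - 1) ^ g)
    (hg0 : 0 < g) (hr : 0 < r) (hl : 0 < l) (hC : 3 < C) (h3 : I1 g 3 + r * I0 g 3 < l)
    (h2 : l < I1 g 2 - r * I0 g 2) (h5 : l < r * I0 g C - I1 g C) :
    ∃ ε₀ > 0, ∀ ε : ℝ, 0 < ε → ε < ε₀ →
      1 ≤ (posInit p q (fun t => (-1) ^ (p - 1) *
        tg (ε * (l * ((p : ℝ) - 1) ^ g / (2 * π))) 1 0 t)
        (fun t => (-1) ^ (q - 1) * tg (ε * (-r)) 0 (ε * (-1)) t)).encard := by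
  set κ : ℝ := ((p : ℝ) - 1) ^ g with hκd
  have hπ : (0 : ℝ) < π := pi_pos
  have h02 : 0 < I0 g 2 := I0_pos hg0 (by norm_num)
  have h03 : 0 < I0 g 3 := I0_pos hg0 (by norm_num)
  have hMel : ∀ σ C' : ℝ, 1 < C' → Mel p q (-(l * κ / (2 * π))) (-(σ * r)) σ C' =
      κ * (-l - σ * r * I0 g C' + σ * I1 g C') := by
    intro σ C' hC'
    rw [Mel_eq hq hpq _ _ _ _ hC', ← hgd, ← hκd]
    field_simp
    ring
  have hpm : ((-1 : ℝ)) ^ (p - 1) = -1 := by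
    apply Odd.neg_one_pow
    obtain ⟨k, hk⟩ := hev
    exact ⟨k - 1, by omega⟩
  -- the sign σ
  have hmain : ∀ σ : ℝ, ((-1 : ℝ)) ^ (q - 1) = σ → (∃ ε₀ > 0, ∀ ε : ℝ, 0 < ε → ε < ε₀ →
      1 ≤ (posInit p q (tg (ε * -(l * κ / (2 * π))) 1 0)
        (tg (ε * -(σ * r)) 0 (ε * σ))).encard) → ∃ ε₀ > 0, ∀ ε : ℝ, 0 < ε → ε < ε₀ →
      1 ≤ (posInit p q (fun t => (-1) ^ (p - 1) * tg (ε * (l * κ / (2 * π))) 1 0 t)
        (fun t => (-1) ^ (q - 1) * tg (ε * (-r)) 0 (ε * (-1)) t)).encard := by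
    rintro σ hσ ⟨ε₀, hε₀, h⟩
    refine ⟨ε₀, hε₀, fun ε hε hε' => ?_⟩
    have hA : Continuous (fun t => (-1 : ℝ) ^ (p - 1) * tg (ε * (l * κ / (2 * π))) 1 0 t) :=
      continuous_const.mul (tg_cont _ _ _)
    have hB : Continuous (fun t => (-1 : ℝ) ^ (q - 1) * tg (ε * (-r)) 0 (ε * (-1)) t) :=
      continuous_const.mul (tg_cont _ _ _)
    rw [← posInit_shift_encard p q hA hB π]
    have eA : (fun t => (-1 : ℝ) ^ (p - 1) * tg (ε * (l * κ / (2 * π))) 1 0 (t + π)) =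
        tg (ε * -(l * κ / (2 * π))) 1 0 := by
      have := exMain_shift ((-1 : ℝ) ^ (p - 1)) (l * κ / (2 * π)) 1 0 ε
      rw [hpm] at this ⊢
      rw [mul_zero] at this
      rw [this]
      simp
    have eB : (fun t => (-1 : ℝ) ^ (q - 1) * tg (ε * (-r)) 0 (ε * (-1)) (t + π)) =
        tg (ε * -(σ * r)) 0 (ε * σ) := by
      have := exMain_shift ((-1 : ℝ) ^ (q - 1)) (-r) 0 (-1) ε
      rw [this, hσ]
      simp
    rw [eA, eB]
    exact h ε hε hε'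
  rcases Nat.even_or_odd (q - 1) with hq1 | hq1
  · refine hmain 1 (hq1.neg_one_pow) ?_
    refine one_pos hq hpq (C₁ := 2) (C₂ := 3) (by norm_num) (by norm_num) (Or.inr ⟨?_, ?_⟩)
    · rw [hMel 1 2 (by norm_num)]
      exact mul_pos hκ (by linarith)
    · rw [hMel 1 3 (by norm_num)]
      have := mul_pos hr h03
      exact mul_neg_of_pos_of_neg hκ (by linarith)
  · refine hmain (-1) (hq1.neg_one_pow) ?_
    refine one_pos hq hpq (C₁ := 2) (C₂ := C) (by norm_num) (by linarith) (Or.inl ⟨?_, ?_⟩)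
    · rw [hMel (-1) 2 (by norm_num)]
      exact mul_neg_of_pos_of_neg hκ (by linarith)
    · rw [hMel (-1) C (by linarith)]
      exact mul_pos hκ (by linarith)

/-- two positive solutions and, for even `p`, one negative solution. -/
theorem example_exists (hq : 2 ≤ q) (hpq : q < p) :
    ∃ a0 a1 a2 b0 b1 b2 : ℝ, a1 * b2 - a2 * b1 ≠ 0 ∧
      2 ≤ (posInit p q (tg a0 a1 a2) (tg b0 b1 b2)).encard ∧
      (Even p → 1 ≤ (posInit p q (fun t => (-1) ^ (p - 1) * tg a0 a1 a2 t)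
        (fun t => (-1) ^ (q - 1) * tg b0 b1 b2 t)).encard) := by
  have hp1 : (0 : ℝ) < (p : ℝ) - 1 := by
    have : (3 : ℝ) ≤ p := by exact_mod_cast (by omega : 3 ≤ p)
    linarith
  have hpq' : (0 : ℝ) < (p : ℝ) - q := by
    have : (q : ℝ) < p := by exact_mod_cast hpq
    linarith
  have hq' : (2 : ℝ) ≤ q := by exact_mod_cast hq
  set g : ℝ := ((p : ℝ) - q) / ((p : ℝ) - 1) with hg
  have hg0 : 0 < g := div_pos hpq' hp1
  have hg1 : g < 1 := by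
    rw [hg, div_lt_one hp1]
    linarith
  have hκ : 0 < ((p : ℝ) - 1) ^ g := Real.rpow_pos_of_pos hp1 g
  obtain ⟨r, l, C, hr, hl, hC, h3, h2, h4, h5⟩ := params hg0 hg1
  have hπ : (0 : ℝ) < π := pi_pos
  have h02 : 0 < I0 g 2 := I0_pos hg0 (by norm_num)
  have hMel : ∀ C' : ℝ, 1 < C' → Mel p q (l * ((p : ℝ) - 1) ^ g / (2 * π)) (-r) (-1) C' =
      ((p : ℝ) - 1) ^ g * (l - r * I0 g C' - I1 g C') := by
    intro C' hC'
    rw [Mel_eq hq hpq _ _ _ _ hC', ← hg]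
    field_simp
    ring
  obtain ⟨ε₀, hε₀, hE⟩ := two_pos hq hpq (a := l * ((p : ℝ) - 1) ^ g / (2 * π)) (b := -r)
    (c := -1) (C₁ := 2) (C₂ := 3) (C₃ := C) (by norm_num) (by norm_num) hC
    (by rw [hMel 2 (by norm_num)]
        have := mul_pos hr h02
        exact mul_neg_of_pos_of_neg hκ (by linarith))
    (by rw [hMel 3 (by norm_num)]
        exact mul_pos hκ (by linarith))
    (by rw [hMel C (by linarith)]
        exact mul_neg_of_pos_of_neg hκ (by linarith))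
  obtain ⟨ε₁, hε₁, hF⟩ : ∃ ε₁ > 0, ∀ ε : ℝ, 0 < ε → ε < ε₁ → (Even p →
      1 ≤ (posInit p q (fun t => (-1) ^ (p - 1) *
        tg (ε * (l * ((p : ℝ) - 1) ^ g / (2 * π))) 1 0 t)
        (fun t => (-1) ^ (q - 1) * tg (ε * (-r)) 0 (ε * (-1)) t)).encard) := by
    by_cases hev : Even p
    · obtain ⟨ε₁, hε₁, h⟩ := exMain_neg hq hpq hev hg hκ hg0 hr hl hC h3 h2 h5
      exact ⟨ε₁, hε₁, fun ε h1 h2 _ => h ε h1 h2⟩
    · exact ⟨1, (by norm_num : (1:ℝ) > 0), fun ε _ _ h => absurd h hev⟩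
  have hm : 0 < min ε₀ ε₁ := lt_min hε₀ hε₁
  set ε : ℝ := min ε₀ ε₁ / 2 with hε
  have hε0 : 0 < ε := by positivity
  have hεm : ε < min ε₀ ε₁ := by rw [hε]; linarith
  refine ⟨ε * (l * ((p : ℝ) - 1) ^ g / (2 * π)), 1, 0, ε * (-r), 0, ε * (-1), ?_,
    hE ε hε0 (hεm.trans_le (min_le_left _ _)), hF ε hε0 (hεm.trans_le (min_le_right _ _))⟩
  have : (1 : ℝ) * (ε * -1) - 0 * 0 = -ε := by ring
  rw [this]
  exact neg_ne_zero.2 hε0.ne'

end Pool.Agent.AbelLT
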