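import Pool.Agent.Lib.MP_bb703b_an.ExDefs

set_option autoImplicit false

open Real Set MeasureTheory intervalIntegral

/-!
Row EX2a.
-/

namespace Pool.Agent.AbelLT

/-- from `z` to `x = z^(-1/(p-1))`. -/
theorem z_to_x {p q : ℕ} (hq : 2 ≤ q) (hpq : q < p) {z : ℝ → ℝ} {z' t : ℝ} (hz : 0 < z t)
    (hd : HasDerivAt z z' t) (A B : ℝ) :
    HasDerivAt (fun s => z s ^ (-(1 / ((p : ℝ) - 1))))
      (-(1 / ((p : ℝ) - 1)) * (z t ^ (-(1 / ((p : ℝ) - 1)))) ^ p * z') t ∧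
    (z t ^ (-(1 / ((p : ℝ) - 1)))) ^ p * z t ^ (((p : ℝ) - q) / ((p : ℝ) - 1)) =
      (z t ^ (-(1 / ((p : ℝ) - 1)))) ^ q := by
  have _ := A
  have _ := B
  have hp3 : 3 ≤ p := by omega
  have hp1 : (0 : ℝ) < (p : ℝ) - 1 := by
    have : (3 : ℝ) ≤ p := by exact_mod_cast hp3
    linarith
  have hpow : ∀ n : ℕ, (z t ^ (-(1 / ((p : ℝ) - 1)))) ^ n = z t ^ (-(1 / ((p : ℝ) - 1)) * n) := by
    intro n
    rw [Real.rpow_mul hz.le, Real.rpow_natCast]
  constructor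
  · have h1 := hd.rpow_const (p := -(1 / ((p : ℝ) - 1))) (Or.inl hz.ne')
    refine h1.congr_deriv ?_
    rw [hpow p]
    have e : -(1 / ((p : ℝ) - 1)) * p = -(1 / ((p : ℝ) - 1)) - 1 := by
      field_simp
      ring
    rw [e]
    ring
  · rw [hpow p, hpow q, ← Real.rpow_add hz]
    congr 1
    field_simp
    ring

/-- the orbits are uniformly ordered. -/
theorem orb_gap {p : ℕ} (hp : 2 < p) {C C' : ℝ} (hC : 1 < C) (hCC : C < C') :
    ∃ δ > 0, ∀ t, orb p C' t + δ < orb p C t := by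
  have hp1 : (0 : ℝ) < (p : ℝ) - 1 := by
    have : (2 : ℝ) < p := by exact_mod_cast hp
    linarith
  have hκ : -(1 / ((p : ℝ) - 1)) < 0 := by
    have : 0 < 1 / ((p : ℝ) - 1) := by positivity
    linarith
  let φ : ℝ → ℝ := fun c => (((p : ℝ) - 1) * (C + c)) ^ (-(1 / ((p : ℝ) - 1))) -
    (((p : ℝ) - 1) * (C' + c)) ^ (-(1 / ((p : ℝ) - 1)))
  have hφc : ContinuousOn φ (Icc (-1) 1) := by
    refine ContinuousOn.sub ?_ ?_
    · refine ContinuousOn.rpow_const (by fun_prop) (fun c hc => Or.inl ?_)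
      have : 0 < C + c := by linarith [hc.1]
      positivity
    · refine ContinuousOn.rpow_const (by fun_prop) (fun c hc => Or.inl ?_)
      have : 0 < C' + c := by linarith [hc.1]
      positivity
  have hφp : ∀ c ∈ Icc (-1 : ℝ) 1, 0 < φ c := by
    intro c hc
    have h1 : 0 < C + c := by linarith [hc.1]
    have h2 : ((p : ℝ) - 1) * (C + c) < ((p : ℝ) - 1) * (C' + c) :=
      mul_lt_mul_of_pos_left (by linarith) hp1
    have h3 := Real.rpow_lt_rpow_of_neg (mul_pos hp1 h1) h2 hκ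
    simp only [φ]
    linarith
  obtain ⟨c0, hc0, hmin⟩ := isCompact_Icc.exists_isMinOn (⟨0, by norm_num⟩ : (Icc (-1 : ℝ) 1).Nonempty) hφc
  refine ⟨φ c0 / 2, by linarith [hφp c0 hc0], fun t => ?_⟩
  have h4 : φ c0 ≤ φ (cos t) := hmin ⟨neg_one_le_cos t, cos_le_one t⟩
  have h5 := hφp c0 hc0
  have h6 : φ (cos t) = orb p C t - orb p C' t := rfl
  linarith

end Pool.Agent.AbelLT
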