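import Pool.Agent.Lib.MP_bb703b_an.Refl
import Pool.Agent.Lib.MP_bb703b_an.Ext
import Pool.Agent.Lib.MP_bb703b_an.Clip
import Pool.Agent.Lib.MP_bb703b_an.Comp

set_option autoImplicit false

open Real Set

/-!
Row EX0: existence of a periodic solution between a sub- and a supersolution.
-/

namespace Pool.Agent.AbelLT

variable {p q : ℕ} {A B α β : ℝ → ℝ}

theorem left_lt {f : ℝ → ℝ} {f' x a : ℝ} (h : HasDerivAt f f' x) (hf' : 0 < f') (ha : a < x) :
    ∃ y ∈ Ioo a x, f y < f x := by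
  by_contra hc
  push Not at hc
  have h1 := (hasDerivAt_iff_tendsto_slope.1 h).mono_left
    (nhdsWithin_mono x (fun y (hy : y ∈ Iio x) => ne_of_lt hy))
  have h2 : f' ≤ 0 := by
    refine le_of_tendsto h1 ?_
    filter_upwards [Ioo_mem_nhdsLT ha] with y hy
    rw [slope_def_field]
    exact div_nonpos_of_nonneg_of_nonpos (sub_nonneg.2 (hc y hy)) (sub_nonpos.2 hy.2.le)
  linarith

/-- `α < β` on `[0,2π]`, `α` strict sub with `α 0 < α 2π`, `β` strict super with `β 2π < β 0`. -/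
theorem exist_sub_super (hA : Continuous A) (hB : Continuous B)
    (perA : ∀ t, A (t + 2 * π) = A t) (perB : ∀ t, B (t + 2 * π) = B t)
    (hα : StrictSub p q A B α) (hβ : StrictSuper p q A B β)
    (hpos : ∀ t ∈ Icc 0 (2 * π), 0 < α t) (hαβ : ∀ t ∈ Icc 0 (2 * π), α t < β t) :
    ∃ v, PosPer p q A B v ∧ α (2 * π) < v 0 ∧ v 0 < β (2 * π) := by
  obtain ⟨⟨α', hα'⟩, hα0⟩ := hα
  obtain ⟨⟨β', hβ'⟩, hβ0⟩ := hβ
  have h2π : (0:ℝ) < 2 * π := by positivity
  have m0 : (0:ℝ) ∈ Icc 0 (2 * π) := left_mem_Icc.2 h2π.le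
  have m1 : 2 * π ∈ Icc 0 (2 * π) := right_mem_Icc.2 h2π.le
  have hαc : ContinuousOn α (Icc 0 (2 * π)) := fun t ht =>
    (hα' t ht).1.continuousAt.continuousWithinAt
  have hβc : ContinuousOn β (Icc 0 (2 * π)) := fun t ht =>
    (hβ' t ht).1.continuousAt.continuousWithinAt
  obtain ⟨X, hX, hXc⟩ := clipped_flow (p := p) (q := q) hA hB hαc hβc 0 le_rfl
  have l0 : (0:ℝ) ∈ Icc (0:ℝ) 0 := left_mem_Icc.2 le_rfl
  have hlow : ∀ h ∈ Icc (α 0) (β 0), ∀ t ∈ Icc 0 (2 * π), α t ≤ X h 0 t := by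
    intro h hh
    obtain ⟨hX0, hXd⟩ := hX h hh 0 l0
    exact clip_lower hαβ hpos le_rfl ⟨α', fun t ht => ⟨(hα' t ht).1, (hα' t ht).2.le⟩⟩ hXd
      (by rw [hX0]; exact hh.1)
  have hupp : ∀ h ∈ Icc (α 0) (β 0), ∀ t ∈ Icc 0 (2 * π), X h 0 t ≤ β t := by
    intro h hh
    obtain ⟨hX0, hXd⟩ := hX h hh 0 l0
    exact clip_upper' hαβ hpos ⟨β', fun t ht => ⟨(hβ' t ht).1, (hβ' t ht).2.le⟩⟩ hXd
      (by rw [hX0]; exact hh.2)
  have hDc : ContinuousOn (fun h => X h 0 (2 * π) - h) (Icc (α 0) (β 0)) := by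
    have h1 : ContinuousOn (fun h => X h 0 (2 * π)) (Icc (α 0) (β 0)) :=
      hXc.comp (f := fun h : ℝ => (h, (0:ℝ))) (by fun_prop) fun h hh => ⟨hh, l0⟩
    exact h1.sub continuousOn_id
  have hab : α 0 ≤ β 0 := (hαβ 0 m0).le
  have mα : α 0 ∈ Icc (α 0) (β 0) := left_mem_Icc.2 hab
  have mβ : β 0 ∈ Icc (α 0) (β 0) := right_mem_Icc.2 hab
  obtain ⟨h, hh, hD⟩ : (0:ℝ) ∈ (fun h => X h 0 (2 * π) - h) '' Icc (α 0) (β 0) := by
    apply intermediate_value_Icc' hab hDc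
    constructor
    · have := hupp _ mβ _ m1
      change X (β 0) 0 (2 * π) - β 0 ≤ 0
      linarith
    · have := hlow _ mα _ m1
      change 0 ≤ X (α 0) 0 (2 * π) - α 0
      linarith
  simp only at hD
  obtain ⟨hX0, hXd⟩ := hX h hh 0 l0
  have hret : X h 0 (2 * π) = X h 0 0 := by rw [hX0]; linarith
  have hclip : ∀ t ∈ Icc 0 (2 * π), clip α β t (X h 0 t) = X h 0 t := fun t ht => by
    unfold clip
    rw [min_eq_left (hupp h hh t ht), max_eq_right (hlow h hh t ht)]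
  obtain ⟨v, hv1, hv2, hv3⟩ := extend_periodic (F := fun t x => A t * x ^ p + B t * x ^ q)
    (fun t x => by simp only [perA, perB]) (X := X h 0)
    (fun t ht => by
      have := hXd t ht
      rwa [hclip t ht, add_zero] at this) hret
  have hvP : Function.Periodic v (2 * π) := hv2
  have hvpos : ∀ t, 0 < v t := by
    intro t
    obtain ⟨y, hy, hy2⟩ := hvP.exists_mem_Ico₀ h2π t
    rw [hy2, hv1 y (Ico_subset_Icc_self hy)]
    exact (hpos y (Ico_subset_Icc_self hy)).trans_le (hlow h hh y (Ico_subset_Icc_self hy))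
  have hv0 : v (2 * π) = v 0 := by
    have := hv2 0
    rwa [zero_add] at this
  refine ⟨v, ⟨⟨hv3, hv2⟩, hvpos⟩, ?_, ?_⟩
  · rw [← hv0]
    have hge : α (2 * π) ≤ v (2 * π) := by rw [hv1 _ m1]; exact hlow h hh _ m1
    rcases eq_or_lt_of_le hge with e | e
    · exfalso
      have hd := (hv3 (2 * π)).sub (hα' _ m1).1
      have hdpos : 0 < A (2 * π) * v (2 * π) ^ p + B (2 * π) * v (2 * π) ^ q - α' (2 * π) := by
        rw [← e]; linarith [(hα' _ m1).2]
      obtain ⟨y, hy, hy2⟩ := left_lt hd hdpos h2π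
      simp only [Pi.sub_apply] at hy2
      have hyI : y ∈ Icc 0 (2 * π) := Ioo_subset_Icc_self hy
      have := hlow h hh y hyI
      rw [← hv1 y hyI] at this
      linarith
    · exact e
  · rw [← hv0]
    have hge : v (2 * π) ≤ β (2 * π) := by rw [hv1 _ m1]; exact hupp h hh _ m1
    rcases eq_or_lt_of_le hge with e | e
    · exfalso
      have hd := (hβ' _ m1).1.sub (hv3 (2 * π))
      have hdpos : 0 < β' (2 * π) - (A (2 * π) * v (2 * π) ^ p + B (2 * π) * v (2 * π) ^ q) := by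
        rw [e]; linarith [(hβ' _ m1).2]
      obtain ⟨y, hy, hy2⟩ := left_lt hd hdpos h2π
      simp only [Pi.sub_apply] at hy2
      have hyI : y ∈ Icc 0 (2 * π) := Ioo_subset_Icc_self hy
      have := hupp h hh y hyI
      rw [← hv1 y hyI] at this
      linarith
    · exact e

end Pool.Agent.AbelLT
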