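import Pool.Agent.Lib.MP_bb703b_an.Defs

set_option autoImplicit false

open Real Set MeasureTheory intervalIntegral

namespace Pool.Agent.AbelLT

/-- `I0 g C = ∫_0^{2π} (C + cos t)^g dt`. -/
noncomputable def I0 (g C : ℝ) : ℝ := ∫ t in (0:ℝ)..(2 * π), (C + cos t) ^ g

/-- `I1 g C = ∫_0^{2π} cos t (C + cos t)^g dt`. -/
noncomputable def I1 (g C : ℝ) : ℝ := ∫ t in (0:ℝ)..(2 * π), cos t * (C + cos t) ^ g

end Pool.Agent.AbelLT
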