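import Pool.Agent.Lib.MP_bb703b_an.Lin

set_option autoImplicit false

open Real Set MeasureTheory intervalIntegral

/-!
Row INT1: exact integral identities and positivity from a certificate.
-/

namespace Pool.Agent.AbelLT

variable {p q : ℕ} {A B v : ℝ → ℝ} {a b x : ℝ}

/-- `∫ φ(v) v' = 0` over a period. -/
theorem integral_phi (hA : Continuous A) (hB : Continuous B) (hv : PosPer p q A B v)
    {φ : ℝ → ℝ} (hφ : ContinuousOn φ (range v)) :
    ∫ t in (0:ℝ)..(2 * π), φ (v t) * (A t * v t ^ p + B t * v t ^ q) = 0 := by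
  have hvc := hv.sol.cont
  have h := integral_comp_mul_deriv' (a := 0) (b := 2 * π) (f := v)
    (f' := fun t => A t * v t ^ p + B t * v t ^ q) (g := φ) (fun t _ => hv.sol.hd t)
    (by fun_prop) (hφ.mono (image_subset_range _ _))
  have hper : v (2 * π) = v 0 := by
    have := hv.sol.per 0
    rwa [zero_add] at this
  rw [hper, integral_same] at h
  exact h

/-- A continuous `2π`-periodic function that is nonnegative and somewhere positive has a
positive integral over `[0,2π]`. -/
theorem integral_pos_of_per {f : ℝ → ℝ} (hf : Continuous f) (hper : ∀ t, f (t + 2 * π) = f t)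
    (h0 : ∀ t, 0 ≤ f t) (h1 : ∃ t, 0 < f t) : 0 < ∫ t in (0:ℝ)..(2 * π), f t := by
  obtain ⟨t, ht⟩ := h1
  have hP : Function.Periodic f (2 * π) := hper
  obtain ⟨y, hy, hy2⟩ := hP.exists_mem_Ico₀ (by positivity) t
  have := integral_lt_integral_of_continuousOn_of_le_of_exists_lt (f := fun _ => (0:ℝ)) (g := f)
    (a := 0) (b := 2 * π) (by positivity) continuousOn_const hf.continuousOn (fun x _ => h0 x)
    ⟨y, Ico_subset_Icc_self hy, by rw [← hy2]; exact ht⟩
  simpa using this

/-- positivity from the certificate: if `η x = 0` and `η y` has the sign of `y - x` on the range of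
`v`, then `∫ η(v) (aA+bB) > 0`, also with a positive periodic weight `E`. -/
theorem cert_integral_pos (hA : Continuous A) (hB : Continuous B)
    (perA : ∀ t, A (t + 2 * π) = A t) (perB : ∀ t, B (t + 2 * π) = B t)
    (hv : PosPer p q A B v) (hc : Cert p q A B v a b x)
    {η E : ℝ → ℝ} (hη : ContinuousOn η (range v)) (hη0 : η x = 0)
    (hη1 : ∀ y ∈ range v, y ≠ x → 0 < η y * (y - x))
    (hE : Continuous E) (hEper : ∀ t, E (t + 2 * π) = E t) (hE0 : ∀ t, 0 < E t) :
    0 < ∫ t in (0:ℝ)..(2 * π), E t * (η (v t) * (a * A t + b * B t)) := by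
  have hηc : Continuous fun t => η (v t) := by
    rw [← continuousOn_univ]
    exact hη.comp hv.sol.cont.continuousOn fun t _ => mem_range_self t
  have key : ∀ t, v t ≠ x → ∃ r : ℝ, 0 < r ∧ η (v t) = r * (v t - x) := fun t ht => by
    have h1 := hη1 (v t) (mem_range_self t) ht
    have h2 : v t - x ≠ 0 := sub_ne_zero.2 ht
    refine ⟨η (v t) * (v t - x) / (v t - x) ^ 2, div_pos h1 (by positivity), ?_⟩
    field_simp
  apply integral_pos_of_per
  · exact hE.mul (hηc.mul ((continuous_const.mul hA).add (continuous_const.mul hB)))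
  · intro t
    simp only [hEper, hv.sol.per, perA, perB]
  · intro t
    apply mul_nonneg (hE0 t).le
    by_cases h : v t = x
    · rw [h, hη0, zero_mul]
    · obtain ⟨r, hr, he⟩ := key t h
      rw [he, mul_assoc]
      exact mul_nonneg hr.le (hc.sgn t)
  · obtain ⟨t, ht⟩ := hc.strict
    refine ⟨t, mul_pos (hE0 t) ?_⟩
    have h : v t ≠ x := by
      intro h
      rw [h] at ht
      simp at ht
    obtain ⟨r, hr, he⟩ := key t h
    rw [he, mul_assoc]
    exact mul_pos hr ht

end Pool.Agent.AbelLT
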