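import Pool.Agent.Lib.MP_bb703b_an.Defs

set_option autoImplicit false

open Real Set MeasureTheory intervalIntegral

/-!
Row L1, L2 : the linear ODE trick.
-/

namespace Pool.Agent.AbelLT

/-- `gs n x y = Σ_{i<n} x^i y^(n-1-i)`. -/
noncomputable def gs (n : ℕ) (x y : ℝ) : ℝ := ∑ i ∈ Finset.range n, x ^ i * y ^ (n - 1 - i)

theorem gs_mul (n : ℕ) (x y : ℝ) : gs n x y * (x - y) = x ^ n - y ^ n :=
  (Commute.all x y).geom_sum₂_mul n

theorem gs_cont (n : ℕ) {u v : ℝ → ℝ} (hu : Continuous u) (hv : Continuous v) :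
    Continuous fun t => gs n (u t) (v t) := by
  unfold gs
  fun_prop

theorem PerSol.cont {p q : ℕ} {A B x : ℝ → ℝ} (h : PerSol p q A B x) : Continuous x :=
  continuous_iff_continuousAt.2 fun t => (h.hd t).continuousAt

/-- Solutions of `z' = m z + F`: with `μ t = exp (-∫_s^t m)`, `(μ z)' = μ F`. -/
theorem hasDerivAt_mu {m F z : ℝ → ℝ} (hm : Continuous m)
    (hz : ∀ t, HasDerivAt z (m t * z t + F t) t) (s t : ℝ) :
    HasDerivAt (fun t => exp (-∫ τ in s..t, m τ) * z t) (exp (-∫ τ in s..t, m τ) * F t) t := by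
  have h1 : HasDerivAt (fun t => ∫ τ in s..t, m τ) (m t) t :=
    intervalIntegral.integral_hasDerivAt_right (hm.intervalIntegrable _ _)
      (hm.stronglyMeasurableAtFilter _ _) hm.continuousAt
  exact ((h1.neg.exp).mul (hz t)).congr_deriv (by simp only [Pi.neg_apply]; ring)

/-- `z' = m z` implies `z t = z s * exp (∫_s^t m)`. -/
theorem linODE {m z : ℝ → ℝ} (hm : Continuous m) (hz : ∀ t, HasDerivAt z (m t * z t) t)
    (s t : ℝ) : z t = z s * exp (∫ τ in s..t, m τ) := by
  have hz' : ∀ t, HasDerivAt z (m t * z t + (fun _ => (0:ℝ)) t) t := fun t => by simpa using hz t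
  have h : ∀ t, HasDerivAt (fun t => exp (-∫ τ in s..t, m τ) * z t) 0 t := fun t => by
    simpa using hasDerivAt_mu hm hz' s t
  have hc : (fun t => exp (-∫ τ in s..t, m τ) * z t) t =
      (fun t => exp (-∫ τ in s..t, m τ) * z t) s :=
    is_const_of_deriv_eq_zero (fun t => (h t).differentiableAt) (fun t => (h t).deriv) t s
  simp only [integral_same, neg_zero, exp_zero, one_mul] at hc
  rw [← hc, mul_comm (exp _) (z t), mul_assoc, ← Real.exp_add]
  simp

/-- difference of two solutions. -/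
theorem diff_hd {p q : ℕ} {A B u v : ℝ → ℝ} (hu : PerSol p q A B u) (hv : PerSol p q A B v)
    (t : ℝ) : HasDerivAt (fun t => u t - v t)
      ((A t * gs p (u t) (v t) + B t * gs q (u t) (v t)) * (u t - v t)) t := by
  refine ((hu.hd t).sub (hv.hd t)).congr_deriv ?_
  rw [add_mul, mul_assoc, mul_assoc, gs_mul, gs_mul]
  ring

theorem lt_of_lt {p q : ℕ} {A B u v : ℝ → ℝ} (hA : Continuous A) (hB : Continuous B)
    (hu : PerSol p q A B u) (hv : PerSol p q A B v) {s : ℝ} (h : u s < v s) (t : ℝ) :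
    u t < v t := by
  have hm : Continuous fun t => A t * gs p (v t) (u t) + B t * gs q (v t) (u t) :=
    (hA.mul (gs_cont p hv.cont hu.cont)).add (hB.mul (gs_cont q hv.cont hu.cont))
  have h1 := linODE hm (fun t => diff_hd hv hu t) s t
  have h2 : 0 < (v s - u s) * exp (∫ τ in s..t,
      (A τ * gs p (v τ) (u τ) + B τ * gs q (v τ) (u τ))) :=
    mul_pos (by linarith) (exp_pos _)
  linarith

theorem eq_of_eq {p q : ℕ} {A B u v : ℝ → ℝ} (hA : Continuous A) (hB : Continuous B)
    (hu : PerSol p q A B u) (hv : PerSol p q A B v) {s : ℝ} (h : u s = v s) : u = v := by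
  funext t
  have hm : Continuous fun t => A t * gs p (v t) (u t) + B t * gs q (v t) (u t) :=
    (hA.mul (gs_cont p hv.cont hu.cont)).add (hB.mul (gs_cont q hv.cont hu.cont))
  have h1 := linODE hm (fun t => diff_hd hv hu t) s t
  rw [h, sub_self, zero_mul] at h1
  linarith

theorem zero_sol {p q : ℕ} (hp : p ≠ 0) (hq : q ≠ 0) (A B : ℝ → ℝ) :
    PerSol p q A B (fun _ => 0) := by
  refine ⟨fun t => ?_, fun t => rfl⟩
  have : A t * (0:ℝ) ^ p + B t * 0 ^ q = 0 := by rw [zero_pow hp, zero_pow hq]; ring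
  rw [this]
  exact hasDerivAt_const t (0:ℝ)

theorem pos_of_pos {p q : ℕ} (hp : p ≠ 0) (hq : q ≠ 0) {A B u : ℝ → ℝ} (hA : Continuous A)
    (hB : Continuous B) (hu : PerSol p q A B u) {s : ℝ} (h : 0 < u s) : PosPer p q A B u :=
  ⟨hu, fun t => lt_of_lt hA hB (zero_sol hp hq A B) hu h t⟩

/-- derivative of `v - x` for a constant level `x`. -/
theorem level_hd {p q : ℕ} {A B v : ℝ → ℝ} (hv : PerSol p q A B v) (x t : ℝ) :
    HasDerivAt (fun t => v t - x) ((A t * gs p (v t) x + B t * gs q (v t) x) * (v t - x) +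
      (A t * x ^ p + B t * x ^ q)) t := by
  refine ((hv.hd t).sub_const x).congr_deriv ?_
  rw [add_mul, mul_assoc, mul_assoc, gs_mul, gs_mul]
  ring

theorem level_lt {p q : ℕ} {A B v : ℝ → ℝ} (hA : Continuous A) (hB : Continuous B)
    (hv : PerSol p q A B v) {x s₁ s₂ : ℝ} (h12 : s₁ < s₂)
    (hF : ∀ s ∈ Ioo s₁ s₂, A s * x ^ p + B s * x ^ q < 0) (h1 : v s₁ ≤ x) : v s₂ < x := by
  have hm : Continuous fun t => A t * gs p (v t) x + B t * gs q (v t) x :=
    (hA.mul (gs_cont p hv.cont continuous_const)).add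
      (hB.mul (gs_cont q hv.cont continuous_const))
  have hd := hasDerivAt_mu hm (fun t => level_hd hv x t) s₁
  have hanti : StrictAntiOn (fun t => exp (-∫ τ in s₁..t,
      (A τ * gs p (v τ) x + B τ * gs q (v τ) x)) * (v t - x)) (Icc s₁ s₂) := by
    apply strictAntiOn_of_deriv_neg (convex_Icc _ _)
    · exact fun t _ => (hd t).continuousAt.continuousWithinAt
    · intro t ht
      rw [interior_Icc] at ht
      rw [(hd t).deriv]
      exact mul_neg_of_pos_of_neg (exp_pos _) (hF t ht)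
  have h := hanti (left_mem_Icc.2 h12.le) (right_mem_Icc.2 h12.le) h12
  simp only [integral_same, neg_zero, exp_zero, one_mul] at h
  have h3 : exp (-∫ τ in s₁..s₂, (A τ * gs p (v τ) x + B τ * gs q (v τ) x)) * (v s₂ - x) < 0 := by
    linarith
  have h4 := exp_pos (-∫ τ in s₁..s₂, (A τ * gs p (v τ) x + B τ * gs q (v τ) x))
  by_contra hc
  push Not at hc
  have : 0 ≤ v s₂ - x := by linarith
  nlinarith [mul_nonneg h4.le this]

theorem level_gt {p q : ℕ} {A B v : ℝ → ℝ} (hA : Continuous A) (hB : Continuous B)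
    (hv : PerSol p q A B v) {x s₁ s₂ : ℝ} (h12 : s₁ < s₂)
    (hF : ∀ s ∈ Ioo s₁ s₂, 0 < A s * x ^ p + B s * x ^ q) (h1 : x ≤ v s₁) : x < v s₂ := by
  have hm : Continuous fun t => A t * gs p (v t) x + B t * gs q (v t) x :=
    (hA.mul (gs_cont p hv.cont continuous_const)).add
      (hB.mul (gs_cont q hv.cont continuous_const))
  have hd := hasDerivAt_mu hm (fun t => level_hd hv x t) s₁
  have hanti : StrictMonoOn (fun t => exp (-∫ τ in s₁..t,
      (A τ * gs p (v τ) x + B τ * gs q (v τ) x)) * (v t - x)) (Icc s₁ s₂) := by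
    apply strictMonoOn_of_deriv_pos (convex_Icc _ _)
    · exact fun t _ => (hd t).continuousAt.continuousWithinAt
    · intro t ht
      rw [interior_Icc] at ht
      rw [(hd t).deriv]
      exact mul_pos (exp_pos _) (hF t ht)
  have h := hanti (left_mem_Icc.2 h12.le) (right_mem_Icc.2 h12.le) h12
  simp only [integral_same, neg_zero, exp_zero, one_mul] at h
  have h3 : 0 < exp (-∫ τ in s₁..s₂, (A τ * gs p (v τ) x + B τ * gs q (v τ) x)) * (v s₂ - x) := by
    linarith
  have h4 := exp_pos (-∫ τ in s₁..s₂, (A τ * gs p (v τ) x + B τ * gs q (v τ) x))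
  by_contra hc
  push Not at hc
  have : v s₂ - x ≤ 0 := by linarith
  nlinarith [mul_nonneg h4.le (neg_nonneg.2 this)]

/-- weak version: if `F_x ≥ 0` on `[s₁,s₂]` and `v = x` at both ends then `F_x = 0` inside. -/
theorem level_eq {p q : ℕ} {A B v : ℝ → ℝ} (hA : Continuous A) (hB : Continuous B)
    (hv : PerSol p q A B v) {x s₁ s₂ : ℝ} (h12 : s₁ < s₂)
    (hF : ∀ s ∈ Icc s₁ s₂, 0 ≤ A s * x ^ p + B s * x ^ q) (h1 : v s₁ = x) (h2 : v s₂ = x) :
    ∀ s ∈ Ioo s₁ s₂, A s * x ^ p + B s * x ^ q = 0 := by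
  have hm : Continuous fun t => A t * gs p (v t) x + B t * gs q (v t) x :=
    (hA.mul (gs_cont p hv.cont continuous_const)).add
      (hB.mul (gs_cont q hv.cont continuous_const))
  have hd := hasDerivAt_mu hm (fun t => level_hd hv x t) s₁
  set f : ℝ → ℝ := fun t => exp (-∫ τ in s₁..t,
      (A τ * gs p (v τ) x + B τ * gs q (v τ) x)) * (v t - x) with hf
  have hmono : MonotoneOn f (Icc s₁ s₂) := by
    apply monotoneOn_of_deriv_nonneg (convex_Icc _ _)
    · exact fun t _ => (hd t).continuousAt.continuousWithinAt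
    · exact fun t _ => (hd t).differentiableAt.differentiableWithinAt
    · intro t ht
      rw [(hd t).deriv]
      exact mul_nonneg (exp_pos _).le (hF t (interior_subset ht))
  have e1 : f s₁ = 0 := by simp [hf, h1]
  have e2 : f s₂ = 0 := by simp [hf, h2]
  have hz : ∀ t ∈ Icc s₁ s₂, f t = 0 := fun t ht => le_antisymm
    (e2 ▸ hmono ht (right_mem_Icc.2 h12.le) ht.2) (e1 ▸ hmono (left_mem_Icc.2 h12.le) ht ht.1)
  intro s hs
  have hev : f =ᶠ[nhds s] fun _ => 0 :=
    Filter.eventually_of_mem (Icc_mem_nhds hs.1 hs.2) hz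
  have h0 : HasDerivAt f 0 s := (hasDerivAt_const s (0:ℝ)).congr_of_eventuallyEq hev
  have := (hd s).unique h0
  rcases mul_eq_zero.1 this with h | h
  · exact absurd h (exp_pos _).ne'
  · exact h

/-- weak version, other sign. -/
theorem level_eq' {p q : ℕ} {A B v : ℝ → ℝ} (hA : Continuous A) (hB : Continuous B)
    (hv : PerSol p q A B v) {x s₁ s₂ : ℝ} (h12 : s₁ < s₂)
    (hF : ∀ s ∈ Icc s₁ s₂, A s * x ^ p + B s * x ^ q ≤ 0) (h1 : v s₁ = x) (h2 : v s₂ = x) :
    ∀ s ∈ Ioo s₁ s₂, A s * x ^ p + B s * x ^ q = 0 := by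
  have hm : Continuous fun t => A t * gs p (v t) x + B t * gs q (v t) x :=
    (hA.mul (gs_cont p hv.cont continuous_const)).add
      (hB.mul (gs_cont q hv.cont continuous_const))
  have hd := hasDerivAt_mu hm (fun t => level_hd hv x t) s₁
  set f : ℝ → ℝ := fun t => exp (-∫ τ in s₁..t,
      (A τ * gs p (v τ) x + B τ * gs q (v τ) x)) * (v t - x) with hf
  have hmono : AntitoneOn f (Icc s₁ s₂) := by
    apply antitoneOn_of_deriv_nonpos (convex_Icc _ _)
    · exact fun t _ => (hd t).continuousAt.continuousWithinAt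
    · exact fun t _ => (hd t).differentiableAt.differentiableWithinAt
    · intro t ht
      rw [(hd t).deriv]
      exact mul_nonpos_of_nonneg_of_nonpos (exp_pos _).le (hF t (interior_subset ht))
  have e1 : f s₁ = 0 := by simp [hf, h1]
  have e2 : f s₂ = 0 := by simp [hf, h2]
  have hz : ∀ t ∈ Icc s₁ s₂, f t = 0 := fun t ht => le_antisymm
    (e1 ▸ hmono (left_mem_Icc.2 h12.le) ht ht.1) (e2 ▸ hmono ht (right_mem_Icc.2 h12.le) ht.2)
  intro s hs
  have hev : f =ᶠ[nhds s] fun _ => 0 :=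
    Filter.eventually_of_mem (Icc_mem_nhds hs.1 hs.2) hz
  have h0 : HasDerivAt f 0 s := (hasDerivAt_const s (0:ℝ)).congr_of_eventuallyEq hev
  have := (hd s).unique h0
  rcases mul_eq_zero.1 this with h | h
  · exact absurd h (exp_pos _).ne'
  · exact h

end Pool.Agent.AbelLT
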