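import Pool.Agent.Lib.MP_bb703b_an.Upper
import Pool.Agent.Lib.MP_bb703b_an.ExMain

set_option autoImplicit false

open Real Set MeasureTheory intervalIntegral

/-!
The lower bound.  `A = tg (ε a) 1 0`, `B = tg (ε b) 0 (ε c)` with `c = -1`, `b = -r`,
`a = l (p-1)^g/(2π)`, `g = (p-q)/(p-1)`.
-/

namespace Pool.Agent.AbelLT

variable {p q : ℕ}

theorem NN_lt_top (p q : ℕ) : NN p q < ⊤ := by
  unfold NN
  split_ifs
  · exact ENat.natCast_lt_top 4
  · exact ENat.natCast_lt_top 3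
  · exact ENat.natCast_lt_top 5

theorem lower (hq : 2 ≤ q) (hpq : q < p) :
    ∃ a0 a1 a2 b0 b1 b2 : ℝ, NN p q ≤ (limCyc p q (tg a0 a1 a2) (tg b0 b1 b2)).encard := by
  obtain ⟨a0, a1, a2, b0, b1, b2, hdet, h2, h1⟩ := example_exists hq hpq
  refine ⟨a0, a1, a2, b0, b1, b2, ?_⟩
  have hc := count_det (a0 := a0) (b0 := b0) hq hpq hdet
  rw [limCyc_eq_of_finite (encard_lt_top_iff.1 (hc.trans_lt (NN_lt_top p q))),
    per_eq (by omega) (by omega) (tg_cont _ _ _) (tg_cont _ _ _)]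
  unfold NN
  by_cases hpe : Even p
  · rw [if_pos hpe]
    calc (4 : ℕ∞) = 2 + 1 + 1 := by norm_num
      _ ≤ _ := add_le_add (add_le_add h2 le_rfl) (h1 hpe)
  · rw [if_neg hpe]
    by_cases hqe : Even q
    · rw [if_pos hqe]
      calc (3 : ℕ∞) = 2 + 1 + 0 := by norm_num
        _ ≤ _ := add_le_add (add_le_add h2 le_rfl) bot_le
    · rw [if_neg hqe]
      have e1 : ((-1 : ℝ)) ^ (p - 1) = 1 :=
        Even.neg_one_pow (Nat.Odd.sub_odd (Nat.not_even_iff_odd.1 hpe) odd_one)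
      have e2 : ((-1 : ℝ)) ^ (q - 1) = 1 :=
        Even.neg_one_pow (Nat.Odd.sub_odd (Nat.not_even_iff_odd.1 hqe) odd_one)
      simp only [e1, e2, one_mul]
      calc (5 : ℕ∞) = 2 + 1 + 2 := by norm_num
        _ ≤ _ := add_le_add (add_le_add h2 le_rfl) h2

end Pool.Agent.AbelLT
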