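import Pool.Agent.Lib.MP_bb703b_an.I01
import Pool.Agent.Lib.MP_bb703b_an.ExDefs

set_option autoImplicit false

open Real Set MeasureTheory intervalIntegral

namespace Pool.Agent.AbelLT

variable {p q : ℕ}

/-- `Mel p q a b c C = 2π a + (p-1)^g (b I0 + c I1)`. -/
theorem Mel_eq (hq : 2 ≤ q) (hpq : q < p) (a b c C : ℝ) (hC : 1 < C) :
    Mel p q a b c C = 2 * π * a + ((p : ℝ) - 1) ^ (((p : ℝ) - q) / ((p : ℝ) - 1)) *
      (b * I0 (((p : ℝ) - q) / ((p : ℝ) - 1)) C + c * I1 (((p : ℝ) - q) / ((p : ℝ) - 1)) C) := by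
  unfold Mel I0 I1
  set g : ℝ := ((p : ℝ) - q) / ((p : ℝ) - 1) with hg
  have hp : (3:ℝ) ≤ p := by exact_mod_cast (by omega : 3 ≤ p)
  have hp1 : (0:ℝ) ≤ (p : ℝ) - 1 := by linarith
  have hpos : ∀ t, 0 < C + cos t := fun t => by linarith [neg_one_le_cos t]
  have hc0 : Continuous fun t => (C + cos t) ^ g :=
    (continuous_const.add continuous_cos).rpow_const fun t => Or.inl (hpos t).ne'
  have hc1 : Continuous fun t => cos t * (C + cos t) ^ g := continuous_cos.mul hc0
  have e : ∀ t, a + (b + c * cos t) * (((p : ℝ) - 1) * (C + cos t)) ^ g =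
      a + (((p : ℝ) - 1) ^ g * b) * (C + cos t) ^ g +
        (((p : ℝ) - 1) ^ g * c) * (cos t * (C + cos t) ^ g) := by
    intro t
    rw [mul_rpow hp1 (hpos t).le]
    ring
  simp only [e]
  rw [intervalIntegral.integral_add, intervalIntegral.integral_add,
    intervalIntegral.integral_const_mul, intervalIntegral.integral_const_mul,
    intervalIntegral.integral_const, smul_eq_mul]
  · ring
  · exact continuous_const.intervalIntegrable _ _
  · exact (continuous_const.mul hc0).intervalIntegrable _ _
  · exact (continuous_const.add (continuous_const.mul hc0)).intervalIntegrable _ _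
  · exact (continuous_const.mul hc1).intervalIntegrable _ _

end Pool.Agent.AbelLT
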