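import Pool.Agent.Lib.MP_bb703b_an.Lin
import Pool.Agent.Lib.MP_bb703b_an.Trig

set_option autoImplicit false

open Real Set

/-!
Row REFL: time reversal, reflection `x ↦ -x`, time shift, and the structure of `perInit`.
-/

namespace Pool.Agent.AbelLT

variable {p q : ℕ} {A B v x : ℝ → ℝ}

/-- time reversal -/
theorem PosPer.rev (hv : PosPer p q A B v) :
    PosPer p q (fun t => -A (-t)) (fun t => -B (-t)) (fun t => v (-t)) := by
  refine ⟨⟨fun t => ?_, fun t => ?_⟩, fun t => hv.pos _⟩
  · exact ((hv.sol.hd (-t)).comp t (hasDerivAt_neg t)).congr_deriv (by ring)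
  · have := hv.sol.per (-t - 2 * π)
    rw [sub_add_cancel] at this
    rw [this]
    congr 1
    ring

/-- time shift -/
theorem PosPer.shift (hv : PosPer p q A B v) (s : ℝ) :
    PosPer p q (fun t => A (t + s)) (fun t => B (t + s)) (fun t => v (t + s)) := by
  refine ⟨⟨fun t => ?_, fun t => ?_⟩, fun t => hv.pos _⟩
  · exact (hv.sol.hd (t + s)).comp_add_const t s
  · rw [← hv.sol.per (t + s)]
    congr 1
    ring

/-- reflection `x ↦ -x`: `p ≥ 1`, `q ≥ 1`. -/
theorem PerSol.negate (hp : p ≠ 0) (hq : q ≠ 0) (hx : PerSol p q A B x) :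
    PerSol p q (fun t => (-1) ^ (p - 1) * A t) (fun t => (-1) ^ (q - 1) * B t)
      (fun t => -x t) := by
  have key : ∀ n : ℕ, n ≠ 0 → ∀ y : ℝ, (-1 : ℝ) ^ (n - 1) * (-y) ^ n = -y ^ n := by
    intro n hn y
    obtain ⟨m, rfl⟩ := Nat.exists_eq_succ_of_ne_zero hn
    rw [Nat.succ_sub_one, neg_pow y, Nat.succ_eq_add_one, pow_succ (-1 : ℝ) m]
    have : (-1 : ℝ) ^ m * (-1) ^ m = 1 := by rw [← mul_pow]; simp
    linear_combination (-y ^ (m + 1)) * this
  refine ⟨fun t => ?_, fun t => by simp only [hx.per]⟩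
  refine (hx.hd t).neg.congr_deriv ?_
  have e1 := key p hp (x t)
  have e2 := key q hq (x t)
  linear_combination (-A t) * e1 - (B t) * e2

/-- all periodic solutions: zero, positive ones, negatives of positive ones of the reflected
equation. -/
theorem perInit_eq (hp : p ≠ 0) (hq : q ≠ 0) (hA : Continuous A) (hB : Continuous B) :
    perInit p q A B = posInit p q A B ∪ {0} ∪
      (fun c => -c) '' posInit p q (fun t => (-1) ^ (p - 1) * A t)
        (fun t => (-1) ^ (q - 1) * B t) := by
  have hA' : Continuous fun t => (-1 : ℝ) ^ (p - 1) * A t := continuous_const.mul hA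
  have hB' : Continuous fun t => (-1 : ℝ) ^ (q - 1) * B t := continuous_const.mul hB
  ext c
  constructor
  · rintro ⟨x, hx, rfl⟩
    rcases lt_trichotomy (x 0) 0 with h | h | h
    · right
      have hn := hx.negate hp hq
      refine ⟨-x 0, ⟨fun t => -x t, pos_of_pos hp hq hA' hB' hn (s := 0) (by linarith), rfl⟩, ?_⟩
      simp
    · left; right
      exact h
    · left; left
      exact ⟨x, pos_of_pos hp hq hA hB hx h, rfl⟩
  · rintro ((⟨x, hx, rfl⟩ | h) | ⟨d, ⟨x, hx, rfl⟩, rfl⟩)
    · exact ⟨x, hx.sol, rfl⟩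
    · rw [mem_singleton_iff] at h
      rw [h]
      exact ⟨fun _ => 0, zero_sol hp hq A B, rfl⟩
    · have hn := hx.sol.negate hp hq
      have e1 : (fun t => (-1 : ℝ) ^ (p - 1) * ((-1) ^ (p - 1) * A t)) = A := by
        funext t
        rw [← mul_assoc, ← mul_pow]
        simp
      have e2 : (fun t => (-1 : ℝ) ^ (q - 1) * ((-1) ^ (q - 1) * B t)) = B := by
        funext t
        rw [← mul_assoc, ← mul_pow]
        simp
      rw [e1, e2] at hn
      exact ⟨_, hn, rfl⟩

theorem rev_tg (a b c : ℝ) : (fun t => -tg a b c (-t)) = tg (-a) b (-c) := by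
  funext t; simp [tg]; ring

theorem smul_tg (k a b c : ℝ) : (fun t => k * tg a b c t) = tg (k * a) (k * b) (k * c) := by
  funext t; simp [tg]; ring

end Pool.Agent.AbelLT
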