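import Pool.Agent.Lib.MP_bb703b_an.Super0

set_option autoImplicit false

open Real Set MeasureTheory intervalIntegral

/-!
Row SUP2 (H_value).  `L = 0` and `J = ∫ E A v^(p+q-2) < 0`:
`w = v + ε η + ε² η (H + d t)`, `η = v^q E`, `H t = ∫_0^t f_xx(v)/2 * η`,
`f_xx(v) = p(p-1) A v^(p-2) + q(q-1) B v^(q-2)`.
* `H(2π) = (p-1)(p-q)/2 * J < 0`: `(E v^(q-1))' = E ((p-1) A v^(p+q-2) + (q-1) B v^(2q-2))`
  has zero integral because `E(2π) = 1 = E(0)`.
* `w' - f(t,w) = ε² η d + (terms O(ε³))` with `k = w - v = ε η (1 + ε (H + d t))`: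
  `w' - f(t,v+k) = f_x k + ε² η (f_xx η/2 + d) - (f_x k + f_xx k²/2 + R₃)`.
* `w(2π) - w(0) = ε² v(0)^q (H(2π) + 2π d) < 0` for `0 < d` small.
-/

namespace Pool.Agent.AbelLT

variable {p q : ℕ} {A B v : ℝ → ℝ}

theorem H_value (hq : 2 ≤ q) (hpq : q < p) (hA : Continuous A) (hB : Continuous B)
    (hv : PosPer p q A B v) (hL : (∫ t in (0:ℝ)..(2 * π), A t * v t ^ (p - 1)) = 0) :
    (∫ t in (0:ℝ)..(2 * π), (p * (p - 1 : ℕ) * (A t * v t ^ (p - 2)) +
      q * (q - 1 : ℕ) * (B t * v t ^ (q - 2))) / 2 * (v t ^ q * expo p q A v t)) =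
    (p - 1 : ℕ) * (p - q : ℕ) / 2 *
      ∫ t in (0:ℝ)..(2 * π), expo p q A v t * (A t * v t ^ (p + q - 2)) := by
  have hvc : Continuous v := hv.sol.cont
  have hE : ∀ t, HasDerivAt (expo p q A v)
      (expo p q A v t * ((p - q : ℕ) * (A t * v t ^ (p - 1)))) t := expo_hd hA hvc
  have hEc : Continuous (expo p q A v) :=
    continuous_iff_continuousAt.2 (fun t => (hE t).continuousAt)
  have hD : ∀ t, HasDerivAt (fun t => expo p q A v t * v t ^ (q - 1))
      (expo p q A v t * ((p - q : ℕ) * (A t * v t ^ (p - 1))) * v t ^ (q - 1) +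
        expo p q A v t * ((q - 1 : ℕ) * v t ^ (q - 1 - 1) * (A t * v t ^ p + B t * v t ^ q))) t := by
    intro t
    exact (hE t).mul ((hv.sol.hd t).pow (q - 1))
  have hDc : Continuous (fun t => expo p q A v t * ((p - q : ℕ) * (A t * v t ^ (p - 1))) *
      v t ^ (q - 1) + expo p q A v t * ((q - 1 : ℕ) * v t ^ (q - 1 - 1) *
        (A t * v t ^ p + B t * v t ^ q))) := by
    fun_prop
  have h0 : expo p q A v 0 = 1 := by
    unfold expo
    rw [intervalIntegral.integral_same, mul_zero, Real.exp_zero]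
  have h1 : expo p q A v (2 * π) = 1 := by
    unfold expo
    rw [hL, mul_zero, Real.exp_zero]
  have hper : v (2 * π) = v 0 := by
    have := hv.sol.per 0
    rwa [zero_add] at this
  have hint : ∫ t in (0:ℝ)..(2 * π), (expo p q A v t * ((p - q : ℕ) * (A t * v t ^ (p - 1))) *
      v t ^ (q - 1) + expo p q A v t * ((q - 1 : ℕ) * v t ^ (q - 1 - 1) *
        (A t * v t ^ p + B t * v t ^ q))) = 0 := by
    rw [intervalIntegral.integral_eq_sub_of_hasDerivAt (fun t _ => hD t)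
      (hDc.intervalIntegrable _ _), h0, h1, hper, sub_self]
  have hpt : ∀ t, (p * (p - 1 : ℕ) * (A t * v t ^ (p - 2)) +
      q * (q - 1 : ℕ) * (B t * v t ^ (q - 2))) / 2 * (v t ^ q * expo p q A v t) =
      ((p - 1 : ℕ) * (p - q : ℕ) / 2 : ℝ) * (expo p q A v t * (A t * v t ^ (p + q - 2))) +
      (q / 2 : ℝ) * (expo p q A v t * ((p - q : ℕ) * (A t * v t ^ (p - 1))) *
      v t ^ (q - 1) + expo p q A v t * ((q - 1 : ℕ) * v t ^ (q - 1 - 1) *
        (A t * v t ^ p + B t * v t ^ q))) := by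
    intro t
    generalize expo p q A v t = E
    obtain ⟨m, rfl⟩ := Nat.exists_eq_add_of_le hq
    obtain ⟨r, rfl⟩ := Nat.exists_eq_add_of_lt hpq
    have e1 : 2 + m + r + 1 - 1 = m + r + 2 := by omega
    have e2 : 2 + m + r + 1 - 2 = m + r + 1 := by omega
    have e3 : 2 + m - 1 = m + 1 := by omega
    have e4 : 2 + m - 2 = m := by omega
    have e5 : 2 + m + r + 1 - (2 + m) = r + 1 := by omega
    have e6 : 2 + m + r + 1 + (2 + m) - 2 = 2 * m + r + 3 := by omega
    have e7 : m + 1 - 1 = m := by omega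
    rw [e1, e2, e3, e4, e5, e6, e7]
    push_cast
    ring
  have hc1 : Continuous (fun t => ((p - 1 : ℕ) * (p - q : ℕ) / 2 : ℝ) *
      (expo p q A v t * (A t * v t ^ (p + q - 2)))) := by fun_prop
  have hc2 : Continuous (fun t => (q / 2 : ℝ) * (expo p q A v t * ((p - q : ℕ) *
      (A t * v t ^ (p - 1))) * v t ^ (q - 1) + expo p q A v t * ((q - 1 : ℕ) * v t ^ (q - 1 - 1) *
        (A t * v t ^ p + B t * v t ^ q)))) := continuous_const.mul hDc
  rw [intervalIntegral.integral_congr (fun t _ => hpt t),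
    intervalIntegral.integral_add (hc1.intervalIntegrable _ _) (hc2.intervalIntegrable _ _),
    intervalIntegral.integral_const_mul, intervalIntegral.integral_const_mul, hint, mul_zero,
    add_zero]

end Pool.Agent.AbelLT
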