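import Pool.Agent.Lib.MP_bb703b_an.Tri

set_option autoImplicit false

open Real Set

/-!
Linear trigonometric functions of a parameter `θ`, where `θ` is an increasing homeomorphism of the
line with `θ (t + 2π) = θ t + 2π`.
-/

namespace Pool.Agent.AbelLT

/-- `a + b sin (θ t) + c cos (θ t)`. -/
noncomputable def tc (θ : ℝ ≃o ℝ) (a b c : ℝ) (t : ℝ) : ℝ := tg a b c (θ t)

theorem tc_cont (θ : ℝ ≃o ℝ) (a b c : ℝ) : Continuous (tc θ a b c) :=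
  (tg_cont a b c).comp θ.continuous

theorem tc_per {θ : ℝ ≃o ℝ} (hθ : ∀ t, θ (t + 2 * π) = θ t + 2 * π) (a b c t : ℝ) :
    tc θ a b c (t + 2 * π) = tc θ a b c t := by
  unfold tc
  rw [hθ, tg_per]

theorem symm_per {θ : ℝ ≃o ℝ} (hθ : ∀ t, θ (t + 2 * π) = θ t + 2 * π) (t : ℝ) :
    θ.symm (t + 2 * π) = θ.symm t + 2 * π := by
  rw [OrderIso.symm_apply_eq, hθ, θ.apply_symm_apply]

theorem tc_four {θ : ℝ ≃o ℝ} (hθ : ∀ t, θ (t + 2 * π) = θ t + 2 * π) {a b c s₁ s₂ s₃ s₄ : ℝ}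
    (h12 : s₁ < s₂) (h23 : s₂ < s₃) (h34 : s₃ < s₄)
    (h41 : s₄ < s₁ + 2 * π) (f1 : 0 < tc θ a b c s₁) (f2 : tc θ a b c s₂ ≤ 0)
    (f3 : 0 ≤ tc θ a b c s₃) (f4 : tc θ a b c s₄ < 0) : False := by
  refine tg_four (θ.lt_iff_lt.2 h12) (θ.lt_iff_lt.2 h23) (θ.lt_iff_lt.2 h34) ?_ f1 f2 f3 f4
  rw [← hθ]
  exact θ.lt_iff_lt.2 h41

/-- the antipode map -/
noncomputable def io (θ : ℝ ≃o ℝ) (a0 a1 a2 b0 b1 b2 t : ℝ) : ℝ :=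
  θ.symm (iota a0 a1 a2 b0 b1 b2 (θ t))

variable {θ : ℝ ≃o ℝ} {a0 a1 a2 b0 b1 b2 : ℝ}

theorem io_cont (hW : ∀ t, 0 < wr a0 a1 a2 b0 b1 b2 t) :
    Continuous (io θ a0 a1 a2 b0 b1 b2) :=
  θ.symm.continuous.comp ((iota_cont hW).comp θ.continuous)

theorem lt_io (θ : ℝ ≃o ℝ) (a0 a1 a2 b0 b1 b2 t : ℝ) : t < io θ a0 a1 a2 b0 b1 b2 t := by
  unfold io
  rw [OrderIso.lt_symm_apply]
  exact lt_iota _ _ _ _ _ _ _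

theorem io_lt (hθ : ∀ t, θ (t + 2 * π) = θ t + 2 * π) (a0 a1 a2 b0 b1 b2 t : ℝ) :
    io θ a0 a1 a2 b0 b1 b2 t < t + 2 * π := by
  unfold io
  rw [OrderIso.symm_apply_lt, hθ]
  exact iota_lt _ _ _ _ _ _ _

theorem tG_neg {t s : ℝ} (hW : ∀ t, 0 < wr a0 a1 a2 b0 b1 b2 t)
    (h1 : t < s) (h2 : s < io θ a0 a1 a2 b0 b1 b2 t) :
    tc θ a0 a1 a2 s * tc θ b0 b1 b2 t - tc θ a0 a1 a2 t * tc θ b0 b1 b2 s < 0 :=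
  G_neg (hW (θ t)) (θ.lt_iff_lt.2 h1) (OrderIso.lt_symm_apply θ |>.1 h2)

theorem tG_pos (hθ : ∀ t, θ (t + 2 * π) = θ t + 2 * π) {t s : ℝ}
    (hW : ∀ t, 0 < wr a0 a1 a2 b0 b1 b2 t)
    (h1 : io θ a0 a1 a2 b0 b1 b2 t < s) (h2 : s < t + 2 * π) :
    0 < tc θ a0 a1 a2 s * tc θ b0 b1 b2 t - tc θ a0 a1 a2 t * tc θ b0 b1 b2 s :=
  G_pos (hW (θ t)) (OrderIso.symm_apply_lt θ |>.1 h1) (by rw [← hθ]; exact θ.lt_iff_lt.2 h2)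

theorem io_anti (hW : ∀ t, 0 < wr a0 a1 a2 b0 b1 b2 t) (t : ℝ) :
    ∃ k < 0, tc θ a0 a1 a2 (io θ a0 a1 a2 b0 b1 b2 t) = k * tc θ a0 a1 a2 t ∧
      tc θ b0 b1 b2 (io θ a0 a1 a2 b0 b1 b2 t) = k * tc θ b0 b1 b2 t := by
  obtain ⟨k, hk, h1, h2⟩ := iota_anti hW (θ t)
  refine ⟨k, hk, ?_, ?_⟩
  · unfold tc io
    rw [θ.apply_symm_apply]
    exact h1
  · unfold tc io
    rw [θ.apply_symm_apply]
    exact h2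

/-- `det < 0`: either the Wronskian is positive everywhere or a combination is one-signed. -/
theorem tri_tc (θ : ℝ ≃o ℝ) (hdet : a1 * b2 - a2 * b1 < 0) :
    (∀ t, 0 < wr a0 a1 a2 b0 b1 b2 t) ∨
      ∃ a b : ℝ, (∀ t, 0 ≤ a * tc θ a0 a1 a2 t + b * tc θ b0 b1 b2 t) ∧
        ∃ t, a * tc θ a0 a1 a2 t + b * tc θ b0 b1 b2 t ≠ 0 := by
  rcases tri_neg (a0 := a0) (b0 := b0) hdet with h | ⟨a, b, h0, t, ht⟩
  · exact Or.inl h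
  · refine Or.inr ⟨a, b, fun t => h0 _, θ.symm t, ?_⟩
    unfold tc
    rw [θ.apply_symm_apply]
    exact ht

end Pool.Agent.AbelLT
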