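import Pool.Agent.Lib.MP_bb703b_an.TZ9
import Pool.Agent.Lib.MP_bb703b_an.Lower

set_option autoImplicit false

open Real Set MeasureTheory intervalIntegral

/-!
Linear trigonometric functions have at most two zeros; pairs with a one-signed combination: at most
three limit cycles, at most two if `p - q` is odd; the example `x' = x^q - x^p`.
-/

namespace Pool.Agent.AbelLT

variable {p q : ℕ} {A B : ℝ → ℝ}

/-- three zeros of `tg a b c` in a period: `a = b = c = 0`. -/
theorem tg_three {a b c x y z : ℝ} (h1 : x < y) (h2 : y < z) (h3 : z < x + 2 * π)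
    (f1 : tg a b c x = 0) (f2 : tg a b c y = 0) (f3 : tg a b c z = 0) (t : ℝ) :
    tg a b c t = 0 := by
  have hD := D_pos h1 h2 h3
  have e1 : (sin (y - x) + sin (z - y) - sin (z - x)) * tg a b c t =
      tg a b c x * (sin (y - t) + sin (z - y) - sin (z - t)) +
      tg a b c y * (sin (t - x) + sin (z - t) - sin (z - x)) +
      tg a b c z * (sin (y - x) + sin (t - y) - sin (t - x)) := by
    unfold tg
    simp only [sin_sub]
    ring
  rw [f1, f2, f3] at e1
  have : (sin (y - x) + sin (z - y) - sin (z - x)) * tg a b c t = 0 := by rw [e1]; ring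
  exact (mul_eq_zero.1 this).resolve_left hD.ne'

theorem tg_encard (a b c : ℝ) :
    (∀ t, tg a b c t = 0) ∨ {t ∈ Ico 0 (2 * π) | tg a b c t = 0}.encard ≤ 2 := by
  by_cases h : ∀ t, tg a b c t = 0
  · exact Or.inl h
  · refine Or.inr (encard_le_two_of ?_)
    rintro x ⟨hx, fx⟩ y ⟨hy, fy⟩ z ⟨hz, fz⟩ h1 h2
    exact h (tg_three h1 h2 (by linarith [hx.1, hz.2]) fx fy fz)

theorem tg_comb (a b a0 a1 a2 b0 b1 b2 t : ℝ) : a * tg a0 a1 a2 t + b * tg b0 b1 b2 t =
    tg (a * a0 + b * b0) (a * a1 + b * b1) (a * a2 + b * b2) t := by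
  unfold tg; ring

/-- the maximal number of limit cycles for pairs with a one-signed combination -/
def MM (p q : ℕ) : ℕ∞ := if Even (p - q) then 3 else 2

/-- a nontrivial one-signed combination, `p - q` odd: at most one nonzero periodic solution -/
theorem count_one_odd (hq : 2 ≤ q) (hpq : q < p) (hodd : ¬ Even (p - q)) (hA : CP A) (hB : CP B)
    {a b : ℝ} (h0 : ∀ t, 0 ≤ a * A t + b * B t) (h1 : ∃ t, a * A t + b * B t ≠ 0) :
    (perInit p q A B).encard ≤ 2 := by
  rw [per_eq (by omega) (by omega) hA.cont hB.cont]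
  have P1 := pos_le_one' hq hpq hA.cont hB.cont hA.per hB.per h0 h1
  have hs : ∀ n : ℕ, ((-1 : ℝ)) ^ n * (-1) ^ n = 1 := fun n => by
    rw [← mul_pow]; simp
  have e : ∀ t, (((-1 : ℝ)) ^ (p - 1) * a) * ((-1) ^ (p - 1) * A t) +
      (((-1 : ℝ)) ^ (q - 1) * b) * ((-1) ^ (q - 1) * B t) = a * A t + b * B t := fun t => by
    linear_combination (a * A t) * hs (p - 1) + (b * B t) * hs (q - 1)
  have h0' : ∀ t, 0 ≤ (((-1 : ℝ)) ^ (p - 1) * a) * ((-1) ^ (p - 1) * A t) +
      (((-1 : ℝ)) ^ (q - 1) * b) * ((-1) ^ (q - 1) * B t) := fun t => by rw [e]; exact h0 t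
  have h1' : ∃ t, (((-1 : ℝ)) ^ (p - 1) * a) * ((-1) ^ (p - 1) * A t) +
      (((-1 : ℝ)) ^ (q - 1) * b) * ((-1) ^ (q - 1) * B t) ≠ 0 := by
    obtain ⟨t, ht⟩ := h1
    exact ⟨t, by rw [e]; exact ht⟩
  have cA : Continuous fun t => (-1 : ℝ) ^ (p - 1) * A t := continuous_const.mul hA.cont
  have cB : Continuous fun t => (-1 : ℝ) ^ (q - 1) * B t := continuous_const.mul hB.cont
  have pA : ∀ t, (-1 : ℝ) ^ (p - 1) * A (t + 2 * π) = (-1 : ℝ) ^ (p - 1) * A t := fun t => by
    rw [hA.per]
  have pB : ∀ t, (-1 : ℝ) ^ (q - 1) * B (t + 2 * π) = (-1 : ℝ) ^ (q - 1) * B t := fun t => by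
    rw [hB.per]
  have P1' := pos_le_one' hq hpq cA cB pA pB h0' h1'
  by_cases hz : (posInit p q A B).encard ≤ 0
  · calc _ ≤ (0 : ℕ∞) + 1 + 1 := add_le_add (add_le_add hz le_rfl) P1'
      _ = 2 := by norm_num
  · have hne : (posInit p q A B).Nonempty := by
      by_contra hc
      rw [not_nonempty_iff_eq_empty] at hc
      exact hz (by rw [hc, encard_empty])
    obtain ⟨_, u, hu, rfl⟩ := hne
    have s1 := one_signs hq hpq hA.cont hB.cont hA.per hB.per hu h0 h1
    have Q0 : (posInit p q (fun t => (-1) ^ (p - 1) * A t) (fun t => (-1) ^ (q - 1) * B t)).encard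
        ≤ 0 := by
      rw [nonpos_iff_eq_zero, encard_eq_zero, eq_empty_iff_forall_notMem]
      rintro _ ⟨w, hw, rfl⟩
      have s2 := one_signs hq hpq cA cB pA pB hw h0' h1'
      rw [intervalIntegral.integral_const_mul, intervalIntegral.integral_const_mul] at s2
      have e3 : ((-1 : ℝ)) ^ (p - 1) * (-1) ^ (q - 1) = -1 := by
        rw [← pow_add]
        apply Odd.neg_one_pow
        have h4 : Odd (p - q) := Nat.not_even_iff_odd.1 hodd
        have h5 : p - 1 + (q - 1) = (p - q) + 2 * (q - 1) := by omega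
        rw [h5]
        exact h4.add_even (even_two_mul _)
      have e4 : ((-1 : ℝ)) ^ (p - 1) * (∫ t in (0:ℝ)..(2 * π), A t) *
          ((-1 : ℝ) ^ (q - 1) * ∫ t in (0:ℝ)..(2 * π), B t) =
          (((-1 : ℝ)) ^ (p - 1) * (-1) ^ (q - 1)) *
          ((∫ t in (0:ℝ)..(2 * π), A t) * ∫ t in (0:ℝ)..(2 * π), B t) := by ring
      rw [e4, e3] at s2
      linarith
    calc _ ≤ (1 : ℕ∞) + 1 + 0 := add_le_add (add_le_add P1 le_rfl) Q0
      _ = 2 := by norm_num

/-- the roots of `α y^p + β y^q`, `p - q` odd -/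
theorem dep_roots_odd (hpq : q < p) (hodd : ¬ Even (p - q)) {α β : ℝ} (hαβ : α ≠ 0 ∨ β ≠ 0) :
    {y : ℝ | α * y ^ p + β * y ^ q = 0}.encard ≤ 2 := by
  have hodd' : Odd (p - q) := Nat.not_even_iff_odd.1 hodd
  have hfac : ∀ y : ℝ, α * y ^ p + β * y ^ q = y ^ q * (α * y ^ (p - q) + β) := by
    intro y
    have : y ^ p = y ^ q * y ^ (p - q) := by rw [← pow_add, Nat.add_sub_cancel' hpq.le]
    rw [this]
    ring
  have hnz : ∀ y : ℝ, y ≠ 0 → α * y ^ p + β * y ^ q = 0 → α * y ^ (p - q) + β = 0 := by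
    intro y hy h
    rw [hfac] at h
    exact (mul_eq_zero.1 h).resolve_left (pow_ne_zero _ hy)
  have huniq : ∀ y z : ℝ, y ≠ 0 → z ≠ 0 → α * y ^ p + β * y ^ q = 0 →
      α * z ^ p + β * z ^ q = 0 → y = z := by
    intro y z hy hz h1 h2
    have g1 := hnz y hy h1
    have g2 := hnz z hz h2
    have hα : α ≠ 0 := by
      rintro rfl
      rcases hαβ with h | h
      · exact h rfl
      · rw [zero_mul, zero_add] at g1
        exact h g1
    have h3 : y ^ (p - q) = z ^ (p - q) := mul_left_cancel₀ hα (by linarith)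
    exact hodd'.strictMono_pow.injective h3
  by_cases hex : ∃ r : ℝ, r ≠ 0 ∧ α * r ^ p + β * r ^ q = 0
  · obtain ⟨r, hr0, hr⟩ := hex
    have hsub : {y : ℝ | α * y ^ p + β * y ^ q = 0} ⊆ {0, r} := by
      intro y hy
      by_cases hy0 : y = 0
      · exact Or.inl hy0
      · exact Or.inr (huniq y r hy0 hr0 hy hr)
    refine (encard_le_encard hsub).trans ((encard_insert_le _ _).trans ?_)
    rw [encard_singleton]
    norm_num
  · have hsub : {y : ℝ | α * y ^ p + β * y ^ q = 0} ⊆ {0} := by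
      intro y hy
      by_contra hy0
      exact hex ⟨y, hy0, hy⟩
    refine (encard_le_encard hsub).trans ?_
    rw [encard_singleton]
    norm_num

theorem dep_sep_odd (hq : 2 ≤ q) (hpq : q < p) (hodd : ¬ Even (p - q)) {C : ℝ → ℝ} (hC : CP C)
    {α β : ℝ} (hαβ : α ≠ 0 ∨ β ≠ 0) :
    (limCyc p q (fun t => α * C t) (fun t => β * C t)).encard ≤ 2 := by
  refine (Set.encard_le_encard ?_).trans (dep_roots_odd hpq hodd hαβ)
  intro c hc
  obtain ⟨x, hx, hx0⟩ := hc.1
  by_cases hint : (∫ t in (0:ℝ)..(2 * π), C t) = 0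
  · by_contra hg
    subst hx0
    exact sep_not_isolated hq hpq hC.cont hC.per hx hint hg hc
  · have := sep_root (k := 0) hq hpq hC.cont hx hint
    rw [hx0] at this
    exact this

theorem dep_odd (hq : 2 ≤ q) (hpq : q < p) (hodd : ¬ Even (p - q)) (hA : CP A) (hB : CP B)
    {a b : ℝ} (hab : a ≠ 0 ∨ b ≠ 0) (h : ∀ t, a * A t + b * B t = 0) :
    (limCyc p q A B).encard ≤ 2 := by
  by_cases ha : a = 0
  · have hb : b ≠ 0 := hab.resolve_left (not_not.2 ha)
    have hBt : B = fun t => 0 * A t := by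
      funext t
      have h1 := h t
      rw [ha, zero_mul, zero_add] at h1
      rw [(mul_eq_zero.1 h1).resolve_left hb, zero_mul]
    have hAt : A = fun t => 1 * A t := by
      funext t
      rw [one_mul]
    have h3 := dep_sep_odd (p := p) hq hpq hodd hA (α := 1) (β := 0) (Or.inl one_ne_zero)
    rw [← hAt, ← hBt] at h3
    exact h3
  · have hAt : A = fun t => (-(b / a)) * B t := by
      funext t
      have h1 := h t
      field_simp
      linarith
    have hBt : B = fun t => 1 * B t := by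
      funext t
      rw [one_mul]
    have h3 := dep_sep_odd (p := p) hq hpq hodd hB (α := -(b / a)) (β := 1) (Or.inr one_ne_zero)
    rw [← hAt, ← hBt] at h3
    exact h3

/-- a nonnegative combination with coefficients not both zero -/
theorem one_upper (hq : 2 ≤ q) (hpq : q < p) (hA : CP A) (hB : CP B) {a b : ℝ}
    (hab : a ≠ 0 ∨ b ≠ 0) (h0 : ∀ t, 0 ≤ a * A t + b * B t) :
    (limCyc p q A B).encard ≤ MM p q := by
  unfold MM
  by_cases h1 : ∃ t, a * A t + b * B t ≠ 0
  · refine (encard_le_encard (limCyc_subset p q A B)).trans ?_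
    split_ifs with he
    · exact count_one hq hpq hA.cont hB.cont hA.per hB.per h0 h1
    · exact count_one_odd hq hpq he hA hB h0 h1
  · push Not at h1
    split_ifs with he
    · exact dep_le_three hq hpq hA.cont hB.cont hA.per hB.per hab h1
    · exact dep_odd hq hpq he hA hB hab h1

/-- the example `x' = x^q - x^p` -/
theorem one_lower (hq : 2 ≤ q) (hpq : q < p) :
    MM p q ≤ (limCyc p q (fun _ => -1) (fun _ => 1)).encard := by
  have hc := count_one (p := p) (q := q) (A := fun _ => -1) (B := fun _ => 1) (a := 0) (b := 1)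
    hq hpq continuous_const continuous_const (fun _ => rfl) (fun _ => rfl)
    (fun _ => by norm_num) ⟨0, by norm_num⟩
  rw [limCyc_eq_of_finite (encard_lt_top_iff.1 (hc.trans_lt (ENat.natCast_lt_top 3)))]
  have hmem : ∀ c : ℝ, -c ^ p + c ^ q = 0 → c ∈ perInit p q (fun _ => -1) (fun _ => 1) := by
    intro c hc
    refine ⟨fun _ => c, ⟨fun t => ?_, fun _ => rfl⟩, rfl⟩
    have e : -1 * c ^ p + 1 * c ^ q = 0 := by linarith
    simp only [e]
    exact hasDerivAt_const t c
  have m0 := hmem 0 (by rw [zero_pow (by omega), zero_pow (by omega)]; ring)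
  have m1 := hmem 1 (by rw [one_pow, one_pow]; ring)
  unfold MM
  split_ifs with he
  · have m2 := hmem (-1) (by
      have : ((-1 : ℝ)) ^ p = (-1) ^ q := by
        have h5 : p = (p - q) + q := by omega
        rw [h5, pow_add, Even.neg_one_pow he, one_mul]
      rw [this]; ring)
    have hsub : ({0, 1, -1} : Set ℝ) ⊆ perInit p q (fun _ => -1) (fun _ => 1) := by
      rintro x (rfl | rfl | rfl)
      · exact m0
      · exact m1
      · exact m2
    have h3 : ({0, 1, -1} : Set ℝ).encard = 3 :=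
      encard_eq_three.2 ⟨0, 1, -1, by norm_num, by norm_num, by norm_num, rfl⟩
    rw [← h3]
    exact encard_le_encard hsub
  · have hsub : ({0, 1} : Set ℝ) ⊆ perInit p q (fun _ => -1) (fun _ => 1) := by
      rintro x (rfl | rfl)
      · exact m0
      · exact m1
    have h3 : ({0, 1} : Set ℝ).encard = 2 := encard_pair (by norm_num)
    rw [← h3]
    exact encard_le_encard hsub

end Pool.Agent.AbelLT
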