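import Pool.Agent.Lib.MP_bb703b_an.TZ10

set_option autoImplicit false

open Real Set MeasureTheory intervalIntegral

/-!
Pairs `(w A, w B)` with `w ≥ 0` not vanishing identically on any interval.
-/

namespace Pool.Agent.AbelLT

variable {p q : ℕ} {A B : ℝ → ℝ}

/-- nonnegative and not identically zero on any interval -/
structure Wt (w : ℝ → ℝ) : Prop where
  cp : CP w
  nn : ∀ t, 0 ≤ w t
  dense : ∀ s t, s < t → ∃ u, s < u ∧ u < t ∧ 0 < w u

/-- the time change -/
theorem exists_time' {w : ℝ → ℝ} (hw : Wt w) :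
    ∃ (c : ℝ) (e : ℝ ≃o ℝ), 0 < c ∧ (∀ t, e (t + 2 * π) = e t + 2 * π) ∧ e 0 = 0 ∧
      ∀ t, HasDerivAt e (c * w t) t := by
  have hi : ∀ a b, IntervalIntegrable w volume a b := fun a b =>
    hw.cp.cont.intervalIntegrable a b
  have hpos : ∀ s t, s < t → 0 < ∫ u in s..t, w u := by
    intro s t hst
    obtain ⟨u, h1, h2, h3⟩ := hw.dense s t hst
    exact intervalIntegral.integral_pos hst hw.cp.cont.continuousOn (fun x _ => hw.nn x)
      ⟨u, ⟨h1.le, h2.le⟩, h3⟩
  have hI : 0 < ∫ t in (0:ℝ)..(2 * π), w t := hpos _ _ (by positivity)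
  set I := ∫ t in (0:ℝ)..(2 * π), w t with hIdef
  set c := 2 * π / I with hc
  have hc0 : 0 < c := by positivity
  set ψ : ℝ → ℝ := fun t => c * ∫ s in (0:ℝ)..t, w s with hψ
  have hd : ∀ t, HasDerivAt ψ (c * w t) t := fun t =>
    (intervalIntegral.integral_hasDerivAt_right (hi _ _)
      (hw.cp.cont.stronglyMeasurableAtFilter _ _) hw.cp.cont.continuousAt).const_mul c
  have hψc : Continuous ψ := continuous_iff_continuousAt.2 fun t => (hd t).continuousAt
  have hm : StrictMono ψ := by
    intro s t hst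
    have h2 := intervalIntegral.integral_add_adjacent_intervals (hi 0 s) (hi s t)
    have h3 := hpos s t hst
    simp only [hψ]
    rw [← h2, mul_add]
    have := mul_pos hc0 h3
    linarith
  have hper : ∀ t, ψ (t + 2 * π) = ψ t + 2 * π := by
    intro t
    have hP : Function.Periodic w (2 * π) := hw.cp.per
    have h1 := hP.intervalIntegral_add_eq t 0
    rw [zero_add] at h1
    have h2 := intervalIntegral.integral_add_adjacent_intervals (hi 0 t) (hi t (t + 2 * π))
    simp only [hψ]
    rw [← h2, h1, ← hIdef, mul_add]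
    congr 1
    rw [hc]
    field_simp
  obtain ⟨e, he⟩ := exists_orderIso hψc hm hper
  refine ⟨c, e, hc0, fun t => by rw [he, he, hper], by rw [he]; simp [hψ], fun t => ?_⟩
  have : (e : ℝ → ℝ) = ψ := funext he
  rw [this]
  exact hd t

theorem perInit_time' {w : ℝ → ℝ} (hw : Wt w) {c : ℝ} {e : ℝ ≃o ℝ} (hc : 0 < c)
    (hper : ∀ t, e (t + 2 * π) = e t + 2 * π) (h0 : e 0 = 0)
    (hd : ∀ t, HasDerivAt e (c * w t) t) (p q : ℕ) (hA : CP A) (hB : CP B) :
    perInit p q (fun t => w t * A t) (fun t => w t * B t) ⊆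
      perInit p q (fun s => A (e.symm s) / c) (fun s => B (e.symm s) / c) := by
  rintro _ ⟨y, hy, rfl⟩
  have hs0 : e.symm 0 = 0 := by rw [OrderIso.symm_apply_eq, h0]
  have hyc := hy.cont
  have hsc := e.symm.continuous
  set F : ℝ → ℝ := fun s => A (e.symm s) / c * y (e.symm s) ^ p +
    B (e.symm s) / c * y (e.symm s) ^ q with hF
  have hFc : Continuous F := by
    have h1 := hA.cont
    have h2 := hB.cont
    fun_prop
  -- the integral equation
  have hint : ∀ s, y (e.symm s) = y 0 + ∫ u in (0:ℝ)..s, F u := by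
    intro s
    set t := e.symm s with ht
    have hst : e t = s := by rw [ht, e.apply_symm_apply]
    have hsub := intervalIntegral.integral_comp_mul_deriv (f := e) (f' := fun u => c * w u)
      (g := F) (a := 0) (b := t) (fun x _ => hd x)
      (continuous_const.mul hw.cp.cont).continuousOn hFc
    rw [h0, hst] at hsub
    rw [← hsub]
    have hfun : ∀ u, (F ∘ e) u * (c * w u) = w u * A u * y u ^ p + w u * B u * y u ^ q := by
      intro u
      simp only [hF, Function.comp_apply, e.symm_apply_apply]
      field_simp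
    have hftc := intervalIntegral.integral_eq_sub_of_hasDerivAt (f := y) (a := 0) (b := t)
      (fun x _ => hy.hd x) (by
        apply Continuous.intervalIntegrable
        have h1 := hA.cont
        have h2 := hB.cont
        have h3 := hw.cp.cont
        fun_prop)
    have hcongr : ∫ u in (0:ℝ)..t, (F ∘ e) u * (c * w u) =
        ∫ u in (0:ℝ)..t, (w u * A u * y u ^ p + w u * B u * y u ^ q) :=
      intervalIntegral.integral_congr fun u _ => hfun u
    rw [hcongr, hftc]
    ring
  refine ⟨fun s => y (e.symm s), ⟨fun s => ?_, fun s => ?_⟩, ?_⟩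
  · have hfe : (fun s => y (e.symm s)) = fun s => y 0 + ∫ u in (0:ℝ)..s, F u := funext hint
    have h1 : HasDerivAt (fun s => y 0 + ∫ u in (0:ℝ)..s, F u) (F s) s :=
      (intervalIntegral.integral_hasDerivAt_right (hFc.intervalIntegrable _ _)
        (hFc.stronglyMeasurableAtFilter _ _) hFc.continuousAt).const_add _
    rw [hfe]
    refine h1.congr_deriv ?_
    simp only [hF]
  · simp only [symm_per hper, hy.per]
  · simp only [hs0]

/-- the main case with a weight -/
theorem TZ.count' (h : TZ A B) {w : ℝ → ℝ} (hw : Wt w) (hq : 2 ≤ q) (hpq : q < p) :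
    (perInit p q (fun t => w t * A t) (fun t => w t * B t)).encard ≤ NN p q := by
  obtain ⟨e, w₀, σ, hσ, he, hw₀, hpos, hA, hB⟩ := h.angle
  have hW : Wt fun t => w t * w₀ t := by
    refine ⟨⟨hw.cp.cont.mul hw₀.cont, fun t => by simp only [hw.cp.per, hw₀.per]⟩,
      fun t => mul_nonneg (hw.nn t) (hpos t).le, fun s t hst => ?_⟩
    obtain ⟨u, h1, h2, h3⟩ := hw.dense s t hst
    exact ⟨u, h1, h2, mul_pos h3 (hpos u)⟩
  obtain ⟨c, τ, hc, hτ, hτ0, hd⟩ := exists_time' hW
  have cA : CP fun t => cos (e t) :=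
    ⟨continuous_cos.comp e.continuous, fun t => by simp only [he, cos_add_two_pi]⟩
  have cB : CP fun t => σ * sin (e t) :=
    ⟨continuous_const.mul (continuous_sin.comp e.continuous),
      fun t => by simp only [he, sin_add_two_pi]⟩
  have e1 : (fun t => w t * A t) = fun t => (w t * w₀ t) * cos (e t) := by
    funext t; rw [hA]; ring
  have e2 : (fun t => w t * B t) = fun t => (w t * w₀ t) * (σ * sin (e t)) := by
    funext t; rw [hB]; ring
  rw [e1, e2]
  refine (encard_le_encard (perInit_time' hW hc hτ hτ0 hd p q cA cB)).trans ?_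
  have eA : (fun s => cos (e (τ.symm s)) / c) = tc (τ.symm.trans e) 0 0 (1 / c) := by
    funext s
    simp only [tc, tg, OrderIso.trans_apply]
    ring
  have eB : (fun s => σ * sin (e (τ.symm s)) / c) = tc (τ.symm.trans e) 0 (σ / c) 0 := by
    funext s
    simp only [tc, tg, OrderIso.trans_apply]
    ring
  rw [eA, eB]
  have hθ : ∀ t, (τ.symm.trans e) (t + 2 * π) = (τ.symm.trans e) t + 2 * π := fun t => by
    simp only [OrderIso.trans_apply, symm_per hτ, he]
  apply tc_count' hθ hq hpq
  have hσ0 : σ ≠ 0 := by rcases hσ with h1 | h1 <;> rw [h1] <;> norm_num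
  have : (0:ℝ) * 0 - 1 / c * (σ / c) ≠ 0 := by
    rw [zero_mul, zero_sub, neg_ne_zero]
    exact mul_ne_zero (one_div_ne_zero hc.ne') (div_ne_zero hσ0 hc.ne')
  exact this

/-- The upper bound for pairs `(w A, w B)`, all combinations of `A`, `B` vanish identically or
have at most two zeros per period. -/
theorem two_zero_upper' (hq : 2 ≤ q) (hpq : q < p) {w : ℝ → ℝ} (hw : Wt w) (hA : CP A)
    (hB : CP B)
    (hZ : ∀ a b : ℝ, (∀ t, a * A t + b * B t = 0) ∨
      {t ∈ Ico 0 (2 * π) | a * A t + b * B t = 0}.encard ≤ 2) :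
    (limCyc p q (fun t => w t * A t) (fun t => w t * B t)).encard ≤ NN p q := by
  have hA' : CP fun t => w t * A t :=
    ⟨hw.cp.cont.mul hA.cont, fun t => by simp only [hw.cp.per, hA.per]⟩
  have hB' : CP fun t => w t * B t :=
    ⟨hw.cp.cont.mul hB.cont, fun t => by simp only [hw.cp.per, hB.per]⟩
  by_cases hD : ∀ x y : ℝ, (∀ t, x * A t + y * B t = 0) → x = 0 ∧ y = 0
  · refine (encard_le_encard (limCyc_subset p q _ _)).trans ?_
    by_cases hN : NoOne A B
    · exact TZ.count' ⟨hA, hB, fun a b => Z2_of_encard (fun t => by simp only [hA.per, hB.per])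
        (hZ a b), hN, hD⟩ hw hq hpq
    · unfold NoOne at hN
      push Not at hN
      obtain ⟨a, b, h0, t, ht⟩ := hN
      have ht' : 0 < a * A t + b * B t := lt_of_le_of_ne (h0 t) (Ne.symm ht)
      have hcont : Continuous fun t => a * A t + b * B t :=
        (continuous_const.mul hA.cont).add (continuous_const.mul hB.cont)
      obtain ⟨δ, hδ, hball⟩ := Metric.eventually_nhds_iff.1
        (hcont.continuousAt.eventually (lt_mem_nhds ht'))
      obtain ⟨u, h1, h2, h3⟩ := hw.dense t (t + δ) (by linarith)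
      have h4 := hball (y := u) (by rw [Real.dist_eq, abs_of_pos] <;> linarith)
      refine (count_one hq hpq hA'.cont hB'.cont hA'.per hB'.per (a := a) (b := b)
        (fun t => ?_) ⟨u, ?_⟩).trans (three_le_NN p q)
      · have := mul_nonneg (hw.nn t) (h0 t)
        linarith
      · have := mul_pos h3 h4
        have e : a * (w u * A u) + b * (w u * B u) = w u * (a * A u + b * B u) := by ring
        rw [e]
        exact this.ne'
  · push Not at hD
    obtain ⟨x, y, h0, hxy⟩ := hD
    have hab : x ≠ 0 ∨ y ≠ 0 := by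
      by_cases hx : x = 0
      · exact Or.inr (hxy hx)
      · exact Or.inl hx
    exact (dep_le_three hq hpq hA'.cont hB'.cont hA'.per hB'.per hab (fun t => by
      have := h0 t
      have e : x * (w t * A t) + y * (w t * B t) = w t * (x * A t + y * B t) := by ring
      rw [e, this, mul_zero])).trans (three_le_NN p q)

end Pool.Agent.AbelLT
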