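import Pool.Agent.Lib.MP_bb703b_an.Lin
import Pool.Agent.Lib.MP_bb703b_an.TZ0

set_option autoImplicit false

open Real Set

/-!
Row C3: `N(v) > 0`, `N y = b y^(p-q) - a`.

Let `x = v t₁ = v t₂`, `N x > 0`, `C = a A + b B` (`> 0` on `(t₁,t₂)`, `< 0` on `(t₂,t₁+2π)`).
Suppose `N (v t) ≤ 0`.  `s ↦ N (v s)` is continuous, so (IVT, `mem_range_of_exists_le_of_exists_ge`)
`N (v s₀) = 0` for some `s₀`; by periodicity (`Function.Periodic.exists_mem_Ico`) we may take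
`s₀ ∈ [t₁,t₁+2π)`.  Put `y = v s₀ > 0`.  `y ≠ x`, so `s₀ ≠ t₁, t₂`.  `b ≠ 0` (else `N` is constant).
`b y^(p-q) = a`, so `A y^p + B y^q = y^q (y^(p-q) A + B) = y^q C / b`.
* `s₀ ∈ (t₁,t₂)`: `y > x` (`hv1`).  If `b > 0`: `A y^p + B y^q > 0` on `(s₀,t₂)`, `level_gt` gives
  `v t₂ > y > x`, contradiction.  If `b < 0`: `A y^p + B y^q < 0` on `(t₁,s₀)`, `v t₁ = x ≤ y`,
  `level_lt` gives `v s₀ < y`, contradiction.
* `s₀ ∈ (t₂,t₁+2π)`: `y < x` (`hv2`).  If `b > 0`: `A y^p + B y^q < 0` on `(s₀,t₁+2π)`,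
  `level_lt` gives `v (t₁+2π) < y < x = v t₁`, contradiction.  If `b < 0`: `> 0` on `(t₂,s₀)`,
  `y ≤ v t₂`, `level_gt` gives `y < v s₀`, contradiction.
-/

namespace Pool.Agent.AbelLT

variable {θ : ℝ ≃o ℝ} {p q : ℕ} {a0 a1 a2 b0 b1 b2 : ℝ} {v : ℝ → ℝ}

/-- `b v^(p-q) - a > 0` everywhere. -/
theorem tc_cross_N (hq : 2 ≤ q) (hpq : q < p)
    (hv : PosPer p q (tc θ a0 a1 a2) (tc θ b0 b1 b2) v) {t₁ t₂ a b : ℝ} (h12 : t₁ < t₂)
    (h21 : t₂ < t₁ + 2 * π) (hx : v t₁ = v t₂)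
    (hC1 : ∀ s, t₁ < s → s < t₂ → 0 < a * tc θ a0 a1 a2 s + b * tc θ b0 b1 b2 s)
    (hC2 : ∀ s, t₂ < s → s < t₁ + 2 * π → a * tc θ a0 a1 a2 s + b * tc θ b0 b1 b2 s < 0)
    (hN : 0 < b * v t₁ ^ (p - q) - a)
    (hv1 : ∀ s, t₁ < s → s < t₂ → v t₁ < v s)
    (hv2 : ∀ s, t₂ < s → s < t₁ + 2 * π → v s < v t₁) (t : ℝ) :
    0 < b * v t ^ (p - q) - a := by
  by_contra hcon
  push Not at hcon
  have hcont : Continuous fun s => b * v s ^ (p - q) - a :=
    (continuous_const.mul (hv.sol.cont.pow _)).sub continuous_const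
  obtain ⟨s₁, hs₁⟩ : (0:ℝ) ∈ Set.range fun s => b * v s ^ (p - q) - a :=
    mem_range_of_exists_le_of_exists_ge hcont ⟨t, hcon⟩ ⟨t₁, hN.le⟩
  have hP : Function.Periodic v (2 * π) := hv.sol.per
  obtain ⟨s₀, hs₀, hvs⟩ := hP.exists_mem_Ico (by positivity) s₁ t₁
  have hN0 : b * v s₀ ^ (p - q) - a = 0 := by rw [← hvs]; exact hs₁
  have hy0 : 0 < v s₀ := hv.pos s₀
  have hyq : 0 < v s₀ ^ q := pow_pos hy0 _
  have hb : b ≠ 0 := by
    rintro rfl
    simp at hN0 hN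
    linarith
  have hpow : ∀ s, tc θ a0 a1 a2 s * v s₀ ^ p + tc θ b0 b1 b2 s * v s₀ ^ q =
      v s₀ ^ q * ((a * tc θ a0 a1 a2 s + b * tc θ b0 b1 b2 s) / b) := fun s => by
    have h1 : v s₀ ^ p = v s₀ ^ q * v s₀ ^ (p - q) := by
      rw [← pow_add]; congr 1; omega
    have h2 : a = b * v s₀ ^ (p - q) := by linarith
    rw [h1, h2]
    field_simp
  rcases eq_or_lt_of_le hs₀.1 with h | h
  · rw [← h] at hN0; linarith
  · rcases lt_trichotomy s₀ t₂ with h' | h' | h'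
    · have hyx := hv1 s₀ h h'
      rcases lt_or_gt_of_ne hb with hb' | hb'
      · have := level_lt (tc_cont θ a0 a1 a2) (tc_cont θ b0 b1 b2) hv.sol h (x := v s₀)
          (fun s hs => by
            rw [hpow]
            exact mul_neg_of_pos_of_neg hyq (div_neg_of_pos_of_neg
              (hC1 s hs.1 (hs.2.trans h')) hb')) hyx.le
        linarith
      · have := level_gt (tc_cont θ a0 a1 a2) (tc_cont θ b0 b1 b2) hv.sol h' (x := v s₀)
          (fun s hs => by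
            rw [hpow]
            exact mul_pos hyq (div_pos (hC1 s (h.trans hs.1) hs.2) hb')) le_rfl
        linarith
    · rw [h', ← hx] at hN0; linarith
    · have hyx := hv2 s₀ h' hs₀.2
      rcases lt_or_gt_of_ne hb with hb' | hb'
      · have := level_gt (tc_cont θ a0 a1 a2) (tc_cont θ b0 b1 b2) hv.sol h' (x := v s₀)
          (fun s hs => by
            rw [hpow]
            exact mul_pos hyq (div_pos_of_neg_of_neg
              (hC2 s hs.1 (hs.2.trans hs₀.2)) hb')) (by linarith)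
        linarith
      · have := level_lt (tc_cont θ a0 a1 a2) (tc_cont θ b0 b1 b2) hv.sol hs₀.2 (x := v s₀)
          (fun s hs => by
            rw [hpow]
            exact mul_neg_of_pos_of_neg hyq (div_neg_of_neg_of_pos
              (hC2 s (h'.trans hs.1) hs.2) hb')) le_rfl
        rw [hv.sol.per] at this
        linarith

end Pool.Agent.AbelLT
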