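import Pool.Agent.Lib.MP_bb703b_an.Upper

set_option autoImplicit false

open Real Set MeasureTheory intervalIntegral

/-!
Counting positive periodic solutions when every positive periodic solution of
`x' = (A + l) x^p + B x^q` has a certificate, unless a combination is one-signed.
-/

namespace Pool.Agent.AbelLT

/-- for every `l`, every positive periodic solution of `x' = (A + l) x^p + B x^q` has a
certificate, or a combination of `A + l`, `B` is one-signed. -/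
def Good (p q : ℕ) (A B : ℝ → ℝ) : Prop :=
  ∀ (l : ℝ) (v : ℝ → ℝ), PosPer p q (fun t => A t + l) B v →
    (∃ a b x, Cert p q (fun t => A t + l) B v a b x) ∨
    ∃ a b : ℝ, (∀ t, 0 ≤ a * (A t + l) + b * B t) ∧ ∃ t, a * (A t + l) + b * B t ≠ 0

/-- continuous and periodic -/
structure CP (A : ℝ → ℝ) : Prop where
  cont : Continuous A
  per : ∀ t, A (t + 2 * π) = A t

variable {p q : ℕ} {A B v u₁ u₂ u₃ : ℝ → ℝ}

theorem CP.add_const (hA : CP A) (l : ℝ) : CP fun t => A t + l :=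
  ⟨hA.cont.add continuous_const, fun t => by simp only [hA.per]⟩

theorem good_super (hq : 2 ≤ q) (hpq : q < p) (hA : CP A) (hB : CP B) (hG : Good p q A B) (l : ℝ)
    (hv : PosPer p q (fun t => A t + l) B v) {δ : ℝ} (hδ : 0 < δ) :
    ∃ w, StrictSuper p q (fun t => A t + l) B w ∧ ∀ t ∈ Icc 0 (2 * π), |w t - v t| < δ := by
  have hA' := hA.add_const l
  have hneg : (∫ t in (0:ℝ)..(2 * π), (A t + l) * v t ^ (p - 1)) ≠ 0 →
      ∃ w, StrictSuper p q (fun t => A t + l) B w ∧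
        ∀ t ∈ Icc 0 (2 * π), |w t - v t| < δ := by
    intro hL
    rcases lt_or_gt_of_ne hL with h | h
    · obtain ⟨w, hw, hw2⟩ := super_neg hq hpq hA'.cont hB.cont hv h hδ
      exact ⟨w, hw, fun t ht => abs_lt.2 ⟨by linarith [(hw2 t ht).1], by linarith [(hw2 t ht).2]⟩⟩
    · obtain ⟨w, hw, hw2⟩ := super_pos hq hpq hA'.cont hB.cont hv h hδ
      exact ⟨w, hw, fun t ht => abs_lt.2 ⟨by linarith [(hw2 t ht).1], by linarith [(hw2 t ht).2]⟩⟩
  rcases hG l v hv with ⟨a, b, x, hc⟩ | ⟨a, b, h0, h1⟩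
  · by_cases hL : (∫ t in (0:ℝ)..(2 * π), (A t + l) * v t ^ (p - 1)) = 0
    · have hJ := sign_S4 hq hpq hA'.cont hB.cont hA'.per hB.per hv hc hL
      obtain ⟨w, hw, hw2⟩ := super_zero hq hpq hA'.cont hB.cont hv hL hJ hδ
      exact ⟨w, hw, fun t ht => abs_lt.2 ⟨by linarith [(hw2 t ht).1], by linarith [(hw2 t ht).2]⟩⟩
    · exact hneg hL
  · exact hneg (one_L hq hpq hA'.cont hB.cont hA'.per hB.per hv h0 h1)

theorem good_super0 (hq : 2 ≤ q) (hpq : q < p) (hA : CP A) (hB : CP B) (hG : Good p q A B)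
    (hv : PosPer p q A B v) {δ : ℝ} (hδ : 0 < δ) :
    ∃ w, StrictSuper p q A B w ∧ ∀ t ∈ Icc 0 (2 * π), |w t - v t| < δ := by
  have h := good_super (v := v) hq hpq hA hB hG 0
  simp only [add_zero] at h
  exact h hv hδ

theorem good_lemmaM (hq : 2 ≤ q) (hpq : q < p) (hA : CP A) (hB : CP B) (hG : Good p q A B)
    (h1 : PosPer p q A B u₁) (h2 : PosPer p q A B u₂) (h12 : ∀ t, u₁ t < u₂ t)
    {w : ℝ → ℝ} (hw : StrictSuper p q A B w)
    (hw1 : ∀ t ∈ Icc 0 (2 * π), u₁ t < w t) (hw2 : ∀ t ∈ Icc 0 (2 * π), w t < u₂ t) : False :=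
  lemmaM hA.cont hB.cont hA.per hB.per h1 h2 h12
    (fun l _ _ hv _ hδ => good_super hq hpq hA hB hG l hv hδ) hw hw1 hw2

theorem good_no_three (hq : 2 ≤ q) (hpq : q < p) (hA : CP A) (hB : CP B) (hG : Good p q A B)
    (h1 : PosPer p q A B u₁) (h2 : PosPer p q A B u₂) (h3 : PosPer p q A B u₃)
    (h12 : ∀ t, u₁ t < u₂ t) (h23 : ∀ t, u₂ t < u₃ t) : False := by
  obtain ⟨d1, hd1, g1⟩ := exists_gap h1.sol.cont h2.sol.cont h12
  obtain ⟨d2, hd2, g2⟩ := exists_gap h2.sol.cont h3.sol.cont h23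
  obtain ⟨w, hw, hw2⟩ := good_super0 hq hpq hA hB hG h2 (lt_min hd1 hd2)
  refine good_lemmaM hq hpq hA hB hG h1 h3 (fun t => (h12 t).trans (h23 t)) hw (fun t ht => ?_)
    (fun t ht => ?_)
  · have := abs_lt.1 (hw2 t ht)
    have h4 := min_le_left d1 d2
    linarith [g1 t ht]
  · have := abs_lt.1 (hw2 t ht)
    have h4 := min_le_right d1 d2
    linarith [g2 t ht]

/-- if `L(u₁) < 0` there is no larger positive periodic solution. -/
theorem good_L_nonneg (hq : 2 ≤ q) (hpq : q < p) (hA : CP A) (hB : CP B) (hG : Good p q A B)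
    (h1 : PosPer p q A B u₁) (h2 : PosPer p q A B u₂) (h12 : ∀ t, u₁ t < u₂ t) :
    0 ≤ ∫ t in (0:ℝ)..(2 * π), A t * u₁ t ^ (p - 1) := by
  by_contra hc
  push Not at hc
  obtain ⟨d1, hd1, g1⟩ := exists_gap h1.sol.cont h2.sol.cont h12
  obtain ⟨w, hw, hw2⟩ := super_neg hq hpq hA.cont hB.cont h1 hc hd1
  exact good_lemmaM hq hpq hA hB hG h1 h2 h12 hw (fun t ht => (hw2 t ht).1)
    (fun t ht => (hw2 t ht).2.trans (g1 t ht))

/-- a certificate and (`∫ B ≥ 0` or `∫ A ≤ 0`): `L < 0`. -/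
theorem cert_L_neg (hq : 2 ≤ q) (hpq : q < p) (hA : CP A) (hB : CP B) {a b x : ℝ}
    (hv : PosPer p q A B v) (hc : Cert p q A B v a b x)
    (h : 0 ≤ (∫ t in (0:ℝ)..(2 * π), B t) ∨ (∫ t in (0:ℝ)..(2 * π), A t) ≤ 0) :
    (∫ t in (0:ℝ)..(2 * π), A t * v t ^ (p - 1)) < 0 := by
  have hx : 0 < x := cert_pos hv hc
  rcases h with h | h
  · have := sign_S2 hq hpq hA.cont hB.cont hA.per hB.per hv hc
    have h2 : 0 ≤ x ^ (q - 1) * (∫ t in (0:ℝ)..(2 * π), B t) :=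
      mul_nonneg (pow_pos hx _).le h
    linarith
  · have := sign_S3 hq hpq hA.cont hB.cont hA.per hB.per hv hc
    have h2 : x ^ (p - 1) * (∫ t in (0:ℝ)..(2 * π), A t) ≤ 0 :=
      mul_nonpos_of_nonneg_of_nonpos (pow_pos hx _).le h
    linarith

/-- a certificate excludes `∫ A ≤ 0`, `∫ B ≤ 0`. -/
theorem cert_none (hq : 2 ≤ q) (hpq : q < p) (hA : CP A) (hB : CP B) {a b x : ℝ}
    (hv : PosPer p q A B v) (hc : Cert p q A B v a b x)
    (ha : (∫ t in (0:ℝ)..(2 * π), A t) ≤ 0) (hb : (∫ t in (0:ℝ)..(2 * π), B t) ≤ 0) : False := by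
  have hx : 0 < x := cert_pos hv hc
  have := sign_S1 hq hpq hA.cont hB.cont hA.per hB.per hv hc
  have h2 : x ^ (p - q) * (∫ t in (0:ℝ)..(2 * π), A t) ≤ 0 :=
    mul_nonpos_of_nonneg_of_nonpos (pow_pos hx _).le ha
  linarith

theorem good_two (hq : 2 ≤ q) (hpq : q < p) (hA : CP A) (hB : CP B) (hG : Good p q A B) :
    (posInit p q A B).encard ≤ 2 := by
  apply encard_le_two_of
  rintro a ⟨u, hu, rfl⟩ b ⟨v, hv, rfl⟩ c ⟨w, hw, rfl⟩ h1 h2
  exact good_no_three hq hpq hA hB hG hu hv hw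
    (lt_of_lt hA.cont hB.cont hu.sol hv.sol h1)
    (lt_of_lt hA.cont hB.cont hv.sol hw.sol h2)

/-- no one-signed combination: every positive periodic solution has a certificate -/
theorem good_cert (hG : Good p q A B) (hN : ∀ a b : ℝ, (∀ t, 0 ≤ a * A t + b * B t) →
      ∀ t, a * A t + b * B t = 0) (hv : PosPer p q A B v) : ∃ a b x, Cert p q A B v a b x := by
  have h := hG 0 v
  simp only [add_zero] at h
  rcases h hv with h | ⟨a, b, h0, t, ht⟩
  · exact h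
  · exact absurd (hN a b h0 t) ht

theorem good_one (hq : 2 ≤ q) (hpq : q < p) (hA : CP A) (hB : CP B) (hG : Good p q A B)
    (hN : ∀ a b : ℝ, (∀ t, 0 ≤ a * A t + b * B t) → ∀ t, a * A t + b * B t = 0)
    (h : 0 ≤ (∫ t in (0:ℝ)..(2 * π), B t) ∨ (∫ t in (0:ℝ)..(2 * π), A t) ≤ 0) :
    (posInit p q A B).encard ≤ 1 := by
  rw [encard_le_one_iff]
  rintro a b ⟨u, hu, rfl⟩ ⟨v, hv, rfl⟩
  by_contra hne
  rcases lt_or_gt_of_ne hne with h1 | h1
  · obtain ⟨a, b, x, hc⟩ := good_cert hG hN hu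
    have := good_L_nonneg hq hpq hA hB hG hu hv (lt_of_lt hA.cont hB.cont hu.sol hv.sol h1)
    linarith [cert_L_neg hq hpq hA hB hu hc h]
  · obtain ⟨a, b, x, hc⟩ := good_cert hG hN hv
    have := good_L_nonneg hq hpq hA hB hG hv hu (lt_of_lt hA.cont hB.cont hv.sol hu.sol h1)
    linarith [cert_L_neg hq hpq hA hB hv hc h]

theorem good_none (hq : 2 ≤ q) (hpq : q < p) (hA : CP A) (hB : CP B) (hG : Good p q A B)
    (hN : ∀ a b : ℝ, (∀ t, 0 ≤ a * A t + b * B t) → ∀ t, a * A t + b * B t = 0)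
    (ha : (∫ t in (0:ℝ)..(2 * π), A t) ≤ 0) (hb : (∫ t in (0:ℝ)..(2 * π), B t) ≤ 0) :
    (posInit p q A B).encard ≤ 0 := by
  rw [nonpos_iff_eq_zero, encard_eq_zero, eq_empty_iff_forall_notMem]
  rintro _ ⟨u, hu, rfl⟩
  obtain ⟨a, b, x, hc⟩ := good_cert hG hN hu
  exact cert_none hq hpq hA hB hu hc ha hb

end Pool.Agent.AbelLT
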