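import Pool.Agent.Lib.MP_bb703b_an.TZ4
import Pool.Agent.Lib.MP_bb703b_an.TZ5

set_option autoImplicit false

open Real Set MeasureTheory intervalIntegral

/-!
The count for good pairs, and for linear trigonometric functions of a parameter.
-/

namespace Pool.Agent.AbelLT

variable {p q : ℕ} {A B v : ℝ → ℝ}

theorem CP.neg (hA : CP A) : CP fun t => -A t := ⟨hA.cont.neg, fun t => by simp only [hA.per]⟩

theorem CP.comp_neg (hA : CP A) : CP fun t => A (-t) := by
  refine ⟨hA.cont.comp continuous_neg, fun t => ?_⟩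
  have := hA.per (-t - 2 * π)
  rw [sub_add_cancel] at this
  rw [this]
  congr 1
  ring

theorem CP.int_comp_neg (hA : CP A) :
    ∫ t in (0:ℝ)..(2 * π), A (-t) = ∫ t in (0:ℝ)..(2 * π), A t := by
  rw [intervalIntegral.integral_comp_neg]
  have hP : Function.Periodic A (2 * π) := hA.per
  have := hP.intervalIntegral_add_eq (-(2 * π)) 0
  simpa using this

/-- no nontrivial one-signed combination -/
def NoOne (A B : ℝ → ℝ) : Prop :=
  ∀ a b : ℝ, (∀ t, 0 ≤ a * A t + b * B t) → ∀ t, a * A t + b * B t = 0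

theorem NoOne.neg_neg' (h : NoOne A B) : NoOne (fun t => -A t) (fun t => -B t) := by
  intro a b h0 t
  have := h (-a) (-b) (fun t => by have := h0 t; linarith) t
  linarith

theorem NoOne.rev1 (h : NoOne A B) : NoOne (fun t => A (-t)) (fun t => -B (-t)) := by
  intro a b h0 t
  have := h a (-b) (fun t => by have := h0 (-t); simp only [neg_neg] at this; linarith) (-t)
  linarith

theorem NoOne.rev2 (h : NoOne A B) : NoOne (fun t => -A (-t)) (fun t => B (-t)) := by
  intro a b h0 t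
  have := h (-a) b (fun t => by have := h0 (-t); simp only [neg_neg] at this; linarith) (-t)
  linarith

theorem count_good (hq : 2 ≤ q) (hpq : q < p) (hA : CP A) (hB : CP B) (hN : NoOne A B)
    (G1 : Good p q A B) (G2 : Good p q (fun t => -A t) (fun t => -B t))
    (G3 : Good p q (fun t => A (-t)) (fun t => -B (-t)))
    (G4 : Good p q (fun t => -A (-t)) (fun t => B (-t))) :
    (perInit p q A B).encard ≤ NN p q := by
  rw [per_eq (by omega) (by omega) hA.cont hB.cont]
  have P2 := good_two hq hpq hA hB G1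
  have P1 := good_one hq hpq hA hB G1 hN
  have P0 := good_none hq hpq hA hB G1 hN
  have iA := hA.int_comp_neg
  have iB := hB.int_comp_neg
  unfold NN
  by_cases hpe : Even p
  · rw [if_pos hpe]
    have e1 : ((-1 : ℝ)) ^ (p - 1) = -1 :=
      Odd.neg_one_pow (Nat.Even.sub_odd (by omega) hpe odd_one)
    rw [e1]
    by_cases hqe : Even q
    · have e2 : ((-1 : ℝ)) ^ (q - 1) = -1 :=
        Odd.neg_one_pow (Nat.Even.sub_odd (by omega) hqe odd_one)
      rw [e2]
      simp only [neg_one_mul]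
      have Q2 := good_two hq hpq hA.neg hB.neg G2
      have Q1 := good_one hq hpq hA.neg hB.neg G2 hN.neg_neg'
      rw [intervalIntegral.integral_neg, intervalIntegral.integral_neg] at Q1
      rcases le_total (∫ t in (0:ℝ)..(2 * π), B t) 0 with hb | hb
      · calc _ ≤ (2 : ℕ∞) + 1 + 1 :=
            add_le_add (add_le_add P2 le_rfl) (Q1 (Or.inl (by linarith)))
          _ = 4 := by norm_num
      · calc _ ≤ (1 : ℕ∞) + 1 + 2 :=
            add_le_add (add_le_add (P1 (Or.inl hb)) le_rfl) Q2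
          _ = 4 := by norm_num
    · have e2 : ((-1 : ℝ)) ^ (q - 1) = 1 :=
        Even.neg_one_pow (Nat.Odd.sub_odd (Nat.not_even_iff_odd.1 hqe) odd_one)
      rw [e2]
      simp only [neg_one_mul, one_mul]
      have hrev := posInit_rev_encard p q hA.neg.cont hB.cont
      simp only [neg_neg] at hrev
      rw [← hrev]
      have Q2 := good_two hq hpq hA.comp_neg hB.comp_neg.neg G3
      have Q1 := good_one hq hpq hA.comp_neg hB.comp_neg.neg G3 hN.rev1
      rw [intervalIntegral.integral_neg, iB] at Q1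
      rcases le_total (∫ t in (0:ℝ)..(2 * π), B t) 0 with hb | hb
      · calc _ ≤ (2 : ℕ∞) + 1 + 1 :=
            add_le_add (add_le_add P2 le_rfl) (Q1 (Or.inl (by linarith)))
          _ = 4 := by norm_num
      · calc _ ≤ (1 : ℕ∞) + 1 + 2 :=
            add_le_add (add_le_add (P1 (Or.inl hb)) le_rfl) Q2
          _ = 4 := by norm_num
  · rw [if_neg hpe]
    have e1 : ((-1 : ℝ)) ^ (p - 1) = 1 :=
      Even.neg_one_pow (Nat.Odd.sub_odd (Nat.not_even_iff_odd.1 hpe) odd_one)
    rw [e1]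
    by_cases hqe : Even q
    · rw [if_pos hqe]
      have e2 : ((-1 : ℝ)) ^ (q - 1) = -1 :=
        Odd.neg_one_pow (Nat.Even.sub_odd (by omega) hqe odd_one)
      rw [e2]
      simp only [neg_one_mul, one_mul]
      have hrev := posInit_rev_encard p q hA.cont hB.neg.cont
      simp only [neg_neg] at hrev
      rw [← hrev]
      have Q2 := good_two hq hpq hA.comp_neg.neg hB.comp_neg G4
      have Q1 := good_one hq hpq hA.comp_neg.neg hB.comp_neg G4 hN.rev2
      have Q0 := good_none hq hpq hA.comp_neg.neg hB.comp_neg G4 hN.rev2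
      rw [intervalIntegral.integral_neg, iA, iB] at Q1 Q0
      rcases le_total (∫ t in (0:ℝ)..(2 * π), B t) 0 with hb | hb
      · rcases le_total (∫ t in (0:ℝ)..(2 * π), A t) 0 with ha | ha
        · calc _ ≤ (0 : ℕ∞) + 1 + 2 :=
              add_le_add (add_le_add (P0 ha hb) le_rfl) Q2
            _ = 3 := by norm_num
        · calc _ ≤ (2 : ℕ∞) + 1 + 0 :=
              add_le_add (add_le_add P2 le_rfl) (Q0 (by linarith) hb)
            _ = 3 := by norm_num
      · calc _ ≤ (1 : ℕ∞) + 1 + 1 :=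
            add_le_add (add_le_add (P1 (Or.inl hb)) le_rfl) (Q1 (Or.inl hb))
          _ = 3 := by norm_num
    · rw [if_neg hqe]
      have e2 : ((-1 : ℝ)) ^ (q - 1) = 1 :=
        Even.neg_one_pow (Nat.Odd.sub_odd (Nat.not_even_iff_odd.1 hqe) odd_one)
      simp only [e2, one_mul]
      calc _ ≤ (2 : ℕ∞) + 1 + 2 := add_le_add (add_le_add P2 le_rfl) P2
        _ = 5 := by norm_num

/-- the reflected parameter `-θ(-t)` -/
def rv (θ : ℝ ≃o ℝ) : ℝ ≃o ℝ where
  toFun t := -θ (-t)
  invFun t := -θ.symm (-t)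
  left_inv t := by simp
  right_inv t := by simp
  map_rel_iff' := by
    intro s t
    simp only [Equiv.coe_fn_mk, neg_le_neg_iff, OrderIso.le_iff_le]

theorem rv_apply (θ : ℝ ≃o ℝ) (t : ℝ) : rv θ t = -θ (-t) := rfl

theorem rv_per {θ : ℝ ≃o ℝ} (hθ : ∀ t, θ (t + 2 * π) = θ t + 2 * π) (t : ℝ) :
    rv θ (t + 2 * π) = rv θ t + 2 * π := by
  have := hθ (-(t + 2 * π))
  have e : -(t + 2 * π) + 2 * π = -t := by ring
  rw [e] at this
  rw [rv_apply, rv_apply]
  linarith

variable {θ : ℝ ≃o ℝ} {a0 a1 a2 b0 b1 b2 : ℝ}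

theorem tc_neg (θ : ℝ ≃o ℝ) (a b c : ℝ) :
    (fun t => -tc θ a b c t) = tc θ (-a) (-b) (-c) := by
  funext t; simp [tc, tg]; ring

theorem tc_comp_neg (θ : ℝ ≃o ℝ) (a b c : ℝ) :
    (fun t => tc θ a b c (-t)) = tc (rv θ) a (-b) c := by
  funext t; simp [tc, tg, rv_apply]

theorem tc_rev (θ : ℝ ≃o ℝ) (a b c : ℝ) :
    (fun t => -tc θ a b c (-t)) = tc (rv θ) (-a) b (-c) := by
  funext t; simp [tc, tg, rv_apply]; ring

theorem tc_add_const (θ : ℝ ≃o ℝ) (a b c l : ℝ) :
    (fun t => tc θ a b c t + l) = tc θ (a + l) b c := by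
  funext t; simp [tc, tg]; ring

theorem tc_cp (hθ : ∀ t, θ (t + 2 * π) = θ t + 2 * π) (a b c : ℝ) : CP (tc θ a b c) :=
  ⟨tc_cont θ a b c, tc_per hθ a b c⟩

theorem tc_good (hθ : ∀ t, θ (t + 2 * π) = θ t + 2 * π) (hq : 2 ≤ q) (hpq : q < p)
    (hdet : a1 * b2 - a2 * b1 < 0) : Good p q (tc θ a0 a1 a2) (tc θ b0 b1 b2) := by
  intro l v hv
  have e := tc_add_const θ a0 a1 a2 l
  rw [e] at hv ⊢
  rcases tri_tc (a0 := a0 + l) (b0 := b0) θ hdet with hW | ⟨a, b, h0, h1⟩
  · exact Or.inl (tc_exists_cert hθ hq hpq hW hv)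
  · right
    refine ⟨a, b, fun t => ?_, ?_⟩
    · have := h0 t
      rw [← e] at this
      exact this
    · obtain ⟨t, ht⟩ := h1
      rw [← e] at ht
      exact ⟨t, ht⟩

/-- the count for linear trigonometric functions of a parameter -/
theorem tc_count (hθ : ∀ t, θ (t + 2 * π) = θ t + 2 * π) (hq : 2 ≤ q) (hpq : q < p)
    (hdet : a1 * b2 - a2 * b1 < 0) :
    (perInit p q (tc θ a0 a1 a2) (tc θ b0 b1 b2)).encard ≤ NN p q := by
  have hA := tc_cp hθ a0 a1 a2
  have hB := tc_cp hθ b0 b1 b2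
  by_cases hN : NoOne (tc θ a0 a1 a2) (tc θ b0 b1 b2)
  · apply count_good hq hpq hA hB hN (tc_good hθ hq hpq hdet)
    · rw [tc_neg, tc_neg]
      exact tc_good hθ hq hpq (by linarith)
    · rw [tc_comp_neg, tc_rev]
      exact tc_good (rv_per hθ) hq hpq (by linarith)
    · rw [tc_comp_neg, tc_rev]
      exact tc_good (rv_per hθ) hq hpq (by linarith)
  · unfold NoOne at hN
    push Not at hN
    obtain ⟨a, b, h0, t, ht⟩ := hN
    exact (count_one hq hpq hA.cont hB.cont hA.per hB.per h0 ⟨t, ht⟩).trans (three_le_NN p q)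

end Pool.Agent.AbelLT
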