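import Pool.Agent.Lib.MP_bb703b_an.TZ6

set_option autoImplicit false

open Real Set Filter Topology

/-!
Pairs of functions all of whose combinations have at most two zeros per period: sign pattern of the
combinations, the pair has no common zero.
-/

namespace Pool.Agent.AbelLT

/-- at most two zeros per period, or identically zero -/
def Z2 (f : ℝ → ℝ) : Prop := ∀ s₁ s₂ s₃ : ℝ, s₁ < s₂ → s₂ < s₃ → s₃ < s₁ + 2 * π →
  f s₁ = 0 → f s₂ = 0 → f s₃ = 0 → ∀ t, f t = 0

theorem pos_of_no_zero {f : ℝ → ℝ} (hf : Continuous f) {u s : ℝ} (hu : 0 < f u)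
    (h : ∀ x ∈ uIcc u s, f x ≠ 0) : 0 < f s := by
  by_contra hc
  push Not at hc
  have h0 : (0:ℝ) ∈ uIcc (f u) (f s) := by
    rw [uIcc_of_ge (hc.trans hu.le)]
    exact ⟨hc, hu.le⟩
  obtain ⟨x, hx, hx0⟩ := intermediate_value_uIcc hf.continuousOn h0
  exact h x hx hx0

theorem neg_of_no_zero {f : ℝ → ℝ} (hf : Continuous f) {u s : ℝ} (hu : f u < 0)
    (h : ∀ x ∈ uIcc u s, f x ≠ 0) : f s < 0 := by
  have := pos_of_no_zero (f := fun x => -f x) hf.neg (u := u) (s := s) (by linarith)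
    (fun x hx h0 => h x hx (by linarith))
  linarith

theorem exists_zero_between {f : ℝ → ℝ} (hf : Continuous f) {u w : ℝ} (hu : 0 < f u)
    (hw : f w < 0) : ∃ x, min u w < x ∧ x < max u w ∧ f x = 0 := by
  have h0 : (0:ℝ) ∈ uIcc (f u) (f w) := by
    rw [uIcc_of_ge (hw.le.trans hu.le)]
    exact ⟨hw.le, hu.le⟩
  obtain ⟨x, hx, hx0⟩ := intermediate_value_uIcc hf.continuousOn h0
  have h1 : x ≠ u := by rintro rfl; linarith
  have h2 : x ≠ w := by rintro rfl; linarith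
  rw [uIcc, mem_Icc] at hx
  refine ⟨x, lt_of_le_of_ne hx.1 ?_, lt_of_le_of_ne hx.2 ?_, hx0⟩
  · rcases min_choice u w with h | h <;> rw [h]
    · exact h1.symm
    · exact h2.symm
  · rcases max_choice u w with h | h <;> rw [h]
    · exact h1
    · exact h2

/-- the sign pattern starting at a zero -/
theorem pattern_aux {f : ℝ → ℝ} (hf : Continuous f) (hZ : Z2 f) {r u w : ℝ} (hr : f r = 0)
    (hu0 : r < u) (hw1 : w < r + 2 * π)
    (hu : 0 < f u) (hw : f w < 0) (huw : u < w) :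
    ∃ r₂, r < r₂ ∧ r₂ < r + 2 * π ∧ f r₂ = 0 ∧ (∀ s, r < s → s < r₂ → 0 < f s) ∧
      (∀ s, r₂ < s → s < r + 2 * π → f s < 0) := by
  obtain ⟨x, hx1, hx2, hx0⟩ := exists_zero_between hf hu hw
  rw [min_eq_left huw.le] at hx1
  rw [max_eq_right huw.le] at hx2
  have huniq : ∀ y, r < y → y < r + 2 * π → f y = 0 → y = x := by
    intro y h1 h2 h3
    by_contra hne
    have : ∀ t, f t = 0 := by
      rcases lt_or_gt_of_ne hne with h | h
      · exact hZ r y x h1 h (by linarith) hr h3 hx0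
      · exact hZ r x y (by linarith) h h2 hr hx0 h3
    linarith [this u]
  refine ⟨x, by linarith, by linarith, hx0, fun s h1 h2 => ?_, fun s h1 h2 => ?_⟩
  · apply pos_of_no_zero hf hu
    intro y hy h0
    rw [uIcc, mem_Icc] at hy
    have h3 : r < y := lt_of_lt_of_le (lt_min hu0 h1) hy.1
    have h4 : y < x := lt_of_le_of_lt hy.2 (max_lt hx1 h2)
    exact h4.ne (huniq y h3 (by linarith) h0)
  · apply neg_of_no_zero hf hw
    intro y hy h0
    rw [uIcc, mem_Icc] at hy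
    have h3 : x < y := lt_of_lt_of_le (lt_min hx2 h1) hy.1
    have h4 : y < r + 2 * π := lt_of_le_of_lt hy.2 (max_lt hw1 h2)
    exact h3.ne' (huniq y (by linarith) h4 h0)

theorem exists_in_period {f : ℝ → ℝ} (per : ∀ t, f (t + 2 * π) = f t) (r t : ℝ) :
    ∃ u ∈ Ico r (r + 2 * π), f t = f u := by
  have hP : Function.Periodic f (2 * π) := per
  exact hP.exists_mem_Ico (by positivity) t r

theorem Z2.neg {f : ℝ → ℝ} (h : Z2 f) : Z2 fun t => -f t := by
  intro s₁ s₂ s₃ h1 h2 h3 f1 f2 f3 t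
  have := h s₁ s₂ s₃ h1 h2 h3 (by linarith) (by linarith) (by linarith) t
  linarith

/-- two sign changes, at `r` and `r₂` -/
theorem pattern {f : ℝ → ℝ} (hf : Continuous f) (per : ∀ t, f (t + 2 * π) = f t) (hZ : Z2 f)
    (hp : ∃ t, 0 < f t) (hn : ∃ t, f t < 0) {r : ℝ} (hr : f r = 0) :
    ∃ r₂, r < r₂ ∧ r₂ < r + 2 * π ∧ f r₂ = 0 ∧
      (((∀ s, r < s → s < r₂ → 0 < f s) ∧ (∀ s, r₂ < s → s < r + 2 * π → f s < 0)) ∨
       ((∀ s, r < s → s < r₂ → f s < 0) ∧ (∀ s, r₂ < s → s < r + 2 * π → 0 < f s))) := by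
  obtain ⟨t, ht⟩ := hp
  obtain ⟨u, ⟨hu1, hu2⟩, hu⟩ := exists_in_period per r t
  rw [hu] at ht
  obtain ⟨t', ht'⟩ := hn
  obtain ⟨w, ⟨hw1, hw2⟩, hw⟩ := exists_in_period per r t'
  rw [hw] at ht'
  have hu1' : r < u := lt_of_le_of_ne hu1 (by rintro rfl; linarith)
  have hw1' : r < w := lt_of_le_of_ne hw1 (by rintro rfl; linarith)
  have hne : u ≠ w := by rintro rfl; linarith
  rcases lt_or_gt_of_ne hne with h | h
  · obtain ⟨r₂, h1, h2, h3, h4, h5⟩ := pattern_aux hf hZ hr hu1' hw2 ht ht' h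
    exact ⟨r₂, h1, h2, h3, Or.inl ⟨h4, h5⟩⟩
  · obtain ⟨r₂, h1, h2, h3, h4, h5⟩ := pattern_aux (f := fun t => -f t) hf.neg hZ.neg
      (by linarith : -f r = 0) hw1' hu2 (by linarith) (by linarith) h
    refine ⟨r₂, h1, h2, by linarith, Or.inr ⟨fun s a b => ?_, fun s a b => ?_⟩⟩
    · have := h4 s a b; linarith
    · have := h5 s a b; linarith

/-- The hypotheses: continuous, periodic, combinations with at most two zeros, no nontrivial
one-signed combination, independent. -/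
structure TZ (A B : ℝ → ℝ) : Prop where
  a : CP A
  b : CP B
  z : ∀ x y : ℝ, Z2 fun t => x * A t + y * B t
  n : NoOne A B
  d : ∀ x y : ℝ, (∀ t, x * A t + y * B t = 0) → x = 0 ∧ y = 0

variable {A B : ℝ → ℝ}

theorem TZ.pos (h : TZ A B) {x y : ℝ} (hxy : x ≠ 0 ∨ y ≠ 0) : ∃ t, 0 < x * A t + y * B t := by
  by_contra hc
  push Not at hc
  have h1 := h.n (-x) (-y) (fun t => by linarith [hc t])
  have h2 := h.d x y (fun t => by linarith [h1 t])
  rcases hxy with h3 | h3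
  · exact h3 h2.1
  · exact h3 h2.2

theorem TZ.neg (h : TZ A B) {x y : ℝ} (hxy : x ≠ 0 ∨ y ≠ 0) : ∃ t, x * A t + y * B t < 0 := by
  obtain ⟨t, ht⟩ := h.pos (x := -x) (y := -y) (by simpa using hxy)
  exact ⟨t, by linarith⟩

theorem TZ.comb_cont (h : TZ A B) (x y : ℝ) : Continuous fun t => x * A t + y * B t :=
  (continuous_const.mul h.a.cont).add (continuous_const.mul h.b.cont)

theorem TZ.comb_per (h : TZ A B) (x y t : ℝ) :
    x * A (t + 2 * π) + y * B (t + 2 * π) = x * A t + y * B t := by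
  rw [h.a.per, h.b.per]

theorem TZ.pattern (h : TZ A B) {x y : ℝ} (hxy : x ≠ 0 ∨ y ≠ 0) {r : ℝ}
    (hr : x * A r + y * B r = 0) :
    ∃ r₂, r < r₂ ∧ r₂ < r + 2 * π ∧ x * A r₂ + y * B r₂ = 0 ∧
      (((∀ s, r < s → s < r₂ → 0 < x * A s + y * B s) ∧
        (∀ s, r₂ < s → s < r + 2 * π → x * A s + y * B s < 0)) ∨
       ((∀ s, r < s → s < r₂ → x * A s + y * B s < 0) ∧
        (∀ s, r₂ < s → s < r + 2 * π → 0 < x * A s + y * B s))) :=
  AbelLT.pattern (h.comb_cont x y) (h.comb_per x y) (h.z x y) (h.pos hxy) (h.neg hxy) hr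

theorem TZ.uniq (h : TZ A B) {x y : ℝ} (hxy : x ≠ 0 ∨ y ≠ 0) {s₁ s₂ s₃ : ℝ} (h12 : s₁ < s₂)
    (h23 : s₂ < s₃) (h31 : s₃ < s₁ + 2 * π) (f1 : x * A s₁ + y * B s₁ = 0)
    (f2 : x * A s₂ + y * B s₂ = 0) (f3 : x * A s₃ + y * B s₃ = 0) : False := by
  have h2 := h.d x y (h.z x y s₁ s₂ s₃ h12 h23 h31 f1 f2 f3)
  rcases hxy with h3 | h3
  · exact h3 h2.1
  · exact h3 h2.2

/-- no second common zero -/
theorem TZ.ne_of_zero (h : TZ A B) {t₀ s : ℝ} (hA : A t₀ = 0) (hB : B t₀ = 0) (h1 : t₀ < s)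
    (h2 : s < t₀ + 2 * π) : A s ≠ 0 ∨ B s ≠ 0 := by
  by_contra hc
  push Not at hc
  obtain ⟨s', h3, h4⟩ : ∃ s', s < s' ∧ s' < t₀ + 2 * π := exists_between h2
  by_cases h5 : A s' = 0 ∧ B s' = 0
  · exact h.uniq (x := 1) (y := 0) (Or.inl one_ne_zero) h1 h3 h4 (by rw [hA, hB]; ring)
      (by rw [hc.1, hc.2]; ring) (by rw [h5.1, h5.2]; ring)
  · have h6 : B s' ≠ 0 ∨ -A s' ≠ 0 := by
      by_contra h7
      push Not at h7
      exact h5 ⟨by linarith [h7.2], h7.1⟩
    exact h.uniq h6 h1 h3 h4 (by rw [hA, hB]; ring) (by rw [hc.1, hc.2]; ring) (by ring)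

/-- the sign pattern of `G_s` at a common zero `t₀` -/
theorem TZ.pat0 (h : TZ A B) {t₀ s : ℝ} (hA : A t₀ = 0) (hB : B t₀ = 0) (h1 : t₀ < s)
    (h2 : s < t₀ + 2 * π) :
    (((∀ t, t₀ < t → t < s → 0 < B s * A t + -A s * B t) ∧
        (∀ t, s < t → t < t₀ + 2 * π → B s * A t + -A s * B t < 0)) ∨
       ((∀ t, t₀ < t → t < s → B s * A t + -A s * B t < 0) ∧
        (∀ t, s < t → t < t₀ + 2 * π → 0 < B s * A t + -A s * B t))) := by
  have hne : B s ≠ 0 ∨ -A s ≠ 0 := by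
    rcases h.ne_of_zero hA hB h1 h2 with h3 | h3
    · exact Or.inr (neg_ne_zero.2 h3)
    · exact Or.inl h3
  obtain ⟨r₂, h3, h4, h5, h6⟩ := h.pattern hne (r := t₀) (by rw [hA, hB]; ring)
  have : r₂ = s := by
    by_contra hc
    rcases lt_or_gt_of_ne hc with h7 | h7
    · exact h.uniq hne h3 h7 h2 (by rw [hA, hB]; ring) h5 (by ring)
    · exact h.uniq hne h1 h7 h4 (by rw [hA, hB]; ring) (by ring) h5
  rw [this] at h6
  exact h6

theorem TZ.no_common_aux (h : TZ A B) {t₀ : ℝ} (hA : A t₀ = 0) (hB : B t₀ = 0) (σ : ℝ)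
    (hσ : σ = 1 ∨ σ = -1)
    (hG : ∀ s t, t₀ < s → s < t → t < t₀ + 2 * π → 0 ≤ σ * (B s * A t + -A s * B t)) :
    False := by
  -- directions at `t₀ + 1/(n+1)`
  set s : ℕ → ℝ := fun n => t₀ + 1 / ((n : ℝ) + 1) with hs
  have hπ : (1:ℝ) < 2 * π := by linarith [pi_gt_three]
  have hs1 : ∀ n, t₀ < s n := fun n => by
    have : (0:ℝ) < 1 / ((n : ℝ) + 1) := by positivity
    simp only [hs]; linarith
  have hs2 : ∀ n, s n < t₀ + 2 * π := fun n => by
    have : 1 / ((n : ℝ) + 1) ≤ 1 := by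
      rw [div_le_one (by positivity)]
      have : (0:ℝ) ≤ n := Nat.cast_nonneg n
      linarith
    simp only [hs]; linarith
  have hlim : Tendsto s atTop (𝓝 t₀) := by
    have := tendsto_one_div_add_atTop_nhds_zero_nat (𝕜 := ℝ)
    have h2 := (tendsto_const_nhds (x := t₀)).add this
    rw [add_zero] at h2
    exact h2
  set R : ℕ → ℝ := fun n => √(A (s n) ^ 2 + B (s n) ^ 2) with hR
  have hRpos : ∀ n, 0 < R n := fun n => by
    apply sqrt_pos.2
    rcases h.ne_of_zero hA hB (hs1 n) (hs2 n) with h3 | h3 <;> positivity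
  set K : Set (ℝ × ℝ) := Metric.sphere (0 : ℝ × ℝ) 1 with hK
  have hKc : IsCompact K := isCompact_sphere _ _
  set M : ℕ → ℝ := fun n => max |B (s n)| |A (s n)| with hM
  have hMpos : ∀ n, 0 < M n := fun n => by
    rcases h.ne_of_zero hA hB (hs1 n) (hs2 n) with h3 | h3
    · exact lt_max_of_lt_right (abs_pos.2 h3)
    · exact lt_max_of_lt_left (abs_pos.2 h3)
  set P : ℕ → ℝ × ℝ := fun n => (B (s n) / M n, -A (s n) / M n) with hP
  have hPK : ∀ n, P n ∈ K := fun n => by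
    rw [hK, mem_sphere_zero_iff_norm, Prod.norm_def, hP]
    simp only [Real.norm_eq_abs, abs_div, abs_neg, abs_of_pos (hMpos n)]
    rw [max_div_div_right (hMpos n).le]
    exact div_self (hMpos n).ne'
  obtain ⟨c, hc, φ, hφ, hcl⟩ := hKc.tendsto_subseq hPK
  have hnn : ∀ t, t₀ < t → t < t₀ + 2 * π → 0 ≤ σ * (c.1 * A t + c.2 * B t) := by
    intro t h1 h2
    have hc1 : Tendsto (fun n => (P (φ n)).1) atTop (𝓝 c.1) :=
      (continuous_fst.tendsto c).comp hcl
    have hc2 : Tendsto (fun n => (P (φ n)).2) atTop (𝓝 c.2) :=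
      (continuous_snd.tendsto c).comp hcl
    have hlim2 : Tendsto (fun n => σ * ((P (φ n)).1 * A t + (P (φ n)).2 * B t)) atTop
        (𝓝 (σ * (c.1 * A t + c.2 * B t))) :=
      ((hc1.mul_const _).add (hc2.mul_const _)).const_mul _
    have hev : ∀ᶠ n in atTop, s (φ n) < t :=
      (hlim.comp hφ.tendsto_atTop).eventually (eventually_lt_nhds h1)
    apply ge_of_tendsto hlim2
    filter_upwards [hev] with n hn
    have h3 := hG (s (φ n)) t (hs1 _) hn h2
    have h4 : σ * ((P (φ n)).1 * A t + (P (φ n)).2 * B t) =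
        σ * (B (s (φ n)) * A t + -A (s (φ n)) * B t) / M (φ n) := by
      simp only [hP]; ring
    rw [h4]
    exact div_nonneg h3 (hMpos _).le
  have hall : ∀ t, 0 ≤ σ * c.1 * A t + σ * c.2 * B t := by
    intro t
    obtain ⟨u, ⟨hu1, hu2⟩, hu⟩ := exists_in_period (f := fun t => σ * c.1 * A t + σ * c.2 * B t)
      (fun t => by simp only [h.a.per, h.b.per]) t₀ t
    have hu' : σ * c.1 * A t + σ * c.2 * B t = σ * c.1 * A u + σ * c.2 * B u := hu
    rw [hu']
    rcases eq_or_lt_of_le hu1 with h1 | h1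
    · rw [← h1, hA, hB]; simp
    · have := hnn u h1 hu2
      linarith
  have h0 := h.d _ _ (h.n _ _ hall)
  have hσ0 : σ ≠ 0 := by rcases hσ with h1 | h1 <;> rw [h1] <;> norm_num
  have c1 : c.1 = 0 := (mul_eq_zero.1 h0.1).resolve_left hσ0
  have c2 : c.2 = 0 := (mul_eq_zero.1 h0.2).resolve_left hσ0
  have hc0 : c = 0 := Prod.ext c1 c2
  rw [hc0, hK] at hc
  simp at hc

theorem TZ.no_common (h : TZ A B) (t : ℝ) : A t ≠ 0 ∨ B t ≠ 0 := by
  by_contra hc
  push Not at hc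
  obtain ⟨hA, hB⟩ := hc
  have hflip : ∀ s u, B s * A u + -A s * B u = -(B u * A s + -A u * B s) := fun s u => by ring
  by_cases hex : ∃ s, t < s ∧ s < t + 2 * π ∧
      (∀ u, s < u → u < t + 2 * π → 0 < B s * A u + -A s * B u)
  · obtain ⟨s, h1, h2, h3⟩ := hex
    refine h.no_common_aux hA hB 1 (Or.inl rfl) ?_
    -- every pattern is `(-,+)`
    have key : ∀ r, t < r → r < t + 2 * π →
        ∀ u, r < u → u < t + 2 * π → 0 < B r * A u + -A r * B u := by
      intro r hr1 hr2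
      rcases h.pat0 hA hB hr1 hr2 with hp | hp
      · exfalso
        rcases lt_trichotomy r s with hrs | hrs | hrs
        · have e1 := hp.2 s hrs h2
          rcases h.pat0 hA hB h1 h2 with hq | hq
          · obtain ⟨m, hm1, hm2⟩ := exists_between h2
            linarith [hq.2 m hm1 hm2, h3 m hm1 hm2]
          · have e2 := hq.1 r hr1 hrs
            have := hflip s r
            linarith
        · obtain ⟨m, hm1, hm2⟩ := exists_between h2
          have e1 := hp.2 m (by linarith) hm2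
          rw [hrs] at e1
          linarith [h3 m hm1 hm2]
        · have e1 := h3 r hrs hr2
          have e2 := hp.1 s h1 hrs
          have := hflip s r
          linarith
      · exact hp.2
    intro r u hr hru hu
    have := key r hr (hru.trans hu) u hru hu
    linarith
  · refine h.no_common_aux hA hB (-1) (Or.inr rfl) ?_
    intro r u hr hru hu
    rcases h.pat0 hA hB hr (hru.trans hu) with hp | hp
    · have := hp.2 u hru hu
      linarith
    · exact absurd ⟨r, hr, hru.trans hu, hp.2⟩ hex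

end Pool.Agent.AbelLT
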