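import Pool.Agent.Lib.MP_bb703b_an.TZ7

set_option autoImplicit false

open Real Set Filter Topology

/-!
The angle of a pair of functions all of whose combinations have at most two zeros per period.
-/

namespace Pool.Agent.AbelLT

variable {A B : ℝ → ℝ}

/-- polar coordinates -/
theorem exists_polar (hA : Continuous A) (hB : Continuous B) (h0 : ∀ t, A t ≠ 0 ∨ B t ≠ 0) :
    ∃ w θ : ℝ → ℝ, Continuous w ∧ Continuous θ ∧ (∀ t, 0 < w t) ∧
      (∀ t, w t = √(A t ^ 2 + B t ^ 2)) ∧
      (∀ t, A t = w t * cos (θ t)) ∧ ∀ t, B t = w t * sin (θ t) := by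
  set g : ℝ → ℂ := fun t => (A t : ℂ) + (B t : ℂ) * Complex.I with hg
  have hgc : Continuous g := by fun_prop
  have hre : ∀ t, (g t).re = A t := fun t => by simp [hg]
  have him : ∀ t, (g t).im = B t := fun t => by simp [hg]
  have hg0 : ∀ t, g t ≠ 0 := by
    intro t h
    have h1 := hre t
    have h2 := him t
    rw [h] at h1 h2
    rcases h0 t with h3 | h3
    · exact h3 (by simpa using h1.symm)
    · exact h3 (by simpa using h2.symm)
  have hsc : IsSimplyConnected (univ : Set ℝ) := by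
    have : ContractibleSpace (univ : Set ℝ) := convex_univ.contractibleSpace univ_nonempty
    have h2 : SimplyConnectedSpace (univ : Set ℝ) := inferInstance
    exact h2
  obtain ⟨f, hf, he⟩ := Complex.exists_continuousOn_eqOn_exp_comp hsc isOpen_univ
    hgc.continuousOn (by rintro ⟨t, -, ht⟩; exact hg0 t ht)
  have hfc : Continuous f := by rwa [continuousOn_univ] at hf
  have he' : ∀ t, Complex.exp (f t) = g t := fun t => he (mem_univ t)
  refine ⟨fun t => exp (f t).re, fun t => (f t).im, by fun_prop, by fun_prop,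
    fun t => exp_pos _, fun t => ?_, fun t => ?_, fun t => ?_⟩
  · have h1 : ‖g t‖ = exp (f t).re := by rw [← he' t, Complex.norm_exp]
    change exp (f t).re = _
    rw [← h1, Complex.norm_eq_sqrt_sq_add_sq, hre, him]
  · have h1 := congrArg Complex.re (he' t)
    rw [Complex.exp_re, hre] at h1
    exact h1.symm
  · have h1 := congrArg Complex.im (he' t)
    rw [Complex.exp_im, him] at h1
    exact h1.symm

/-- the angle of a pair `TZ` is injective -/
theorem TZ.angle_inj (h : TZ A B) {w θ : ℝ → ℝ} (hθ : Continuous θ) (hw : ∀ t, 0 < w t)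
    (hA : ∀ t, A t = w t * cos (θ t)) (hB : ∀ t, B t = w t * sin (θ t)) :
    Function.Injective θ := by
  have key : ∀ r t, B r * A t + -A r * B t = -(w r * w t * sin (θ t - θ r)) := fun r t => by
    rw [hA, hA, hB, hB, sin_sub]; ring
  have main : ∀ s t, s < t → θ s = θ t → False := by
    intro s t hst he
    obtain ⟨c, hc, hext⟩ := exists_Ioo_extr_on_Icc hst hθ.continuousOn he
    have hne : B c ≠ 0 ∨ -A c ≠ 0 := by
      rcases h.no_common c with h1 | h1
      · exact Or.inr (neg_ne_zero.2 h1)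
      · exact Or.inl h1
    obtain ⟨r₂, h1, h2, -, hp⟩ := h.pattern hne (r := c) (by ring)
    have hper : ∀ u, B c * A (u + 2 * π) + -A c * B (u + 2 * π) = B c * A u + -A c * B u :=
      fun u => h.comb_per _ _ u
    -- a neighbourhood of `c`
    have hev : ∀ᶠ x in 𝓝 c, |θ x - θ c| < π ∧ s < x ∧ x < t ∧ x < r₂ ∧ r₂ - 2 * π < x := by
      have e1 : ∀ᶠ x in 𝓝 c, |θ x - θ c| < π := by
        have hc1 : Continuous fun x => |θ x - θ c| := (hθ.sub continuous_const).abs
        have := hc1.continuousAt (x := c)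
        apply this.eventually (eventually_lt_nhds _)
        simp [pi_pos]
      filter_upwards [e1, lt_mem_nhds hc.1, gt_mem_nhds hc.2, gt_mem_nhds h1,
        lt_mem_nhds (by linarith : r₂ - 2 * π < c)] with x a1 a2 a3 a4 a5
      exact ⟨a1, a2, a3, a4, a5⟩
    obtain ⟨δ, hδ, hball⟩ := Metric.eventually_nhds_iff.1 hev
    have hx1 := hball (y := c + δ / 2) (by rw [Real.dist_eq]; rw [abs_of_pos] <;> linarith)
    have hx2 := hball (y := c - δ / 2) (by
      rw [Real.dist_eq, abs_of_neg] <;> linarith)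
    obtain ⟨p1, p2, p3, p4, p5⟩ := hx1
    obtain ⟨q1, q2, q3, q4, q5⟩ := hx2
    have k1 := key c (c + δ / 2)
    have k2 := key c (c - δ / 2)
    have w1 := mul_pos (hw c) (hw (c + δ / 2))
    have w2 := mul_pos (hw c) (hw (c - δ / 2))
    rw [abs_lt] at p1 q1
    have per2 := hper (c - δ / 2)
    rcases hext with hm | hm
    · -- minimum
      have m1 := hm (show c + δ / 2 ∈ Icc s t from ⟨p2.le, p3.le⟩)
      have m2 := hm (show c - δ / 2 ∈ Icc s t from ⟨q2.le, q3.le⟩)
      simp only [mem_ofPred_eq] at m1 m2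
      have s1 : 0 ≤ sin (θ (c + δ / 2) - θ c) :=
        sin_nonneg_of_nonneg_of_le_pi (by linarith) p1.2.le
      have s2 : 0 ≤ sin (θ (c - δ / 2) - θ c) :=
        sin_nonneg_of_nonneg_of_le_pi (by linarith) q1.2.le
      have n1 := mul_nonneg w1.le s1
      have n2 := mul_nonneg w2.le s2
      rcases hp with hp | hp
      · linarith [hp.1 (c + δ / 2) (by linarith) p4]
      · have := hp.2 (c - δ / 2 + 2 * π) (by linarith) (by linarith)
        linarith
    · have m1 := hm (show c + δ / 2 ∈ Icc s t from ⟨p2.le, p3.le⟩)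
      have m2 := hm (show c - δ / 2 ∈ Icc s t from ⟨q2.le, q3.le⟩)
      simp only [mem_ofPred_eq] at m1 m2
      have s1 : 0 ≤ sin (-(θ (c + δ / 2) - θ c)) :=
        sin_nonneg_of_nonneg_of_le_pi (by linarith) (by linarith [p1.1])
      have s2 : 0 ≤ sin (-(θ (c - δ / 2) - θ c)) :=
        sin_nonneg_of_nonneg_of_le_pi (by linarith) (by linarith [q1.1])
      rw [sin_neg] at s1 s2
      have n1 := mul_nonneg w1.le s1
      have n2 := mul_nonneg w2.le s2
      rcases hp with hp | hp
      · have := hp.2 (c - δ / 2 + 2 * π) (by linarith) (by linarith)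
        linarith
      · linarith [hp.1 (c + δ / 2) (by linarith) p4]
  intro s t he
  by_contra hne
  rcases lt_or_gt_of_ne hne with h1 | h1
  · exact main s t h1 he
  · exact main t s h1 he.symm

/-- a strictly increasing angle with at most two returns to a direction mod `π` per period
increases by `2π` per period -/
theorem angle_degree {θ : ℝ → ℝ} (hθ : Continuous θ) (hm : StrictMono θ)
    (hk : ∀ t, ∃ k : ℤ, θ (t + 2 * π) = θ t + k * (2 * π))
    (hn : ∀ t s₁ s₂, t < s₁ → s₁ < s₂ → s₂ < t + 2 * π → sin (θ s₁ - θ t) = 0 →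
      sin (θ s₂ - θ t) = 0 → False) (t : ℝ) : θ (t + 2 * π) = θ t + 2 * π := by
  obtain ⟨k, hk⟩ := hk t
  have hlt : θ t < θ (t + 2 * π) := hm (by linarith [pi_pos])
  have hk1 : 1 ≤ k := by
    by_contra hc
    have : k ≤ 0 := by omega
    have h2 : (k : ℝ) ≤ 0 := by exact_mod_cast this
    nlinarith [pi_pos]
  by_cases hk2 : k = 1
  · rw [hk, hk2]; push_cast; ring
  · exfalso
    have hk3 : (2:ℝ) ≤ k := by
      have : 2 ≤ k := by omega
      exact_mod_cast this
    have hbig : θ t + 4 * π ≤ θ (t + 2 * π) := by rw [hk]; nlinarith [pi_pos]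
    have hsub := intermediate_value_Icc (by linarith [pi_pos] : t ≤ t + 2 * π) hθ.continuousOn
    obtain ⟨s₁, hs₁, e1⟩ := hsub (show θ t + π ∈ Icc (θ t) (θ (t + 2 * π)) from
      ⟨by linarith [pi_pos], by linarith [pi_pos]⟩)
    obtain ⟨s₂, hs₂, e2⟩ := hsub (show θ t + 2 * π ∈ Icc (θ t) (θ (t + 2 * π)) from
      ⟨by linarith [pi_pos], by linarith [pi_pos]⟩)
    refine hn t s₁ s₂ (hm.lt_iff_lt.1 (by linarith [pi_pos])) (hm.lt_iff_lt.1
      (by linarith [pi_pos])) (hm.lt_iff_lt.1 (by linarith [pi_pos])) ?_ ?_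
    · rw [e1, add_sub_cancel_left, sin_pi]
    · rw [e2, add_sub_cancel_left, sin_two_pi]

/-- a strictly increasing continuous function with `θ (t + 2π) = θ t + 2π` is an order
isomorphism of the line -/
theorem exists_orderIso {θ : ℝ → ℝ} (hθ : Continuous θ) (hm : StrictMono θ)
    (hper : ∀ t, θ (t + 2 * π) = θ t + 2 * π) : ∃ e : ℝ ≃o ℝ, ∀ t, e t = θ t := by
  have hnat : ∀ n : ℕ, θ (n * (2 * π)) = θ 0 + n * (2 * π) := by
    intro n
    induction n with
    | zero => simp
    | succ n ih =>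
      have e1 : ((n + 1 : ℕ) : ℝ) * (2 * π) = n * (2 * π) + 2 * π := by push_cast; ring
      rw [e1, hper, ih]
      ring
  have hnat' : ∀ n : ℕ, θ (-(n * (2 * π))) = θ 0 - n * (2 * π) := by
    intro n
    induction n with
    | zero => simp
    | succ n ih =>
      have e1 : -(((n + 1 : ℕ) : ℝ) * (2 * π)) + 2 * π = -(n * (2 * π)) := by push_cast; ring
      have := hper (-(((n + 1 : ℕ) : ℝ) * (2 * π)))
      rw [e1, ih] at this
      push_cast at this ⊢
      linarith
  have hsurj : Function.Surjective θ := by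
    intro y
    obtain ⟨n, hn⟩ := exists_nat_gt (|y - θ 0| / (2 * π))
    rw [div_lt_iff₀ (by positivity)] at hn
    have h1 := abs_lt.1 hn
    apply mem_range_of_exists_le_of_exists_ge hθ
    · exact ⟨-(n * (2 * π)), by rw [hnat']; linarith [h1.1]⟩
    · exact ⟨n * (2 * π), by rw [hnat]; linarith [h1.2]⟩
  exact ⟨StrictMono.orderIsoOfSurjective θ hm hsurj, fun t => rfl⟩

/-- the angle of a pair `TZ` is, up to sign, an order isomorphism commuting with `t ↦ t + 2π` -/
theorem TZ.angle (h : TZ A B) : ∃ (e : ℝ ≃o ℝ) (w : ℝ → ℝ) (σ : ℝ), (σ = 1 ∨ σ = -1) ∧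
    (∀ t, e (t + 2 * π) = e t + 2 * π) ∧ CP w ∧ (∀ t, 0 < w t) ∧
    (∀ t, A t = w t * cos (e t)) ∧ ∀ t, B t = w t * (σ * sin (e t)) := by
  obtain ⟨w, θ, hwc, hθ, hw, hw', hA, hB⟩ := exists_polar h.a.cont h.b.cont h.no_common
  have hinj := h.angle_inj hθ hw hA hB
  have wper : ∀ t, w (t + 2 * π) = w t := fun t => by rw [hw', hw', h.a.per, h.b.per]
  have hcp : CP w := ⟨hwc, wper⟩
  have hk : ∀ t, ∃ k : ℤ, θ (t + 2 * π) = θ t + k * (2 * π) := by
    intro t
    have c1 : cos (θ (t + 2 * π)) = cos (θ t) := by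
      have h1 := h.a.per t
      rw [hA, hA, wper] at h1
      exact mul_left_cancel₀ (hw t).ne' h1
    have c2 : sin (θ (t + 2 * π)) = sin (θ t) := by
      have h1 := h.b.per t
      rw [hB, hB, wper] at h1
      exact mul_left_cancel₀ (hw t).ne' h1
    have c3 := Real.Angle.cos_sin_inj c1 c2
    rw [Real.Angle.angle_eq_iff_two_pi_dvd_sub] at c3
    obtain ⟨k, hk⟩ := c3
    exact ⟨k, by linarith⟩
  have hkey : ∀ r t, B r * A t + -A r * B t = -(w r * w t * sin (θ t - θ r)) := fun r t => by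
    rw [hA, hA, hB, hB, sin_sub]; ring
  have hn : ∀ t s₁ s₂, t < s₁ → s₁ < s₂ → s₂ < t + 2 * π → sin (θ s₁ - θ t) = 0 →
      sin (θ s₂ - θ t) = 0 → False := by
    intro t s₁ s₂ h1 h2 h3 e1 e2
    have hne : B t ≠ 0 ∨ -A t ≠ 0 := by
      rcases h.no_common t with h1 | h1
      · exact Or.inr (neg_ne_zero.2 h1)
      · exact Or.inl h1
    exact h.uniq hne h1 h2 h3 (by ring) (by rw [hkey, e1]; ring) (by rw [hkey, e2]; ring)
  rcases hθ.strictMono_of_inj hinj with hm | hm
  · have hper := angle_degree hθ hm hk hn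
    obtain ⟨e, he⟩ := exists_orderIso hθ hm hper
    refine ⟨e, w, 1, Or.inl rfl, fun t => by rw [he, he, hper], hcp, hw, fun t => ?_, fun t => ?_⟩
    · rw [he]; exact hA t
    · rw [he, one_mul]; exact hB t
  · have hm' : StrictMono fun t => -θ t := fun s t hst => neg_lt_neg (hm hst)
    have hper := angle_degree (θ := fun t => -θ t) hθ.neg hm'
      (fun t => by
        obtain ⟨k, hk⟩ := hk t
        refine ⟨-k, ?_⟩
        rw [hk]; push_cast; ring)
      (fun t s₁ s₂ h1 h2 h3 e1 e2 => hn t s₁ s₂ h1 h2 h3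
        (by
          have e : -θ s₁ - -θ t = -(θ s₁ - θ t) := by ring
          rw [e, sin_neg] at e1
          linarith)
        (by
          have e : -θ s₂ - -θ t = -(θ s₂ - θ t) := by ring
          rw [e, sin_neg] at e2
          linarith))
    obtain ⟨e, he⟩ := exists_orderIso (θ := fun t => -θ t) hθ.neg hm' hper
    refine ⟨e, w, -1, Or.inr rfl, fun t => by rw [he, he]; exact hper t, hcp, hw, fun t => ?_,
      fun t => ?_⟩
    · rw [he, cos_neg]; exact hA t
    · rw [he, sin_neg]
      have := hB t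
      linarith

end Pool.Agent.AbelLT
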