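import Pool.Agent.Lib.MP_bb703b_an.TZ8

set_option autoImplicit false

open Real Set MeasureTheory intervalIntegral

/-!
Change of time and the upper bound for pairs all of whose combinations have at most two zeros.
-/

namespace Pool.Agent.AbelLT

variable {p q : ℕ} {A B : ℝ → ℝ}

/-- the time change -/
theorem exists_time {w : ℝ → ℝ} (hw : CP w) (hpos : ∀ t, 0 < w t) :
    ∃ (c : ℝ) (e : ℝ ≃o ℝ), 0 < c ∧ (∀ t, e (t + 2 * π) = e t + 2 * π) ∧ e 0 = 0 ∧
      ∀ t, HasDerivAt e (c * w t) t := by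
  have hi : ∀ a b, IntervalIntegrable w volume a b := fun a b => hw.cont.intervalIntegrable a b
  have hI : 0 < ∫ t in (0:ℝ)..(2 * π), w t :=
    intervalIntegral.intervalIntegral_pos_of_pos (hi _ _) hpos (by positivity)
  set I := ∫ t in (0:ℝ)..(2 * π), w t with hIdef
  set c := 2 * π / I with hc
  have hc0 : 0 < c := by positivity
  set ψ : ℝ → ℝ := fun t => c * ∫ s in (0:ℝ)..t, w s with hψ
  have hd : ∀ t, HasDerivAt ψ (c * w t) t := fun t =>
    (intervalIntegral.integral_hasDerivAt_right (hi _ _)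
      (hw.cont.stronglyMeasurableAtFilter _ _) hw.cont.continuousAt).const_mul c
  have hψc : Continuous ψ := continuous_iff_continuousAt.2 fun t => (hd t).continuousAt
  have hm : StrictMono ψ := by
    apply strictMono_of_deriv_pos
    intro t
    rw [(hd t).deriv]
    exact mul_pos hc0 (hpos t)
  have hper : ∀ t, ψ (t + 2 * π) = ψ t + 2 * π := by
    intro t
    have hP : Function.Periodic w (2 * π) := hw.per
    have h1 := hP.intervalIntegral_add_eq t 0
    rw [zero_add] at h1
    have h2 := intervalIntegral.integral_add_adjacent_intervals (hi 0 t) (hi t (t + 2 * π))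
    simp only [hψ]
    rw [← h2, h1, ← hIdef, mul_add]
    congr 1
    rw [hc]
    field_simp
  obtain ⟨e, he⟩ := exists_orderIso hψc hm hper
  refine ⟨c, e, hc0, fun t => by rw [he, he, hper], by rw [he]; simp [hψ], fun t => ?_⟩
  have : (e : ℝ → ℝ) = ψ := funext he
  rw [this]
  exact hd t

theorem perInit_time {w : ℝ → ℝ} (hpos : ∀ t, 0 < w t) {c : ℝ} {e : ℝ ≃o ℝ} (hc : 0 < c)
    (hper : ∀ t, e (t + 2 * π) = e t + 2 * π) (h0 : e 0 = 0)
    (hd : ∀ t, HasDerivAt e (c * w t) t) (p q : ℕ) (A B : ℝ → ℝ) :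
    perInit p q A B ⊆ perInit p q (fun s => A (e.symm s) / (c * w (e.symm s)))
      (fun s => B (e.symm s) / (c * w (e.symm s))) := by
  rintro _ ⟨y, hy, rfl⟩
  refine ⟨fun s => y (e.symm s), ⟨fun s => ?_, fun s => ?_⟩, ?_⟩
  · have hcw : 0 < c * w (e.symm s) := mul_pos hc (hpos _)
    have h1 : HasDerivAt e.symm (c * w (e.symm s))⁻¹ s :=
      HasDerivAt.of_local_left_inverse e.symm.continuous.continuousAt (hd (e.symm s)) hcw.ne'
        (Filter.Eventually.of_forall fun x => e.apply_symm_apply x)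
    have h2 := (hy.hd (e.symm s)).comp s h1
    refine h2.congr_deriv ?_
    field_simp
  · simp only [symm_per hper, hy.per]
  · have : e.symm 0 = 0 := by rw [OrderIso.symm_apply_eq, h0]
    simp only [this]

/-- `det ≠ 0` -/
theorem tc_count' {θ : ℝ ≃o ℝ} {a0 a1 a2 b0 b1 b2 : ℝ}
    (hθ : ∀ t, θ (t + 2 * π) = θ t + 2 * π) (hq : 2 ≤ q) (hpq : q < p)
    (hdet : a1 * b2 - a2 * b1 ≠ 0) :
    (perInit p q (tc θ a0 a1 a2) (tc θ b0 b1 b2)).encard ≤ NN p q := by
  rcases lt_or_gt_of_ne hdet with h | h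
  · exact tc_count hθ hq hpq h
  · have h1 := perInit_rev_encard p q (by omega) (by omega) (tc_cont θ a0 a1 a2)
      (tc_cont θ b0 b1 b2)
    rw [tc_rev, tc_rev] at h1
    rw [← h1]
    exact tc_count (rv_per hθ) hq hpq (by linarith)

/-- the main case -/
theorem TZ.count (h : TZ A B) (hq : 2 ≤ q) (hpq : q < p) :
    (perInit p q A B).encard ≤ NN p q := by
  obtain ⟨e, w, σ, hσ, he, hw, hpos, hA, hB⟩ := h.angle
  obtain ⟨c, τ, hc, hτ, hτ0, hd⟩ := exists_time hw hpos
  refine (encard_le_encard (perInit_time hpos hc hτ hτ0 hd p q A B)).trans ?_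
  have eA : (fun s => A (τ.symm s) / (c * w (τ.symm s))) = tc (τ.symm.trans e) 0 0 (1 / c) := by
    funext s
    have := (hpos (τ.symm s)).ne'
    rw [hA]
    simp only [tc, tg, OrderIso.trans_apply]
    field_simp
    ring
  have eB : (fun s => B (τ.symm s) / (c * w (τ.symm s))) =
      tc (τ.symm.trans e) 0 (σ / c) 0 := by
    funext s
    have := (hpos (τ.symm s)).ne'
    rw [hB]
    simp only [tc, tg, OrderIso.trans_apply]
    field_simp
    ring
  rw [eA, eB]
  have hθ : ∀ t, (τ.symm.trans e) (t + 2 * π) = (τ.symm.trans e) t + 2 * π := fun t => by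
    simp only [OrderIso.trans_apply, symm_per hτ, he]
  apply tc_count' hθ hq hpq
  have hσ0 : σ ≠ 0 := by rcases hσ with h1 | h1 <;> rw [h1] <;> norm_num
  have : (0:ℝ) * 0 - 1 / c * (σ / c) ≠ 0 := by
    rw [zero_mul, zero_sub, neg_ne_zero]
    exact mul_ne_zero (one_div_ne_zero hc.ne') (div_ne_zero hσ0 hc.ne')
  exact this

/-- at most two zeros in `[0,2π)` gives `Z2` -/
theorem Z2_of_encard {f : ℝ → ℝ} (per : ∀ t, f (t + 2 * π) = f t)
    (h : (∀ t, f t = 0) ∨ {t ∈ Ico 0 (2 * π) | f t = 0}.encard ≤ 2) : Z2 f := by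
  intro s₁ s₂ s₃ h1 h2 h3 f1 f2 f3
  rcases h with h | h
  · exact h
  · exfalso
    have hP : Function.Periodic f (2 * π) := per
    have hπ : (0:ℝ) < 2 * π := by positivity
    set m : ℝ → ℝ := fun s => toIcoMod hπ 0 s with hm
    have hmem : ∀ s, f s = 0 → m s ∈ {t ∈ Ico 0 (2 * π) | f t = 0} := by
      intro s hs
      refine ⟨by simpa using toIcoMod_mem_Ico' hπ s, ?_⟩
      have e1 : f (m s) = f s := by
        have : m s = s - toIcoDiv hπ 0 s • (2 * π) := rfl
        rw [this, hP.sub_zsmul_eq]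
      rw [e1, hs]
    have hinj : ∀ s s', s < s' → s' < s + 2 * π → m s ≠ m s' := by
      intro s s' hs hs' he
      have e1 : m s = s - toIcoDiv hπ 0 s • (2 * π) := rfl
      have e2 : m s' = s' - toIcoDiv hπ 0 s' • (2 * π) := rfl
      rw [e1, e2, zsmul_eq_mul, zsmul_eq_mul] at he
      have e3 : s' - s = ((toIcoDiv hπ 0 s' - toIcoDiv hπ 0 s : ℤ) : ℝ) * (2 * π) := by
        push_cast; linarith
      set k := toIcoDiv hπ 0 s' - toIcoDiv hπ 0 s
      have k1 : (0:ℝ) < k := by
        by_contra hc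
        push Not at hc
        nlinarith
      have k2 : (k:ℝ) < 1 := by
        by_contra hc
        push Not at hc
        nlinarith
      have k1' : 0 < k := by exact_mod_cast k1
      have k2' : k < 1 := by exact_mod_cast k2
      omega
    have h12 := hinj s₁ s₂ h1 (by linarith)
    have h13 := hinj s₁ s₃ (by linarith) h3
    have h23 := hinj s₂ s₃ h2 (by linarith)
    have hsub : ({m s₁, m s₂, m s₃} : Set ℝ) ⊆ {t ∈ Ico 0 (2 * π) | f t = 0} := by
      rintro x (rfl | rfl | rfl)
      · exact hmem s₁ f1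
      · exact hmem s₂ f2
      · exact hmem s₃ f3
    have h4 := (encard_le_encard hsub).trans h
    have h5 : ({m s₁, m s₂, m s₃} : Set ℝ).encard = 3 :=
      encard_eq_three.2 ⟨m s₁, m s₂, m s₃, h12, h13, h23, rfl⟩
    rw [h5] at h4
    exact absurd h4 (by norm_num)

/-- The upper bound for pairs all of whose combinations vanish identically or have at most two
zeros per period. -/
theorem two_zero_upper (hq : 2 ≤ q) (hpq : q < p) (hA : CP A) (hB : CP B)
    (hZ : ∀ a b : ℝ, (∀ t, a * A t + b * B t = 0) ∨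
      {t ∈ Ico 0 (2 * π) | a * A t + b * B t = 0}.encard ≤ 2) :
    (limCyc p q A B).encard ≤ NN p q := by
  by_cases hD : ∀ x y : ℝ, (∀ t, x * A t + y * B t = 0) → x = 0 ∧ y = 0
  · refine (encard_le_encard (limCyc_subset p q A B)).trans ?_
    by_cases hN : NoOne A B
    · exact TZ.count ⟨hA, hB, fun a b => Z2_of_encard (fun t => by simp only [hA.per, hB.per])
        (hZ a b), hN, hD⟩ hq hpq
    · unfold NoOne at hN
      push Not at hN
      obtain ⟨a, b, h0, t, ht⟩ := hN
      exact (count_one hq hpq hA.cont hB.cont hA.per hB.per h0 ⟨t, ht⟩).trans (three_le_NN p q)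
  · push Not at hD
    obtain ⟨x, y, h0, hxy⟩ := hD
    have hab : x ≠ 0 ∨ y ≠ 0 := by
      by_cases hx : x = 0
      · exact Or.inr (hxy hx)
      · exact Or.inl hx
    exact (dep_le_three hq hpq hA.cont hB.cont hA.per hB.per hab h0).trans (three_le_NN p q)

end Pool.Agent.AbelLT
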