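import Pool.Agent.Lib.MP_bb703b_an.Count
import Pool.Agent.Lib.MP_bb703b_an.Dep
import Pool.Agent.Lib.MP_bb703b_an.Refl2

set_option autoImplicit false

open Real Set MeasureTheory intervalIntegral

/-!
The upper bound.
-/

namespace Pool.Agent.AbelLT

theorem encard_le_two_of {s : Set ℝ} (h : ∀ a ∈ s, ∀ b ∈ s, ∀ c ∈ s, a < b → b < c → False) :
    s.encard ≤ 2 := by
  by_contra hc
  push Not at hc
  have h3 : (3 : ℕ∞) ≤ s.encard := by
    have := Order.add_one_le_of_lt hc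
    norm_num at this
    exact this
  obtain ⟨t, hts, ht⟩ := exists_subset_encard_eq h3
  obtain ⟨x, y, z, hxy, hxz, hyz, rfl⟩ := encard_eq_three.1 ht
  have hx : x ∈ s := hts (by simp)
  have hy : y ∈ s := hts (by simp)
  have hz : z ∈ s := hts (by simp)
  rcases lt_or_gt_of_ne hxy with h1 | h1 <;> rcases lt_or_gt_of_ne hxz with h2 | h2 <;>
    rcases lt_or_gt_of_ne hyz with h3 | h3
  · exact h x hx y hy z hz h1 h3
  · exact h x hx z hz y hy h2 h3
  · linarith
  · exact h z hz x hx y hy h2 h1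
  · exact h y hy x hx z hz h1 h2
  · linarith
  · exact h y hy z hz x hx h3 h2
  · exact h z hz y hy x hx h3 h1

variable {p q : ℕ} {a0 a1 a2 b0 b1 b2 : ℝ}

theorem pos_le_two (hq : 2 ≤ q) (hpq : q < p) (hdet : a1 * b2 - a2 * b1 < 0) :
    (posInit p q (tg a0 a1 a2) (tg b0 b1 b2)).encard ≤ 2 := by
  apply encard_le_two_of
  rintro a ⟨u, hu, rfl⟩ b ⟨v, hv, rfl⟩ c ⟨w, hw, rfl⟩ h1 h2
  exact no_three hq hpq hdet hu hv hw
    (lt_of_lt (tg_cont _ _ _) (tg_cont _ _ _) hu.sol hv.sol h1)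
    (lt_of_lt (tg_cont _ _ _) (tg_cont _ _ _) hv.sol hw.sol h2)

theorem pos_le_one (hq : 2 ≤ q) (hpq : q < p) (hdet : a1 * b2 - a2 * b1 < 0)
    (h : 0 ≤ b0 ∨ a0 ≤ 0) :
    (posInit p q (tg a0 a1 a2) (tg b0 b1 b2)).encard ≤ 1 := by
  rw [encard_le_one_iff]
  rintro a b ⟨u, hu, rfl⟩ ⟨v, hv, rfl⟩
  rcases tri_neg (a0 := a0) (b0 := b0) hdet with hW | ⟨a, b, h0, h1⟩
  · by_contra hne
    rcases lt_or_gt_of_ne hne with h1 | h1
    · have := L_nonneg hq hpq hdet hu hv
        (lt_of_lt (tg_cont _ _ _) (tg_cont _ _ _) hu.sol hv.sol h1)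
      linarith [L_neg hq hpq hW h hu]
    · have := L_nonneg hq hpq hdet hv hu
        (lt_of_lt (tg_cont _ _ _) (tg_cont _ _ _) hv.sol hu.sol h1)
      linarith [L_neg hq hpq hW h hv]
  · rw [one_unique hq hpq (tg_cont _ _ _) (tg_cont _ _ _) (tg_per _ _ _) (tg_per _ _ _) hu hv h0 h1]

/-- with a one-signed combination at most one positive solution -/
theorem pos_le_one' (hq : 2 ≤ q) (hpq : q < p) {A B : ℝ → ℝ} (hA : Continuous A)
    (hB : Continuous B) (perA : ∀ t, A (t + 2 * π) = A t) (perB : ∀ t, B (t + 2 * π) = B t)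
    {a b : ℝ} (h0 : ∀ t, 0 ≤ a * A t + b * B t) (h1 : ∃ t, a * A t + b * B t ≠ 0) :
    (posInit p q A B).encard ≤ 1 := by
  rw [encard_le_one_iff]
  rintro _ _ ⟨u, hu, rfl⟩ ⟨v, hv, rfl⟩
  rw [one_unique hq hpq hA hB perA perB hu hv h0 h1]

/-- summary for `det < 0`: `≤ 2`, `≤ 1` if `b0 ≥ 0` or `a0 ≤ 0`, and `0` if `b0 ≤ 0`, `a0 ≤ 0`,
unless a combination is one-signed. -/
theorem pos_none (hq : 2 ≤ q) (hpq : q < p) (hW : ∀ t, 0 < wr a0 a1 a2 b0 b1 b2 t)
    (ha : a0 ≤ 0) (hb : b0 ≤ 0) :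
    (posInit p q (tg a0 a1 a2) (tg b0 b1 b2)).encard ≤ 0 := by
  rw [nonpos_iff_eq_zero, encard_eq_zero, eq_empty_iff_forall_notMem]
  rintro _ ⟨u, hu, rfl⟩
  exact none_of hq hpq hW ha hb hu

/-- the maximal number of limit cycles -/
def NN (p q : ℕ) : ℕ∞ := if Even p then 4 else if Even q then 3 else 5

theorem per_eq (hp : p ≠ 0) (hq : q ≠ 0) {A B : ℝ → ℝ} (hA : Continuous A) (hB : Continuous B) :
    (perInit p q A B).encard = (posInit p q A B).encard + 1 +
      (posInit p q (fun t => (-1) ^ (p - 1) * A t) (fun t => (-1) ^ (q - 1) * B t)).encard := by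
  rw [perInit_eq hp hq hA hB, encard_union_eq, encard_union_eq, encard_singleton,
    (neg_injective (G := ℝ)).encard_image]
  · rw [disjoint_singleton_right]
    rintro ⟨u, hu, h0⟩
    exact (hu.pos 0).ne' h0
  · rw [disjoint_left]
    rintro c hc ⟨d, ⟨u, hu, rfl⟩, hd⟩
    have h1 := hu.pos 0
    rcases hc with ⟨w, hw, rfl⟩ | hc
    · have h2 := hw.pos 0
      simp only at hd
      linarith
    · simp only [mem_singleton_iff] at hc
      simp only at hd
      linarith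

/-- numbers of positive and negative periodic solutions, `det < 0`, in the Wronskian case. -/
theorem count_W (hq : 2 ≤ q) (hpq : q < p) (hdet : a1 * b2 - a2 * b1 < 0)
    (hW : ∀ t, 0 < wr a0 a1 a2 b0 b1 b2 t) :
    (perInit p q (tg a0 a1 a2) (tg b0 b1 b2)).encard ≤ NN p q := by
  rw [per_eq (by omega) (by omega) (tg_cont _ _ _) (tg_cont _ _ _)]
  have P2 := pos_le_two (a0 := a0) (b0 := b0) hq hpq hdet
  have P1 := fun h => pos_le_one (a0 := a0) (b0 := b0) hq hpq hdet h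
  have P0 := fun ha hb => pos_none (a0 := a0) (b0 := b0) hq hpq hW ha hb
  unfold NN
  by_cases hpe : Even p
  · rw [if_pos hpe]
    have e1 : ((-1 : ℝ)) ^ (p - 1) = -1 :=
      Odd.neg_one_pow (Nat.Even.sub_odd (by omega) hpe odd_one)
    rw [e1]
    by_cases hqe : Even q
    · have e2 : ((-1 : ℝ)) ^ (q - 1) = -1 :=
        Odd.neg_one_pow (Nat.Even.sub_odd (by omega) hqe odd_one)
      rw [e2, smul_tg, smul_tg]
      have hd : (-1 * a1) * (-1 * b2) - (-1 * a2) * (-1 * b1) < 0 := by linarith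
      have Q2 := pos_le_two (a0 := -1 * a0) (b0 := -1 * b0) hq hpq hd
      have Q1 := fun h => pos_le_one (a0 := -1 * a0) (b0 := -1 * b0) hq hpq hd h
      rcases le_total b0 0 with hb | hb
      · calc _ ≤ (2 : ℕ∞) + 1 + 1 :=
            add_le_add (add_le_add P2 le_rfl) (Q1 (Or.inl (by linarith)))
          _ = 4 := by norm_num
      · calc _ ≤ (1 : ℕ∞) + 1 + 2 :=
            add_le_add (add_le_add (P1 (Or.inl hb)) le_rfl) Q2
          _ = 4 := by norm_num
    · have e2 : ((-1 : ℝ)) ^ (q - 1) = 1 :=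
        Even.neg_one_pow (Nat.Odd.sub_odd (Nat.not_even_iff_odd.1 hqe) odd_one)
      have hrev := posInit_rev_encard p q (tg_cont (-1 * a0) (-1 * a1) (-1 * a2))
        (tg_cont (1 * b0) (1 * b1) (1 * b2))
      rw [rev_tg, rev_tg] at hrev
      rw [e2, smul_tg, smul_tg, ← hrev]
      have hd : (-1 * a1) * (-(1 * b2)) - (-(-1 * a2)) * (1 * b1) < 0 := by linarith
      have Q2 := pos_le_two (a0 := -(-1 * a0)) (b0 := -(1 * b0)) hq hpq hd
      have Q1 := fun h => pos_le_one (a0 := -(-1 * a0)) (b0 := -(1 * b0)) hq hpq hd h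
      rcases le_total b0 0 with hb | hb
      · calc _ ≤ (2 : ℕ∞) + 1 + 1 :=
            add_le_add (add_le_add P2 le_rfl) (Q1 (Or.inl (by linarith)))
          _ = 4 := by norm_num
      · calc _ ≤ (1 : ℕ∞) + 1 + 2 :=
            add_le_add (add_le_add (P1 (Or.inl hb)) le_rfl) Q2
          _ = 4 := by norm_num
  · rw [if_neg hpe]
    have e1 : ((-1 : ℝ)) ^ (p - 1) = 1 :=
      Even.neg_one_pow (Nat.Odd.sub_odd (Nat.not_even_iff_odd.1 hpe) odd_one)
    rw [e1]
    by_cases hqe : Even q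
    · rw [if_pos hqe]
      have e2 : ((-1 : ℝ)) ^ (q - 1) = -1 :=
        Odd.neg_one_pow (Nat.Even.sub_odd (by omega) hqe odd_one)
      have hrev := posInit_rev_encard p q (tg_cont (1 * a0) (1 * a1) (1 * a2))
        (tg_cont (-1 * b0) (-1 * b1) (-1 * b2))
      rw [rev_tg, rev_tg] at hrev
      rw [e2, smul_tg, smul_tg, ← hrev]
      have hd : (1 * a1) * (-(-1 * b2)) - (-(1 * a2)) * (-1 * b1) < 0 := by linarith
      have hW' : ∀ t, 0 < wr (-(1 * a0)) (1 * a1) (-(1 * a2)) (-(-1 * b0)) (-1 * b1)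
          (-(-1 * b2)) t := fun t => by
        have := hW (-t)
        unfold wr at this ⊢
        rw [cos_neg, sin_neg] at this
        linarith
      have Q2 := pos_le_two (a0 := -(1 * a0)) (b0 := -(-1 * b0)) hq hpq hd
      have Q1 := fun h => pos_le_one (a0 := -(1 * a0)) (b0 := -(-1 * b0)) hq hpq hd h
      have Q0 := fun ha hb => pos_none (a0 := -(1 * a0)) (b0 := -(-1 * b0)) hq hpq hW' ha hb
      rcases le_total b0 0 with hb | hb
      · rcases le_total a0 0 with ha | ha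
        · calc _ ≤ (0 : ℕ∞) + 1 + 2 :=
              add_le_add (add_le_add (P0 ha hb) le_rfl) Q2
            _ = 3 := by norm_num
        · calc _ ≤ (2 : ℕ∞) + 1 + 0 :=
              add_le_add (add_le_add P2 le_rfl) (Q0 (by linarith) (by linarith))
            _ = 3 := by norm_num
      · calc _ ≤ (1 : ℕ∞) + 1 + 1 :=
            add_le_add (add_le_add (P1 (Or.inl hb)) le_rfl) (Q1 (Or.inl (by linarith)))
          _ = 3 := by norm_num
    · rw [if_neg hqe]
      have e2 : ((-1 : ℝ)) ^ (q - 1) = 1 :=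
        Even.neg_one_pow (Nat.Odd.sub_odd (Nat.not_even_iff_odd.1 hqe) odd_one)
      simp only [e2, one_mul]
      calc _ ≤ (2 : ℕ∞) + 1 + 2 := add_le_add (add_le_add P2 le_rfl) P2
        _ = 5 := by norm_num

/-- `det < 0` or `det > 0` or one-signed combination, all cases -/
theorem count_one (hq : 2 ≤ q) (hpq : q < p) {A B : ℝ → ℝ} (hA : Continuous A)
    (hB : Continuous B) (perA : ∀ t, A (t + 2 * π) = A t) (perB : ∀ t, B (t + 2 * π) = B t)
    {a b : ℝ} (h0 : ∀ t, 0 ≤ a * A t + b * B t) (h1 : ∃ t, a * A t + b * B t ≠ 0) :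
    (perInit p q A B).encard ≤ 3 := by
  rw [per_eq (by omega) (by omega) hA hB]
  have P1 := pos_le_one' hq hpq hA hB perA perB h0 h1
  have hs : ∀ n : ℕ, ((-1 : ℝ)) ^ n * (-1) ^ n = 1 := fun n => by
    rw [← mul_pow]; simp
  have e : ∀ t, (((-1 : ℝ)) ^ (p - 1) * a) * ((-1) ^ (p - 1) * A t) +
      (((-1 : ℝ)) ^ (q - 1) * b) * ((-1) ^ (q - 1) * B t) = a * A t + b * B t := fun t => by
    linear_combination (a * A t) * hs (p - 1) + (b * B t) * hs (q - 1)
  have P1' := pos_le_one' hq hpq (A := fun t => (-1) ^ (p - 1) * A t)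
    (B := fun t => (-1) ^ (q - 1) * B t) (continuous_const.mul hA) (continuous_const.mul hB)
    (fun t => by simp only [perA]) (fun t => by simp only [perB])
    (a := ((-1 : ℝ)) ^ (p - 1) * a) (b := ((-1 : ℝ)) ^ (q - 1) * b)
    (fun t => by rw [e]; exact h0 t) (by
      obtain ⟨t, ht⟩ := h1
      exact ⟨t, by rw [e]; exact ht⟩)
  calc _ ≤ (1 : ℕ∞) + 1 + 1 := add_le_add (add_le_add P1 le_rfl) P1'
    _ = 3 := by norm_num

theorem three_le_NN (p q : ℕ) : 3 ≤ NN p q := by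
  unfold NN
  split_ifs <;> norm_num

theorem count_neg (hq : 2 ≤ q) (hpq : q < p) (hdet : a1 * b2 - a2 * b1 < 0) :
    (perInit p q (tg a0 a1 a2) (tg b0 b1 b2)).encard ≤ NN p q := by
  rcases tri_neg (a0 := a0) (b0 := b0) hdet with hW | ⟨a, b, h0, h1⟩
  · exact count_W hq hpq hdet hW
  · exact (count_one hq hpq (tg_cont _ _ _) (tg_cont _ _ _) (tg_per _ _ _) (tg_per _ _ _) h0
      h1).trans (three_le_NN p q)

theorem count_det (hq : 2 ≤ q) (hpq : q < p) (hdet : a1 * b2 - a2 * b1 ≠ 0) :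
    (perInit p q (tg a0 a1 a2) (tg b0 b1 b2)).encard ≤ NN p q := by
  rcases lt_or_gt_of_ne hdet with h | h
  · exact count_neg hq hpq h
  · have h1 := perInit_rev_encard p q (by omega) (by omega) (tg_cont a0 a1 a2) (tg_cont b0 b1 b2)
    rw [rev_tg, rev_tg] at h1
    rw [← h1]
    exact count_neg hq hpq (by linarith)

theorem limCyc_subset (p q : ℕ) (A B : ℝ → ℝ) : limCyc p q A B ⊆ perInit p q A B := fun _ h => h.1

/-- the upper bound -/
theorem upper (hq : 2 ≤ q) (hpq : q < p) (a0 a1 a2 b0 b1 b2 : ℝ) :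
    (limCyc p q (tg a0 a1 a2) (tg b0 b1 b2)).encard ≤ NN p q := by
  by_cases hdet : a1 * b2 - a2 * b1 = 0
  · rcases tri_zero (a0 := a0) (b0 := b0) hdet with ⟨a, b, h⟩ | ⟨a, b, hab, h⟩
    · exact (encard_le_encard (limCyc_subset _ _ _ _)).trans
        ((count_one hq hpq (tg_cont _ _ _) (tg_cont _ _ _) (tg_per _ _ _) (tg_per _ _ _)
        (fun t => (h t).le) ⟨0, (h 0).ne'⟩).trans (three_le_NN p q))
    · exact (dep_le_three hq hpq (tg_cont _ _ _) (tg_cont _ _ _) (tg_per _ _ _) (tg_per _ _ _)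
        hab h).trans (three_le_NN p q)
  · exact (encard_le_encard (limCyc_subset _ _ _ _)).trans (count_det hq hpq hdet)

/-- if there are finitely many periodic solutions all of them are limit cycles -/
theorem limCyc_eq_of_finite {p q : ℕ} {A B : ℝ → ℝ} (h : (perInit p q A B).Finite) :
    limCyc p q A B = perInit p q A B := by
  refine Subset.antisymm (limCyc_subset p q A B) fun c hc => ⟨hc, ?_⟩
  have h1 : IsClosed (perInit p q A B \ {c}) := (h.subset sdiff_subset).isClosed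
  have h2 : c ∈ (perInit p q A B \ {c})ᶜ := by simp
  obtain ⟨ε, hε, hb⟩ := Metric.isOpen_iff.1 h1.isOpen_compl c h2
  refine ⟨ε, hε, fun c' hc' hcc => ?_⟩
  by_contra hne
  have : c' ∈ Metric.ball c ε := by rw [Metric.mem_ball, Real.dist_eq]; exact hcc
  exact hb this ⟨hc', hne⟩

end Pool.Agent.AbelLT
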